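import Mathlib

set_option autoImplicit false

namespace Pool.Agent.Q126.CG

open Finset

/-- adjacency of two words in the blow-up with letters `G s, G (s+1), …` -/
def adj (G : ℕ → Bool) (s D : ℕ) (x y : Fin D → Bool) : Prop :=
  ∃ k : Fin D, G (s + k) = true ∧ x k ≠ y k ∧ ∀ j : Fin D, j < k → x j = y j

theorem adj_symm {G : ℕ → Bool} {s D : ℕ} {x y : Fin D → Bool} (h : adj G s D x y) :
    adj G s D y x := by
  obtain ⟨k, h1, h2, h3⟩ := h
  exact ⟨k, h1, h2.symm, fun j hj => (h3 j hj).symm⟩

theorem adj_cons_ne {G : ℕ → Bool} {s D : ℕ} {a b : Bool} (hab : a ≠ b) (x y : Fin D → Bool) :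
    adj G s (D + 1) (Fin.cons a x) (Fin.cons b y) ↔ G s = true := by
  constructor
  · rintro ⟨k, h1, h2, h3⟩
    have hk : k = 0 := by
      by_contra hk
      have := h3 0 (Fin.pos_of_ne_zero hk)
      simp only [Fin.cons_zero] at this
      exact hab this
    rw [hk] at h1
    simpa using h1
  · intro h
    refine ⟨0, by simpa using h, by simpa using hab, ?_⟩
    intro j hj
    exact absurd hj (Fin.not_lt_zero j)

theorem adj_cons_eq {G : ℕ → Bool} {s D : ℕ} (a : Bool) (x y : Fin D → Bool) :
    adj G s (D + 1) (Fin.cons a x) (Fin.cons a y) ↔ adj G (s + 1) D x y := by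
  constructor
  · rintro ⟨k, h1, h2, h3⟩
    rcases Fin.eq_zero_or_eq_succ k with rfl | ⟨k', rfl⟩
    · simp at h2
    · refine ⟨k', ?_, by simpa using h2, ?_⟩
      · have e : s + 1 + (k' : ℕ) = s + ((k'.succ : Fin (D + 1)) : ℕ) := by
          rw [Fin.val_succ]; omega
        rw [e]
        exact h1
      · intro j hj
        have := h3 j.succ (Fin.succ_lt_succ_iff.2 hj)
        simpa using this
  · rintro ⟨k, h1, h2, h3⟩
    refine ⟨k.succ, ?_, by simpa using h2, ?_⟩
    · have e : s + 1 + (k : ℕ) = s + ((k.succ : Fin (D + 1)) : ℕ) := by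
        rw [Fin.val_succ]; omega
      rw [← e]
      exact h1
    · intro j hj
      rcases Fin.eq_zero_or_eq_succ j with rfl | ⟨j', rfl⟩
      · simp
      · have := h3 j' (Fin.succ_lt_succ_iff.1 hj)
        simpa using this

theorem cons_inj {D : ℕ} {a : Bool} {x y : Fin D → Bool}
    (h : (Fin.cons a x : Fin (D + 1) → Bool) = Fin.cons a y) : x = y := by
  have := congrArg Fin.tail h
  simpa using this

/-- the vertex set `T` of `H` is built from single vertices by disjoint unions and joins -/
inductive CoOn {V : Type} [DecidableEq V] (H : SimpleGraph V) : Finset V → Prop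
  | small (s : Finset V) : s.card ≤ 1 → CoOn H s
  | union (s t : Finset V) : CoOn H s → CoOn H t → Disjoint s t →
      (∀ x ∈ s, ∀ y ∈ t, ¬ H.Adj x y) → CoOn H (s ∪ t)
  | join (s t : Finset V) : CoOn H s → CoOn H t → Disjoint s t →
      (∀ x ∈ s, ∀ y ∈ t, H.Adj x y) → CoOn H (s ∪ t)

section
variable {V : Type} [DecidableEq V] (H : SimpleGraph V) (G : ℕ → Bool)

/-- `S` contains an induced copy of `H[T]` -/
def Has (s D : ℕ) (S : Finset (Fin D → Bool)) (T : Finset V) : Prop :=
  ∃ φ : V → (Fin D → Bool), (∀ v ∈ T, φ v ∈ S) ∧ (∀ u ∈ T, ∀ v ∈ T, φ u = φ v → u = v) ∧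
    ∀ u ∈ T, ∀ v ∈ T, u ≠ v → (adj G s D (φ u) (φ v) ↔ H.Adj u v)

/-- eventual bound for sets without a copy of `H[T]` -/
def Bd (s : ℕ) (c : ℝ) (T : Finset V) : Prop :=
  ∃ D₀, ∀ D, D₀ ≤ D → ∀ S : Finset (Fin D → Bool), ¬ Has H G s D S T → (S.card : ℝ) ≤ c * 2 ^ D

def half {D : ℕ} (a : Bool) (S : Finset (Fin (D + 1) → Bool)) : Finset (Fin D → Bool) :=
  Finset.univ.filter (fun y => (Fin.cons a y : Fin (D + 1) → Bool) ∈ S)

theorem card_halves {D : ℕ} (S : Finset (Fin (D + 1) → Bool)) :
    S.card ≤ (half false S).card + (half true S).card := by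
  have h1 : S ⊆ (half false S).image (fun y => (Fin.cons false y : Fin (D + 1) → Bool))
      ∪ (half true S).image (fun y => (Fin.cons true y : Fin (D + 1) → Bool)) := by
    intro x hx
    rw [Finset.mem_union, Finset.mem_image, Finset.mem_image]
    have hx' : (Fin.cons (x 0) (Fin.tail x) : Fin (D + 1) → Bool) = x := Fin.cons_self_tail x
    rcases hb : x 0 with _ | _
    · left
      refine ⟨Fin.tail x, ?_, ?_⟩
      · unfold half
        rw [Finset.mem_filter, ← hb, hx']
        exact ⟨Finset.mem_univ _, hx⟩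
      · rw [← hb, hx']
    · right
      refine ⟨Fin.tail x, ?_, ?_⟩
      · unfold half
        rw [Finset.mem_filter, ← hb, hx']
        exact ⟨Finset.mem_univ _, hx⟩
      · rw [← hb, hx']
  refine le_trans (Finset.card_le_card h1) (le_trans (Finset.card_union_le _ _) ?_)
  exact add_le_add Finset.card_image_le Finset.card_image_le

theorem has_half {s D : ℕ} {S : Finset (Fin (D + 1) → Bool)} {T : Finset V} (a : Bool)
    (h : Has H G (s + 1) D (half a S) T) : Has H G s (D + 1) S T := by
  obtain ⟨φ, h1, h2, h3⟩ := h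
  refine ⟨fun v => Fin.cons a (φ v), ?_, ?_, ?_⟩
  · intro v hv
    have := h1 v hv
    unfold half at this
    exact (Finset.mem_filter.1 this).2
  · intro u hu v hv huv
    exact h2 u hu v hv (cons_inj huv)
  · intro u hu v hv huv
    rw [adj_cons_eq]
    exact h3 u hu v hv huv

theorem has_join {s D : ℕ} {S : Finset (Fin (D + 1) → Bool)} {T1 T2 : Finset V}
    (hd : Disjoint T1 T2) (hcross : ∀ x ∈ T1, ∀ y ∈ T2, (H.Adj x y ↔ G s = true))
    (h1 : Has H G (s + 1) D (half false S) T1) (h2 : Has H G (s + 1) D (half true S) T2) :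
    Has H G s (D + 1) S (T1 ∪ T2) := by
  obtain ⟨φ, a1, a2, a3⟩ := h1
  obtain ⟨ψ, b1, b2, b3⟩ := h2
  have hd' : ∀ v, v ∈ T2 → v ∉ T1 := fun v hv hv1 => (Finset.disjoint_left.1 hd) hv1 hv
  classical
  set θ : V → (Fin (D + 1) → Bool) := fun v =>
    if v ∈ T1 then (Fin.cons false (φ v) : Fin (D + 1) → Bool) else Fin.cons true (ψ v) with hθ
  have t1 : ∀ v, v ∈ T1 → θ v = Fin.cons false (φ v) := fun v hv => by rw [hθ]; simp only [if_pos hv]
  have t2 : ∀ v, v ∈ T2 → θ v = Fin.cons true (ψ v) := fun v hv => by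
    rw [hθ]; simp only [if_neg (hd' v hv)]
  have hne : ∀ (x y : Fin D → Bool),
      (Fin.cons false x : Fin (D + 1) → Bool) ≠ Fin.cons true y := by
    intro x y h
    have := congrFun h 0
    simp at this
  refine ⟨θ, ?_, ?_, ?_⟩
  · intro v hv
    rcases Finset.mem_union.1 hv with hv | hv
    · rw [t1 v hv]
      exact (Finset.mem_filter.1 (a1 v hv)).2
    · rw [t2 v hv]
      exact (Finset.mem_filter.1 (b1 v hv)).2
  · intro u hu v hv huv
    rcases Finset.mem_union.1 hu with hu | hu <;> rcases Finset.mem_union.1 hv with hv | hv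
    · rw [t1 u hu, t1 v hv] at huv
      exact a2 u hu v hv (cons_inj huv)
    · rw [t1 u hu, t2 v hv] at huv
      exact absurd huv (hne _ _)
    · rw [t2 u hu, t1 v hv] at huv
      exact absurd huv.symm (hne _ _)
    · rw [t2 u hu, t2 v hv] at huv
      exact b2 u hu v hv (cons_inj huv)
  · intro u hu v hv huv
    rcases Finset.mem_union.1 hu with hu | hu <;> rcases Finset.mem_union.1 hv with hv | hv
    · rw [t1 u hu, t1 v hv, adj_cons_eq]
      exact a3 u hu v hv huv
    · rw [t1 u hu, t2 v hv, adj_cons_ne (by decide), hcross u hu v hv]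
    · rw [t2 u hu, t1 v hv, adj_cons_ne (by decide), SimpleGraph.adj_comm, hcross v hv u hu]
    · rw [t2 u hu, t2 v hv, adj_cons_eq]
      exact b3 u hu v hv huv

theorem bd_step {s : ℕ} {c : ℝ} {T : Finset V} (h : Bd H G (s + 1) c T) : Bd H G s c T := by
  obtain ⟨D₀, h⟩ := h
  refine ⟨D₀ + 1, ?_⟩
  intro D hD S hS
  obtain ⟨D', rfl⟩ : ∃ D', D = D' + 1 := ⟨D - 1, by omega⟩
  have h0 := h D' (by omega) (half false S) (fun hh => hS (has_half H G false hh))
  have h1 := h D' (by omega) (half true S) (fun hh => hS (has_half H G true hh))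
  have h2 : (S.card : ℝ) ≤ ((half false S).card : ℝ) + ((half true S).card : ℝ) := by
    exact_mod_cast card_halves S
  rw [pow_succ]
  linarith

theorem bd_down {s i : ℕ} (hsi : s ≤ i) {c : ℝ} {T : Finset V} (h : Bd H G i c T) :
    Bd H G s c T := by
  induction i, hsi using Nat.le_induction with
  | base => exact h
  | succ i _ ih => exact ih (bd_step H G h)

theorem bd_join {i : ℕ} {c c' : ℝ} {T1 T2 : Finset V}
    (hd : Disjoint T1 T2) (hcross : ∀ x ∈ T1, ∀ y ∈ T2, (H.Adj x y ↔ G i = true))
    (h : Bd H G (i + 1) c (T1 ∪ T2)) (h1 : Bd H G (i + 1) c' T1) (h2 : Bd H G (i + 1) c' T2) :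
    Bd H G i (c / 2 + c' / 2) (T1 ∪ T2) := by
  obtain ⟨D₀, h⟩ := h
  obtain ⟨D₁, h1⟩ := h1
  obtain ⟨D₂, h2⟩ := h2
  refine ⟨D₀ + D₁ + D₂ + 1, ?_⟩
  intro D hD S hS
  obtain ⟨D', rfl⟩ : ∃ D', D = D' + 1 := ⟨D - 1, by omega⟩
  have f0 := h D' (by omega) (half false S) (fun hh => hS (has_half H G false hh))
  have f1 := h D' (by omega) (half true S) (fun hh => hS (has_half H G true hh))
  have h3 : (S.card : ℝ) ≤ ((half false S).card : ℝ) + ((half true S).card : ℝ) := by
    exact_mod_cast card_halves S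
  rw [pow_succ]
  by_cases g : Has H G (i + 1) D' (half false S) T1
  · have g2 : ¬ Has H G (i + 1) D' (half true S) T2 := fun g2 => hS (has_join H G hd hcross g g2)
    have := h2 D' (by omega) _ g2
    linarith
  · have := h1 D' (by omega) _ g
    linarith

omit [DecidableEq V] in
theorem bd_small (s : ℕ) {ε : ℝ} (hε : 0 < ε) {T : Finset V} (hT : T.card ≤ 1) :
    Bd H G s ε T := by
  refine ⟨0, ?_⟩
  intro D _ S hS
  have : S = ∅ := by
    by_contra hne
    obtain ⟨x, hx⟩ := Finset.nonempty_iff_ne_empty.2 hne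
    apply hS
    have huniq := Finset.card_le_one.1 hT
    exact ⟨fun _ => x, fun _ _ => hx, fun u hu v hv _ => huniq u hu v hv,
      fun u hu v hv huv => absurd (huniq u hu v hv) huv⟩
  rw [this, Finset.card_empty]
  push_cast
  positivity

theorem bd_both (b : Bool) (hG : ∀ s, ∃ i, s ≤ i ∧ G i = b) {T1 T2 : Finset V}
    (hd : Disjoint T1 T2) (hcross : ∀ x ∈ T1, ∀ y ∈ T2, (H.Adj x y ↔ b = true))
    (h1 : ∀ s ε, (0 : ℝ) < ε → Bd H G s ε T1) (h2 : ∀ s ε, (0 : ℝ) < ε → Bd H G s ε T2) :
    ∀ s ε, (0 : ℝ) < ε → Bd H G s ε (T1 ∪ T2) := by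
  have key : ∀ k : ℕ, ∀ s ε, (0 : ℝ) < ε → Bd H G s ((1 / 2) ^ k + ε) (T1 ∪ T2) := by
    intro k
    induction k with
    | zero =>
      intro s ε hε
      refine ⟨0, ?_⟩
      intro D _ S _
      have : S.card ≤ Fintype.card (Fin D → Bool) := Finset.card_le_univ S
      rw [Fintype.card_fun, Fintype.card_bool, Fintype.card_fin] at this
      have h3 : (S.card : ℝ) ≤ 2 ^ D := by exact_mod_cast this
      have h4 : (0 : ℝ) < 2 ^ D := by positivity
      rw [pow_zero]
      nlinarith
    | succ k ih =>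
      intro s ε hε
      obtain ⟨i, hi, hGi⟩ := hG s
      apply bd_down H G hi
      have h3 := bd_join H G (i := i) hd (by rw [hGi]; exact hcross) (ih (i + 1) ε hε)
        (h1 (i + 1) ε hε) (h2 (i + 1) ε hε)
      have e : ((1 / 2 : ℝ) ^ k + ε) / 2 + ε / 2 = (1 / 2) ^ (k + 1) + ε := by
        rw [pow_succ]; ring
      rwa [e] at h3
  intro s ε hε
  obtain ⟨k, hk⟩ := exists_pow_lt_of_lt_one (half_pos hε) (show (1 / 2 : ℝ) < 1 by norm_num)
  obtain ⟨D₀, h⟩ := key k s (ε / 2) (half_pos hε)
  refine ⟨D₀, ?_⟩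
  intro D hD S hS
  refine le_trans (h D hD S hS) ?_
  apply mul_le_mul_of_nonneg_right _ (by positivity)
  linarith

/-- sets without an induced copy of a cograph have small density -/
theorem bd_cograph (hG : ∀ b : Bool, ∀ s, ∃ i, s ≤ i ∧ G i = b) {T : Finset V} (hT : CoOn H T) :
    ∀ s ε, (0 : ℝ) < ε → Bd H G s ε T := by
  induction hT with
  | small T hT => exact fun s ε hε => bd_small H G s hε hT
  | union T1 T2 _ _ hd hc ih1 ih2 =>
    exact bd_both H G false (hG false) hd (fun x hx y hy => by simp [hc x hx y hy]) ih1 ih2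
  | join T1 T2 _ _ hd hc ih1 ih2 =>
    exact bd_both H G true (hG true) hd (fun x hx y hy => by simp [hc x hx y hy]) ih1 ih2

end

/-! ### sets of sequences span cographs -/

/-- adjacency of two infinite sequences -/
def adjInf (G : ℕ → Bool) (x y : ℕ → Bool) : Prop :=
  ∃ k, G k = true ∧ x k ≠ y k ∧ ∀ j, j < k → x j = y j

theorem co_edgeless {V : Type} [DecidableEq V] (H : SimpleGraph V) (T : Finset V)
    (h : ∀ u ∈ T, ∀ v ∈ T, ¬ H.Adj u v) : CoOn H T := by
  induction T using Finset.induction_on with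
  | empty => exact CoOn.small _ (by simp)
  | insert a s ha ih =>
    rw [Finset.insert_eq]
    apply CoOn.union
    · exact CoOn.small _ (by simp)
    · exact ih (fun u hu v hv => h u (Finset.mem_insert_of_mem hu) v (Finset.mem_insert_of_mem hv))
    · rw [Finset.disjoint_singleton_left]
      exact ha
    · intro x hx y hy
      rw [Finset.mem_singleton] at hx
      rw [hx]
      exact h a (Finset.mem_insert_self _ _) y (Finset.mem_insert_of_mem hy)

theorem co_of_seq {V : Type} [DecidableEq V] (G : ℕ → Bool) (H : SimpleGraph V) (x : V → (ℕ → Bool))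
    (hH : ∀ u v, u ≠ v → (H.Adj u v ↔ adjInf G (x u) (x v))) (T : Finset V) : CoOn H T := by
  induction T using Finset.strongInduction with
  | H T ih =>
    by_cases hall : ∃ k, ∃ u ∈ T, ∃ v ∈ T, x u k ≠ x v k
    · classical
      set k := Nat.find hall with hk
      obtain ⟨u, hu, v, hv, huv⟩ := Nat.find_spec hall
      rw [← hk] at huv
      have hmin : ∀ j, j < k → ∀ a ∈ T, ∀ b ∈ T, x a j = x b j := by
        intro j hj a ha b hb
        by_contra hne
        exact Nat.find_min hall hj ⟨a, ha, b, hb, hne⟩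
      set T0 := T.filter (fun w => x w k = false) with hT0
      set T1 := T.filter (fun w => x w k = true) with hT1
      have hsplit : T = T0 ∪ T1 := by
        ext w
        rw [Finset.mem_union, hT0, hT1, Finset.mem_filter, Finset.mem_filter]
        rcases x w k <;> simp
      have hdis : Disjoint T0 T1 := by
        rw [Finset.disjoint_left]
        intro w h0 h1
        rw [hT0, Finset.mem_filter] at h0
        rw [hT1, Finset.mem_filter] at h1
        rw [h0.2] at h1
        exact absurd h1.2 (by decide)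
      have hss0 : T0 ⊂ T := by
        rw [Finset.ssubset_iff_subset_ne]
        refine ⟨Finset.filter_subset _ _, ?_⟩
        intro he
        have h1 : u ∈ T0 := he ▸ hu
        have h2 : v ∈ T0 := he ▸ hv
        rw [hT0, Finset.mem_filter] at h1 h2
        exact huv (h1.2.trans h2.2.symm)
      have hss1 : T1 ⊂ T := by
        rw [Finset.ssubset_iff_subset_ne]
        refine ⟨Finset.filter_subset _ _, ?_⟩
        intro he
        have h1 : u ∈ T1 := he ▸ hu
        have h2 : v ∈ T1 := he ▸ hv
        rw [hT1, Finset.mem_filter] at h1 h2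
        exact huv (h1.2.trans h2.2.symm)
      have hcross : ∀ a ∈ T0, ∀ b ∈ T1, (H.Adj a b ↔ G k = true) := by
        intro a ha b hb
        rw [hT0, Finset.mem_filter] at ha
        rw [hT1, Finset.mem_filter] at hb
        have hne : x a k ≠ x b k := by rw [ha.2, hb.2]; decide
        have hab : a ≠ b := fun h => hne (by rw [h])
        rw [hH a b hab]
        constructor
        · rintro ⟨j, h1, h2, h3⟩
          have hjk : j = k := by
            rcases lt_trichotomy j k with h | h | h
            · exact absurd (hmin j h a ha.1 b hb.1) h2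
            · exact h
            · exact absurd (h3 k h) hne
          rw [← hjk]
          exact h1
        · intro h
          exact ⟨k, h, hne, fun j hj => hmin j hj a ha.1 b hb.1⟩
      rw [hsplit]
      rcases hGk : G k with _ | _
      · apply CoOn.union _ _ (ih T0 hss0) (ih T1 hss1) hdis
        intro a ha b hb hadj
        rw [hcross a ha b hb, hGk] at hadj
        exact absurd hadj (by decide)
      · apply CoOn.join _ _ (ih T0 hss0) (ih T1 hss1) hdis
        intro a ha b hb
        rw [hcross a ha b hb, hGk]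
    · push Not at hall
      apply co_edgeless
      intro u hu v hv hadj
      have huv : u ≠ v := hadj.ne
      rw [hH u v huv] at hadj
      obtain ⟨k, -, h2, -⟩ := hadj
      exact h2 (hall k u hu v hv)

end Pool.Agent.Q126.CG
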