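import Pool.Agent.Q126.CG1

set_option autoImplicit false

namespace Pool.Agent.Q126.CG

open Finset

/-- number of letters `true` among the first `D` -/
def kk (G : ℕ → Bool) (D : ℕ) : ℕ := ((Finset.range D).filter (fun i => G i = true)).card

/-- number of letters `false` among the first `D` -/
def ll (G : ℕ → Bool) (D : ℕ) : ℕ := ((Finset.range D).filter (fun i => G i = false)).card

theorem kk_succ_true {G : ℕ → Bool} {D : ℕ} (h : G D = true) : kk G (D + 1) = kk G D + 1 := by
  unfold kk
  rw [Finset.range_add_one, Finset.filter_insert, if_pos h, Finset.card_insert_of_notMem]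
  rw [Finset.mem_filter, Finset.mem_range]
  omega

theorem kk_succ_false {G : ℕ → Bool} {D : ℕ} (h : G D = false) : kk G (D + 1) = kk G D := by
  unfold kk
  rw [Finset.range_add_one, Finset.filter_insert, if_neg (by rw [h]; decide)]

theorem ll_succ_true {G : ℕ → Bool} {D : ℕ} (h : G D = true) : ll G (D + 1) = ll G D := by
  unfold ll
  rw [Finset.range_add_one, Finset.filter_insert, if_neg (by rw [h]; decide)]

theorem ll_succ_false {G : ℕ → Bool} {D : ℕ} (h : G D = false) : ll G (D + 1) = ll G D + 1 := by
  unfold ll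
  rw [Finset.range_add_one, Finset.filter_insert, if_pos h, Finset.card_insert_of_notMem]
  rw [Finset.mem_filter, Finset.mem_range]
  omega

theorem kk_mono (G : ℕ → Bool) : Monotone (kk G) := by
  apply monotone_nat_of_le_succ
  intro D
  rcases h : G D with _ | _
  · rw [kk_succ_false h]
  · rw [kk_succ_true h]
    omega

open Classical in
/-- tuples of words of length `D` whose pairs are equal or adjacent -/
noncomputable def Clq (G : ℕ → Bool) (m D : ℕ) : Finset (Fin m → Fin D → Bool) :=
  Finset.univ.filter (fun c => ∀ u v, c u ≠ c v → adj G 0 D (c u) (c v))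

theorem mem_Clq {G : ℕ → Bool} {m D : ℕ} {c : Fin m → Fin D → Bool} :
    c ∈ Clq G m D ↔ ∀ u v, c u ≠ c v → adj G 0 D (c u) (c v) := by
  classical
  simp [Clq]

def ini {m D : ℕ} (c : Fin m → Fin (D + 1) → Bool) : Fin m → Fin D → Bool :=
  fun u i => c u i.castSucc

theorem ini_mem {G : ℕ → Bool} {m D : ℕ} {c : Fin m → Fin (D + 1) → Bool}
    (hc : c ∈ Clq G m (D + 1)) : ini c ∈ Clq G m D := by
  rw [mem_Clq] at hc ⊢
  intro u v huv
  have hne : c u ≠ c v := by
    intro h
    apply huv
    unfold ini
    rw [h]
  obtain ⟨k, h1, h2, h3⟩ := hc u v hne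
  have hk : (k : ℕ) < D := by
    by_contra hk
    apply huv
    funext i
    unfold ini
    apply h3
    rw [Fin.lt_def, Fin.val_castSucc]
    have := i.isLt
    omega
  refine ⟨⟨k, hk⟩, h1, ?_, ?_⟩
  · exact h2
  · intro j hj
    apply h3
    rw [Fin.lt_def] at hj ⊢
    exact hj

/-- at a `false` letter equal prefixes have equal next letters -/
theorem last_eq {G : ℕ → Bool} {m D : ℕ} {c : Fin m → Fin (D + 1) → Bool}
    (hc : c ∈ Clq G m (D + 1)) (hG : G D = false) {u v : Fin m} (h : ini c u = ini c v) :
    c u = c v := by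
  by_contra hne
  rw [mem_Clq] at hc
  obtain ⟨k, h1, h2, h3⟩ := hc u v hne
  by_cases hk : (k : ℕ) < D
  · have := congrFun h ⟨k, hk⟩
    exact h2 this
  · have hkD : (k : ℕ) = D := by
      have := k.isLt
      omega
    rw [hkD, zero_add, hG] at h1
    exact absurd h1 (by decide)

theorem ext_last {m D : ℕ} {c c' : Fin m → Fin (D + 1) → Bool} {u v : Fin m}
    (h1 : ini c u = ini c' v) (h2 : c u (Fin.last D) = c' v (Fin.last D)) : c u = c' v := by
  funext i
  rcases Fin.eq_castSucc_or_eq_last i with ⟨j, rfl⟩ | rfl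
  · exact congrFun h1 j
  · exact h2

theorem image_card {G : ℕ → Bool} {m : ℕ} (D : ℕ) (c : Fin m → Fin D → Bool)
    (hc : c ∈ Clq G m D) : (Finset.univ.image c).card ≤ 2 ^ kk G D := by
  induction D with
  | zero =>
    have : (Finset.univ.image c).card ≤ Fintype.card (Fin 0 → Bool) := Finset.card_le_univ _
    simpa [kk] using this
  | succ D ih =>
    have h0 := ih (ini c) (ini_mem hc)
    rcases hG : G D with _ | _
    · rw [kk_succ_false hG]
      refine le_trans ?_ h0
      apply Finset.card_le_card_of_injOn (fun y : Fin (D + 1) → Bool => fun i : Fin D => y i.castSucc)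
      · intro y hy
        have hy' : y ∈ Finset.univ.image c := hy
        rw [Finset.mem_image] at hy'
        obtain ⟨u, -, rfl⟩ := hy'
        show _ ∈ (Finset.univ.image (ini c) : Finset (Fin D → Bool))
        rw [Finset.mem_image]
        exact ⟨u, Finset.mem_univ _, rfl⟩
      · intro y hy z hz hyz
        have hy' : y ∈ Finset.univ.image c := hy
        have hz' : z ∈ Finset.univ.image c := hz
        rw [Finset.mem_image] at hy' hz'
        obtain ⟨u, -, rfl⟩ := hy'
        obtain ⟨v, -, rfl⟩ := hz'
        exact last_eq hc hG hyz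
    · rw [kk_succ_true hG, pow_succ]
      have h1 : (Finset.univ.image c).card ≤ ((Finset.univ.image (ini c)) ×ˢ
          (Finset.univ : Finset Bool)).card := by
        apply Finset.card_le_card_of_injOn
          (fun y : Fin (D + 1) → Bool => ((fun i : Fin D => y i.castSucc), y (Fin.last D)))
        · intro y hy
          have hy' : y ∈ Finset.univ.image c := hy
          rw [Finset.mem_image] at hy'
          obtain ⟨u, -, rfl⟩ := hy'
          show _ ∈ ((Finset.univ.image (ini c)) ×ˢ (Finset.univ : Finset Bool) :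
            Finset ((Fin D → Bool) × Bool))
          rw [Finset.mem_product]
          refine ⟨?_, Finset.mem_univ _⟩
          show ini c u ∈ _
          rw [Finset.mem_image]
          exact ⟨u, Finset.mem_univ _, rfl⟩
        · intro y _ z _ hyz
          have e1 := congrArg Prod.fst hyz
          have e2 := congrArg Prod.snd hyz
          funext i
          rcases Fin.eq_castSucc_or_eq_last i with ⟨j, rfl⟩ | rfl
          · exact congrFun e1 j
          · exact e2
      rw [Finset.card_product, Finset.card_univ, Fintype.card_bool] at h1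
      exact le_trans h1 (Nat.mul_le_mul_right 2 h0)

theorem fiber_true {m D : ℕ} (s : Finset (Fin m → Fin (D + 1) → Bool)) (c' : Fin m → Fin D → Bool) :
    (s.filter (fun c => ini c = c')).card ≤ 2 ^ m := by
  have h1 : (s.filter (fun c => ini c = c')).card ≤ (Finset.univ : Finset (Fin m → Bool)).card := by
    apply Finset.card_le_card_of_injOn (fun c => fun u => c u (Fin.last D))
    · intro _ _
      exact Finset.mem_coe.2 (Finset.mem_univ _)
    · intro c hc d hd hcd
      have hc' : c ∈ s.filter (fun c => ini c = c') := hc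
      have hd' : d ∈ s.filter (fun c => ini c = c') := hd
      rw [Finset.mem_filter] at hc' hd'
      funext u
      apply ext_last (u := u) (v := u)
      · rw [hc'.2, hd'.2]
      · exact congrFun hcd u
  rw [Finset.card_univ, Fintype.card_fun, Fintype.card_bool, Fintype.card_fin] at h1
  exact h1

theorem fiber_false {G : ℕ → Bool} {m D M : ℕ} (hG : G D = false) (hM : 2 ^ kk G D ≤ M)
    (c' : Fin m → Fin D → Bool) (hc' : c' ∈ Clq G m D) :
    ((Clq G m (D + 1)).filter (fun c => ini c = c')).card ≤ 2 ^ M := by
  classical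
  have hrange : ∀ y : {y // y ∈ (Finset.univ.image c' : Finset (Fin D → Bool))}, ∃ u, c' u = y := by
    rintro ⟨y, hy⟩
    rw [Finset.mem_image] at hy
    obtain ⟨u, -, hu⟩ := hy
    exact ⟨u, hu⟩
  choose uu huu using hrange
  have h1 : ((Clq G m (D + 1)).filter (fun c => ini c = c')).card
      ≤ (Finset.univ : Finset ({y // y ∈ (Finset.univ.image c' : Finset (Fin D → Bool))} → Bool)).card := by
    apply Finset.card_le_card_of_injOn (fun c => fun y => c (uu y) (Fin.last D))
    · intro _ _
      exact Finset.mem_coe.2 (Finset.mem_univ _)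
    · intro c hc d hd hcd
      have hc1 : c ∈ (Clq G m (D + 1)).filter (fun c => ini c = c') := hc
      have hd1 : d ∈ (Clq G m (D + 1)).filter (fun c => ini c = c') := hd
      rw [Finset.mem_filter] at hc1 hd1
      funext u
      set y : {y // y ∈ (Finset.univ.image c' : Finset (Fin D → Bool))} :=
        ⟨c' u, Finset.mem_image_of_mem _ (Finset.mem_univ _)⟩ with hy
      have e1 : c u = c (uu y) := by
        apply last_eq hc1.1 hG
        rw [hc1.2, huu y]
      have e2 : d u = d (uu y) := by
        apply last_eq hd1.1 hG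
        rw [hd1.2, huu y]
      rw [e1, e2]
      apply ext_last (u := uu y) (v := uu y)
      · rw [hc1.2, hd1.2]
      · exact congrFun hcd y
  rw [Finset.card_univ, Fintype.card_fun, Fintype.card_bool, Fintype.card_coe] at h1
  refine le_trans h1 (Nat.pow_le_pow_right (by norm_num) ?_)
  exact le_trans (image_card D c' hc') hM

theorem clq_card {G : ℕ → Bool} {M : ℕ} (D : ℕ) (hM : 2 ^ kk G D ≤ M) :
    (Clq G (2 * M) D).card * 2 ^ (M * ll G D) ≤ 2 ^ (2 * M * D) := by
  classical
  induction D with
  | zero =>
    have : (Clq G (2 * M) 0).card ≤ Fintype.card (Fin (2 * M) → Fin 0 → Bool) := Finset.card_le_univ _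
    simpa [ll] using this
  | succ D ih =>
    have hle : 2 ^ kk G D ≤ M := le_trans (Nat.pow_le_pow_right (by norm_num) (kk_mono G (Nat.le_succ D))) hM
    have h0 := ih hle
    have himg : (Clq G (2 * M) (D + 1)).image ini ⊆ Clq G (2 * M) D := by
      intro c hc
      rw [Finset.mem_image] at hc
      obtain ⟨d, hd, rfl⟩ := hc
      exact ini_mem hd
    have hcard := Finset.card_le_card himg
    rcases hG : G D with _ | _
    · have h1 : (Clq G (2 * M) (D + 1)).card ≤ 2 ^ M * ((Clq G (2 * M) (D + 1)).image ini).card := by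
        apply Finset.card_le_mul_card_image
        intro c hc
        exact fiber_false hG hle c (himg hc)
      rw [ll_succ_false hG]
      calc (Clq G (2 * M) (D + 1)).card * 2 ^ (M * (ll G D + 1))
          ≤ (2 ^ M * (Clq G (2 * M) D).card) * 2 ^ (M * (ll G D + 1)) :=
            Nat.mul_le_mul_right _ (le_trans h1 (Nat.mul_le_mul_left _ hcard))
        _ = ((Clq G (2 * M) D).card * 2 ^ (M * ll G D)) * 2 ^ (2 * M) := by
            rw [mul_add, mul_one, pow_add, two_mul M, pow_add]
            ring
        _ ≤ 2 ^ (2 * M * D) * 2 ^ (2 * M) := Nat.mul_le_mul_right _ h0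
        _ = 2 ^ (2 * M * (D + 1)) := by rw [← pow_add]; ring_nf
    · have h1 : (Clq G (2 * M) (D + 1)).card ≤ 2 ^ (2 * M) * ((Clq G (2 * M) (D + 1)).image ini).card := by
        apply Finset.card_le_mul_card_image
        intro c _
        exact fiber_true _ c
      rw [ll_succ_true hG]
      calc (Clq G (2 * M) (D + 1)).card * 2 ^ (M * ll G D)
          ≤ (2 ^ (2 * M) * (Clq G (2 * M) D).card) * 2 ^ (M * ll G D) :=
            Nat.mul_le_mul_right _ (le_trans h1 (Nat.mul_le_mul_left _ hcard))
        _ = ((Clq G (2 * M) D).card * 2 ^ (M * ll G D)) * 2 ^ (2 * M) := by ring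
        _ ≤ 2 ^ (2 * M * D) * 2 ^ (2 * M) := Nat.mul_le_mul_right _ h0
        _ = 2 ^ (2 * M * (D + 1)) := by rw [← pow_add]; ring_nf

theorem kk_hit {G : ℕ → Bool} (D t : ℕ) (ht : t < kk G D) : ∃ i, i < D ∧ G i = true ∧ kk G i = t := by
  induction D with
  | zero => simp [kk] at ht
  | succ D ih =>
    by_cases h : t < kk G D
    · obtain ⟨i, h1, h2, h3⟩ := ih h
      exact ⟨i, by omega, h2, h3⟩
    · rcases hG : G D with _ | _
      · rw [kk_succ_false hG] at ht
        exact absurd ht h
      · rw [kk_succ_true hG] at ht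
        exact ⟨D, by omega, hG, by omega⟩

/-- a tuple of pairwise adjacent words -/
theorem exists_clique (G : ℕ → Bool) {m D : ℕ} (hm : m ≤ 2 ^ kk G D) :
    ∃ c : Fin m → Fin D → Bool, ∀ u v, u ≠ v → adj G 0 D (c u) (c v) := by
  classical
  refine ⟨fun v i => G i && Nat.testBit v (kk G i), ?_⟩
  intro u v huv
  have hex : ∃ i, ∃ hi : i < D, (G i && Nat.testBit u (kk G i)) ≠ (G i && Nat.testBit v (kk G i)) := by
    by_contra hcon
    push Not at hcon
    apply huv
    apply Fin.ext
    apply Nat.eq_of_testBit_eq
    intro t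
    by_cases ht : t < kk G D
    · obtain ⟨i, h1, h2, h3⟩ := kk_hit D t ht
      have := hcon i h1
      rw [h2, h3] at this
      simpa using this
    · have h1 : 2 ^ kk G D ≤ 2 ^ t := Nat.pow_le_pow_right (by norm_num) (by omega)
      have hu := u.isLt
      have hv := v.isLt
      rw [Nat.testBit_eq_false_of_lt (by omega), Nat.testBit_eq_false_of_lt (by omega)]
  set i := Nat.find hex with hi
  obtain ⟨hiD, hne⟩ := Nat.find_spec hex
  rw [← hi] at hiD hne
  refine ⟨⟨i, hiD⟩, ?_, hne, ?_⟩
  · show G (0 + i) = true
    rw [zero_add]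
    by_contra hG
    rw [Bool.not_eq_true] at hG
    rw [hG] at hne
    exact hne rfl
  · intro j hj
    by_contra hne2
    exact Nat.find_min hex (m := (j : ℕ)) hj ⟨j.isLt, hne2⟩

end Pool.Agent.Q126.CG
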