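import Pool.Agent.Q126.CG2

set_option autoImplicit false

namespace Pool.Agent.Q126.CG

open MeasureTheory Set

/-- binary digits -/
noncomputable def dig (x : unitInterval) (i : ℕ) : Bool :=
  decide (⌊(2 : ℝ) ^ (i + 1) * (x : ℝ)⌋₊ % 2 = 1)

noncomputable def digD (D : ℕ) (x : unitInterval) : Fin D → Bool := fun i => dig x i

def code (D k : ℕ) : Fin D → Bool := fun i => decide (k / 2 ^ (D - 1 - (i : ℕ)) % 2 = 1)

theorem digD_eq (D : ℕ) (x : unitInterval) : digD D x = code D ⌊(2 : ℝ) ^ D * (x : ℝ)⌋₊ := by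
  funext i
  unfold digD dig code
  have hi := i.isLt
  have e1 : (2 : ℝ) ^ ((i : ℕ) + 1) * (x : ℝ)
      = ((2 : ℝ) ^ D * (x : ℝ)) / ((2 ^ (D - 1 - (i : ℕ)) : ℕ) : ℝ) := by
    have e2 : (2 : ℝ) ^ D = 2 ^ ((i : ℕ) + 1) * 2 ^ (D - 1 - (i : ℕ)) := by
      rw [← pow_add]
      congr 1
      omega
    rw [e2]
    push_cast
    field_simp
  rw [e1, Nat.floor_div_natCast]

theorem code_inj {D k l : ℕ} (hk : k < 2 ^ D) (hl : l < 2 ^ D) (h : code D k = code D l) :
    k = l := by
  apply Nat.eq_of_testBit_eq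
  intro j
  by_cases hj : j < D
  · have := congrFun h ⟨D - 1 - j, by omega⟩
    unfold code at this
    have e : D - 1 - (D - 1 - j) = j := by omega
    simp only [e] at this
    rw [Nat.testBit_eq_decide_div_mod_eq, Nat.testBit_eq_decide_div_mod_eq]
    exact this
  · have h1 : 2 ^ D ≤ 2 ^ j := Nat.pow_le_pow_right (by norm_num) (by omega)
    rw [Nat.testBit_eq_false_of_lt (by omega), Nat.testBit_eq_false_of_lt (by omega)]

theorem code_surj {D : ℕ} (c : Fin D → Bool) : ∃ k, k < 2 ^ D ∧ code D k = c := by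
  have hinj : Function.Injective (fun k : Fin (2 ^ D) => code D k) := by
    intro k l h
    exact Fin.ext (code_inj k.isLt l.isLt h)
  have hbij := (Fintype.bijective_iff_injective_and_card _).2 ⟨hinj, by
    rw [Fintype.card_fin, Fintype.card_fun, Fintype.card_bool, Fintype.card_fin]⟩
  obtain ⟨k, hk⟩ := hbij.2 c
  exact ⟨k, k.isLt, hk⟩

theorem vol_floor {D k : ℕ} (hk : k < 2 ^ D) :
    (volume : Measure unitInterval) {x | ⌊(2 : ℝ) ^ D * (x : ℝ)⌋₊ = k} = ENNReal.ofReal ((1 / 2) ^ D) := by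
  rw [unitInterval.volume_apply]
  have hp : (0 : ℝ) < 2 ^ D := by positivity
  have hk' : (k : ℝ) + 1 ≤ 2 ^ D := by exact_mod_cast hk
  have e : Subtype.val '' {x : unitInterval | ⌊(2 : ℝ) ^ D * (x : ℝ)⌋₊ = k}
      = Set.Ico ((k : ℝ) / 2 ^ D) (((k : ℝ) + 1) / 2 ^ D) := by
    ext y
    rw [Set.mem_image, Set.mem_Ico]
    constructor
    · rintro ⟨x, hx, rfl⟩
      rw [Set.mem_ofPred_eq] at hx
      have h0 : 0 ≤ (2 : ℝ) ^ D * (x : ℝ) := mul_nonneg hp.le x.2.1
      rw [Nat.floor_eq_iff h0] at hx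
      rw [div_le_iff₀ hp, lt_div_iff₀ hp]
      constructor <;> linarith [hx.1, hx.2, mul_comm ((2 : ℝ) ^ D) (x : ℝ)]
    · rintro ⟨h1, h2⟩
      rw [div_le_iff₀ hp] at h1
      rw [lt_div_iff₀ hp] at h2
      have hy0 : 0 ≤ y := by
        by_contra hneg
        push Not at hneg
        have : y * 2 ^ D < 0 := mul_neg_of_neg_of_pos hneg hp
        have : (0 : ℝ) ≤ k := by positivity
        linarith
      have hy1 : y ≤ 1 := by
        by_contra hgt
        push Not at hgt
        nlinarith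
      refine ⟨⟨y, hy0, hy1⟩, ?_, rfl⟩
      rw [Set.mem_ofPred_eq, Nat.floor_eq_iff (mul_nonneg hp.le hy0)]
      constructor <;> linarith [mul_comm ((2 : ℝ) ^ D) y]
  rw [e, Real.volume_Ico]
  congr 1
  rw [one_div_pow]
  field_simp
  ring

theorem vol_cell {D : ℕ} (c : Fin D → Bool) :
    (volume : Measure unitInterval) {x | digD D x = c} = ENNReal.ofReal ((1 / 2) ^ D) := by
  obtain ⟨k, hk, rfl⟩ := code_surj c
  rw [← vol_floor hk]
  apply measure_congr
  have h1 : ∀ᵐ x : unitInterval, x ≠ 1 := by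
    rw [ae_iff]
    simp
  filter_upwards [h1] with x hx
  apply propext
  show digD D x = code D k ↔ ⌊(2 : ℝ) ^ D * (x : ℝ)⌋₊ = k
  rw [digD_eq]
  have hx1 : (x : ℝ) < 1 := lt_of_le_of_ne x.2.2 (fun h => hx (Subtype.ext h))
  have hp : (0 : ℝ) < 2 ^ D := by positivity
  have hfl : ⌊(2 : ℝ) ^ D * (x : ℝ)⌋₊ < 2 ^ D := by
    rw [Nat.floor_lt (mul_nonneg hp.le x.2.1)]
    push_cast
    nlinarith
  constructor
  · intro h
    exact code_inj hfl hk h
  · intro h
    rw [h]

theorem meas_dig (i : ℕ) : Measurable (fun x : unitInterval => dig x i) := by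
  have h1 : Measurable (fun x : unitInterval => ⌊(2 : ℝ) ^ (i + 1) * (x : ℝ)⌋₊) :=
    Nat.measurable_floor.comp (measurable_const.mul measurable_subtype_coe)
  have h2 : Measurable (fun k : ℕ => decide (k % 2 = 1)) := measurable_from_top
  exact h2.comp h1

theorem meas_digD (D : ℕ) : Measurable (digD D) :=
  measurable_pi_lambda _ (fun i => meas_dig i)

/-- the word of every coordinate -/
noncomputable def words {n : ℕ} (D : ℕ) (x : Fin n → unitInterval) : Fin n → Fin D → Bool :=
  fun i => digD D (x i)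

theorem meas_words (n D : ℕ) : Measurable (words D : (Fin n → unitInterval) → Fin n → Fin D → Bool) :=
  measurable_pi_lambda _ (fun i => (meas_digD D).comp (measurable_pi_apply i))

theorem vol_words {n D : ℕ} (c : Fin n → Fin D → Bool) :
    (volume : Measure (Fin n → unitInterval)).real (words D ⁻¹' {c}) = ((1 / 2 : ℝ) ^ D) ^ n := by
  have e : words D ⁻¹' {c} = Set.pi Set.univ (fun i => {x : unitInterval | digD D x = c i}) := by
    ext x
    rw [Set.mem_preimage, Set.mem_singleton_iff, Set.mem_univ_pi]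
    exact funext_iff
  unfold Measure.real
  rw [e, volume_pi_pi, Finset.prod_congr rfl (fun i _ => vol_cell (c i)), Finset.prod_const,
    Finset.card_univ, Fintype.card_fin, ENNReal.toReal_pow, ENNReal.toReal_ofReal (by positivity)]

theorem integral_words {n D : ℕ} (F : (Fin n → Fin D → Bool) → ℝ) :
    ∫ x : Fin n → unitInterval, F (words D x) = ((1 / 2 : ℝ) ^ D) ^ n * ∑ c, F c := by
  have hF : Measurable F := measurable_of_finite F
  have h1 : ∫ c, F c ∂(Measure.map (words D) (volume : Measure (Fin n → unitInterval)))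
      = ∫ x : Fin n → unitInterval, F (words D x) :=
    integral_map (meas_words n D).aemeasurable hF.aestronglyMeasurable
  have : IsProbabilityMeasure (Measure.map (words D) (volume : Measure (Fin n → unitInterval))) :=
    Measure.isProbabilityMeasure_map (meas_words n D).aemeasurable
  rw [← h1, integral_fintype (Integrable.of_finite), Finset.mul_sum]
  apply Finset.sum_congr rfl
  intro c _
  rw [smul_eq_mul, map_measureReal_apply (meas_words n D) (measurableSet_singleton c), vol_words]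

end Pool.Agent.Q126.CG
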