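import Pool.Agent.Q126.CG3

set_option autoImplicit false

namespace Pool.Agent.Q126.CG

open MeasureTheory Set

/-- A graphon: a symmetric measurable function from the unit square to the unit interval. -/
structure Graphon where
  W : unitInterval → unitInterval → ℝ
  meas : Measurable (fun p : unitInterval × unitInterval => W p.1 p.2)
  symm : ∀ x y, W x y = W y x
  nonneg : ∀ x y, 0 ≤ W x y
  le_one : ∀ x y, W x y ≤ 1

/-- the pairs `i < j` -/
def pairs (n : ℕ) : Finset (Fin n × Fin n) := Finset.univ.filter (fun p => p.1 < p.2)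

open Classical in
/-- `∏_{ij ∈ E(H)} W(x_i,x_j) ∏_{ij ∉ E(H)} (1 - W(x_i,x_j))` -/
noncomputable def patt (W : Graphon) {n : ℕ} (H : SimpleGraph (Fin n)) (x : Fin n → unitInterval) : ℝ :=
  ∏ p ∈ pairs n, if H.Adj p.1 p.2 then W.W (x p.1) (x p.2) else 1 - W.W (x p.1) (x p.2)

/-- all induced densities (of labelled graphs) -/
abbrev Density : Type := (n : ℕ) → SimpleGraph (Fin n) → ℝ

/-- the limit represented by a graphon -/
noncomputable def lim (W : Graphon) : Density :=
  fun n H => ∫ x : Fin n → unitInterval, patt W H x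

/-- the limit represented by `W` on the probability space `([0,1], f dλ / ∫ f)` -/
noncomputable def restr (W : Graphon) (f : unitInterval → ℝ) : Density :=
  fun n H => (∫ x : Fin n → unitInterval, (∏ i, f (x i)) * patt W H x) / (∫ y, f y) ^ n

/-- `φ` is a limit -/
def IsLimit (φ : Density) : Prop := ∃ W : Graphon, φ = lim W

/-- `ψ` is a sub-object of `φ` -/
def SubObj (ψ φ : Density) : Prop :=
  ∃ (W : Graphon) (f : unitInterval → ℝ), φ = lim W ∧ Measurable f ∧ (∀ x, 0 ≤ f x ∧ f x ≤ 1) ∧
    0 < ∫ x, f x ∧ ψ = restr W f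

/-- the finite graphs of positive density -/
def Q (φ : Density) : Set (Σ n : ℕ, SimpleGraph (Fin n)) := {H | 0 < φ H.1 H.2}

/-- the persistence set -/
def P (φ : Density) : Set (Σ n : ℕ, SimpleGraph (Fin n)) := {H | ∀ ψ, SubObj ψ φ → H ∈ Q ψ}

/-- the finite cographs, with `K_0` -/
def cographs : Set (Σ n : ℕ, SimpleGraph (Fin n)) := {H | CoOn H.2 Finset.univ}

/-- the class `Φ_F` for `F` = cographs -/
def PhiF : Set Density := {φ | IsLimit φ ∧ P φ = cographs ∧ Q φ = cographs}

/-! ### basic facts -/

theorem mem_pairs {n : ℕ} {p : Fin n × Fin n} : p ∈ pairs n ↔ p.1 < p.2 := by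
  unfold pairs
  rw [Finset.mem_filter]
  exact ⟨fun h => h.2, fun h => ⟨Finset.mem_univ _, h⟩⟩

theorem meas_W (W : Graphon) {n : ℕ} (i j : Fin n) :
    Measurable (fun x : Fin n → unitInterval => W.W (x i) (x j)) := by
  have h1 : Measurable (fun x : Fin n → unitInterval => (x i, x j)) :=
    (measurable_pi_apply i).prodMk (measurable_pi_apply j)
  exact W.meas.comp h1

theorem meas_patt (W : Graphon) {n : ℕ} (H : SimpleGraph (Fin n)) : Measurable (patt W H) := by
  unfold patt
  apply Finset.measurable_prod
  intro p _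
  split_ifs
  · exact meas_W W _ _
  · exact measurable_const.sub (meas_W W _ _)

theorem patt_nonneg (W : Graphon) {n : ℕ} (H : SimpleGraph (Fin n)) (x : Fin n → unitInterval) :
    0 ≤ patt W H x := by
  unfold patt
  apply Finset.prod_nonneg
  intro p _
  split_ifs
  · exact W.nonneg _ _
  · linarith [W.le_one (x p.1) (x p.2)]

theorem patt_le_one (W : Graphon) {n : ℕ} (H : SimpleGraph (Fin n)) (x : Fin n → unitInterval) :
    patt W H x ≤ 1 := by
  unfold patt
  apply Finset.prod_le_one
  · intro p _
    split_ifs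
    · exact W.nonneg _ _
    · linarith [W.le_one (x p.1) (x p.2)]
  · intro p _
    split_ifs
    · exact W.le_one _ _
    · linarith [W.nonneg (x p.1) (x p.2)]

theorem integrable_bdd {α : Type*} [MeasurableSpace α] {μ : Measure α} [IsProbabilityMeasure μ]
    {F : α → ℝ} (hF : Measurable F) {C : ℝ} (h0 : ∀ x, 0 ≤ F x) (h1 : ∀ x, F x ≤ C) :
    Integrable F μ := by
  apply Integrable.of_bound hF.aestronglyMeasurable C
  filter_upwards with x
  rw [Real.norm_eq_abs, abs_of_nonneg (h0 x)]
  exact h1 x

theorem integrable_patt (W : Graphon) {n : ℕ} (H : SimpleGraph (Fin n)) :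
    Integrable (patt W H) (volume : Measure (Fin n → unitInterval)) :=
  integrable_bdd (meas_patt W H) (patt_nonneg W H) (patt_le_one W H)

theorem meas_prodf {f : unitInterval → ℝ} (hf : Measurable f) (n : ℕ) :
    Measurable (fun x : Fin n → unitInterval => ∏ i, f (x i)) :=
  Finset.measurable_prod _ (fun i _ => hf.comp (measurable_pi_apply i))

theorem restr_one (W : Graphon) : restr W (fun _ => 1) = lim W := by
  funext n H
  unfold restr lim
  simp

theorem sub_refl {φ : Density} (h : IsLimit φ) : SubObj φ φ := by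
  obtain ⟨W, rfl⟩ := h
  refine ⟨W, fun _ => 1, rfl, measurable_const, fun _ => ⟨zero_le_one, le_rfl⟩, ?_, (restr_one W).symm⟩
  simp

theorem P_sub_Q {φ : Density} (h : IsLimit φ) : P φ ⊆ Q φ := fun _ hH => hH φ (sub_refl h)

/-- clique densities of sub-objects -/
theorem sub_bound (W : Graphon) {f : unitInterval → ℝ} (hf : Measurable f)
    (h01 : ∀ x, 0 ≤ f x ∧ f x ≤ 1) (hpos : 0 < ∫ x, f x) {n : ℕ} (H : SimpleGraph (Fin n)) :
    restr W f n H * (∫ x, f x) ^ n ≤ lim W n H := by
  unfold restr lim
  rw [div_mul_cancel₀ _ (by positivity)]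
  have hp0 : ∀ x : Fin n → unitInterval, 0 ≤ ∏ i, f (x i) :=
    fun x => Finset.prod_nonneg (fun i _ => (h01 _).1)
  have hp1 : ∀ x : Fin n → unitInterval, ∏ i, f (x i) ≤ 1 :=
    fun x => Finset.prod_le_one (fun i _ => (h01 _).1) (fun i _ => (h01 _).2)
  apply integral_mono
  · apply integrable_bdd (C := 1) ((meas_prodf hf n).mul (meas_patt W H))
    · intro x
      exact mul_nonneg (hp0 x) (patt_nonneg W H x)
    · intro x
      exact mul_le_one₀ (hp1 x) (patt_nonneg W H x) (patt_le_one W H x)
  · exact integrable_patt W H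
  · intro x
    exact mul_le_of_le_one_left (patt_nonneg W H x) (hp1 x)

/-! ### the graphon of a sequence of letters -/

theorem meas_adjInf (G : ℕ → Bool) :
    MeasurableSet {p : unitInterval × unitInterval | adjInf G (dig p.1) (dig p.2)} := by
  have e : {p : unitInterval × unitInterval | adjInf G (dig p.1) (dig p.2)}
      = ⋃ k : ℕ, ({p : unitInterval × unitInterval | G k = true} ∩
        ({p : unitInterval × unitInterval | dig p.1 k = dig p.2 k}ᶜ ∩
          ⋂ j : ℕ, ⋂ _ : j < k, {p : unitInterval × unitInterval | dig p.1 j = dig p.2 j})) := by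
    ext p
    simp only [Set.mem_iUnion, Set.mem_inter_iff, Set.mem_compl_iff, Set.mem_iInter,
      Set.mem_ofPred_eq]
    rfl
  rw [e]
  have hd : ∀ k, MeasurableSet {p : unitInterval × unitInterval | dig p.1 k = dig p.2 k} := by
    intro k
    exact measurableSet_eq_fun ((meas_dig k).comp measurable_fst) ((meas_dig k).comp measurable_snd)
  apply MeasurableSet.iUnion
  intro k
  refine MeasurableSet.inter (MeasurableSet.const _) (MeasurableSet.inter (hd k).compl ?_)
  exact MeasurableSet.iInter (fun j => MeasurableSet.iInter (fun _ => hd j))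

theorem adjInf_symm {G : ℕ → Bool} {x y : ℕ → Bool} (h : adjInf G x y) : adjInf G y x := by
  obtain ⟨k, h1, h2, h3⟩ := h
  exact ⟨k, h1, h2.symm, fun j hj => (h3 j hj).symm⟩

open Classical in
/-- the recursive blow-up graphon -/
noncomputable def WG (G : ℕ → Bool) : Graphon where
  W x y := if adjInf G (dig x) (dig y) then 1 else 0
  meas := Measurable.ite (meas_adjInf G) measurable_const measurable_const
  symm x y := by
    by_cases h : adjInf G (dig x) (dig y)
    · rw [if_pos h, if_pos (adjInf_symm h)]
    · rw [if_neg h, if_neg (fun h' => h (adjInf_symm h'))]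
  nonneg x y := by split_ifs <;> norm_num
  le_one x y := by split_ifs <;> norm_num

theorem WG_pos {G : ℕ → Bool} {x y : unitInterval} (h : adjInf G (dig x) (dig y)) :
    (WG G).W x y = 1 := by
  unfold WG
  exact if_pos h

theorem WG_neg {G : ℕ → Bool} {x y : unitInterval} (h : ¬ adjInf G (dig x) (dig y)) :
    (WG G).W x y = 0 := by
  unfold WG
  exact if_neg h

theorem adj_iff (G : ℕ → Bool) {D : ℕ} {x y : unitInterval} (h : digD D x ≠ digD D y) :
    adjInf G (dig x) (dig y) ↔ adj G 0 D (digD D x) (digD D y) := by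
  constructor
  · rintro ⟨k, h1, h2, h3⟩
    have hk : k < D := by
      by_contra hk
      apply h
      funext i
      exact h3 i (by have := i.isLt; omega)
    refine ⟨⟨k, hk⟩, by simpa using h1, h2, ?_⟩
    intro j hj
    exact h3 j hj
  · rintro ⟨k, h1, h2, h3⟩
    refine ⟨k, by simpa using h1, h2, ?_⟩
    intro j hj
    exact h3 ⟨j, lt_trans hj k.isLt⟩ hj

theorem patt_WG_ne {G : ℕ → Bool} {n : ℕ} {H : SimpleGraph (Fin n)} {x : Fin n → unitInterval}
    (h : patt (WG G) H x ≠ 0) (u v : Fin n) (huv : u ≠ v) :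
    H.Adj u v ↔ adjInf G (dig (x u)) (dig (x v)) := by
  have key : ∀ u v : Fin n, u < v → (H.Adj u v ↔ adjInf G (dig (x u)) (dig (x v))) := by
    intro u v huv
    unfold patt at h
    rw [Finset.prod_ne_zero_iff] at h
    have h1 := h (u, v) (mem_pairs.2 huv)
    by_cases ha : H.Adj u v
    · simp only [ha, if_true] at h1
      refine ⟨fun _ => ?_, fun _ => ha⟩
      by_contra hn
      apply h1
      exact WG_neg hn
    · simp only [ha, if_false] at h1
      refine ⟨fun h' => absurd h' ha, fun hadj => ?_⟩
      exfalso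
      apply h1
      rw [WG_pos hadj, sub_self]
  rcases lt_or_gt_of_ne huv with h' | h'
  · exact key u v h'
  · rw [SimpleGraph.adj_comm, key v u h']
    exact ⟨adjInf_symm, adjInf_symm⟩

theorem patt_WG_one {G : ℕ → Bool} {n : ℕ} {H : SimpleGraph (Fin n)} {x : Fin n → unitInterval}
    (h : ∀ u v : Fin n, u < v → (H.Adj u v ↔ adjInf G (dig (x u)) (dig (x v)))) :
    patt (WG G) H x = 1 := by
  unfold patt
  apply Finset.prod_eq_one
  rintro ⟨u, v⟩ hp
  have huv : u < v := mem_pairs.1 hp
  have h1 := h u v huv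
  by_cases ha : H.Adj u v
  · simp only [ha, if_true]
    exact WG_pos (h1.1 ha)
  · simp only [ha, if_false]
    rw [WG_neg (fun h' => ha (h1.2 h')), sub_zero]

/-- graphs of positive density are cographs -/
theorem Q_WG (G : ℕ → Bool) : Q (lim (WG G)) ⊆ cographs := by
  rintro ⟨n, H⟩ hH
  have hpos : 0 < ∫ x : Fin n → unitInterval, patt (WG G) H x := hH
  have hex : ∃ x, patt (WG G) H x ≠ 0 := by
    by_contra hcon
    push Not at hcon
    rw [integral_congr_ae (Filter.Eventually.of_forall hcon)] at hpos
    simp at hpos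
  obtain ⟨x, hx⟩ := hex
  exact co_of_seq G H (fun v => dig (x v)) (fun u v huv => patt_WG_ne hx u v huv) Finset.univ

theorem lower_clique (G : ℕ → Bool) {m D : ℕ} (hm : m ≤ 2 ^ kk G D) :
    ((1 / 2 : ℝ) ^ D) ^ m ≤ lim (WG G) m ⊤ := by
  classical
  obtain ⟨c, hc⟩ := exists_clique G hm
  have h1 := integral_words (n := m) (D := D) (fun c' => if c' = c then 1 else 0)
  rw [Finset.sum_ite_eq' Finset.univ c (fun _ => (1 : ℝ)), if_pos (Finset.mem_univ _), mul_one] at h1
  rw [← h1]
  unfold lim
  have hmeas : Measurable (fun x : Fin m → unitInterval => if words D x = c then (1 : ℝ) else 0) :=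
    (measurable_of_finite (fun c' => if c' = c then (1 : ℝ) else 0)).comp (meas_words m D)
  apply integral_mono
  · apply integrable_bdd (C := 1) hmeas
    · intro x
      split_ifs <;> norm_num
    · intro x
      split_ifs <;> norm_num
  · exact integrable_patt _ _
  · intro x
    show (if words D x = c then (1 : ℝ) else 0) ≤ patt (WG G) ⊤ x
    by_cases h : words D x = c
    · rw [if_pos h, patt_WG_one]
      intro u v huv
      have hne : u ≠ v := ne_of_lt huv
      have hadj := hc u v hne
      have e1 : digD D (x u) = c u := congrFun h u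
      have e2 : digD D (x v) = c v := congrFun h v
      have hne2 : digD D (x u) ≠ digD D (x v) := by
        rw [e1, e2]
        intro he
        obtain ⟨k, -, h2, -⟩ := hadj
        exact h2 (congrFun he k)
      rw [adj_iff G hne2, e1, e2]
      exact ⟨fun _ => hadj, fun _ => by rw [SimpleGraph.top_adj]; exact hne⟩
    · rw [if_neg h]
      exact patt_nonneg _ _ _

theorem upper_clique (G : ℕ → Bool) (m D : ℕ) :
    lim (WG G) m ⊤ ≤ ((1 / 2 : ℝ) ^ D) ^ m * ((Clq G m D).card : ℝ) := by
  classical
  have h1 := integral_words (n := m) (D := D) (fun c' => if c' ∈ Clq G m D then 1 else 0)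
  have h2 : ∑ c : Fin m → Fin D → Bool, (if c ∈ Clq G m D then (1 : ℝ) else 0)
      = ((Clq G m D).card : ℝ) := by
    rw [Finset.sum_ite_mem, Finset.univ_inter, Finset.sum_const, nsmul_eq_mul, mul_one]
  rw [h2] at h1
  rw [← h1]
  unfold lim
  have hmeas : Measurable (fun x : Fin m → unitInterval =>
      if words D x ∈ Clq G m D then (1 : ℝ) else 0) :=
    (measurable_of_finite (fun c' => if c' ∈ Clq G m D then (1 : ℝ) else 0)).comp (meas_words m D)
  apply integral_mono
  · exact integrable_patt _ _
  · apply integrable_bdd (C := 1) hmeas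
    · intro x
      split_ifs <;> norm_num
    · intro x
      split_ifs <;> norm_num
  · intro x
    show patt (WG G) ⊤ x ≤ (if words D x ∈ Clq G m D then (1 : ℝ) else 0)
    by_cases h : patt (WG G) ⊤ x = 0
    · rw [h]
      split_ifs <;> norm_num
    · rw [if_pos]
      · exact patt_le_one _ _ _
      · rw [mem_Clq]
        intro u v huv
        have huv' : digD D (x u) ≠ digD D (x v) := huv
        have hne : u ≠ v := fun he => huv (by rw [he])
        have := (patt_WG_ne h u v hne).1 (by rw [SimpleGraph.top_adj]; exact hne)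
        exact (adj_iff G huv').1 this

end Pool.Agent.Q126.CG
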