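import Pool.Agent.Q126.CG4

set_option autoImplicit false

namespace Pool.Agent.Q126.CG

open MeasureTheory Set

open Classical in
/-- the sequence of letters with `Λ t` letters `false` before the `t`-th letter `true` -/
noncomputable def GS (Λ : ℕ → ℕ) : ℕ → Bool := fun i => decide (∃ t, i = Λ t + t)

theorem GS_true {Λ : ℕ → ℕ} {i : ℕ} : GS Λ i = true ↔ ∃ t, i = Λ t + t := by
  unfold GS
  simp

theorem pos_inj {Λ : ℕ → ℕ} (hΛ : StrictMono Λ) : StrictMono (fun t => Λ t + t) :=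
  fun a b hab => by
    have := hΛ hab
    show Λ a + a < Λ b + b
    omega

theorem kk_GS {Λ : ℕ → ℕ} (hΛ : StrictMono Λ) (τ : ℕ) : kk (GS Λ) (Λ τ + τ) = τ := by
  have hm := pos_inj hΛ
  have e : (Finset.range (Λ τ + τ)).filter (fun i => GS Λ i = true)
      = (Finset.range τ).image (fun t => Λ t + t) := by
    ext i
    rw [Finset.mem_filter, Finset.mem_range, GS_true, Finset.mem_image]
    constructor
    · rintro ⟨h1, t, rfl⟩
      refine ⟨t, ?_, rfl⟩
      rw [Finset.mem_range]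
      exact hm.lt_iff_lt.1 h1
    · rintro ⟨t, ht, rfl⟩
      rw [Finset.mem_range] at ht
      exact ⟨hm ht, t, rfl⟩
  unfold kk
  rw [e, Finset.card_image_of_injective _ hm.injective, Finset.card_range]

theorem ll_add_kk (G : ℕ → Bool) (D : ℕ) : ll G D + kk G D = D := by
  induction D with
  | zero => simp [ll, kk]
  | succ D ih =>
    rcases h : G D with _ | _
    · rw [ll_succ_false h, kk_succ_false h]
      omega
    · rw [ll_succ_true h, kk_succ_true h]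
      omega

theorem ll_GS {Λ : ℕ → ℕ} (hΛ : StrictMono Λ) (τ : ℕ) : ll (GS Λ) (Λ τ + τ) = Λ τ := by
  have h1 := ll_add_kk (GS Λ) (Λ τ + τ)
  rw [kk_GS hΛ] at h1
  omega

theorem GS_both {Λ : ℕ → ℕ} (hΛ : StrictMono Λ) (b : Bool) (s : ℕ) : ∃ i, s ≤ i ∧ GS Λ i = b := by
  have hm := pos_inj hΛ
  rcases b with _ | _
  · refine ⟨Λ s + s + 1, by omega, ?_⟩
    rw [← Bool.not_eq_true, GS_true]
    rintro ⟨t, ht⟩
    rcases le_or_gt t s with h | h
    · have : Λ t + t ≤ Λ s + s := hm.monotone h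
      omega
    · have h1 := hΛ h
      omega
  · exact ⟨Λ s + s, by omega, GS_true.2 ⟨s, rfl⟩⟩

theorem sub_ineq {Λ Λ' : ℕ → ℕ} (hΛ : StrictMono Λ) (hΛ' : StrictMono Λ')
    (hsub : SubObj (lim (WG (GS Λ'))) (lim (WG (GS Λ)))) :
    ∃ r, ∀ τ, Λ τ ≤ 2 * (Λ' τ + τ + 1 + r) := by
  obtain ⟨W, f, hW, hf, h01, hpos, hrestr⟩ := hsub
  obtain ⟨r, hr⟩ := exists_pow_lt_of_lt_one hpos (show (1 / 2 : ℝ) < 1 by norm_num)
  refine ⟨r, ?_⟩
  intro τ
  set M := 2 ^ τ with hM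
  have hMpos : 0 < M := by positivity
  set D := Λ τ + τ with hD
  set D' := Λ' τ + τ + 1 with hD'
  have hk' : kk (GS Λ') D' = τ + 1 := by
    rw [hD', kk_succ_true (GS_true.2 ⟨τ, rfl⟩), kk_GS hΛ']
  have h1 := lower_clique (GS Λ') (m := 2 * M) (D := D') (by
    rw [hk', hM, pow_succ]
    omega)
  rw [hrestr] at h1
  have h2 := sub_bound W hf h01 hpos (n := 2 * M) ⊤
  have h3 := upper_clique (GS Λ) (2 * M) D
  rw [hW] at h3
  have h4 := clq_card (G := GS Λ) (M := M) D (by rw [kk_GS hΛ])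
  rw [ll_GS hΛ] at h4
  have h5 : ((1 / 2 : ℝ) ^ D) ^ (2 * M) * ((Clq (GS Λ) (2 * M) D).card : ℝ) ≤ (1 / 2) ^ (M * Λ τ) := by
    have h6 : ((Clq (GS Λ) (2 * M) D).card : ℝ) * 2 ^ (M * Λ τ) ≤ 2 ^ (2 * M * D) := by exact_mod_cast h4
    have e1 : ((1 / 2 : ℝ) ^ D) ^ (2 * M) = 1 / 2 ^ (2 * M * D) := by
      rw [← pow_mul, one_div_pow, mul_comm D (2 * M)]
    rw [e1, one_div_pow, div_mul_eq_mul_div, one_mul, div_le_div_iff₀ (by positivity) (by positivity),
      one_mul]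
    exact h6
  have hc : ((1 / 2 : ℝ) ^ r) ^ (2 * M) ≤ (∫ x, f x) ^ (2 * M) :=
    pow_le_pow_left₀ (by positivity) hr.le _
  have h7 : ((1 / 2 : ℝ) ^ D') ^ (2 * M) * ((1 / 2 : ℝ) ^ r) ^ (2 * M) ≤ (1 / 2) ^ (M * Λ τ) := by
    calc ((1 / 2 : ℝ) ^ D') ^ (2 * M) * ((1 / 2 : ℝ) ^ r) ^ (2 * M)
        ≤ restr W f (2 * M) ⊤ * (∫ x, f x) ^ (2 * M) := by
          apply mul_le_mul h1 hc (by positivity)
          exact le_trans (by positivity) h1
      _ ≤ lim W (2 * M) ⊤ := h2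
      _ ≤ _ := le_trans h3 h5
  rw [← pow_mul, ← pow_mul, ← pow_add] at h7
  rw [pow_le_pow_iff_right_of_lt_one₀ (by norm_num) (by norm_num)] at h7
  have e : D' * (2 * M) + r * (2 * M) = M * (2 * (D' + r)) := by ring
  rw [e] at h7
  exact Nat.le_of_mul_le_mul_left h7 hMpos

/-- the block lengths -/
def Lam (a τ : ℕ) : ℕ := τ + ∑ j ∈ Finset.range (τ + 1), if (Nat.unpair j).1 = a then 10 ^ j else 0

theorem Lam_mono (a : ℕ) : StrictMono (Lam a) := by
  apply strictMono_nat_of_lt_succ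
  intro τ
  unfold Lam
  rw [Finset.sum_range_succ _ (τ + 1)]
  omega

theorem Lam_far {a b : ℕ} (hab : a ≠ b) (r : ℕ) : ∃ τ, 2 * (Lam b τ + τ + 1 + r) < Lam a τ := by
  set τ := Nat.pair a (r + 1) with hτ
  refine ⟨τ, ?_⟩
  have hr : r + 1 ≤ τ := Nat.right_le_pair a (r + 1)
  have hun : (Nat.unpair τ).1 = a := by rw [hτ, Nat.unpair_pair]
  have h1 : τ + 10 ^ τ ≤ Lam a τ := by
    unfold Lam
    rw [Finset.sum_range_succ, if_pos hun]
    omega
  have h2 : Lam b τ ≤ τ + ∑ j ∈ Finset.range τ, 10 ^ j := by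
    unfold Lam
    rw [Finset.sum_range_succ, if_neg (by rw [hun]; exact hab), add_zero]
    apply Nat.add_le_add_left
    apply Finset.sum_le_sum
    intro j _
    split_ifs
    · exact le_rfl
    · exact Nat.zero_le _
  have h3 : ∀ t : ℕ, 9 * ∑ j ∈ Finset.range t, 10 ^ j + 1 = 10 ^ t := by
    intro t
    induction t with
    | zero => simp
    | succ t ih =>
      rw [Finset.sum_range_succ, pow_succ]
      omega
  have h4 := h3 τ
  have h5 : ∀ t : ℕ, 1 ≤ t → 10 * t ≤ 10 ^ t := by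
    intro t ht
    induction t, ht using Nat.le_induction with
    | base => norm_num
    | succ t _ ih =>
      rw [pow_succ]
      omega
  have h6 := h5 τ (by omega)
  omega

theorem not_sub {a b : ℕ} (hab : a ≠ b) :
    ¬ SubObj (lim (WG (GS (Lam b)))) (lim (WG (GS (Lam a)))) := by
  intro h
  obtain ⟨r, hr⟩ := sub_ineq (Lam_mono a) (Lam_mono b) h
  obtain ⟨τ, hτ⟩ := Lam_far hab r
  have := hr τ
  omega

end Pool.Agent.Q126.CG
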