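import Pool.Agent.Q126.CG5

set_option autoImplicit false

namespace Pool.Agent.Q126.CG

open MeasureTheory Set

/-! ### graphs from sets of pairs -/

/-- the graph of a set of pairs -/
def gr {N : ℕ} (t : Finset (Fin N × Fin N)) : SimpleGraph (Fin N) where
  Adj i j := i ≠ j ∧ ((i, j) ∈ t ∨ (j, i) ∈ t)
  symm := ⟨fun _ _ h => ⟨h.1.symm, h.2.symm⟩⟩
  loopless := ⟨fun _ h => h.1 rfl⟩

theorem gr_adj {N : ℕ} {t : Finset (Fin N × Fin N)} (ht : t ⊆ pairs N) {p : Fin N × Fin N}
    (hp : p ∈ pairs N) : (gr t).Adj p.1 p.2 ↔ p ∈ t := by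
  have hlt := mem_pairs.1 hp
  constructor
  · rintro ⟨-, h | h⟩
    · exact h
    · have := mem_pairs.1 (ht h)
      exact absurd this (not_lt.2 hlt.le)
  · intro h
    exact ⟨ne_of_lt hlt, Or.inl h⟩

theorem patt_gr (W : Graphon) {N : ℕ} {t : Finset (Fin N × Fin N)} (ht : t ∈ (pairs N).powerset)
    (x : Fin N → unitInterval) :
    patt W (gr t) x = (∏ p ∈ t, W.W (x p.1) (x p.2)) * ∏ p ∈ pairs N \ t, (1 - W.W (x p.1) (x p.2)) := by
  classical
  rw [Finset.mem_powerset] at ht
  unfold patt
  rw [← Finset.prod_sdiff ht, mul_comm]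
  congr 1
  · apply Finset.prod_congr rfl
    intro p hp
    rw [if_pos ((gr_adj ht (ht hp)).2 hp)]
  · apply Finset.prod_congr rfl
    intro p hp
    rw [Finset.mem_sdiff] at hp
    rw [if_neg (fun h => hp.2 ((gr_adj ht hp.1).1 h))]

/-- the patterns are a partition of unity -/
theorem sum_patt (W : Graphon) {N : ℕ} (x : Fin N → unitInterval) :
    ∑ t ∈ (pairs N).powerset, patt W (gr t) x = 1 := by
  rw [Finset.sum_congr rfl (fun t ht => patt_gr W ht x)]
  rw [← Finset.prod_add]
  apply Finset.prod_eq_one
  intro p _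
  ring

theorem patt_ne (W : Graphon) {N : ℕ} {g : SimpleGraph (Fin N)} {x : Fin N → unitInterval}
    (h : patt W g x ≠ 0) {i j : Fin N} (hij : i ≠ j) :
    (g.Adj i j → W.W (x i) (x j) ≠ 0) ∧ (¬ g.Adj i j → 1 - W.W (x i) (x j) ≠ 0) := by
  have key : ∀ i j : Fin N, i < j →
      (g.Adj i j → W.W (x i) (x j) ≠ 0) ∧ (¬ g.Adj i j → 1 - W.W (x i) (x j) ≠ 0) := by
    intro i j hij
    unfold patt at h
    rw [Finset.prod_ne_zero_iff] at h
    have h1 := h (i, j) (mem_pairs.2 hij)
    constructor
    · intro ha
      simpa only [ha, if_true] using h1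
    · intro ha
      simpa only [ha, if_false] using h1
  rcases lt_or_gt_of_ne hij with h' | h'
  · exact key i j h'
  · have := key j i h'
    rw [SimpleGraph.adj_comm, W.symm]
    exact this

/-! ### copies of `H` -/

section
variable {h : ℕ} (H : SimpleGraph (Fin h))

/-- `S` contains an induced copy of `H` in `g` -/
def Copy {N : ℕ} (g : SimpleGraph (Fin N)) (S : Finset (Fin N)) : Prop :=
  ∃ σ : Fin h → Fin N, Function.Injective σ ∧ (∀ v, σ v ∈ S) ∧
    ∀ u v, u ≠ v → (g.Adj (σ u) (σ v) ↔ H.Adj u v)

open Classical in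
/-- largest set without an induced copy of `H` -/
noncomputable def Lm {N : ℕ} (g : SimpleGraph (Fin N)) : ℕ :=
  ((Finset.univ : Finset (Finset (Fin N))).filter (fun S => ¬ Copy H g S)).sup Finset.card

theorem le_Lm {N : ℕ} {g : SimpleGraph (Fin N)} {S : Finset (Fin N)} (hS : ¬ Copy H g S) :
    S.card ≤ Lm H g := by
  classical
  unfold Lm
  exact Finset.le_sup (f := Finset.card) (Finset.mem_filter.2 ⟨Finset.mem_univ _, hS⟩)

theorem Lm_le {N : ℕ} {g : SimpleGraph (Fin N)} {B : ℝ} (hB : 0 ≤ B)
    (hall : ∀ S : Finset (Fin N), ¬ Copy H g S → (S.card : ℝ) ≤ B) : (Lm H g : ℝ) ≤ B := by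
  classical
  have h1 : Lm H g ≤ ⌊B⌋₊ := by
    unfold Lm
    apply Finset.sup_le
    intro S hS
    exact Nat.le_floor (hall S (Finset.mem_filter.1 hS).2)
  exact le_trans (by exact_mod_cast h1) (Nat.floor_le hB)

end

/-! ### coordinates -/

theorem mp_comp {h N : ℕ} {σ : Fin h → Fin N} (hσ : Function.Injective σ) :
    MeasurePreserving (fun x : Fin N → unitInterval => fun v => x (σ v)) volume volume := by
  have hmeas : Measurable (fun x : Fin N → unitInterval => fun v => x (σ v)) :=
    measurable_pi_lambda _ (fun v => measurable_pi_apply _)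
  refine ⟨hmeas, ?_⟩
  symm
  apply Measure.pi_eq
  intro s hs
  rw [Measure.map_apply hmeas (MeasurableSet.univ_pi hs)]
  have e : (fun x : Fin N → unitInterval => fun v => x (σ v)) ⁻¹' (Set.univ.pi s)
      = Set.univ.pi (Function.extend σ s (fun _ => Set.univ)) := by
    ext x
    rw [Set.mem_preimage, Set.mem_univ_pi, Set.mem_univ_pi]
    constructor
    · intro hx j
      by_cases hj : ∃ v, σ v = j
      · obtain ⟨v, rfl⟩ := hj
        rw [hσ.extend_apply]
        exact hx v
      · rw [Function.extend_apply' _ _ _ hj]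
        exact Set.mem_univ _
    · intro hx v
      have := hx (σ v)
      rwa [hσ.extend_apply] at this
  rw [e, volume_pi_pi]
  have h1 : ∏ j : Fin N, (volume : Measure unitInterval) (Function.extend σ s (fun _ => Set.univ) j)
      = ∏ j ∈ Finset.univ.image σ, (volume : Measure unitInterval) (Function.extend σ s (fun _ => Set.univ) j) := by
    symm
    apply Finset.prod_subset (Finset.subset_univ _)
    intro j _ hj
    rw [Function.extend_apply']
    · exact measure_univ
    · rintro ⟨v, rfl⟩
      exact hj (Finset.mem_image_of_mem _ (Finset.mem_univ _))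
  rw [h1, Finset.prod_image (fun a _ b _ hab => hσ hab)]
  apply Finset.prod_congr rfl
  intro v _
  rw [hσ.extend_apply]

open Classical in
/-- the indices of the points with `f > 0` -/
noncomputable def Sx (f : unitInterval → ℝ) {N : ℕ} (x : Fin N → unitInterval) : Finset (Fin N) :=
  Finset.univ.filter (fun i => 0 < f (x i))

theorem mem_Sx {f : unitInterval → ℝ} {N : ℕ} {x : Fin N → unitInterval} {i : Fin N} :
    i ∈ Sx f x ↔ 0 < f (x i) := by
  classical
  unfold Sx
  simp

theorem integral_Sx {f : unitInterval → ℝ} (hf : Measurable f) (N : ℕ) :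
    Integrable (fun x : Fin N → unitInterval => ((Sx f x).card : ℝ)) volume ∧
    ∫ x : Fin N → unitInterval, ((Sx f x).card : ℝ)
      = N * (volume : Measure unitInterval).real {y | 0 < f y} := by
  classical
  have hA : MeasurableSet {y : unitInterval | 0 < f y} := measurableSet_lt measurable_const hf
  set φ : unitInterval → ℝ := Set.indicator {y | 0 < f y} (fun _ => 1) with hφ
  have hφm : Measurable φ := measurable_const.indicator hA
  have hφ0 : ∀ y, 0 ≤ φ y := fun y => Set.indicator_nonneg (fun _ _ => zero_le_one) y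
  have hφ1 : ∀ y, φ y ≤ 1 := fun y => Set.indicator_le_self' (fun _ _ => zero_le_one) y
  have hcard : ∀ x : Fin N → unitInterval, ((Sx f x).card : ℝ) = ∑ i, φ (x i) := by
    intro x
    unfold Sx
    rw [Finset.card_filter]
    push_cast
    apply Finset.sum_congr rfl
    intro i _
    rw [hφ, Set.indicator_apply]
    rfl
  have hint : ∀ i : Fin N, Integrable (fun x : Fin N → unitInterval => φ (x i)) volume := by
    intro i
    exact integrable_bdd (C := 1) (hφm.comp (measurable_pi_apply i)) (fun x => hφ0 _) (fun x => hφ1 _)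
  have hval : ∀ i : Fin N, ∫ x : Fin N → unitInterval, φ (x i)
      = (volume : Measure unitInterval).real {y | 0 < f y} := by
    intro i
    have hmp : MeasurePreserving (Function.eval i : (Fin N → unitInterval) → unitInterval)
        volume volume := measurePreserving_eval (fun _ => volume) i
    have h1 : ∫ x : Fin N → unitInterval, φ (x i)
        = ∫ y, φ y ∂(Measure.map (Function.eval i) (volume : Measure (Fin N → unitInterval))) := by
      rw [integral_map hmp.measurable.aemeasurable hφm.aestronglyMeasurable]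
    rw [h1, hmp.map_eq, hφ, integral_indicator_const (1 : ℝ) hA, smul_eq_mul, mul_one]
  constructor
  · rw [show (fun x : Fin N → unitInterval => ((Sx f x).card : ℝ)) = fun x => ∑ i, φ (x i) from
      funext hcard]
    exact integrable_finsetSum _ (fun i _ => hint i)
  · rw [integral_congr_ae (Filter.Eventually.of_forall hcard),
      integral_finsetSum _ (fun i _ => hint i), Finset.sum_congr rfl (fun i _ => hval i),
      Finset.sum_const, Finset.card_univ, Fintype.card_fin, nsmul_eq_mul]

end Pool.Agent.Q126.CG
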