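import Pool.Agent.Q126.CG6

set_option autoImplicit false

namespace Pool.Agent.Q126.CG

open MeasureTheory Set

/-- number of pairs with equal words -/
def Rp {N : ℕ} {X : Type} [DecidableEq X] (c : Fin N → X) : ℕ :=
  ((Finset.univ : Finset (Fin N × Fin N)).filter (fun p => c p.1 = c p.2)).card

theorem count_pair {N : ℕ} {X : Type} [DecidableEq X] [Fintype X] {i j : Fin N} (hij : i ≠ j) :
    ((Finset.univ : Finset (Fin N → X)).filter (fun c => c i = c j)).card * Fintype.card X
      ≤ (Fintype.card X) ^ N := by
  have h1 : (((Finset.univ : Finset (Fin N → X)).filter (fun c => c i = c j)) ×ˢ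
      (Finset.univ : Finset X)).card ≤ (Finset.univ : Finset (Fin N → X)).card := by
    apply Finset.card_le_card_of_injOn (fun p => Function.update p.1 i p.2)
    · intro _ _
      exact Finset.mem_coe.2 (Finset.mem_univ _)
    · rintro ⟨c, y⟩ hc ⟨d, z⟩ hd hcd
      have hc' := (Finset.mem_filter.1 (Finset.mem_product.1 hc).1).2
      have hd' := (Finset.mem_filter.1 (Finset.mem_product.1 hd).1).2
      simp only at hc' hd' hcd
      have e1 : y = z := by
        have := congrFun hcd i
        simpa using this
      have e2 : ∀ k, k ≠ i → c k = d k := by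
        intro k hk
        have := congrFun hcd k
        simpa [hk] using this
      have e3 : c = d := by
        funext k
        by_cases hk : k = i
        · rw [hk, hc', hd']
          exact e2 j hij.symm
        · exact e2 k hk
      rw [e1, e3]
  rw [Finset.card_product, Finset.card_univ, Finset.card_univ, Fintype.card_fun,
    Fintype.card_fin] at h1
  exact h1

theorem sum_Rp {N : ℕ} {X : Type} [DecidableEq X] [Fintype X] (hX : Fintype.card X = N)
    (hN : 0 < N) : ∑ c : Fin N → X, (Rp c : ℝ) ≤ 2 * N * (N : ℝ) ^ N := by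
  have h1 : ∑ c : Fin N → X, (Rp c : ℝ)
      = ∑ p : Fin N × Fin N, (((Finset.univ : Finset (Fin N → X)).filter (fun c => c p.1 = c p.2)).card : ℝ) := by
    unfold Rp
    simp only [Finset.card_filter]
    push_cast
    rw [Finset.sum_comm]
  rw [h1]
  have hN' : (0 : ℝ) < N := by exact_mod_cast hN
  have h2 : ∀ p : Fin N × Fin N,
      (((Finset.univ : Finset (Fin N → X)).filter (fun c => c p.1 = c p.2)).card : ℝ)
      ≤ (if p.1 = p.2 then (N : ℝ) ^ N else 0) + (N : ℝ) ^ N / N := by
    intro p
    by_cases hp : p.1 = p.2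
    · rw [if_pos hp]
      have h3 : ((Finset.univ : Finset (Fin N → X)).filter (fun c => c p.1 = c p.2)).card
          ≤ N ^ N := by
        refine le_trans (Finset.card_le_univ _) ?_
        rw [Fintype.card_fun, Fintype.card_fin, hX]
      have h4 : (((Finset.univ : Finset (Fin N → X)).filter (fun c => c p.1 = c p.2)).card : ℝ)
          ≤ (N : ℝ) ^ N := by exact_mod_cast h3
      have : (0 : ℝ) ≤ (N : ℝ) ^ N / N := by positivity
      linarith
    · rw [if_neg hp, zero_add, le_div_iff₀ hN']
      have h3 := count_pair (X := X) hp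
      rw [hX] at h3
      exact_mod_cast h3
  refine le_trans (Finset.sum_le_sum (fun p _ => h2 p)) ?_
  rw [Finset.sum_add_distrib, Finset.sum_const, Finset.card_univ, Fintype.card_prod,
    Fintype.card_fin, nsmul_eq_mul]
  have h5 : ∑ p : Fin N × Fin N, (if p.1 = p.2 then (N : ℝ) ^ N else 0) = N * (N : ℝ) ^ N := by
    rw [Fintype.sum_prod_type]
    simp
  rw [h5]
  apply le_of_eq
  push_cast
  field_simp
  ring

theorem set_bound {N : ℕ} {X : Type} [DecidableEq X] (w : Fin N → X) (S : Finset (Fin N)) {a : ℝ}
    (ha : 0 < a) : (S.card : ℝ) ≤ ((S.image w).card : ℝ) / a + a / 4 * (Rp w : ℝ) := by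
  have h1 : (S.card : ℝ) = ∑ c ∈ S.image w, ((S.filter (fun i => w i = c)).card : ℝ) := by
    exact_mod_cast Finset.card_eq_sum_card_image w S
  have h2 : ∑ c ∈ S.image w, (((S.filter (fun i => w i = c)).card : ℝ)) ^ 2 ≤ (Rp w : ℝ) := by
    have h3 : ((S.image w).biUnion (fun c => (S.filter (fun i => w i = c)) ×ˢ
        (S.filter (fun i => w i = c)))).card ≤ Rp w := by
      unfold Rp
      apply Finset.card_le_card
      intro p hp
      rw [Finset.mem_biUnion] at hp
      obtain ⟨c, -, hp⟩ := hp
      rw [Finset.mem_product, Finset.mem_filter, Finset.mem_filter] at hp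
      rw [Finset.mem_filter]
      exact ⟨Finset.mem_univ _, hp.1.2.trans hp.2.2.symm⟩
    rw [Finset.card_biUnion] at h3
    · simp only [Finset.card_product] at h3
      have h4 : ((∑ c ∈ S.image w, (S.filter (fun i => w i = c)).card * (S.filter (fun i => w i = c)).card : ℕ) : ℝ)
          ≤ (Rp w : ℝ) := by exact_mod_cast h3
      push_cast at h4
      simpa [sq] using h4
    · intro c _ d _ hcd
      rw [Function.onFun, Finset.disjoint_left]
      rintro p hp hq
      rw [Finset.mem_product, Finset.mem_filter] at hp hq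
      exact hcd (hp.1.2.symm.trans hq.1.2)
  have h5 : ∀ s : ℝ, s ≤ 1 / a + a / 4 * s ^ 2 := by
    intro s
    have h6 : 1 / a + a / 4 * s ^ 2 - s = (a * s / 2 - 1) ^ 2 / a := by
      field_simp
      ring
    have h7 : 0 ≤ (a * s / 2 - 1) ^ 2 / a := by positivity
    linarith
  calc (S.card : ℝ) = ∑ c ∈ S.image w, ((S.filter (fun i => w i = c)).card : ℝ) := h1
    _ ≤ ∑ c ∈ S.image w, (1 / a + a / 4 * ((S.filter (fun i => w i = c)).card : ℝ) ^ 2) :=
        Finset.sum_le_sum (fun c _ => h5 _)
    _ = ((S.image w).card : ℝ) / a + a / 4 * ∑ c ∈ S.image w, (((S.filter (fun i => w i = c)).card : ℝ)) ^ 2 := by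
        rw [Finset.sum_add_distrib, Finset.sum_const, nsmul_eq_mul, ← Finset.mul_sum]
        ring
    _ ≤ _ := by
        have := mul_le_mul_of_nonneg_left h2 (show 0 ≤ a / 4 by positivity)
        linarith

section
variable {h : ℕ} (H : SimpleGraph (Fin h)) {G : ℕ → Bool}

/-- a set without a copy of `H` meets few cells -/
theorem image_free {N D : ℕ} {g : SimpleGraph (Fin N)} {x : Fin N → unitInterval}
    (hx : patt (WG G) g x ≠ 0) {S : Finset (Fin N)} (hS : ¬ Copy H g S) :
    ¬ Has H G 0 D (S.image (words D x)) Finset.univ := by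
  rintro ⟨φ, h1, h2, h3⟩
  have hex : ∀ v, ∃ i ∈ S, words D x i = φ v := fun v => Finset.mem_image.1 (h1 v (Finset.mem_univ _))
  choose σ hσS hσ using hex
  apply hS
  refine ⟨σ, ?_, hσS, ?_⟩
  · intro u v huv
    apply h2 u (Finset.mem_univ _) v (Finset.mem_univ _)
    rw [← hσ u, ← hσ v, huv]
  · intro u v huv
    have hne : φ u ≠ φ v := fun he => huv (h2 u (Finset.mem_univ _) v (Finset.mem_univ _) he)
    have hne2 : digD D (x (σ u)) ≠ digD D (x (σ v)) := by
      have e1 : digD D (x (σ u)) = φ u := hσ u
      have e2 : digD D (x (σ v)) = φ v := hσ v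
      rw [e1, e2]
      exact hne
    have hne3 : σ u ≠ σ v := fun he => hne2 (by rw [he])
    rw [patt_WG_ne hx _ _ hne3, adj_iff G hne2]
    have e1 : digD D (x (σ u)) = φ u := hσ u
    have e2 : digD D (x (σ v)) = φ v := hσ v
    rw [e1, e2]
    exact h3 u (Finset.mem_univ _) v (Finset.mem_univ _) huv

/-- cographs have positive density in all sub-objects -/
theorem persist (hG : ∀ b : Bool, ∀ s, ∃ i, s ≤ i ∧ G i = b) (hco : CoOn H Finset.univ)
    {W : Graphon} (hW : lim W = lim (WG G)) {f : unitInterval → ℝ} (hf : Measurable f)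
    (h01 : ∀ x, 0 ≤ f x ∧ f x ≤ 1) (hpos : 0 < ∫ x, f x) : 0 < restr W f h H := by
  classical
  by_contra hcon
  push Not at hcon
  have hp0 : ∀ x : Fin h → unitInterval, 0 ≤ ∏ i, f (x i) :=
    fun x => Finset.prod_nonneg (fun i _ => (h01 _).1)
  have hp1 : ∀ x : Fin h → unitInterval, ∏ i, f (x i) ≤ 1 :=
    fun x => Finset.prod_le_one (fun i _ => (h01 _).1) (fun i _ => (h01 _).2)
  have hFm : Measurable (fun x : Fin h → unitInterval => (∏ i, f (x i)) * patt W H x) :=
    (meas_prodf hf h).mul (meas_patt W H)
  have hF0 : ∀ x : Fin h → unitInterval, 0 ≤ (∏ i, f (x i)) * patt W H x :=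
    fun x => mul_nonneg (hp0 x) (patt_nonneg W H x)
  have hFint : Integrable (fun x : Fin h → unitInterval => (∏ i, f (x i)) * patt W H x) volume :=
    integrable_bdd (C := 1) hFm hF0
      (fun x => mul_le_one₀ (hp1 x) (patt_nonneg W H x) (patt_le_one W H x))
  have hnum : ∫ x : Fin h → unitInterval, (∏ i, f (x i)) * patt W H x = 0 := by
    apply le_antisymm
    · by_contra hgt
      push Not at hgt
      have : 0 < restr W f h H := div_pos hgt (by positivity)
      linarith
    · exact integral_nonneg hF0
  have hae : ∀ᵐ y : Fin h → unitInterval, (∏ i, f (y i)) * patt W H y = 0 := by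
    have := (integral_eq_zero_iff_of_nonneg hF0 hFint).1 hnum
    filter_upwards [this] with y hy
    exact hy
  set a := (volume : Measure unitInterval).real {y | 0 < f y} with ha_def
  have ha : 0 < a := by
    rcases lt_or_eq_of_le (show 0 ≤ a from measureReal_nonneg) with h' | h'
    · exact h'
    · exfalso
      have h1 : (volume : Measure unitInterval) {y | 0 < f y} = 0 := by
        rw [ha_def, Measure.real, eq_comm, ENNReal.toReal_eq_zero_iff] at h'
        rcases h' with h' | h'
        · exact h'
        · exact absurd h' (measure_ne_top _ _)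
      have h2 : ∫ x, f x = 0 := by
        have h3 : f =ᵐ[volume] fun _ => 0 := by
          rw [Filter.EventuallyEq, ae_iff]
          rw [← h1]
          congr 1
          ext y
          constructor
          · intro hy
            exact lt_of_le_of_ne (h01 y).1 (Ne.symm hy)
          · intro hy
            exact ne_of_gt hy
        rw [integral_congr_ae h3]
        simp
      linarith
  obtain ⟨D, hD⟩ := bd_cograph H G hG hco 0 (a ^ 2 / 4) (by positivity)
  set N := 2 ^ D with hN
  have hNpos : 0 < N := by positivity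
  have hNr : (0 : ℝ) < N := by exact_mod_cast hNpos
  -- copies
  have hall : ∀ᵐ x : Fin N → unitInterval, ∀ σ : {σ : Fin h → Fin N // Function.Injective σ},
      (∏ i, f (x (σ.1 i))) * patt W H (fun v => x (σ.1 v)) = 0 := by
    rw [ae_all_iff]
    rintro ⟨σ, hσ⟩
    exact (mp_comp hσ).quasiMeasurePreserving.ae hae
  have hfree : ∀ᵐ x : Fin N → unitInterval, ∀ t ∈ (pairs N).powerset,
      patt W (gr t) x ≠ 0 → ¬ Copy H (gr t) (Sx f x) := by
    filter_upwards [hall] with x hx t _ hne hcopy
    obtain ⟨σ, hσ, h1, h2⟩ := hcopy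
    have h3 := hx ⟨σ, hσ⟩
    rcases mul_eq_zero.1 h3 with h4 | h4
    · rw [Finset.prod_eq_zero_iff] at h4
      obtain ⟨i, -, hi⟩ := h4
      have := mem_Sx.1 (h1 i)
      have hi' : f (x (σ i)) = 0 := hi
      linarith
    · unfold patt at h4
      rw [Finset.prod_eq_zero_iff] at h4
      obtain ⟨⟨u, v⟩, hp, h5⟩ := h4
      have huv : u ≠ v := ne_of_lt (mem_pairs.1 hp)
      have hσuv : σ u ≠ σ v := fun he => huv (hσ he)
      have h6 := patt_ne W hne hσuv
      by_cases hadj : H.Adj u v
      · simp only [hadj, if_true] at h5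
        exact h6.1 ((h2 u v huv).2 hadj) h5
      · simp only [hadj, if_false] at h5
        exact h6.2 (fun hh => hadj ((h2 u v huv).1 hh)) h5
  have hpt : ∀ᵐ x : Fin N → unitInterval, ((Sx f x).card : ℝ)
      ≤ ∑ t ∈ (pairs N).powerset, (Lm H (gr t) : ℝ) * patt W (gr t) x := by
    filter_upwards [hfree] with x hx
    calc ((Sx f x).card : ℝ) = ∑ t ∈ (pairs N).powerset, ((Sx f x).card : ℝ) * patt W (gr t) x := by
          rw [← Finset.mul_sum, sum_patt, mul_one]
      _ ≤ _ := by
          apply Finset.sum_le_sum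
          intro t ht
          by_cases hne : patt W (gr t) x = 0
          · rw [hne, mul_zero, mul_zero]
          · apply mul_le_mul_of_nonneg_right _ (patt_nonneg _ _ _)
            exact_mod_cast le_Lm H (hx t ht hne)
  have hintS : ∀ (U : Graphon), Integrable (fun x : Fin N → unitInterval =>
      ∑ t ∈ (pairs N).powerset, (Lm H (gr t) : ℝ) * patt U (gr t) x) volume := by
    intro U
    exact integrable_finsetSum _ (fun t _ => (integrable_patt U _).const_mul _)
  have hvalS : ∀ (U : Graphon), ∫ x : Fin N → unitInterval,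
      ∑ t ∈ (pairs N).powerset, (Lm H (gr t) : ℝ) * patt U (gr t) x
      = ∑ t ∈ (pairs N).powerset, (Lm H (gr t) : ℝ) * lim U N (gr t) := by
    intro U
    rw [integral_finsetSum _ (fun t _ => (integrable_patt U _).const_mul _)]
    apply Finset.sum_congr rfl
    intro t _
    rw [integral_const_mul]
    rfl
  have hSx := integral_Sx hf N
  have h1 : (N : ℝ) * a ≤ ∑ t ∈ (pairs N).powerset, (Lm H (gr t) : ℝ) * lim W N (gr t) := by
    rw [← hSx.2, ← hvalS W]
    exact integral_mono_ae hSx.1 (hintS W) hpt
  rw [hW, ← hvalS (WG G)] at h1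
  -- the bound for the blow-up
  set B : (Fin N → Fin D → Bool) → ℝ := fun c => a / 4 * N + a / 4 * (Rp c : ℝ) with hB
  have hBx : ∀ x : Fin N → unitInterval,
      ∑ t ∈ (pairs N).powerset, (Lm H (gr t) : ℝ) * patt (WG G) (gr t) x ≤ B (words D x) := by
    intro x
    have hB0 : 0 ≤ B (words D x) := by rw [hB]; positivity
    calc ∑ t ∈ (pairs N).powerset, (Lm H (gr t) : ℝ) * patt (WG G) (gr t) x
        ≤ ∑ t ∈ (pairs N).powerset, B (words D x) * patt (WG G) (gr t) x := by
          apply Finset.sum_le_sum
          intro t _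
          by_cases hne : patt (WG G) (gr t) x = 0
          · rw [hne, mul_zero, mul_zero]
          · apply mul_le_mul_of_nonneg_right _ (patt_nonneg _ _ _)
            apply Lm_le H hB0
            intro S hS
            have h2 := hD D le_rfl _ (image_free H (D := D) hne hS)
            have h3 := set_bound (words D x) S ha
            have h4 : ((S.image (words D x)).card : ℝ) / a ≤ a / 4 * N := by
              rw [div_le_iff₀ ha]
              refine le_trans h2 (le_of_eq ?_)
              rw [hN]
              push_cast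
              ring
            rw [hB]
            simp only
            linarith
      _ = B (words D x) := by rw [← Finset.mul_sum, sum_patt, mul_one]
  have h2 : ∫ x : Fin N → unitInterval,
      ∑ t ∈ (pairs N).powerset, (Lm H (gr t) : ℝ) * patt (WG G) (gr t) x
      ≤ ∫ x : Fin N → unitInterval, B (words D x) := by
    apply integral_mono (hintS (WG G)) _ hBx
    have hBm : Measurable (fun x : Fin N → unitInterval => B (words D x)) :=
      (measurable_of_finite B).comp (meas_words N D)
    apply integrable_bdd (C := a / 4 * N + a / 4 * (N * N)) hBm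
    · intro x
      rw [hB]
      positivity
    · intro x
      have h3 : Rp (words D x) ≤ N * N := by
        unfold Rp
        refine le_trans (Finset.card_le_univ _) ?_
        rw [Fintype.card_prod, Fintype.card_fin]
      have h4 : (Rp (words D x) : ℝ) ≤ N * N := by exact_mod_cast h3
      rw [hB]
      have := mul_le_mul_of_nonneg_left h4 (show 0 ≤ a / 4 by positivity)
      simp only
      linarith
  rw [integral_words] at h2
  have hX : Fintype.card (Fin D → Bool) = N := by
    rw [Fintype.card_fun, Fintype.card_bool, Fintype.card_fin]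
  have h3 := sum_Rp (X := Fin D → Bool) hX hNpos
  have h4 : ((1 / 2 : ℝ) ^ D) ^ N = 1 / (N : ℝ) ^ N := by
    rw [hN]
    push_cast
    rw [one_div_pow, one_div_pow]
  have h5 : ∑ c : Fin N → Fin D → Bool, B c = (N : ℝ) ^ N * (a / 4 * N) + a / 4 * ∑ c : Fin N → Fin D → Bool, (Rp c : ℝ) := by
    rw [hB, Finset.sum_add_distrib, Finset.sum_const, ← Finset.mul_sum, Finset.card_univ,
      Fintype.card_fun, hX, Fintype.card_fin, nsmul_eq_mul]
    push_cast
    ring
  rw [h4, h5] at h2
  have hNN : (0 : ℝ) < (N : ℝ) ^ N := by positivity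
  have h6 : 1 / (N : ℝ) ^ N * ((N : ℝ) ^ N * (a / 4 * N) + a / 4 * ∑ c : Fin N → Fin D → Bool, (Rp c : ℝ))
      ≤ 3 / 4 * (a * N) := by
    rw [one_div, inv_mul_le_iff₀ hNN]
    have := mul_le_mul_of_nonneg_left h3 (show 0 ≤ a / 4 by positivity)
    nlinarith
  have h7 : 0 < a * N := by positivity
  linarith

end

end Pool.Agent.Q126.CG
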