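import Mathlib

set_option autoImplicit false

namespace Pool.Agent.Q126.EW

open Finset

/-- the multisets of positive integers with sum `n` -/
def P (n : ℕ) : Finset (Multiset ℕ) :=
  (Finset.univ : Finset (Nat.Partition n)).image Nat.Partition.parts

theorem mem_P {n : ℕ} {m : Multiset ℕ} : m ∈ P n ↔ (∀ i ∈ m, 0 < i) ∧ m.sum = n := by
  unfold P
  rw [Finset.mem_image]
  constructor
  · rintro ⟨p, -, rfl⟩
    exact ⟨fun i hi => p.parts_pos hi, p.parts_sum⟩
  · rintro ⟨h1, h2⟩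
    exact ⟨⟨m, fun {i} hi => h1 i hi, h2⟩, Finset.mem_univ _, rfl⟩

/-- the weight of a multiset -/
noncomputable def wt (f : ℕ → ℝ) (m : Multiset ℕ) : ℝ :=
  ∏ j ∈ m.toFinset, ((f j / j) ^ (m.count j) / ((m.count j).factorial : ℝ))

theorem wt_eq (f : ℕ → ℝ) (m : Multiset ℕ) (s : Finset ℕ) (hs : m.toFinset ⊆ s) :
    wt f m = ∏ j ∈ s, ((f j / j) ^ (m.count j) / ((m.count j).factorial : ℝ)) := by
  unfold wt
  apply Finset.prod_subset hs
  intro j _ hj
  have : m.count j = 0 := by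
    rw [Multiset.count_eq_zero]
    exact fun h => hj (Multiset.mem_toFinset.2 h)
  rw [this]
  simp

theorem wt_cons (f : ℕ → ℝ) {j : ℕ} (hj : 0 < j) (m : Multiset ℕ) :
    wt f (j ::ₘ m) * ((j : ℝ) * ((j ::ₘ m).count j : ℝ)) = f j * wt f m := by
  have hjs : j ∈ insert j m.toFinset := Finset.mem_insert_self _ _
  rw [wt_eq f (j ::ₘ m) (insert j m.toFinset) (by rw [Multiset.toFinset_cons]),
    wt_eq f m (insert j m.toFinset) (Finset.subset_insert _ _)]
  rw [← Finset.mul_prod_erase _ _ hjs, ← Finset.mul_prod_erase _ _ hjs]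
  have h1 : ∏ x ∈ (insert j m.toFinset).erase j,
      ((f x / x) ^ ((j ::ₘ m).count x) / (((j ::ₘ m).count x).factorial : ℝ))
      = ∏ x ∈ (insert j m.toFinset).erase j,
      ((f x / x) ^ (m.count x) / ((m.count x).factorial : ℝ)) := by
    apply Finset.prod_congr rfl
    intro x hx
    have hxj : x ≠ j := Finset.ne_of_mem_erase hx
    rw [Multiset.count_cons_of_ne hxj]
  rw [h1, Multiset.count_cons_self]
  have hj0 : (j : ℝ) ≠ 0 := by positivity
  have hf : ((m.count j).factorial : ℝ) ≠ 0 := by positivity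
  rw [Nat.factorial_succ, pow_succ]
  push_cast
  field_simp

theorem wt_nonneg {f : ℕ → ℝ} (hf : ∀ j, 0 ≤ f j) (m : Multiset ℕ) : 0 ≤ wt f m := by
  unfold wt
  apply Finset.prod_nonneg
  intro j _
  have := hf j
  positivity

/-- total weight of a function on the partitions of `n` -/
noncomputable def Z (f : ℕ → ℝ) (n : ℕ) (Φ : Multiset ℕ → ℝ) : ℝ := ∑ m ∈ P n, Φ m * wt f m

theorem sum_cons (n j : ℕ) (hj : 0 < j) (hjn : j ≤ n) (G : Multiset ℕ → ℝ) :
    ∑ m ∈ (P n).filter (fun m => j ∈ m), G m = ∑ μ ∈ P (n - j), G (j ::ₘ μ) := by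
  apply Finset.sum_bij' (fun m _ => m.erase j) (fun μ _ => j ::ₘ μ)
  · intro m hm
    rw [Finset.mem_filter, mem_P] at hm
    obtain ⟨⟨h1, h2⟩, h3⟩ := hm
    rw [mem_P]
    refine ⟨fun i hi => h1 i (Multiset.mem_of_mem_erase hi), ?_⟩
    have := Multiset.sum_erase h3
    omega
  · intro μ hμ
    rw [mem_P] at hμ
    obtain ⟨h1, h2⟩ := hμ
    rw [Finset.mem_filter, mem_P]
    refine ⟨⟨?_, ?_⟩, Multiset.mem_cons_self _ _⟩
    · intro i hi
      rcases Multiset.mem_cons.1 hi with rfl | hi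
      · exact hj
      · exact h1 i hi
    · rw [Multiset.sum_cons, h2]
      omega
  · intro m hm
    rw [Finset.mem_filter] at hm
    exact Multiset.cons_erase hm.2
  · intro μ _
    exact Multiset.erase_cons_head _ _
  · intro m hm
    rw [Finset.mem_filter] at hm
    rw [Multiset.cons_erase hm.2]

/-- Palm formula -/
theorem palm (f : ℕ → ℝ) (Φ : Multiset ℕ → ℝ) {n j : ℕ} (hj : 0 < j) (hjn : j ≤ n) :
    ∑ m ∈ P n, ((j : ℝ) * (m.count j : ℝ)) * (Φ m * wt f m)
      = f j * Z f (n - j) (fun μ => Φ (j ::ₘ μ)) := by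
  have h1 : ∑ m ∈ P n, ((j : ℝ) * (m.count j : ℝ)) * (Φ m * wt f m)
      = ∑ m ∈ (P n).filter (fun m => j ∈ m), ((j : ℝ) * (m.count j : ℝ)) * (Φ m * wt f m) := by
    symm
    apply Finset.sum_subset (Finset.filter_subset _ _)
    intro m hm hm2
    have : m.count j = 0 := by
      rw [Multiset.count_eq_zero]
      exact fun h => hm2 (Finset.mem_filter.2 ⟨hm, h⟩)
    rw [this]
    simp
  rw [h1, sum_cons n j hj hjn, Z, Finset.mul_sum]
  apply Finset.sum_congr rfl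
  intro μ _
  have := wt_cons f hj μ
  calc ((j : ℝ) * ((j ::ₘ μ).count j : ℝ)) * (Φ (j ::ₘ μ) * wt f (j ::ₘ μ))
      = Φ (j ::ₘ μ) * (wt f (j ::ₘ μ) * ((j : ℝ) * ((j ::ₘ μ).count j : ℝ))) := by ring
    _ = f j * (Φ (j ::ₘ μ) * wt f μ) := by rw [this]; ring

theorem mem_le {n : ℕ} {m : Multiset ℕ} (hm : m ∈ P n) {j : ℕ} (hj : j ∈ m) : j ≤ n := by
  rw [mem_P] at hm
  have := Multiset.single_le_sum (fun x _ => Nat.zero_le x) j hj
  omega

theorem size_eq {n : ℕ} {m : Multiset ℕ} (hm : m ∈ P n) :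
    (n : ℝ) = ∑ j ∈ Finset.Icc 1 n, (j : ℝ) * (m.count j : ℝ) := by
  have h := hm
  rw [mem_P] at h
  have h2 := Finset.sum_multiset_count m
  rw [h.2] at h2
  have h3 : ∑ x ∈ m.toFinset, m.count x • x = ∑ x ∈ Finset.Icc 1 n, m.count x • x := by
    apply Finset.sum_subset
    · intro x hx
      rw [Multiset.mem_toFinset] at hx
      exact Finset.mem_Icc.2 ⟨h.1 x hx, mem_le hm hx⟩
    · intro x _ hx
      have : m.count x = 0 := by
        rw [Multiset.count_eq_zero]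
        exact fun h => hx (Multiset.mem_toFinset.2 h)
      rw [this, zero_smul]
  rw [h3] at h2
  have h4 : (n : ℝ) = ((∑ x ∈ Finset.Icc 1 n, m.count x • x : ℕ) : ℝ) := by
    exact_mod_cast h2
  rw [h4]
  push_cast
  apply Finset.sum_congr rfl
  intro j _
  rw [smul_eq_mul]
  push_cast
  ring

/-- the fundamental recursion -/
theorem recur (f : ℕ → ℝ) (Φ : Multiset ℕ → ℝ) (n : ℕ) :
    (n : ℝ) * Z f n Φ = ∑ j ∈ Finset.Icc 1 n, f j * Z f (n - j) (fun μ => Φ (j ::ₘ μ)) := by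
  have h1 : (n : ℝ) * Z f n Φ
      = ∑ m ∈ P n, ∑ j ∈ Finset.Icc 1 n, ((j : ℝ) * (m.count j : ℝ)) * (Φ m * wt f m) := by
    rw [Z, Finset.mul_sum]
    apply Finset.sum_congr rfl
    intro m hm
    rw [← Finset.sum_mul, ← size_eq hm]
  rw [h1, Finset.sum_comm]
  apply Finset.sum_congr rfl
  intro j hj
  rw [Finset.mem_Icc] at hj
  exact palm f Φ hj.1 hj.2

theorem Z_zero (f : ℕ → ℝ) (Φ : Multiset ℕ → ℝ) : Z f 0 Φ = Φ 0 := by
  have hP : P 0 = {0} := by
    ext m
    rw [mem_P, Finset.mem_singleton]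
    constructor
    · rintro ⟨h1, h2⟩
      rw [Multiset.sum_eq_zero_iff] at h2
      rw [Multiset.eq_zero_iff_forall_notMem]
      intro a ha
      have := h1 a ha
      have := h2 a ha
      omega
    · rintro rfl
      simp
  rw [Z, hP, Finset.sum_singleton]
  simp [wt]

theorem Z_mono {f : ℕ → ℝ} (hf : ∀ j, 0 ≤ f j) {n : ℕ} {Φ Ψ : Multiset ℕ → ℝ}
    (h : ∀ m ∈ P n, Φ m ≤ Ψ m) : Z f n Φ ≤ Z f n Ψ := by
  unfold Z
  apply Finset.sum_le_sum
  intro m hm
  exact mul_le_mul_of_nonneg_right (h m hm) (wt_nonneg hf m)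

theorem Z_nonneg {f : ℕ → ℝ} (hf : ∀ j, 0 ≤ f j) {n : ℕ} {Φ : Multiset ℕ → ℝ}
    (h : ∀ m ∈ P n, 0 ≤ Φ m) : 0 ≤ Z f n Φ := by
  unfold Z
  apply Finset.sum_nonneg
  intro m hm
  exact mul_nonneg (h m hm) (wt_nonneg hf m)

/-- sums for multiplicative functionals -/
theorem recur_one (f : ℕ → ℝ) (n : ℕ) :
    (n : ℝ) * Z f n (fun _ => 1) = ∑ i ∈ Finset.range n, f (n - i) * Z f i (fun _ => 1) := by
  rw [recur]
  apply Finset.sum_bij' (fun j _ => n - j) (fun i _ => n - i)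
  · intro j hj
    rw [Finset.mem_Icc] at hj
    rw [Finset.mem_range]
    omega
  · intro i hi
    rw [Finset.mem_range] at hi
    rw [Finset.mem_Icc]
    omega
  · intro j hj
    rw [Finset.mem_Icc] at hj
    omega
  · intro i hi
    rw [Finset.mem_range] at hi
    omega
  · intro j hj
    rw [Finset.mem_Icc] at hj
    have : n - (n - j) = j := by omega
    rw [this]

end Pool.Agent.Q126.EW
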