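import Pool.Agent.Q126.EW1

set_option autoImplicit false

namespace Pool.Agent.Q126.EW

open Finset

noncomputable def h (α : ℝ) (n : ℕ) : ℝ := Z (fun _ => α) n (fun _ => 1)

theorem h_zero (α : ℝ) : h α 0 = 1 := Z_zero _ _

theorem h_sum (α : ℝ) (n : ℕ) : (n : ℝ) * h α n = ∑ i ∈ Finset.range n, α * h α i :=
  recur_one (fun _ => α) n

theorem h_succ (α : ℝ) (n : ℕ) : ((n : ℝ) + 1) * h α (n + 1) = ((n : ℝ) + α) * h α n := by
  have h1 := h_sum α (n + 1)
  rw [Finset.sum_range_succ, ← h_sum] at h1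
  push_cast at h1
  rw [h1]
  ring

theorem h_pos {α : ℝ} (hα : 0 < α) (n : ℕ) : 0 < h α n := by
  induction n with
  | zero => rw [h_zero]; exact one_pos
  | succ n ih =>
    have h1 := h_succ α n
    have h2 : 0 < ((n : ℝ) + α) * h α n := by positivity
    rw [← h1] at h2
    exact (pos_iff_pos_of_mul_pos h2).1 (by positivity)

theorem h_mono_succ {α : ℝ} (hα : 1 ≤ α) (n : ℕ) : h α n ≤ h α (n + 1) := by
  have h1 := h_succ α n
  have h2 := h_pos (lt_of_lt_of_le one_pos hα) n
  have h3 : ((n : ℝ) + 1) * h α n ≤ ((n : ℝ) + 1) * h α (n + 1) := by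
    rw [h1]
    exact mul_le_mul_of_nonneg_right (by linarith) h2.le
  exact le_of_mul_le_mul_left h3 (by positivity)

theorem h_mono {α : ℝ} (hα : 1 ≤ α) : Monotone (h α) := monotone_nat_of_le_succ (h_mono_succ hα)

theorem nh_mono {α : ℝ} (hα : 1 ≤ α) {m n : ℕ} (hmn : m ≤ n) :
    (m : ℝ) * h α m ≤ (n : ℝ) * h α n := by
  have h1 := h_mono hα hmn
  have h2 := h_pos (lt_of_lt_of_le one_pos hα) m
  have h3 : (m : ℝ) ≤ n := by exact_mod_cast hmn
  exact mul_le_mul h3 h1 h2.le (by positivity)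

theorem h_shift {α : ℝ} (hα : 1 ≤ α) (y k : ℕ) :
    ((y : ℝ) - (α - 1) * k) * h α (y + k) ≤ (y : ℝ) * h α y := by
  induction k with
  | zero => simp
  | succ k ih =>
    refine le_trans ?_ ih
    have h1 := h_succ α (y + k)
    push_cast at h1
    have h2 := h_pos (lt_of_lt_of_le one_pos hα) (y + k)
    have hy : (0 : ℝ) ≤ y := by positivity
    have hk : (0 : ℝ) ≤ k := by positivity
    have h3 : ((y : ℝ) + k + 1) * (((y : ℝ) - (α - 1) * ((k + 1 : ℕ) : ℝ)) * h α (y + (k + 1)))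
        ≤ ((y : ℝ) + k + 1) * (((y : ℝ) - (α - 1) * k) * h α (y + k)) := by
      have e1 : ((y : ℝ) + k + 1) * (((y : ℝ) - (α - 1) * ((k + 1 : ℕ) : ℝ)) * h α (y + (k + 1)))
          = ((y : ℝ) - (α - 1) * (k + 1)) * (((y : ℝ) + k + α) * h α (y + k)) := by
        rw [← h1]
        push_cast
        rw [← add_assoc]
        ring
      rw [e1]
      have e2 : ((y : ℝ) - (α - 1) * (k + 1)) * ((y : ℝ) + k + α)
          ≤ ((y : ℝ) + k + 1) * ((y : ℝ) - (α - 1) * k) := by
        nlinarith [mul_nonneg (mul_nonneg (sub_nonneg.2 hα) hk) (by linarith : (0 : ℝ) ≤ α),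
          mul_nonneg (sub_nonneg.2 hα) hk, mul_nonneg (sub_nonneg.2 hα) (by linarith : (0 : ℝ) ≤ α)]
      calc ((y : ℝ) - (α - 1) * (k + 1)) * (((y : ℝ) + k + α) * h α (y + k))
          = (((y : ℝ) - (α - 1) * (k + 1)) * ((y : ℝ) + k + α)) * h α (y + k) := by ring
        _ ≤ (((y : ℝ) + k + 1) * ((y : ℝ) - (α - 1) * k)) * h α (y + k) :=
            mul_le_mul_of_nonneg_right e2 h2.le
        _ = _ := by ring
    exact le_of_mul_le_mul_left h3 (by positivity)

theorem h_growth {α : ℝ} (hα : 1 ≤ α) {M : ℕ} (hM : α - 1 ≤ M) {a m : ℕ} (ham : a ≤ m) :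
    h α m * ((a : ℝ) + 1) ^ M ≤ h α a * ((m : ℝ) + 1) ^ M := by
  induction m, ham using Nat.le_induction with
  | base => exact le_rfl
  | succ m hm ih =>
    have h1 := h_succ α m
    have hm0 : (0 : ℝ) < (m : ℝ) + 1 := by positivity
    have h2 : h α (m + 1) = ((m : ℝ) + α) / ((m : ℝ) + 1) * h α m := by
      field_simp
      linarith
    have h3 : ((m : ℝ) + α) / ((m : ℝ) + 1) ≤ (((m : ℝ) + 2) / ((m : ℝ) + 1)) ^ M := by
      have hb := one_add_mul_le_pow (a := (1 : ℝ) / ((m : ℝ) + 1)) (by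
        have : (0 : ℝ) ≤ 1 / ((m : ℝ) + 1) := by positivity
        linarith) M
      have e1 : 1 + (1 : ℝ) / ((m : ℝ) + 1) = ((m : ℝ) + 2) / ((m : ℝ) + 1) := by
        field_simp
        ring
      rw [e1] at hb
      refine le_trans ?_ hb
      have e2 : ((m : ℝ) + α) / ((m : ℝ) + 1) = 1 + (α - 1) * (1 / ((m : ℝ) + 1)) := by
        field_simp
        ring
      rw [e2]
      have : (α - 1) * (1 / ((m : ℝ) + 1)) ≤ M * (1 / ((m : ℝ) + 1)) :=
        mul_le_mul_of_nonneg_right hM (by positivity)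
      linarith
    have hpos := h_pos (lt_of_lt_of_le one_pos hα) m
    calc h α (m + 1) * ((a : ℝ) + 1) ^ M
        = ((m : ℝ) + α) / ((m : ℝ) + 1) * (h α m * ((a : ℝ) + 1) ^ M) := by rw [h2]; ring
      _ ≤ (((m : ℝ) + 2) / ((m : ℝ) + 1)) ^ M * (h α a * ((m : ℝ) + 1) ^ M) := by
          apply mul_le_mul h3 ih (by positivity) (by positivity)
      _ = h α a * (((m + 1 : ℕ) : ℝ) + 1) ^ M := by
          rw [div_pow]
          push_cast
          field_simp
          ring

theorem h_ratio {α : ℝ} (hα : 1 ≤ α) {M : ℕ} (hM : α - 1 ≤ M) {a m Q : ℕ} (ham : a ≤ m)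
    (hQ : m + 1 ≤ Q * (a + 1)) : h α m ≤ (Q : ℝ) ^ M * h α a := by
  have h1 := h_growth hα hM ham
  have h2 : ((m : ℝ) + 1) ^ M ≤ ((Q : ℝ) * ((a : ℝ) + 1)) ^ M := by
    apply pow_le_pow_left₀ (by positivity)
    exact_mod_cast hQ
  have h3 := h_pos (lt_of_lt_of_le one_pos hα) a
  have h4 : h α m * ((a : ℝ) + 1) ^ M ≤ ((Q : ℝ) ^ M * h α a) * ((a : ℝ) + 1) ^ M := by
    refine le_trans h1 ?_
    rw [mul_pow] at h2
    calc h α a * ((m : ℝ) + 1) ^ M ≤ h α a * ((Q : ℝ) ^ M * ((a : ℝ) + 1) ^ M) :=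
          mul_le_mul_of_nonneg_left h2 h3.le
      _ = _ := by ring
  exact le_of_mul_le_mul_right h4 (by positivity)

/-- the indicator of the block event: total size of the parts below `A` is below `a` -/
noncomputable def blk (a A : ℕ) (m : Multiset ℕ) : ℝ :=
  if (m.filter (fun x => x < A)).sum < a then 1 else 0

theorem blk_nonneg (a A : ℕ) (m : Multiset ℕ) : 0 ≤ blk a A m := by
  unfold blk
  split_ifs <;> norm_num

theorem blk_cons {a A j : ℕ} (hj : A ≤ j) (m : Multiset ℕ) : blk a A (j ::ₘ m) = blk a A m := by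
  unfold blk
  rw [Multiset.filter_cons_of_neg _ (by omega)]

theorem filter_sum_le (p : ℕ → Prop) [DecidablePred p] (m : Multiset ℕ) :
    (m.filter p).sum ≤ m.sum := by
  have := Multiset.filter_add_not p m
  have h2 : (m.filter p).sum + (m.filter (fun a => ¬ p a)).sum = m.sum := by
    rw [← Multiset.sum_add, this]
  omega

theorem V_small {α : ℝ} {a A i : ℕ} (hi : i < a) :
    Z (fun _ => α) i (blk a A) = h α i := by
  unfold Z h Z
  apply Finset.sum_congr rfl
  intro m hm
  rw [mem_P] at hm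
  have := filter_sum_le (fun x => x < A) m
  unfold blk
  rw [if_pos (by omega)]

theorem V_rec {α : ℝ} (hα : 1 ≤ α) {a A l : ℕ} (hA : 1 ≤ A) (hl : A ≤ l) :
    ∑ i ∈ Finset.range (l - A + 1), α * Z (fun _ => α) i (blk a A)
      ≤ (l : ℝ) * Z (fun _ => α) l (blk a A) := by
  rw [recur]
  have hα0 : 0 ≤ α := by linarith
  have h1 : ∑ j ∈ Finset.Icc A l, α * Z (fun _ => α) (l - j) (fun μ => blk a A (j ::ₘ μ))
      ≤ ∑ j ∈ Finset.Icc 1 l, α * Z (fun _ => α) (l - j) (fun μ => blk a A (j ::ₘ μ)) := by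
    apply Finset.sum_le_sum_of_subset_of_nonneg
    · exact Finset.Icc_subset_Icc hA le_rfl
    · intro j _ _
      apply mul_nonneg hα0
      exact Z_nonneg (fun _ => hα0) (fun m _ => blk_nonneg _ _ _)
  refine le_trans (le_of_eq ?_) h1
  apply Finset.sum_bij' (fun i _ => l - i) (fun j _ => l - j)
  · intro i hi
    rw [Finset.mem_range] at hi
    rw [Finset.mem_Icc]
    omega
  · intro j hj
    rw [Finset.mem_Icc] at hj
    rw [Finset.mem_range]
    omega
  · intro i hi
    rw [Finset.mem_range] at hi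
    omega
  · intro j hj
    rw [Finset.mem_Icc] at hj
    omega
  · intro i hi
    rw [Finset.mem_range] at hi
    have e1 : l - (l - i) = i := by omega
    rw [e1]
    congr 1
    unfold Z
    apply Finset.sum_congr rfl
    intro m _
    show blk a A m * wt (fun _ => α) m = blk a A ((l - i) ::ₘ m) * wt (fun _ => α) m
    rw [blk_cons (by omega)]

theorem block_lower {α : ℝ} (hα : 1 ≤ α) {a A B : ℕ} (ha : 1 ≤ a) (haA : a ≤ A)
    (hB : α * ((A : ℝ) - 1) ≤ B) (l : ℕ) (hl : a + A - 1 ≤ l) :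
    ((a : ℝ) * h α a / (((a + A - 1 + B : ℕ) : ℝ) * h α (a + A - 1 + B))) * h α (l + B)
      ≤ Z (fun _ => α) l (blk a A) := by
  have hα0 : 0 < α := by linarith
  set L := a + A - 1 with hL
  have hLB : (0 : ℝ) < ((L + B : ℕ) : ℝ) := by
    have : 0 < L + B := by omega
    exact_mod_cast this
  have hhLB := h_pos hα0 (L + B)
  set c := (a : ℝ) * h α a / (((L + B : ℕ) : ℝ) * h α (L + B)) with hc
  have hc0 : 0 ≤ c := by
    have := h_pos hα0 a
    positivity
  have hcmul : c * (((L + B : ℕ) : ℝ) * h α (L + B)) = (a : ℝ) * h α a := by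
    rw [hc]
    exact div_mul_cancel₀ _ (by positivity)
  induction l using Nat.strong_induction_on with
  | _ l ih =>
    have hAl : A ≤ l := by omega
    have hA1 : 1 ≤ A := by omega
    have h1 := V_rec (a := a) hα hA1 hAl
    have hV0 : ∀ i, 0 ≤ Z (fun _ => α) i (blk a A) :=
      fun i => Z_nonneg (fun _ => hα0.le) (fun m _ => blk_nonneg _ _ _)
    -- split the sum
    have hsub : Finset.range a ∪ Finset.Ico L (l - A + 1) ⊆ Finset.range (l - A + 1) := by
      intro i hi
      rw [Finset.mem_union, Finset.mem_range, Finset.mem_Ico] at hi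
      rw [Finset.mem_range]
      omega
    have hdisj : Disjoint (Finset.range a) (Finset.Ico L (l - A + 1)) := by
      rw [Finset.disjoint_left]
      intro i hi hi2
      rw [Finset.mem_range] at hi
      rw [Finset.mem_Ico] at hi2
      omega
    have h2 : ∑ i ∈ Finset.range a, α * Z (fun _ => α) i (blk a A)
        + ∑ i ∈ Finset.Ico L (l - A + 1), α * Z (fun _ => α) i (blk a A)
        ≤ ∑ i ∈ Finset.range (l - A + 1), α * Z (fun _ => α) i (blk a A) := by
      rw [← Finset.sum_union hdisj]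
      apply Finset.sum_le_sum_of_subset_of_nonneg hsub
      intro i _ _
      exact mul_nonneg hα0.le (hV0 i)
    have h3 : ∑ i ∈ Finset.range a, α * Z (fun _ => α) i (blk a A) = (a : ℝ) * h α a := by
      rw [h_sum]
      apply Finset.sum_congr rfl
      intro i hi
      rw [Finset.mem_range] at hi
      rw [V_small hi]
    have h4 : c * ∑ i ∈ Finset.Ico L (l - A + 1), α * h α (i + B)
        ≤ ∑ i ∈ Finset.Ico L (l - A + 1), α * Z (fun _ => α) i (blk a A) := by
      rw [Finset.mul_sum]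
      apply Finset.sum_le_sum
      intro i hi
      rw [Finset.mem_Ico] at hi
      have := ih i (by omega) (by omega)
      calc c * (α * h α (i + B)) = α * (c * h α (i + B)) := by ring
        _ ≤ _ := mul_le_mul_of_nonneg_left this hα0.le
    set y := l - A + 1 + B with hy
    have h5 : (y : ℝ) * h α y - ((L + B : ℕ) : ℝ) * h α (L + B)
        ≤ ∑ i ∈ Finset.Ico L (l - A + 1), α * h α (i + B) := by
      rcases le_or_gt L (l - A + 1) with hle | hgt
      · have e1 : ∑ i ∈ Finset.Ico L (l - A + 1), α * h α (i + B)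
            = ∑ i ∈ Finset.Ico (L + B) y, α * h α i := by
          rw [Finset.sum_Ico_add' (fun i => α * h α i) L (l - A + 1) B]
        rw [e1, Finset.sum_Ico_eq_sub _ (by omega), ← h_sum, ← h_sum]
      · rw [Finset.Ico_eq_empty (by omega), Finset.sum_empty]
        have := nh_mono hα (show y ≤ L + B by omega)
        linarith
    have h6 : c * ((y : ℝ) * h α y) ≤ (l : ℝ) * Z (fun _ => α) l (blk a A) := by
      have h7 := mul_le_mul_of_nonneg_left h5 hc0
      rw [mul_sub, hcmul] at h7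
      linarith
    have h8 := h_shift hα y (A - 1)
    have e2 : y + (A - 1) = l + B := by omega
    rw [e2] at h8
    have h9 : (l : ℝ) ≤ (y : ℝ) - (α - 1) * ((A - 1 : ℕ) : ℝ) := by
      have e3 : ((y : ℕ) : ℝ) = (l : ℝ) - A + 1 + B := by
        rw [hy]
        push_cast [Nat.cast_sub hAl]
        ring
      rw [e3, Nat.cast_sub hA1]
      push_cast
      nlinarith
    have h10 : (l : ℝ) * h α (l + B) ≤ (y : ℝ) * h α y :=
      le_trans (mul_le_mul_of_nonneg_right h9 (h_pos hα0 _).le) h8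
    have h11 : (l : ℝ) * (c * h α (l + B)) ≤ (l : ℝ) * Z (fun _ => α) l (blk a A) := by
      refine le_trans ?_ h6
      calc (l : ℝ) * (c * h α (l + B)) = c * ((l : ℝ) * h α (l + B)) := by ring
        _ ≤ _ := mul_le_mul_of_nonneg_left h10 hc0
    have hl0 : (0 : ℝ) < l := by
      have : 0 < l := by omega
      exact_mod_cast this
    exact le_of_mul_le_mul_left h11 hl0

theorem block_prob {α : ℝ} (hα : 1 ≤ α) {K : ℕ} (hK : α ≤ K) {a A n : ℕ} (ha : 1 ≤ a)
    (haA : a ≤ A) (hA2 : A ≤ 2 * a) (hn : a + A - 1 ≤ n) :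
    (1 / ((3 + 2 * K : ℕ) : ℝ) ^ (K + 1)) * h α n ≤ Z (fun _ => α) n (blk a A) := by
  have hα0 : 0 < α := by linarith
  have hB : α * ((A : ℝ) - 1) ≤ ((K * A : ℕ) : ℝ) := by
    push_cast
    have hA1 : (1 : ℝ) ≤ A := by
      have : 1 ≤ A := by omega
      exact_mod_cast this
    nlinarith
  have h1 := block_lower hα ha haA hB n hn
  refine le_trans ?_ h1
  have hnB : h α n ≤ h α (n + K * A) := h_mono hα (by omega)
  have hQ : (0 : ℝ) < ((3 + 2 * K : ℕ) : ℝ) := by positivity
  apply mul_le_mul ?_ hnB (h_pos hα0 n).le ?_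
  · have hKA := Nat.mul_le_mul_left K hA2
    have hKe : (3 + 2 * K) * a = 3 * a + K * (2 * a) := by ring
    have hL : a + A - 1 + K * A ≤ (3 + 2 * K) * a := by
      rw [hKe]
      omega
    have hLpos : 0 < a + A - 1 + K * A := by
      have : 0 < a + A - 1 := by omega
      omega
    have h2 := h_ratio (M := K) hα (by linarith) (a := a) (m := a + A - 1 + K * A)
      (Q := 3 + 2 * K) (by
        have : a ≤ a + A - 1 := by omega
        omega) (by
        have hKe2 : (3 + 2 * K) * (a + 1) = (3 + 2 * K) * a + (3 + 2 * K) := by ring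
        rw [hKe2]
        omega)
    have h3 : ((a + A - 1 + K * A : ℕ) : ℝ) ≤ ((3 + 2 * K : ℕ) : ℝ) * a := by exact_mod_cast hL
    have hapos : (0 : ℝ) < a := by exact_mod_cast ha
    have hha := h_pos hα0 a
    have hLpos' : (0 : ℝ) < ((a + A - 1 + K * A : ℕ) : ℝ) := by exact_mod_cast hLpos
    rw [div_le_div_iff₀ (by positivity) (mul_pos hLpos' (h_pos hα0 _))]
    calc 1 * (((a + A - 1 + K * A : ℕ) : ℝ) * h α (a + A - 1 + K * A))
        ≤ (((3 + 2 * K : ℕ) : ℝ) * a) * (((3 + 2 * K : ℕ) : ℝ) ^ K * h α a) := by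
          rw [one_mul]
          exact mul_le_mul h3 h2 (h_pos hα0 _).le (by positivity)
      _ = (a : ℝ) * h α a * ((3 + 2 * K : ℕ) : ℝ) ^ (K + 1) := by
          rw [pow_succ]
          ring
  · have := h_pos hα0 a
    have := h_pos hα0 (a + A - 1 + K * A)
    positivity

end Pool.Agent.Q126.EW
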