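import Pool.Agent.Q126.EW2

set_option autoImplicit false

namespace Pool.Agent.Q126.EW

open Finset

/-- exactly one part equal to `q`, and all other parts are not divisible by `q` -/
def One (q : ℕ) (m : Multiset ℕ) : Prop := m.count q = 1 ∧ ∀ x ∈ m, q ∣ x → x = q

open Classical in
noncomputable def ind (p : Multiset ℕ → Prop) (m : Multiset ℕ) : ℝ := if p m then 1 else 0

theorem ind_nonneg (p : Multiset ℕ → Prop) (m : Multiset ℕ) : 0 ≤ ind p m := by
  unfold ind
  split_ifs <;> norm_num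

theorem ind_le_one (p : Multiset ℕ → Prop) (m : Multiset ℕ) : ind p m ≤ 1 := by
  unfold ind
  split_ifs <;> norm_num

theorem ind_pos {p : Multiset ℕ → Prop} {m : Multiset ℕ} (h : p m) : ind p m = 1 := by
  unfold ind
  rw [if_pos h]

theorem ind_neg {p : Multiset ℕ → Prop} {m : Multiset ℕ} (h : ¬ p m) : ind p m = 0 := by
  unfold ind
  rw [if_neg h]

/-- no part divisible by `q` -/
def Free (q : ℕ) (m : Multiset ℕ) : Prop := ∀ x ∈ m, ¬ q ∣ x

theorem one_eq {q : ℕ} (m : Multiset ℕ) :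
    (m.count q : ℝ) * ind (fun m => Free q (m.erase q)) m = ind (One q) m := by
  by_cases hq : q ∈ m
  · by_cases hf : Free q (m.erase q)
    · have h1 : m.count q = 1 := by
        have h2 : (m.erase q).count q = 0 := by
          rw [Multiset.count_eq_zero]
          intro h
          exact hf q h (dvd_refl q)
        have h3 := Multiset.count_erase_self q m
        have h4 : 0 < m.count q := Multiset.count_pos.2 hq
        omega
      have h2 : One q m := by
        refine ⟨h1, ?_⟩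
        intro x hx hqx
        by_contra hne
        exact hf x ((Multiset.mem_erase_of_ne hne).2 hx) hqx
      rw [ind_pos (p := fun m => Free q (m.erase q)) hf, ind_pos h2, h1]
      norm_num
    · have h2 : ¬ One q m := by
        rintro ⟨h1, h3⟩
        apply hf
        intro x hx hqx
        have hxm := Multiset.mem_of_mem_erase hx
        have hxq := h3 x hxm hqx
        rw [hxq] at hx
        have h4 : 0 < (m.erase q).count q := Multiset.count_pos.2 hx
        have h3 := Multiset.count_erase_self q m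
        omega
      rw [ind_neg (p := fun m => Free q (m.erase q)) hf, ind_neg h2, mul_zero]
  · have h1 : m.count q = 0 := Multiset.count_eq_zero.2 hq
    have h2 : ¬ One q m := by
      rintro ⟨h3, -⟩
      omega
    rw [ind_neg h2, h1]
    simp

theorem free_lower (q : ℕ) {n : ℕ} {m : Multiset ℕ} (hm : m ∈ P n) :
    1 - ∑ x ∈ (Finset.Icc 1 n).filter (fun x => q ∣ x), (m.count x : ℝ) ≤ ind (Free q) m := by
  by_cases hf : Free q m
  · rw [ind_pos hf]
    have : 0 ≤ ∑ x ∈ (Finset.Icc 1 n).filter (fun x => q ∣ x), (m.count x : ℝ) :=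
      Finset.sum_nonneg (fun _ _ => by positivity)
    linarith
  · rw [ind_neg hf]
    unfold Free at hf
    push Not at hf
    obtain ⟨x, hx, hqx⟩ := hf
    have hxs : x ∈ (Finset.Icc 1 n).filter (fun x => q ∣ x) := by
      rw [Finset.mem_filter, Finset.mem_Icc]
      exact ⟨⟨(mem_P.1 hm).1 x hx, mem_le hm hx⟩, hqx⟩
    have h1 := Finset.single_le_sum (f := fun x => (m.count x : ℝ))
      (fun _ _ => by positivity) hxs
    have h2 : (1 : ℝ) ≤ (m.count x : ℝ) := by
      have : 0 < m.count x := Multiset.count_pos.2 hx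
      exact_mod_cast this
    have h3 := le_trans h2 h1
    linarith

theorem Z_count {α : ℝ} {x n : ℕ} (hx : 0 < x) (hxn : x ≤ n) :
    Z (fun _ => α) n (fun m => (m.count x : ℝ)) = (α / x) * h α (n - x) := by
  have h1 := palm (fun _ => α) (fun _ => 1) hx hxn
  have hx0 : (x : ℝ) ≠ 0 := by positivity
  have h2 : (x : ℝ) * Z (fun _ => α) n (fun m => (m.count x : ℝ)) = α * h α (n - x) := by
    unfold h
    rw [← h1]
    unfold Z
    rw [Finset.mul_sum]
    apply Finset.sum_congr rfl
    intro m _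
    ring
  field_simp
  linarith

theorem card_mult {q n : ℕ} (hq : 0 < q) : ((Finset.Icc 1 n).filter (fun x => q ∣ x)).card ≤ n / q := by
  have h1 : (Finset.Icc 1 n).filter (fun x => q ∣ x) ⊆ (Finset.Icc 1 (n / q)).image (fun i => q * i) := by
    intro x hx
    rw [Finset.mem_filter, Finset.mem_Icc] at hx
    obtain ⟨⟨h1, h2⟩, c, rfl⟩ := hx
    rw [Finset.mem_image]
    refine ⟨c, ?_, rfl⟩
    rw [Finset.mem_Icc]
    refine ⟨?_, ?_⟩
    · rcases Nat.eq_zero_or_pos c with rfl | h
      · simp at h1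
      · exact h
    · rw [Nat.le_div_iff_mul_le hq]
      linarith [mul_comm q c]
  refine le_trans (Finset.card_le_card h1) ?_
  refine le_trans Finset.card_image_le ?_
  rw [Nat.card_Icc, Nat.add_sub_cancel]

theorem Z_sub (f : ℕ → ℝ) (n : ℕ) (Φ Ψ : Multiset ℕ → ℝ) :
    Z f n (fun m => Φ m - Ψ m) = Z f n Φ - Z f n Ψ := by
  unfold Z
  rw [← Finset.sum_sub_distrib]
  apply Finset.sum_congr rfl
  intro m _
  ring

theorem Z_sum (f : ℕ → ℝ) (n : ℕ) {ι : Type*} (s : Finset ι) (Φ : ι → Multiset ℕ → ℝ) :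
    Z f n (fun m => ∑ i ∈ s, Φ i m) = ∑ i ∈ s, Z f n (Φ i) := by
  unfold Z
  rw [Finset.sum_comm]
  apply Finset.sum_congr rfl
  intro m _
  rw [Finset.sum_mul]

theorem Z_smul (f : ℕ → ℝ) (n : ℕ) (c : ℝ) (Φ : Multiset ℕ → ℝ) :
    Z f n (fun m => c * Φ m) = c * Z f n Φ := by
  unfold Z
  rw [Finset.mul_sum]
  apply Finset.sum_congr rfl
  intro m _
  ring

theorem free_prob {α : ℝ} (hα : 1 ≤ α) {q n : ℕ} (hq : 0 < q) (hn : n < 7 * q)
    (hqα : 12 * α ≤ q) : h α n / 2 ≤ Z (fun _ => α) n (ind (Free q)) := by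
  have hα0 : 0 < α := by linarith
  have hq0 : (0 : ℝ) < q := by exact_mod_cast hq
  set s := (Finset.Icc 1 n).filter (fun x => q ∣ x) with hs
  have h1 : Z (fun _ => α) n (fun m => 1 - ∑ x ∈ s, (m.count x : ℝ))
      ≤ Z (fun _ => α) n (ind (Free q)) :=
    Z_mono (fun _ => hα0.le) (fun m hm => free_lower q hm)
  rw [Z_sub, Z_sum] at h1
  have h2 : ∑ x ∈ s, Z (fun _ => α) n (fun m => (m.count x : ℝ)) ≤ ∑ x ∈ s, (α / q) * h α n := by
    apply Finset.sum_le_sum
    intro x hx
    rw [hs, Finset.mem_filter, Finset.mem_Icc] at hx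
    have hxq : q ≤ x := Nat.le_of_dvd hx.1.1 hx.2
    rw [Z_count hx.1.1 hx.1.2]
    apply mul_le_mul
    · apply div_le_div_of_nonneg_left hα0.le hq0
      exact_mod_cast hxq
    · exact h_mono hα (by omega)
    · exact (h_pos hα0 _).le
    · positivity
  rw [Finset.sum_const, nsmul_eq_mul] at h2
  have h3 : s.card ≤ 6 := by
    have h30 : s.card ≤ n / q := card_mult (n := n) hq
    have h4 : n / q < 7 := by
      rw [Nat.div_lt_iff_lt_mul hq]
      exact hn
    exact Nat.le_of_lt_succ (lt_of_le_of_lt h30 h4)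
  have h4 : (s.card : ℝ) * ((α / q) * h α n) ≤ 6 * ((α / q) * h α n) := by
    apply mul_le_mul_of_nonneg_right
    · exact_mod_cast h3
    · have := h_pos hα0 n
      positivity
  have h5 : α / q ≤ 1 / 12 := by
    rw [div_le_div_iff₀ hq0 (by norm_num)]
    linarith
  have h6 : 6 * ((α / q) * h α n) ≤ h α n / 2 := by
    have := h_pos hα0 n
    nlinarith
  have h7 : Z (fun _ => α) n (fun _ => 1) = h α n := rfl
  rw [h7] at h1
  linarith

theorem one_prob {α : ℝ} (hα : 1 ≤ α) {K : ℕ} (hK : α ≤ K) {q n : ℕ} (hq : 0 < q)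
    (hn : n < 8 * q) (hn2 : 2 * q ≤ n) (hqα : 12 * α ≤ q) :
    (1 / ((n : ℝ) * 2 ^ K)) * h α n ≤ Z (fun _ => α) n (ind (One q)) := by
  have hα0 : 0 < α := by linarith
  have hq0 : (0 : ℝ) < q := by exact_mod_cast hq
  have h1 := palm (fun _ => α) (ind (fun m => Free q (m.erase q))) hq (show q ≤ n by omega)
  have h2 : ∑ m ∈ P n, ((q : ℝ) * (m.count q : ℝ)) *
      (ind (fun m => Free q (m.erase q)) m * wt (fun _ => α) m)
      = (q : ℝ) * Z (fun _ => α) n (ind (One q)) := by
    unfold Z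
    rw [Finset.mul_sum]
    apply Finset.sum_congr rfl
    intro m _
    rw [← one_eq]
    ring
  have h3 : Z (fun _ => α) (n - q) (fun μ => ind (fun m => Free q (m.erase q)) (q ::ₘ μ))
      = Z (fun _ => α) (n - q) (ind (Free q)) := by
    unfold Z
    apply Finset.sum_congr rfl
    intro m _
    have : ind (fun m => Free q (m.erase q)) (q ::ₘ m) = ind (Free q) m := by
      have hiff : Free q ((q ::ₘ m).erase q) ↔ Free q m := by rw [Multiset.erase_cons_head]
      by_cases hf : Free q m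
      · rw [ind_pos hf, ind_pos (p := fun m => Free q (m.erase q)) (hiff.2 hf)]
      · rw [ind_neg hf, ind_neg (p := fun m => Free q (m.erase q)) (fun h => hf (hiff.1 h))]
    show ind (fun m => Free q (m.erase q)) (q ::ₘ m) * wt (fun _ => α) m = _
    rw [this]
  rw [h2, h3] at h1
  have h4 := free_prob hα (n := n - q) hq (by omega) hqα
  have h5 := h_ratio hα (M := K) (by linarith) (a := n - q) (m := n) (Q := 2) (by omega) (by omega)
  have hn0 : (0 : ℝ) < n := by
    have : 0 < n := by omega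
    exact_mod_cast this
  have h6 : (0 : ℝ) < 2 ^ K := by positivity
  have h7 : (2 * q : ℝ) ≤ n := by exact_mod_cast hn2
  have hh := h_pos hα0 n
  have hh2 := h_pos hα0 (n - q)
  have h8 : (q : ℝ) * ((1 / ((n : ℝ) * 2 ^ K)) * h α n) ≤ α * (h α (n - q) / 2) := by
    have e1 : (q : ℝ) * ((1 / ((n : ℝ) * 2 ^ K)) * h α n) = (q / n) * (h α n / 2 ^ K) := by
      field_simp
    rw [e1]
    have e2 : (q : ℝ) / n ≤ 1 / 2 := by
      rw [div_le_div_iff₀ hn0 (by norm_num)]
      linarith
    have e3 : h α n / 2 ^ K ≤ h α (n - q) := by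
      rw [div_le_iff₀ h6]
      push_cast at h5
      linarith
    calc (q / n : ℝ) * (h α n / 2 ^ K) ≤ (1 / 2) * h α (n - q) :=
          mul_le_mul e2 e3 (by positivity) (by norm_num)
      _ ≤ α * (h α (n - q) / 2) := by nlinarith
  have h9 : (q : ℝ) * ((1 / ((n : ℝ) * 2 ^ K)) * h α n) ≤ (q : ℝ) * Z (fun _ => α) n (ind (One q)) := by
    rw [h1]
    refine le_trans h8 ?_
    exact mul_le_mul_of_nonneg_left h4 hα0.le
  exact le_of_mul_le_mul_left h9 hq0

theorem msum_le {s m : Multiset ℕ} (h : s ≤ m) : s.sum ≤ m.sum := by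
  obtain ⟨t, rfl⟩ := Multiset.le_iff_exists_add.1 h
  rw [Multiset.sum_add]
  omega

/-- some `q ∈ Q` occurs exactly once and divides no other part -/
def Good (Q : Finset ℕ) (m : Multiset ℕ) : Prop := ∃ q ∈ Q, One q m

theorem good_lower {Q : Finset ℕ} {n : ℕ} (hQ : ∀ q ∈ Q, n < 8 * q) {m : Multiset ℕ}
    (hm : m ∈ P n) : (1 / 8) * ∑ q ∈ Q, ind (One q) m ≤ ind (Good Q) m := by
  classical
  by_cases hg : Good Q m
  · rw [ind_pos hg]
    have h1 : ∑ q ∈ Q, ind (One q) m ≤ ((Q.filter (fun q => q ∈ m)).card : ℝ) := by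
      rw [Finset.card_filter]
      push_cast
      apply Finset.sum_le_sum
      intro q _
      by_cases hq : q ∈ m
      · rw [if_pos hq]
        exact ind_le_one _ _
      · rw [if_neg hq, ind_neg]
        rintro ⟨h1, -⟩
        have := Multiset.count_eq_zero.2 hq
        omega
    have h2 : (Q.filter (fun q => q ∈ m)).card ≤ 8 := by
      by_contra hcon
      push Not at hcon
      have h3 : (Q.filter (fun q => q ∈ m)).val ≤ m := by
        rw [Multiset.le_iff_subset (Finset.nodup _)]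
        intro x hx
        have hx' : x ∈ Q.filter (fun q => q ∈ m) := hx
        exact (Finset.mem_filter.1 hx').2
      have h4 : ∑ x ∈ Q.filter (fun q => q ∈ m), x ≤ m.sum := by
        rw [Finset.sum_eq_multiset_sum, Multiset.map_id']
        exact msum_le h3
      rw [(mem_P.1 hm).2] at h4
      have h5 : ∑ x ∈ Q.filter (fun q => q ∈ m), 1 * n ≤ ∑ x ∈ Q.filter (fun q => q ∈ m), 8 * x := by
        apply Finset.sum_le_sum
        intro x hx
        have := hQ x (Finset.mem_filter.1 hx).1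
        omega
      rw [Finset.sum_const, ← Finset.mul_sum, smul_eq_mul, one_mul] at h5
      rcases Nat.eq_zero_or_pos n with rfl | hn
      · -- n = 0
        obtain ⟨q, hq, h1, -⟩ := hg
        have hqm : q ∈ m := Multiset.count_pos.1 (by omega)
        have h6 := mem_le hm hqm
        have h7 := (mem_P.1 hm).1 q hqm
        omega
      · nlinarith
    have h3 : ((Q.filter (fun q => q ∈ m)).card : ℝ) ≤ 8 := by exact_mod_cast h2
    linarith
  · rw [ind_neg hg]
    have : ∑ q ∈ Q, ind (One q) m = 0 := by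
      apply Finset.sum_eq_zero
      intro q hq
      apply ind_neg
      intro h
      exact hg ⟨q, hq, h⟩
    rw [this, mul_zero]

theorem good_prob {α : ℝ} (hα : 1 ≤ α) {K : ℕ} (hK : α ≤ K) {Q : Finset ℕ} {n : ℕ}
    (hQ : ∀ q ∈ Q, n < 8 * q ∧ 2 * q ≤ n ∧ 12 * α ≤ q) :
    ((Q.card : ℝ) / (8 * (n : ℝ) * 2 ^ K)) * h α n ≤ Z (fun _ => α) n (ind (Good Q)) := by
  have hα0 : 0 < α := by linarith
  have h1 : Z (fun _ => α) n (fun m => (1 / 8) * ∑ q ∈ Q, ind (One q) m)
      ≤ Z (fun _ => α) n (ind (Good Q)) :=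
    Z_mono (fun _ => hα0.le) (fun m hm => good_lower (fun q hq => (hQ q hq).1) hm)
  rw [Z_smul, Z_sum] at h1
  refine le_trans ?_ h1
  have h2 : ∑ q ∈ Q, (1 / ((n : ℝ) * 2 ^ K)) * h α n ≤ ∑ q ∈ Q, Z (fun _ => α) n (ind (One q)) := by
    apply Finset.sum_le_sum
    intro q hq
    obtain ⟨h3, h4, h5⟩ := hQ q hq
    have hq0 : 0 < q := by omega
    exact one_prob hα hK hq0 h3 h4 h5
  rw [Finset.sum_const, nsmul_eq_mul] at h2
  have e1 : ((Q.card : ℝ) / (8 * (n : ℝ) * 2 ^ K)) * h α n
      = (1 / 8) * ((Q.card : ℝ) * ((1 / ((n : ℝ) * 2 ^ K)) * h α n)) := by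
    rcases Nat.eq_zero_or_pos n with rfl | hn
    · simp
    · have hn0 : (0 : ℝ) < n := by exact_mod_cast hn
      field_simp
  rw [e1]
  exact mul_le_mul_of_nonneg_left h2 (by norm_num)

end Pool.Agent.Q126.EW
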