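import Pool.Agent.Q126.EW3

set_option autoImplicit false

namespace Pool.Agent.Q126.EW

open Finset

/-- all cycle lengths, including fixed points -/
def typ {n : ℕ} (σ : Equiv.Perm (Fin n)) : Multiset ℕ :=
  σ.cycleType + Multiset.replicate (n - σ.support.card) 1

theorem typ_mem {n : ℕ} (σ : Equiv.Perm (Fin n)) : typ σ ∈ P n := by
  rw [mem_P]
  constructor
  · intro i hi
    rcases Multiset.mem_add.1 hi with h | h
    · have := Equiv.Perm.two_le_of_mem_cycleType h
      omega
    · rw [Multiset.eq_of_mem_replicate h]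
      exact one_pos
  · unfold typ
    rw [Multiset.sum_add, Equiv.Perm.sum_cycleType, Multiset.sum_replicate]
    have : σ.support.card ≤ Fintype.card (Fin n) := Finset.card_le_univ _
    rw [Fintype.card_fin] at this
    rw [smul_eq_mul]
    omega

theorem typ_filter {n : ℕ} (σ : Equiv.Perm (Fin n)) :
    (typ σ).filter (fun x => 2 ≤ x) = σ.cycleType := by
  unfold typ
  rw [Multiset.filter_add]
  have h1 : σ.cycleType.filter (fun x => 2 ≤ x) = σ.cycleType := by
    rw [Multiset.filter_eq_self]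
    intro a ha
    exact Equiv.Perm.two_le_of_mem_cycleType ha
  have h2 : (Multiset.replicate (n - σ.support.card) 1).filter (fun x => 2 ≤ x) = 0 := by
    rw [Multiset.filter_eq_nil]
    intro a ha
    rw [Multiset.eq_of_mem_replicate ha]
    omega
  rw [h1, h2, add_zero]

theorem part_eq {n : ℕ} {m : Multiset ℕ} (hm : m ∈ P n) :
    m = m.filter (fun x => 2 ≤ x) + Multiset.replicate (n - (m.filter (fun x => 2 ≤ x)).sum) 1 := by
  have h1 := Multiset.filter_add_not (fun x => 2 ≤ x) m
  have h2 : m.filter (fun x => ¬ 2 ≤ x) = Multiset.replicate (m.filter (fun x => ¬ 2 ≤ x)).card 1 := by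
    rw [Multiset.eq_replicate]
    refine ⟨rfl, ?_⟩
    intro b hb
    rw [Multiset.mem_filter] at hb
    have := (mem_P.1 hm).1 b hb.1
    omega
  have h3 : (m.filter (fun x => ¬ 2 ≤ x)).sum = (m.filter (fun x => ¬ 2 ≤ x)).card := by
    conv_lhs => rw [h2]
    rw [Multiset.sum_replicate, smul_eq_mul, mul_one]
  have h4 : (m.filter (fun x => 2 ≤ x)).sum + (m.filter (fun x => ¬ 2 ≤ x)).sum = n := by
    rw [← Multiset.sum_add, h1, (mem_P.1 hm).2]
  have h5 : n - (m.filter (fun x => 2 ≤ x)).sum = (m.filter (fun x => ¬ 2 ≤ x)).card := by omega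
  rw [h5, ← h2, h1]

theorem typ_eq_iff {n : ℕ} {m : Multiset ℕ} (hm : m ∈ P n) (σ : Equiv.Perm (Fin n)) :
    typ σ = m ↔ σ.cycleType = m.filter (fun x => 2 ≤ x) := by
  constructor
  · intro h
    rw [← h, typ_filter]
  · intro h
    have h1 := part_eq hm
    rw [← h] at h1
    rw [h1]
    unfold typ
    rw [Equiv.Perm.sum_cycleType]

theorem count_typ {n : ℕ} {m : Multiset ℕ} (hm : m ∈ P n) :
    ((Finset.univ : Finset (Equiv.Perm (Fin n))).filter (fun σ => typ σ = m)).card
      * ∏ j ∈ m.toFinset, (j ^ (m.count j) * (m.count j).factorial) = n.factorial := by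
  set m' := m.filter (fun x => 2 ≤ x) with hm'
  have h1 := Equiv.Perm.card_of_cycleType_mul_eq (Fin n) m'
  have hsum : m'.sum ≤ n := by
    have := filter_sum_le (fun x => 2 ≤ x) m
    rw [(mem_P.1 hm).2] at this
    exact this
  have h2 : ∀ a ∈ m', 2 ≤ a := fun a ha => (Multiset.mem_filter.1 ha).2
  rw [Fintype.card_fin, if_pos ⟨hsum, h2⟩] at h1
  have h3 : (Finset.univ : Finset (Equiv.Perm (Fin n))).filter (fun σ => typ σ = m)
      = (Finset.univ : Finset (Equiv.Perm (Fin n))).filter (fun σ => σ.cycleType = m') := by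
    apply Finset.filter_congr
    intro σ _
    exact typ_eq_iff hm σ
  rw [h3, ← h1]
  congr 1
  have hone : (1 : ℕ) ∉ m'.toFinset := by
    intro h
    have := h2 1 (Multiset.mem_toFinset.1 h)
    omega
  have hcount : ∀ j, j ≠ 1 → m.count j = m'.count j := by
    intro j hj
    have e := part_eq hm
    rw [← hm'] at e
    rw [e, Multiset.count_add, Multiset.count_replicate, if_neg (Ne.symm hj), add_zero]
  have hcount1 : m.count 1 = n - m'.sum := by
    have e := part_eq hm
    rw [← hm'] at e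
    have e2 : m'.count 1 = 0 := by
      rw [Multiset.count_eq_zero]
      exact fun h => hone (Multiset.mem_toFinset.2 h)
    conv_lhs => rw [e]
    rw [Multiset.count_add, Multiset.count_replicate_self, e2, zero_add]
  have hsub : m.toFinset ⊆ insert 1 m'.toFinset := by
    intro x hx
    rw [Multiset.mem_toFinset] at hx
    rw [Finset.mem_insert, Multiset.mem_toFinset]
    by_cases hx1 : x = 1
    · exact Or.inl hx1
    · right
      have := (mem_P.1 hm).1 x hx
      rw [hm', Multiset.mem_filter]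
      exact ⟨hx, by omega⟩
  have h4 : ∏ j ∈ m.toFinset, (j ^ (m.count j) * (m.count j).factorial)
      = ∏ j ∈ insert 1 m'.toFinset, (j ^ (m.count j) * (m.count j).factorial) := by
    apply Finset.prod_subset hsub
    intro j _ hj
    have : m.count j = 0 := by
      rw [Multiset.count_eq_zero]
      exact fun h => hj (Multiset.mem_toFinset.2 h)
    rw [this]
    simp
  rw [h4, Finset.prod_insert hone, hcount1, one_pow, one_mul, Finset.prod_multiset_count m',
    mul_assoc, ← Finset.prod_mul_distrib]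
  congr 1
  apply Finset.prod_congr rfl
  intro j hj
  have hj1 : j ≠ 1 := fun h => hone (h ▸ hj)
  rw [hcount j hj1]

theorem count_wt {n : ℕ} {m : Multiset ℕ} (hm : m ∈ P n) (f : ℕ → ℝ) :
    (((Finset.univ : Finset (Equiv.Perm (Fin n))).filter (fun σ => typ σ = m)).card : ℝ)
      * (m.map f).prod = (n.factorial : ℝ) * wt f m := by
  have h1 := count_typ hm
  have h2 : (((Finset.univ : Finset (Equiv.Perm (Fin n))).filter (fun σ => typ σ = m)).card : ℝ)
      * ∏ j ∈ m.toFinset, ((j : ℝ) ^ (m.count j) * ((m.count j).factorial : ℝ))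
      = (n.factorial : ℝ) := by
    exact_mod_cast h1
  rw [← h2, mul_assoc, Finset.prod_multiset_map_count]
  congr 1
  unfold wt
  rw [← Finset.prod_mul_distrib]
  apply Finset.prod_congr rfl
  intro j hj
  have hj0 : 0 < j := (mem_P.1 hm).1 j (Multiset.mem_toFinset.1 hj)
  have hj1 : (j : ℝ) ≠ 0 := by positivity
  rw [div_pow]
  field_simp

/-- sums over permutations are sums over partitions -/
theorem sum_perm (n : ℕ) (f : ℕ → ℝ) (Φ : Multiset ℕ → ℝ) :
    ∑ σ : Equiv.Perm (Fin n), Φ (typ σ) * ((typ σ).map f).prod = (n.factorial : ℝ) * Z f n Φ := by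
  rw [← Finset.sum_fiberwise_of_maps_to (g := fun σ => typ σ) (t := P n)
    (fun σ _ => typ_mem σ), Z, Finset.mul_sum]
  apply Finset.sum_congr rfl
  intro m hm
  have h1 : ∑ σ ∈ (Finset.univ : Finset (Equiv.Perm (Fin n))).filter (fun σ => typ σ = m),
      Φ (typ σ) * ((typ σ).map f).prod
      = ∑ σ ∈ (Finset.univ : Finset (Equiv.Perm (Fin n))).filter (fun σ => typ σ = m),
      Φ m * (m.map f).prod := by
    apply Finset.sum_congr rfl
    intro σ hσ
    rw [(Finset.mem_filter.1 hσ).2]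
  rw [h1, Finset.sum_const, nsmul_eq_mul]
  have := count_wt hm f
  calc _ = Φ m * ((((Finset.univ : Finset (Equiv.Perm (Fin n))).filter (fun σ => typ σ = m)).card : ℝ)
      * (m.map f).prod) := by ring
    _ = _ := by rw [this]; ring

theorem fact_h (α : ℝ) (n : ℕ) :
    (n.factorial : ℝ) * h α n = ∏ i ∈ Finset.range n, (α + i) := by
  induction n with
  | zero => simp [h_zero]
  | succ n ih =>
    rw [Finset.prod_range_succ, ← ih, Nat.factorial_succ]
    have := h_succ α n
    push_cast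
    calc ((n : ℝ) + 1) * (n.factorial : ℝ) * h α (n + 1)
        = (n.factorial : ℝ) * (((n : ℝ) + 1) * h α (n + 1)) := by ring
      _ = _ := by rw [this]; ring

/-- number of cycles, fixed points included -/
def cyc {n : ℕ} (σ : Equiv.Perm (Fin n)) : ℕ := (typ σ).card

/-- Ewens weights -/
noncomputable def ew (α : ℝ) (n : ℕ) (σ : Equiv.Perm (Fin n)) : ℝ :=
  α ^ (cyc σ) / ∏ i ∈ Finset.range n, (α + i)

theorem ew_sum {α : ℝ} (hα : 0 < α) (n : ℕ) (Φ : Multiset ℕ → ℝ) :
    ∑ σ : Equiv.Perm (Fin n), Φ (typ σ) * ew α n σ = Z (fun _ => α) n Φ / h α n := by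
  have h1 := sum_perm n (fun _ => α) Φ
  have h2 : ∑ σ : Equiv.Perm (Fin n), Φ (typ σ) * ew α n σ
      = (∑ σ : Equiv.Perm (Fin n), Φ (typ σ) * ((typ σ).map (fun _ => α)).prod)
        / ∏ i ∈ Finset.range n, (α + i) := by
    rw [Finset.sum_div]
    apply Finset.sum_congr rfl
    intro σ _
    unfold ew cyc
    rw [Multiset.map_const', Multiset.prod_replicate]
    ring
  rw [h2, h1, ← fact_h]
  have h3 := h_pos hα n
  have h4 : (n.factorial : ℝ) ≠ 0 := by positivity
  field_simp

theorem ew_nonneg {α : ℝ} (hα : 0 < α) {n : ℕ} (σ : Equiv.Perm (Fin n)) : 0 ≤ ew α n σ := by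
  unfold ew
  apply div_nonneg (by positivity)
  apply Finset.prod_nonneg
  intro i _
  positivity

theorem ew_total {α : ℝ} (hα : 0 < α) (n : ℕ) : ∑ σ : Equiv.Perm (Fin n), ew α n σ = 1 := by
  have h1 := ew_sum hα n (fun _ => 1)
  simp only [one_mul] at h1
  rw [h1]
  have h3 := h_pos hα n
  exact div_self h3.ne'

/-! ### parity -/

noncomputable def fs (α : ℝ) (j : ℕ) : ℝ := -(α * (-1) ^ j)

theorem zs_succ (α : ℝ) (n : ℕ) :
    ((n : ℝ) + 1) * Z (fs α) (n + 1) (fun _ => 1) = (α - n) * Z (fs α) n (fun _ => 1) := by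
  have h1 := recur_one (fs α) (n + 1)
  rw [Finset.sum_range_succ] at h1
  have h2 : ∑ x ∈ Finset.range n, fs α (n + 1 - x) * Z (fs α) x (fun _ => 1)
      = - ∑ x ∈ Finset.range n, fs α (n - x) * Z (fs α) x (fun _ => 1) := by
    rw [← Finset.sum_neg_distrib]
    apply Finset.sum_congr rfl
    intro x hx
    rw [Finset.mem_range] at hx
    have e : n + 1 - x = (n - x) + 1 := by omega
    rw [e]
    unfold fs
    rw [pow_succ]
    ring
  rw [h2, ← recur_one] at h1
  have e : n + 1 - n = 1 := by omega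
  rw [e] at h1
  have e2 : fs α 1 = α := by unfold fs; ring
  rw [e2] at h1
  push_cast at h1
  rw [h1]
  ring

theorem zs_bound {α : ℝ} (hα : 1 ≤ α) (n : ℕ) :
    |Z (fs α) (n + 2) (fun _ => 1)| ≤ ((α - 1) / (α + 1)) * h α (n + 2) := by
  have hα1 : 0 < α + 1 := by linarith
  induction n with
  | zero =>
    have z0 : Z (fs α) 0 (fun _ => 1) = 1 := Z_zero _ _
    have z1 := zs_succ α 0
    have z2 := zs_succ α 1
    have h0 := h_zero α
    have h1 := h_succ α 0
    have h2 := h_succ α 1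
    norm_num at z1 z2 h1 h2
    rw [z0] at z1
    rw [h0] at h1
    have e1 : Z (fs α) 2 (fun _ => 1) = (α - 1) * α / 2 := by
      rw [z1] at z2
      linarith
    have e2 : h α 2 = (α + 1) * α / 2 := by
      rw [h1] at h2
      linarith
    show |Z (fs α) 2 (fun _ => 1)| ≤ ((α - 1) / (α + 1)) * h α 2
    rw [e1, e2]
    rw [abs_of_nonneg (by
      have : 0 ≤ (α - 1) * α := mul_nonneg (by linarith) (by linarith)
      linarith)]
    apply le_of_eq
    field_simp
  | succ n ih =>
    have z1 := zs_succ α (n + 2)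
    have h1 := h_succ α (n + 2)
    have hn : (0 : ℝ) < ((n + 2 : ℕ) : ℝ) + 1 := by positivity
    have e1 : |Z (fs α) (n + 2 + 1) (fun _ => 1)| * (((n + 2 : ℕ) : ℝ) + 1)
        = |α - ((n + 2 : ℕ) : ℝ)| * |Z (fs α) (n + 2) (fun _ => 1)| := by
      rw [← abs_mul, ← z1, abs_mul, abs_of_pos hn, mul_comm]
    have e2 : |α - ((n + 2 : ℕ) : ℝ)| ≤ ((n + 2 : ℕ) : ℝ) + α := by
      rw [abs_le]
      constructor <;> linarith [(Nat.cast_nonneg (n + 2) : (0 : ℝ) ≤ ((n + 2 : ℕ) : ℝ))]
    have hc : 0 ≤ (α - 1) / (α + 1) := div_nonneg (by linarith) hα1.le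
    have hh := h_pos (lt_of_lt_of_le one_pos hα) (n + 2)
    have e3 : |Z (fs α) (n + 2 + 1) (fun _ => 1)| * (((n + 2 : ℕ) : ℝ) + 1)
        ≤ (((α - 1) / (α + 1)) * h α (n + 2 + 1)) * (((n + 2 : ℕ) : ℝ) + 1) := by
      rw [e1]
      calc |α - ((n + 2 : ℕ) : ℝ)| * |Z (fs α) (n + 2) (fun _ => 1)|
          ≤ (((n + 2 : ℕ) : ℝ) + α) * (((α - 1) / (α + 1)) * h α (n + 2)) := by
            apply mul_le_mul e2 ih (abs_nonneg _)
            positivity
        _ = ((α - 1) / (α + 1)) * ((((n + 2 : ℕ) : ℝ) + α) * h α (n + 2)) := by ring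
        _ = _ := by rw [← h1]; ring
    have e4 := le_of_mul_le_mul_right e3 hn
    exact e4

theorem sign_prod {n : ℕ} (α : ℝ) (σ : Equiv.Perm (Fin n)) :
    ((typ σ).map (fs α)).prod = α ^ (cyc σ) * ((Equiv.Perm.sign σ : ℤ) : ℝ) := by
  have h1 : ∀ m : Multiset ℕ, (m.map (fs α)).prod
      = α ^ m.card * (((m.map (fun k => -(-1 : ℤˣ) ^ k)).prod : ℤ) : ℝ) := by
    intro m
    induction m using Multiset.induction_on with
    | empty => simp
    | cons a s ih =>
      rw [Multiset.map_cons, Multiset.prod_cons, ih, Multiset.map_cons, Multiset.prod_cons,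
        Multiset.card_cons, pow_succ]
      unfold fs
      push_cast
      ring
  rw [h1]
  unfold cyc
  congr 3
  rw [Equiv.Perm.sign_of_cycleType']
  unfold typ
  rw [Multiset.map_add, Multiset.prod_add, Multiset.map_replicate, Multiset.prod_replicate]
  norm_num

theorem even_prob {α : ℝ} (hα : 1 ≤ α) {n : ℕ} (hn : 2 ≤ n) :
    ∑ σ : Equiv.Perm (Fin n), (if Equiv.Perm.sign σ = 1 then (1 : ℝ) else 0) * ew α n σ
      ≤ α / (α + 1) := by
  have hα0 : 0 < α := by linarith
  obtain ⟨k, rfl⟩ : ∃ k, n = k + 2 := ⟨n - 2, by omega⟩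
  have h1 : ∀ σ : Equiv.Perm (Fin (k + 2)),
      (if Equiv.Perm.sign σ = 1 then (1 : ℝ) else 0) * ew α (k + 2) σ
      = (1 / 2) * ew α (k + 2) σ
        + (1 / 2) * (((typ σ).map (fs α)).prod / ∏ i ∈ Finset.range (k + 2), (α + i)) := by
    intro σ
    rw [sign_prod]
    unfold ew
    rcases Int.units_eq_one_or (Equiv.Perm.sign σ) with h | h
    · rw [if_pos h, h]
      push_cast
      ring
    · rw [if_neg (by rw [h]; decide), h]
      push_cast
      ring
  rw [Finset.sum_congr rfl (fun σ _ => h1 σ), Finset.sum_add_distrib, ← Finset.mul_sum,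
    ← Finset.mul_sum, ew_total hα0, ← Finset.sum_div]
  have h2 := sum_perm (k + 2) (fs α) (fun _ => 1)
  simp only [one_mul] at h2
  rw [h2, ← fact_h]
  have hb := zs_bound hα k
  have hh := h_pos hα0 (k + 2)
  have hf : (0 : ℝ) < ((k + 2).factorial : ℝ) := by positivity
  have h3 : ((k + 2).factorial : ℝ) * Z (fs α) (k + 2) (fun _ => 1)
      / (((k + 2).factorial : ℝ) * h α (k + 2)) ≤ (α - 1) / (α + 1) := by
    rw [mul_div_mul_left _ _ hf.ne', div_le_iff₀ hh]
    exact le_trans (le_abs_self _) hb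
  have hα1 : 0 < α + 1 := by linarith
  have e : α / (α + 1) = 1 / 2 * 1 + 1 / 2 * ((α - 1) / (α + 1)) := by
    field_simp
    ring
  rw [e]
  linarith

end Pool.Agent.Q126.EW
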