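import Pool.Agent.Q126.EW4
import Pool.Agent.Helper999.HMJordan

set_option autoImplicit false

namespace Pool.Agent.Q126.EW

open Finset

theorem sub_typ {n : ℕ} (σ : Equiv.Perm (Fin n)) (T : Finset (Fin n))
    (hT : ∀ x, σ x ∈ T ↔ x ∈ T) : ∃ m' ≤ typ σ, m'.sum = T.card := by
  classical
  set σ1 : Equiv.Perm (Fin n) := Equiv.Perm.ofSubtype (σ.subtypePerm (p := fun x => x ∈ T) hT) with hσ1
  have hin : ∀ x, x ∈ T → σ1 x = σ x := by
    intro x hx
    rw [hσ1, Equiv.Perm.ofSubtype_apply_of_mem _ hx]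
    rfl
  have hout : ∀ x, x ∉ T → σ1 x = x := by
    intro x hx
    rw [hσ1, Equiv.Perm.ofSubtype_apply_of_not_mem _ hx]
  have hdisj : Equiv.Perm.Disjoint σ1 (σ1⁻¹ * σ) := by
    intro x
    by_cases hx : x ∈ T
    · right
      rw [Equiv.Perm.mul_apply, Equiv.Perm.inv_eq_iff_eq, hin x hx]
    · left
      exact hout x hx
  have hmul : σ = σ1 * (σ1⁻¹ * σ) := by group
  have hct : σ.cycleType = σ1.cycleType + (σ1⁻¹ * σ).cycleType := by
    conv_lhs => rw [hmul]
    exact hdisj.cycleType_mul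
  have hsup : σ1.support ⊆ T := by
    intro x hx
    by_contra hxT
    rw [Equiv.Perm.mem_support] at hx
    exact hx (hout x hxT)
  have hsup2 : T \ σ1.support ⊆ σ.supportᶜ := by
    intro x hx
    rw [Finset.mem_sdiff] at hx
    rw [Finset.mem_compl, Equiv.Perm.mem_support, not_not]
    have := hx.2
    rw [Equiv.Perm.mem_support, not_not, hin x hx.1] at this
    exact this
  have hc1 : T.card - σ1.support.card ≤ n - σ.support.card := by
    have := Finset.card_le_card hsup2
    rw [Finset.card_sdiff_of_subset hsup, Finset.card_compl, Fintype.card_fin] at this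
    exact this
  have hc2 := Finset.card_le_card hsup
  refine ⟨σ1.cycleType + Multiset.replicate (T.card - σ1.support.card) 1, ?_, ?_⟩
  · unfold typ
    apply add_le_add
    · rw [hct]
      exact Multiset.le_add_right _ _
    · rw [Multiset.replicate_le_replicate]
      exact hc1
  · rw [Multiset.sum_add, Equiv.Perm.sum_cycleType, Multiset.sum_replicate, smul_eq_mul]
    omega

theorem block_no_set {n : ℕ} (σ : Equiv.Perm (Fin n)) {a A : ℕ}
    (hσ : ((typ σ).filter (fun x => x < A)).sum < a) (T : Finset (Fin n))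
    (hT : ∀ x, σ x ∈ T ↔ x ∈ T) (h1 : a ≤ T.card) (h2 : T.card < A) : False := by
  obtain ⟨m', hm', hs⟩ := sub_typ σ T hT
  have h3 : m' ≤ (typ σ).filter (fun x => x < A) := by
    rw [Multiset.le_filter]
    refine ⟨hm', ?_⟩
    intro x hx
    have := Multiset.single_le_sum (fun x _ => Nat.zero_le x) x hx
    omega
  have h4 := msum_le h3
  omega

theorem one_pow {n : ℕ} (σ : Equiv.Perm (Fin n)) {q : ℕ} (hq : q.Prime) (h : One q (typ σ)) :
    ∃ k : ℕ, (σ ^ k).cycleType = {q} := by
  classical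
  obtain ⟨h1, h2⟩ := h
  have hq2 := hq.two_le
  have hmem : q ∈ σ.cycleType := by
    have h3 : q ∈ typ σ := Multiset.count_pos.1 (by omega)
    rw [← typ_filter σ, Multiset.mem_filter]
    exact ⟨h3, hq2⟩
  rw [Equiv.Perm.mem_cycleType_iff] at hmem
  obtain ⟨c, τ, hστ, hdisj, hc, hcs⟩ := hmem
  have hct : σ.cycleType = c.cycleType + τ.cycleType := by
    rw [hστ]
    exact hdisj.cycleType_mul
  have hcc : c.cycleType = {q} := by rw [hc.cycleType, hcs]
  have hτ : ∀ x ∈ τ.cycleType, ¬ q ∣ x := by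
    intro x hx hqx
    have hx2 : x ∈ typ σ := by
      unfold typ
      rw [Multiset.mem_add, hct, Multiset.mem_add]
      exact Or.inl (Or.inr hx)
    have hxq := h2 x hx2 hqx
    rw [hxq] at hx
    have h4 : 2 ≤ (typ σ).count q := by
      unfold typ
      rw [Multiset.count_add, hct, Multiset.count_add, hcc]
      have h5 : 0 < τ.cycleType.count q := Multiset.count_pos.2 hx
      have h6 : Multiset.count q {q} = 1 := Multiset.count_singleton_self q
      omega
    omega
  have hcop : ¬ q ∣ orderOf τ := by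
    rw [← Equiv.Perm.lcm_cycleType]
    intro hd
    have h5 : ∀ m : Multiset ℕ, (∀ x ∈ m, ¬ q ∣ x) → ¬ q ∣ m.lcm := by
      intro m
      induction m using Multiset.induction_on with
      | empty =>
        intro _ h
        rw [Multiset.lcm_zero] at h
        exact hq.one_lt.ne' (Nat.dvd_one.1 h)
      | cons a s ih =>
        intro hall h
        rw [Multiset.lcm_cons] at h
        have h7 : GCDMonoid.lcm a s.lcm ∣ a * s.lcm := by
          apply _root_.lcm_dvd
          · exact dvd_mul_right _ _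
          · exact dvd_mul_left _ _
        rcases (hq.dvd_mul).1 (h.trans h7) with h8 | h8
        · exact hall a (Multiset.mem_cons_self _ _) h8
        · exact ih (fun x hx => hall x (Multiset.mem_cons_of_mem hx)) h8
    exact h5 _ hτ hd
  refine ⟨orderOf τ, ?_⟩
  have hcomm : Commute c τ := hdisj.commute
  rw [hστ, hcomm.mul_pow, pow_orderOf_eq_one, mul_one]
  have hoc : orderOf c = q := by rw [hc.orderOf, hcs]
  have hop : orderOf (c ^ orderOf τ) = q := by
    rw [orderOf_pow, hoc]
    have : q.gcd (orderOf τ) = 1 := (Nat.Prime.coprime_iff_not_dvd hq).2 hcop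
    rw [this, Nat.div_one]
  have hcyc : (c ^ orderOf τ).cycleType = {q} := by
    have h1 : (c ^ orderOf τ).IsCycle := by
      apply Equiv.Perm.isCycle_of_prime_order
      · rw [hop]; exact hq
      · have h9 : (c ^ orderOf τ).support ⊆ c.support := Equiv.Perm.support_pow_le c _
        have h10 := Finset.card_le_card h9
        rw [hop]
        rw [hcs] at h10
        omega
    rw [h1.cycleType, ← h1.orderOf, hop]
  exact hcyc

/-- invariable generation -/
def InvGen {n N : ℕ} (σ : Fin N → Equiv.Perm (Fin n)) : Prop :=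
  ∀ τ : Fin N → Equiv.Perm (Fin n),
    Subgroup.closure (Set.range (fun i => τ i * σ i * (τ i)⁻¹)) = ⊤

theorem invGen_of {n N : ℕ} (hn : n.Prime) (σ : Fin N → Equiv.Perm (Fin n))
    (h1 : ∀ k, 1 ≤ k → 2 * k ≤ n → ∃ i, ∀ T : Finset (Fin n), T.card = k →
      ¬ (∀ x, σ i x ∈ T ↔ x ∈ T))
    (h2 : ∃ i, ∃ q : ℕ, q.Prime ∧ 2 * q ≤ n ∧ ∃ k : ℕ, ((σ i) ^ k).cycleType = {q})
    (h3 : ∃ i, Equiv.Perm.sign (σ i) ≠ 1) : InvGen σ := by
  classical
  intro τ
  set L := Subgroup.closure (Set.range (fun i => τ i * σ i * (τ i)⁻¹)) with hL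
  have hmem : ∀ i, τ i * σ i * (τ i)⁻¹ ∈ L := fun i => Subgroup.subset_closure ⟨i, rfl⟩
  -- invariant sets
  have hinv : ∀ T : Finset (Fin n), (∀ g ∈ L, ∀ x, g x ∈ T ↔ x ∈ T) → T.Nonempty →
      ¬ (2 * T.card ≤ n) := by
    intro T hT hne hcard
    obtain ⟨i, hi⟩ := h1 T.card (Finset.card_pos.2 hne) hcard
    apply hi (T.map ((τ i)⁻¹).toEmbedding) (Finset.card_map _)
    intro x
    have e : ∀ y, y ∈ T.map ((τ i)⁻¹).toEmbedding ↔ τ i y ∈ T := by
      intro y
      rw [Finset.mem_map_equiv]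
      exact Iff.rfl
    rw [e, e, ← hT _ (hmem i) (τ i x)]
    have : (τ i * σ i * (τ i)⁻¹) (τ i x) = τ i (σ i x) := by
      simp [Equiv.Perm.mul_apply]
    rw [this]
  have htrans : MulAction.IsPretransitive L (Fin n) := by
    constructor
    intro x y
    by_contra hcon
    push Not at hcon
    set O : Finset (Fin n) := Finset.univ.filter (fun z => ∃ g : L, g • x = z) with hO
    have hOinv : ∀ g ∈ L, ∀ z, g z ∈ O ↔ z ∈ O := by
      intro g hg z
      rw [hO, Finset.mem_filter, Finset.mem_filter]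
      constructor
      · rintro ⟨-, g', hg'⟩
        refine ⟨Finset.mem_univ _, (⟨g, hg⟩ : L)⁻¹ * g', ?_⟩
        rw [mul_smul, hg']
        show (g⁻¹ : Equiv.Perm (Fin n)) (g z) = z
        exact g.symm_apply_apply z
      · rintro ⟨-, g', hg'⟩
        refine ⟨Finset.mem_univ _, (⟨g, hg⟩ : L) * g', ?_⟩
        rw [mul_smul, hg']
        rfl
    have hx : x ∈ O := by
      rw [hO, Finset.mem_filter]
      exact ⟨Finset.mem_univ _, 1, one_smul _ _⟩
    have hy : y ∉ O := by
      rw [hO, Finset.mem_filter]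
      rintro ⟨-, g, hg⟩
      exact hcon g hg
    have hcinv : ∀ g ∈ L, ∀ z, g z ∈ Oᶜ ↔ z ∈ Oᶜ := by
      intro g hg z
      rw [Finset.mem_compl, Finset.mem_compl, hOinv g hg z]
    have c1 := hinv O hOinv ⟨x, hx⟩
    have c2 := hinv Oᶜ hcinv ⟨y, Finset.mem_compl.2 hy⟩
    rw [Finset.card_compl, Fintype.card_fin] at c2
    omega
  have hprim : MulAction.IsPreprimitive L (Fin n) := by
    apply MulAction.IsPreprimitive.of_prime_card
    rw [Nat.card_eq_fintype_card, Fintype.card_fin]
    exact hn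
  have halt : alternatingGroup (Fin n) ≤ L := by
    obtain ⟨i, q, hq, hqn, k, hk⟩ := h2
    apply Helper999.HM.alt_le_of_qCyc hprim hq (w := (τ i * σ i * (τ i)⁻¹) ^ k)
      (Subgroup.pow_mem _ (hmem i) k)
    · unfold Helper999.HM.QCyc
      have e : (τ i * σ i * (τ i)⁻¹) ^ k = τ i * (σ i) ^ k * (τ i)⁻¹ := conj_pow
      rw [e, Equiv.Perm.cycleType_conj, hk]
    · rw [Nat.card_eq_fintype_card, Fintype.card_fin]
      exact hqn
  obtain ⟨i, hi⟩ := h3
  have hodd : Equiv.Perm.sign (τ i * σ i * (τ i)⁻¹) = -1 := by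
    rw [map_mul, map_mul, map_inv]
    rcases Int.units_eq_one_or (Equiv.Perm.sign (σ i)) with h | h
    · exact absurd h hi
    · rw [h]
      rcases Int.units_eq_one_or (Equiv.Perm.sign (τ i)) with h' | h' <;> rw [h'] <;> decide
  rw [eq_top_iff]
  intro g _
  rcases Int.units_eq_one_or (Equiv.Perm.sign g) with h | h
  · exact halt (Equiv.Perm.mem_alternatingGroup.2 h)
  · have h5 : g * (τ i * σ i * (τ i)⁻¹) ∈ L := by
      apply halt
      rw [Equiv.Perm.mem_alternatingGroup, map_mul, h, hodd]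
      decide
    have h6 := L.mul_mem h5 (L.inv_mem (hmem i))
    rwa [mul_inv_cancel_right] at h6

end Pool.Agent.Q126.EW
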