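import Mathlib

set_option autoImplicit false

namespace Pool.Agent.Q126.EW

open Finset Filter Topology

/-- primes between `n/8` and `n/2` -/
def Qs (n : ℕ) : Finset ℕ := (Finset.Ioc (n / 8) (n / 2)).filter Nat.Prime

theorem mem_Qs {n q : ℕ} : q ∈ Qs n ↔ (n < 8 * q ∧ 2 * q ≤ n) ∧ q.Prime := by
  unfold Qs
  rw [Finset.mem_filter, Finset.mem_Ioc]
  constructor
  · rintro ⟨⟨h1, h2⟩, h3⟩
    exact ⟨⟨by omega, by omega⟩, h3⟩
  · rintro ⟨⟨h1, h2⟩, h3⟩
    exact ⟨⟨by omega, by omega⟩, h3⟩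

theorem Qs_theta (n : ℕ) :
    Chebyshev.theta ((n / 2 : ℕ) : ℝ) - Chebyshev.theta ((n / 8 : ℕ) : ℝ)
      ≤ ((Qs n).card : ℝ) * Real.log n := by
  unfold Chebyshev.theta
  rw [Nat.floor_natCast, Nat.floor_natCast]
  have h1 : (Finset.Ioc 0 (n / 2)).filter Nat.Prime
      = (Finset.Ioc 0 (n / 8)).filter Nat.Prime ∪ Qs n := by
    ext q
    rw [Finset.mem_union, mem_Qs, Finset.mem_filter, Finset.mem_filter, Finset.mem_Ioc,
      Finset.mem_Ioc]
    constructor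
    · rintro ⟨⟨h1, h2⟩, h3⟩
      by_cases h4 : q ≤ n / 8
      · exact Or.inl ⟨⟨h1, h4⟩, h3⟩
      · exact Or.inr ⟨⟨by omega, by omega⟩, h3⟩
    · rintro (⟨⟨h1, h2⟩, h3⟩ | ⟨⟨h1, h2⟩, h3⟩)
      · exact ⟨⟨h1, by omega⟩, h3⟩
      · exact ⟨⟨by omega, by omega⟩, h3⟩
  have hd : Disjoint ((Finset.Ioc 0 (n / 8)).filter Nat.Prime) (Qs n) := by
    rw [Finset.disjoint_left]
    intro q h1 h2
    rw [Finset.mem_filter, Finset.mem_Ioc] at h1
    rw [mem_Qs] at h2
    omega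
  rw [h1, Finset.sum_union hd, add_sub_cancel_left]
  calc ∑ x ∈ Qs n, Real.log x ≤ ∑ x ∈ Qs n, Real.log n := by
        apply Finset.sum_le_sum
        intro q hq
        rw [mem_Qs] at hq
        apply Real.log_le_log
        · have : 0 < q := hq.2.pos
          exact_mod_cast this
        · have : q ≤ n := by omega
          exact_mod_cast this
    _ = _ := by rw [Finset.sum_const, nsmul_eq_mul]

theorem Qs_large : ∀ᶠ n : ℕ in atTop, (n : ℝ) / 16 ≤ ((Qs n).card : ℝ) * Real.log n := by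
  have l1 : (fun x : ℝ => Real.log x) =o[atTop] (fun x : ℝ => x ^ ((1 : ℝ) / 2)) :=
    isLittleO_log_rpow_atTop (by norm_num)
  have l2 : (fun x : ℝ => Real.sqrt x * Real.log x) =o[atTop] (fun x : ℝ => Real.sqrt x * x ^ ((1 : ℝ) / 2)) :=
    (Asymptotics.isBigO_refl _ _).mul_isLittleO l1
  have l3 := l2.def (show (0 : ℝ) < 1 / 200 by norm_num)
  have l4 := (tendsto_natCast_atTop_atTop (R := ℝ)).eventually l3
  have l5 := (tendsto_natCast_atTop_atTop (R := ℝ)).eventually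
    (Real.isLittleO_log_id_atTop.def (show (0 : ℝ) < 1 / 200 by norm_num))
  filter_upwards [l4, l5, eventually_ge_atTop 1000] with n h4 h5 hn
  have hn0 : (1000 : ℝ) ≤ n := by exact_mod_cast hn
  have hn1 : (0 : ℝ) ≤ n := by linarith
  have hs : Real.sqrt n * (n : ℝ) ^ ((1 : ℝ) / 2) = n := by
    rw [← Real.sqrt_eq_rpow, Real.mul_self_sqrt hn1]
  rw [hs, Real.norm_eq_abs, Real.norm_eq_abs, abs_of_nonneg hn1] at h4
  simp only [id_eq] at h5
  rw [Real.norm_eq_abs, Real.norm_eq_abs, abs_of_nonneg hn1] at h5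
  have hlog : 0 ≤ Real.log n := Real.log_nonneg (by linarith)
  have h4' : Real.sqrt n * Real.log n ≤ 1 / 200 * n := le_trans (le_abs_self _) h4
  have h5' : Real.log n ≤ 1 / 200 * n := le_trans (le_abs_self _) h5
  refine le_trans ?_ (Qs_theta n)
  have t1 := Chebyshev.theta_ge (n / 2)
  have t2 := Chebyshev.theta_le_log4_mul_x (x := ((n / 8 : ℕ) : ℝ)) (by positivity)
  have hx1 : ((n / 2 : ℕ) : ℝ) ≤ n := by
    have : n / 2 ≤ n := by omega
    exact_mod_cast this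
  have hx2 : (n : ℝ) / 2 - 1 / 2 ≤ ((n / 2 : ℕ) : ℝ) := by
    have : n ≤ 2 * (n / 2) + 1 := by omega
    have h : (n : ℝ) ≤ 2 * ((n / 2 : ℕ) : ℝ) + 1 := by exact_mod_cast this
    linarith
  have hy : ((n / 8 : ℕ) : ℝ) ≤ n / 8 := by
    have : 8 * (n / 8) ≤ n := by omega
    have h : (8 : ℝ) * ((n / 8 : ℕ) : ℝ) ≤ n := by exact_mod_cast this
    linarith
  have hx0 : (0 : ℝ) < ((n / 2 : ℕ) : ℝ) := by
    have : 0 < n / 2 := by omega
    exact_mod_cast this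
  have e1 : Real.log (((n / 2 : ℕ) : ℝ) + 1) ≤ Real.log n := by
    apply Real.log_le_log (by linarith)
    have : n / 2 + 1 ≤ n := by omega
    exact_mod_cast this
  have e2 : Real.sqrt ((n / 2 : ℕ) : ℝ) * Real.log ((n / 2 : ℕ) : ℝ) ≤ Real.sqrt n * Real.log n := by
    apply mul_le_mul
    · exact Real.sqrt_le_sqrt hx1
    · exact Real.log_le_log hx0 hx1
    · apply Real.log_nonneg
      have : 1 ≤ n / 2 := by omega
      exact_mod_cast this
    · exact Real.sqrt_nonneg _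
  have hl4 : Real.log 4 = 2 * Real.log 2 := by
    rw [show (4 : ℝ) = 2 ^ 2 by norm_num, Real.log_pow]
    push_cast
    ring
  rw [hl4] at t2
  have hl2 := Real.log_two_gt_d9
  have hl2' := Real.log_two_lt_d9
  have e3 : ((n : ℝ) / 2 - 1 / 2) * Real.log 2 ≤ ((n / 2 : ℕ) : ℝ) * Real.log 2 :=
    mul_le_mul_of_nonneg_right hx2 (by linarith)
  have e4 : 2 * Real.log 2 * ((n / 8 : ℕ) : ℝ) ≤ 2 * Real.log 2 * (n / 8) :=
    mul_le_mul_of_nonneg_left hy (by linarith)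
  have e5 : (n : ℝ) * 0.69 ≤ (n : ℝ) * Real.log 2 := mul_le_mul_of_nonneg_left (by linarith) hn1
  nlinarith

end Pool.Agent.Q126.EW
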