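import Pool.Agent.Q126.EW5
import Pool.Agent.Q126.EW6

set_option autoImplicit false

namespace Pool.Agent.Q126.EW

open Finset Filter Topology

theorem prod_sum {α : ℝ} {n N : ℕ} (u : Equiv.Perm (Fin n) → ℝ) :
    ∑ σ : Fin N → Equiv.Perm (Fin n), (∏ i, ew α n (σ i)) * ∏ i, u (σ i)
      = (∑ x : Equiv.Perm (Fin n), u x * ew α n x) ^ N := by
  rw [Fintype.sum_pow]
  apply Finset.sum_congr rfl
  intro σ _
  rw [← Finset.prod_mul_distrib]
  apply Finset.prod_congr rfl
  intro i _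
  ring

open Classical in
/-- probability that `N` independent Ewens permutations invariably generate -/
noncomputable def prob (α : ℝ) (n N : ℕ) : ℝ :=
  ∑ σ : Fin N → Equiv.Perm (Fin n), (∏ i, ew α n (σ i)) * (if InvGen σ then 1 else 0)

/-- the left end of block `s` and the right end -/
def bA (n s : ℕ) : ℕ := min (2 ^ (s + 1)) (n / 2 + 1)

theorem compl_sum {α : ℝ} (hα : 0 < α) {n : ℕ} (u : Equiv.Perm (Fin n) → ℝ) :
    ∑ x : Equiv.Perm (Fin n), (1 - u x) * ew α n x = 1 - ∑ x : Equiv.Perm (Fin n), u x * ew α n x := by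
  have h1 : ∑ x : Equiv.Perm (Fin n), (1 - u x) * ew α n x
      = ∑ x : Equiv.Perm (Fin n), ew α n x - ∑ x : Equiv.Perm (Fin n), u x * ew α n x := by
    rw [← Finset.sum_sub_distrib]
    apply Finset.sum_congr rfl
    intro x _
    ring
  rw [h1, ew_total hα]

theorem block_bound {α : ℝ} (hα : 1 ≤ α) {K : ℕ} (hK : α ≤ K) {n s : ℕ} (hs : 2 ^ s ≤ n / 2) :
    ∑ x : Equiv.Perm (Fin n), (1 - blk (2 ^ s) (bA n s) (typ x)) * ew α n x
      ≤ 1 - 1 / ((3 + 2 * K : ℕ) : ℝ) ^ (K + 1) := by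
  have hα0 : 0 < α := by linarith
  rw [compl_sum hα0, ew_sum hα0]
  have hp : 1 ≤ 2 ^ s := Nat.one_le_two_pow
  have hp2 : 2 ^ (s + 1) = 2 * 2 ^ s := by rw [pow_succ]; ring
  have h1 := block_prob hα hK (a := 2 ^ s) (A := bA n s) (n := n) hp
    (by unfold bA; rw [hp2]; omega) (by unfold bA; rw [hp2]; omega)
    (by unfold bA; rw [hp2]; omega)
  have hh := h_pos hα0 n
  have h2 : 1 / ((3 + 2 * K : ℕ) : ℝ) ^ (K + 1) ≤ Z (fun _ => α) n (blk (2 ^ s) (bA n s)) / h α n := by
    rw [le_div_iff₀ hh]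
    exact h1
  linarith

theorem good_bound {α : ℝ} (hα : 1 ≤ α) {K : ℕ} (hK : α ≤ K) {n : ℕ} (hn : 96 * α ≤ n) :
    ∑ x : Equiv.Perm (Fin n), (1 - ind (Good (Qs n)) (typ x)) * ew α n x
      ≤ 1 - ((Qs n).card : ℝ) / (8 * (n : ℝ) * 2 ^ K) := by
  have hα0 : 0 < α := by linarith
  rw [compl_sum hα0, ew_sum hα0]
  have h1 := good_prob hα hK (Q := Qs n) (n := n) (by
    intro q hq
    rw [mem_Qs] at hq
    refine ⟨hq.1.1, hq.1.2, ?_⟩
    have : (n : ℝ) < 8 * (q : ℝ) := by exact_mod_cast hq.1.1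
    linarith)
  have hh := h_pos hα0 n
  have h2 : ((Qs n).card : ℝ) / (8 * (n : ℝ) * 2 ^ K) ≤ Z (fun _ => α) n (ind (Good (Qs n))) / h α n := by
    rw [le_div_iff₀ hh]
    exact h1
  linarith

theorem blk_le_one (a A : ℕ) (m : Multiset ℕ) : blk a A m ≤ 1 := by
  unfold blk
  split_ifs <;> norm_num

/-- the union bound -/
theorem union_bound {α : ℝ} (hα : 1 ≤ α) {K : ℕ} (hK : α ≤ K) {n : ℕ} (hn : 96 * α ≤ n)
    (hp : n.Prime) (N : ℕ) :
    1 - prob α n N ≤ ((Nat.log 2 (n / 2) + 1 : ℕ) : ℝ) * (1 - 1 / ((3 + 2 * K : ℕ) : ℝ) ^ (K + 1)) ^ N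
      + (1 - ((Qs n).card : ℝ) / (8 * (n : ℝ) * 2 ^ K)) ^ N + (α / (α + 1)) ^ N := by
  classical
  have hα0 : 0 < α := by linarith
  have hn96 : 96 ≤ n := by
    have : (96 : ℝ) ≤ n := by linarith
    exact_mod_cast this
  set S := Finset.range (Nat.log 2 (n / 2) + 1) with hS
  have hS2 : ∀ s ∈ S, 2 ^ s ≤ n / 2 := by
    intro s hs
    rw [hS, Finset.mem_range] at hs
    have h1 : 2 ^ (Nat.log 2 (n / 2)) ≤ n / 2 := Nat.pow_log_le_self 2 (by omega)
    exact le_trans (Nat.pow_le_pow_right (by norm_num) (by omega)) h1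
  have hw : ∀ σ : Fin N → Equiv.Perm (Fin n), 0 ≤ ∏ i, ew α n (σ i) :=
    fun σ => Finset.prod_nonneg (fun i _ => ew_nonneg hα0 _)
  have htot : ∑ σ : Fin N → Equiv.Perm (Fin n), ∏ i, ew α n (σ i) = 1 := by
    have h1 := prod_sum (α := α) (n := n) (N := N) (fun _ => 1)
    simp only [Finset.prod_const_one, mul_one, one_mul] at h1
    rw [h1, ew_total hα0, _root_.one_pow]
  have key : ∀ σ : Fin N → Equiv.Perm (Fin n),
      (1 : ℝ) - (if InvGen σ then 1 else 0)
        ≤ ∑ s ∈ S, ∏ i, (1 - blk (2 ^ s) (bA n s) (typ (σ i)))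
          + ∏ i, (1 - ind (Good (Qs n)) (typ (σ i)))
          + ∏ i, (if Equiv.Perm.sign (σ i) = 1 then (1 : ℝ) else 0) := by
    intro σ
    have n1 : ∀ s ∈ S, 0 ≤ ∏ i, (1 - blk (2 ^ s) (bA n s) (typ (σ i))) := by
      intro s _
      apply Finset.prod_nonneg
      intro i _
      have := blk_le_one (2 ^ s) (bA n s) (typ (σ i))
      linarith
    have n2 : 0 ≤ ∏ i, (1 - ind (Good (Qs n)) (typ (σ i))) := by
      apply Finset.prod_nonneg
      intro i _
      have := ind_le_one (Good (Qs n)) (typ (σ i))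
      linarith
    have n3 : 0 ≤ ∏ i, (if Equiv.Perm.sign (σ i) = 1 then (1 : ℝ) else 0) := by
      apply Finset.prod_nonneg
      intro i _
      split_ifs <;> norm_num
    have n4 := Finset.sum_nonneg n1
    by_cases c1 : ∃ s ∈ S, ∀ i, blk (2 ^ s) (bA n s) (typ (σ i)) = 0
    · obtain ⟨s, hs, h0⟩ := c1
      have h1 : ∏ i, (1 - blk (2 ^ s) (bA n s) (typ (σ i))) = 1 := by
        apply Finset.prod_eq_one
        intro i _
        rw [h0 i, sub_zero]
      have h2 := Finset.single_le_sum n1 hs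
      rw [h1] at h2
      have : (0 : ℝ) ≤ (if InvGen σ then 1 else 0) := by split_ifs <;> norm_num
      linarith
    by_cases c2 : ∀ i, ¬ Good (Qs n) (typ (σ i))
    · have h1 : ∏ i, (1 - ind (Good (Qs n)) (typ (σ i))) = 1 := by
        apply Finset.prod_eq_one
        intro i _
        rw [ind_neg (c2 i), sub_zero]
      have : (0 : ℝ) ≤ (if InvGen σ then 1 else 0) := by split_ifs <;> norm_num
      linarith
    by_cases c3 : ∀ i, Equiv.Perm.sign (σ i) = 1
    · have h1 : ∏ i, (if Equiv.Perm.sign (σ i) = 1 then (1 : ℝ) else 0) = 1 := by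
        apply Finset.prod_eq_one
        intro i _
        rw [if_pos (c3 i)]
      have : (0 : ℝ) ≤ (if InvGen σ then 1 else 0) := by split_ifs <;> norm_num
      linarith
    have hgen : InvGen σ := by
      push Not at c1 c2 c3
      apply invGen_of hp σ
      · intro k hk1 hk2
        have hlog : Nat.log 2 k ∈ S := by
          rw [hS, Finset.mem_range]
          have : Nat.log 2 k ≤ Nat.log 2 (n / 2) := Nat.log_mono_right (by omega)
          omega
        obtain ⟨i, hi⟩ := c1 _ hlog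
        refine ⟨i, ?_⟩
        intro T hT hinv
        have h1 : ((typ (σ i)).filter (fun x => x < bA n (Nat.log 2 k))).sum < 2 ^ (Nat.log 2 k) := by
          by_contra hcon
          apply hi
          unfold blk
          rw [if_neg hcon]
        apply block_no_set (σ i) h1 T hinv
        · rw [hT]
          exact Nat.pow_log_le_self 2 (by omega)
        · rw [hT]
          have : k < 2 ^ (Nat.log 2 k + 1) := Nat.lt_pow_succ_log_self (by norm_num) k
          unfold bA
          rw [lt_min_iff]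
          exact ⟨this, by omega⟩
      · obtain ⟨i, q, hq, hone⟩ := c2
        rw [mem_Qs] at hq
        exact ⟨i, q, hq.2, hq.1.2, EW.one_pow (σ i) hq.2 hone⟩
      · exact c3
    rw [if_pos hgen]
    linarith
  have h1 : 1 - prob α n N ≤ ∑ σ : Fin N → Equiv.Perm (Fin n), (∏ i, ew α n (σ i)) *
      (∑ s ∈ S, ∏ i, (1 - blk (2 ^ s) (bA n s) (typ (σ i)))
          + ∏ i, (1 - ind (Good (Qs n)) (typ (σ i)))
          + ∏ i, (if Equiv.Perm.sign (σ i) = 1 then (1 : ℝ) else 0)) := by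
    have e : 1 - prob α n N = ∑ σ : Fin N → Equiv.Perm (Fin n), (∏ i, ew α n (σ i)) *
        (1 - (if InvGen σ then 1 else 0)) := by
      unfold prob
      simp only [mul_sub, mul_one, Finset.sum_sub_distrib]
      rw [htot]
    rw [e]
    apply Finset.sum_le_sum
    intro σ _
    exact mul_le_mul_of_nonneg_left (key σ) (hw σ)
  refine le_trans h1 ?_
  simp only [mul_add, Finset.sum_add_distrib]
  apply add_le_add
  · apply add_le_add
    · simp only [Finset.mul_sum]
      rw [Finset.sum_comm]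
      have h2 : ∀ s ∈ S, ∑ σ : Fin N → Equiv.Perm (Fin n), (∏ i, ew α n (σ i)) *
          ∏ i, (1 - blk (2 ^ s) (bA n s) (typ (σ i)))
          ≤ (1 - 1 / ((3 + 2 * K : ℕ) : ℝ) ^ (K + 1)) ^ N := by
        intro s hs
        rw [prod_sum (fun x => 1 - blk (2 ^ s) (bA n s) (typ x))]
        apply pow_le_pow_left₀
        · apply Finset.sum_nonneg
          intro x _
          apply mul_nonneg _ (ew_nonneg hα0 _)
          have := blk_le_one (2 ^ s) (bA n s) (typ x)
          linarith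
        · exact block_bound hα hK (hS2 s hs)
      refine le_trans (Finset.sum_le_sum h2) ?_
      rw [Finset.sum_const, nsmul_eq_mul, hS, Finset.card_range]
    · rw [prod_sum (fun x => 1 - ind (Good (Qs n)) (typ x))]
      apply pow_le_pow_left₀
      · apply Finset.sum_nonneg
        intro x _
        apply mul_nonneg _ (ew_nonneg hα0 _)
        have := ind_le_one (Good (Qs n)) (typ x)
        linarith
      · exact good_bound hα hK hn
  · rw [prod_sum (fun x => if Equiv.Perm.sign x = 1 then (1 : ℝ) else 0)]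
    apply pow_le_pow_left₀
    · apply Finset.sum_nonneg
      intro x _
      apply mul_nonneg _ (ew_nonneg hα0 _)
      split_ifs <;> norm_num
    · exact even_prob hα (by omega)

theorem t1_tendsto {c β : ℝ} (hc : 0 < c) (hβ : 0 < β) :
    Tendsto (fun n : ℕ => ((Nat.log 2 (n / 2) + 1 : ℕ) : ℝ) * Real.exp (-(c * (⌊β * Real.log n⌋₊ : ℝ))))
      atTop (𝓝 0) := by
  have hlog : Tendsto (fun n : ℕ => Real.log (n : ℝ)) atTop atTop :=
    Real.tendsto_log_atTop.comp tendsto_natCast_atTop_atTop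
  have g1 : Tendsto (fun t : ℝ => (2 * t + 1) * (Real.exp c * Real.exp (-(c * β * t)))) atTop (𝓝 0) := by
    have hcb : 0 < c * β := mul_pos hc hβ
    have a1 : Tendsto (fun t : ℝ => c * β * t) atTop atTop := tendsto_id.const_mul_atTop hcb
    have a2 := (Real.tendsto_pow_mul_exp_neg_atTop_nhds_zero 1).comp a1
    have a3 := (Real.tendsto_pow_mul_exp_neg_atTop_nhds_zero 0).comp a1
    have a4 : Tendsto (fun t : ℝ => (2 * Real.exp c / (c * β)) * ((c * β * t) ^ 1 * Real.exp (-(c * β * t)))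
        + Real.exp c * ((c * β * t) ^ 0 * Real.exp (-(c * β * t)))) atTop
        (𝓝 ((2 * Real.exp c / (c * β)) * 0 + Real.exp c * 0)) :=
      (a2.const_mul _).add (a3.const_mul _)
    rw [mul_zero, mul_zero, add_zero] at a4
    refine a4.congr ?_
    intro t
    have : c * β ≠ 0 := hcb.ne'
    field_simp
  have g2 := g1.comp hlog
  apply squeeze_zero' _ _ g2
  · filter_upwards with n
    positivity
  · filter_upwards [eventually_ge_atTop 2] with n hn
    show _ ≤ (2 * Real.log n + 1) * (Real.exp c * Real.exp (-(c * β * Real.log n)))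
    have hn2 : (2 : ℝ) ≤ n := by exact_mod_cast hn
    have hl0 : 0 ≤ Real.log n := Real.log_nonneg (by linarith)
    apply mul_le_mul
    · have e1 : Nat.log 2 (n / 2) ≤ Nat.log 2 n := Nat.log_mono_right (by omega)
      have e2 : (Nat.log 2 n : ℝ) * Real.log 2 ≤ Real.log n := by
        rw [← Real.log_pow]
        apply Real.log_le_log (by positivity)
        have : 2 ^ (Nat.log 2 n) ≤ n := Nat.pow_log_le_self 2 (by omega)
        exact_mod_cast this
      have e3 : (Nat.log 2 (n / 2) : ℝ) ≤ (Nat.log 2 n : ℝ) := by exact_mod_cast e1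
      have hl2 := Real.log_two_gt_d9
      have e4 : (0 : ℝ) ≤ (Nat.log 2 n : ℝ) := by positivity
      push_cast
      nlinarith
    · rw [← Real.exp_add]
      apply Real.exp_le_exp.2
      have := Nat.lt_floor_add_one (β * Real.log n)
      nlinarith
    · positivity
    · positivity

theorem t2_tendsto {c β : ℝ} (hβ : 0 < β) :
    Tendsto (fun n : ℕ => Real.exp (-(c / Real.log n * (⌊β * Real.log n⌋₊ : ℝ))))
      atTop (𝓝 (Real.exp (-(c * β)))) := by
  have hlog : Tendsto (fun n : ℕ => Real.log (n : ℝ)) atTop atTop :=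
    Real.tendsto_log_atTop.comp tendsto_natCast_atTop_atTop
  apply (Real.continuous_exp.tendsto _).comp
  apply Tendsto.neg
  have h1 : Tendsto (fun t : ℝ => (⌊β * t⌋₊ : ℝ) / t) atTop (𝓝 β) :=
    tendsto_nat_floor_mul_div_atTop hβ.le
  have h2 := (h1.comp hlog).const_mul c
  refine h2.congr ?_
  intro n
  show c * ((⌊β * Real.log n⌋₊ : ℝ) / Real.log n) = _
  ring

theorem lower {α : ℝ} (hα : 1 ≤ α) : ∃ c : ℝ, 0 < c ∧ ∀ β : ℝ, 0 < β → ∀ ε : ℝ, 0 < ε →
    ∃ n1 : ℕ, ∀ n : ℕ, n1 ≤ n → n.Prime →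
      1 - Real.exp (-(c * β)) - ε ≤ prob α n ⌊β * Real.log n⌋₊ := by
  have hα0 : 0 < α := by linarith
  obtain ⟨K, hK⟩ := exists_nat_ge α
  set c0 : ℝ := 1 / ((3 + 2 * K : ℕ) : ℝ) ^ (K + 1) with hc0
  have hc0pos : 0 < c0 := by positivity
  have hc0le : c0 ≤ 1 := by
    rw [hc0, div_le_one (by positivity)]
    apply one_le_pow₀
    have : 1 ≤ 3 + 2 * K := by omega
    exact_mod_cast this
  set c1 : ℝ := 1 / (128 * 2 ^ K) with hc1
  have hc1pos : 0 < c1 := by positivity
  set c2 : ℝ := 1 / (α + 1) with hc2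
  have hc2pos : 0 < c2 := by positivity
  have hlog : Tendsto (fun n : ℕ => Real.log (n : ℝ)) atTop atTop :=
    Real.tendsto_log_atTop.comp tendsto_natCast_atTop_atTop
  refine ⟨c1, hc1pos, ?_⟩
  intro β hβ ε hε
  have T1 := t1_tendsto hc0pos hβ
  have T2 := t2_tendsto (c := c1) hβ
  have T3 : Tendsto (fun n : ℕ => Real.exp (-(c2 * (⌊β * Real.log n⌋₊ : ℝ)))) atTop (𝓝 0) := by
    have h1 := t1_tendsto hc2pos hβ
    apply squeeze_zero (fun n => (Real.exp_pos _).le) _ h1
    intro n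
    have e : (1 : ℝ) ≤ ((Nat.log 2 (n / 2) + 1 : ℕ) : ℝ) := by
      have : 1 ≤ Nat.log 2 (n / 2) + 1 := by omega
      exact_mod_cast this
    have := Real.exp_pos (-(c2 * (⌊β * Real.log n⌋₊ : ℝ)))
    nlinarith
  have hsum := T1.add (T2.add T3)
  have hlt : (0 : ℝ) + (Real.exp (-(c1 * β)) + 0) < Real.exp (-(c1 * β)) + ε := by linarith
  have hev := hsum.eventually (gt_mem_nhds hlt)
  obtain ⟨n0, hn0⟩ := exists_nat_ge (96 * α)
  have hall := ((hev.and Qs_large).and (eventually_ge_atTop (max n0 3)))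
  obtain ⟨n1, hn1⟩ := eventually_atTop.1 hall
  refine ⟨n1, ?_⟩
  intro n hnn hp
  obtain ⟨⟨hlt2, hQ⟩, hge⟩ := hn1 n hnn
  have hge1 : n0 ≤ n := le_trans (le_max_left _ _) hge
  have hge2 : 3 ≤ n := le_trans (le_max_right _ _) hge
  have hn96 : 96 * α ≤ n := le_trans hn0 (by exact_mod_cast hge1)
  have hnpos : (0 : ℝ) < n := by linarith
  have hlogn : 0 < Real.log n := by
    apply Real.log_pos
    have : (3 : ℝ) ≤ n := by exact_mod_cast hge2
    linarith
  set N := ⌊β * Real.log n⌋₊ with hN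
  have hub := union_bound hα hK hn96 hp N
  have b1 : (1 - c0) ^ N ≤ Real.exp (-(c0 * N)) := by
    have h1 : 1 - c0 ≤ Real.exp (-c0) := by
      have := Real.add_one_le_exp (-c0)
      linarith
    calc (1 - c0) ^ N ≤ (Real.exp (-c0)) ^ N := pow_le_pow_left₀ (by linarith) h1 N
      _ = _ := by rw [← Real.exp_nat_mul]; congr 1; ring
  have b3 : (α / (α + 1)) ^ N ≤ Real.exp (-(c2 * N)) := by
    have h1 : α / (α + 1) ≤ Real.exp (-c2) := by
      have := Real.add_one_le_exp (-c2)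
      have e : α / (α + 1) = 1 - c2 := by
        rw [hc2]
        field_simp
        ring
      linarith
    calc (α / (α + 1)) ^ N ≤ (Real.exp (-c2)) ^ N := pow_le_pow_left₀ (by positivity) h1 N
      _ = _ := by rw [← Real.exp_nat_mul]; congr 1; ring
  have b2 : (1 - ((Qs n).card : ℝ) / (8 * (n : ℝ) * 2 ^ K)) ^ N
      ≤ Real.exp (-(c1 / Real.log n * N)) := by
    have h1 : 1 - ((Qs n).card : ℝ) / (8 * (n : ℝ) * 2 ^ K) ≤ Real.exp (-(c1 / Real.log n)) := by
      have h2 := Real.add_one_le_exp (-(c1 / Real.log n))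
      have h3 : c1 / Real.log n ≤ ((Qs n).card : ℝ) / (8 * (n : ℝ) * 2 ^ K) := by
        rw [hc1, div_div, div_le_div_iff₀ (by positivity) (by positivity)]
        have h2K : (0 : ℝ) < 2 ^ K := by positivity
        nlinarith
      linarith
    have h0 : 0 ≤ 1 - ((Qs n).card : ℝ) / (8 * (n : ℝ) * 2 ^ K) := by
      have h4 : ((Qs n).card : ℝ) ≤ n := by
        have h5 : (Qs n).card ≤ (Finset.Ioc (n / 8) (n / 2)).card := Finset.card_filter_le _ _
        rw [Nat.card_Ioc] at h5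
        have : (Qs n).card ≤ n := by omega
        exact_mod_cast this
      have h5 : ((Qs n).card : ℝ) / (8 * (n : ℝ) * 2 ^ K) ≤ 1 := by
        rw [div_le_one (by positivity)]
        have h6 : (1 : ℝ) ≤ 2 ^ K := one_le_pow₀ (by norm_num)
        nlinarith
      linarith
    calc (1 - ((Qs n).card : ℝ) / (8 * (n : ℝ) * 2 ^ K)) ^ N
        ≤ (Real.exp (-(c1 / Real.log n))) ^ N := pow_le_pow_left₀ h0 h1 N
      _ = _ := by rw [← Real.exp_nat_mul]; congr 1; ring
  have b1' : ((Nat.log 2 (n / 2) + 1 : ℕ) : ℝ) * (1 - c0) ^ N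
      ≤ ((Nat.log 2 (n / 2) + 1 : ℕ) : ℝ) * Real.exp (-(c0 * N)) :=
    mul_le_mul_of_nonneg_left b1 (by positivity)
  have hfin : 1 ≤ prob α n N + ((Nat.log 2 (n / 2) + 1 : ℕ) : ℝ) * Real.exp (-(c0 * N))
      + (Real.exp (-(c1 / Real.log n * N)) + Real.exp (-(c2 * N))) := by
    linarith
  linarith

theorem not_tendsto {α β : ℝ} (hα : 1 ≤ α) (hβ : 0 < β) :
    ¬ Tendsto (fun n : ℕ => prob α n ⌊β * Real.log n⌋₊) atTop (𝓝 0) := by
  intro hlim
  obtain ⟨c, hc, h⟩ := lower hα
  have h1 : Real.exp (-(c * β)) < 1 := by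
    rw [Real.exp_lt_one_iff]
    have := mul_pos hc hβ
    linarith
  set ε : ℝ := (1 - Real.exp (-(c * β))) / 2 with hε
  have hε0 : 0 < ε := by rw [hε]; linarith
  obtain ⟨n1, hn1⟩ := h β hβ ε hε0
  obtain ⟨n2, hn2⟩ := eventually_atTop.1 (hlim.eventually (gt_mem_nhds hε0))
  obtain ⟨n, hnn, hp⟩ := Nat.exists_infinite_primes (max n1 n2)
  have a1 := hn1 n (le_trans (le_max_left _ _) hnn) hp
  have a2 := hn2 n (le_trans (le_max_right _ _) hnn)
  have a3 : 1 - Real.exp (-(c * β)) = 2 * ε := by rw [hε]; ring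
  linarith

end Pool.Agent.Q126.EW
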