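import Pool.Agent.W111.LAR.Top
import Pool.Agent.TH525.FRG.Quot

set_option autoImplicit false

/-!
Multigraph version of the load criterion for linear arboricity, and many-fold covers.
-/

namespace Pool.Agent.Q126.LAM

open Finset SimpleGraph H931R3.LA Pool.Agent.W111.LAR

section sel

variable {V E ι : Type} [Fintype V] [DecidableEq V] [Fintype E] [DecidableEq E]
  [Fintype ι] [DecidableEq ι]

/-- The selection theorem, with the additional information that no two selected edges are
parallel. -/
theorem selection2 (a b : E → V) (hab : ∀ e, a e ≠ b e) (κ : E → ι) (x : E → ℝ)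
    (h0 : ∀ e, 0 ≤ x e) (hc : ∀ i, ∑ e ∈ univ.filter (fun e => κ e = i), x e = 1)
    (hv : ∀ v, ∑ e ∈ star a b univ v, x e ≤ 1) :
    ∃ s : ι → E, (∀ i, κ (s i) = i) ∧ IsLF (selGraph a b s) ∧
      ∀ i j, s(a (s i), b (s i)) = s(a (s j), b (s j)) → i = j := by
  classical
  obtain ⟨M, hM1, hM2, hM3⟩ := exists_selection a b hab κ _ univ ∅ rfl (by simp) ⟨x, h0, by simp,
    hc, fun v _ => hv v, by
      intro U hU hcl
      obtain ⟨v, hv⟩ := hU
      exact absurd (hcl.1 hv) (by simp)⟩
  have hs : ∀ i, ∃ e, M.filter (fun e => κ e = i) = {e} := fun i => card_eq_one.1 (hM1 i)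
  choose s hs using hs
  have sM : ∀ i, s i ∈ M ∧ κ (s i) = i := by
    intro i
    have : s i ∈ M.filter (fun e => κ e = i) := by rw [hs i]; simp
    exact mem_filter.1 this
  refine ⟨s, fun i => (sM i).2, ⟨?_, ?_⟩, ?_⟩
  · -- acyclic
    intro v c hcyc
    obtain ⟨w, hw, hcard⟩ := hM3 c.support.toFinset ⟨v, by simp⟩
    have hwc : w ∈ c.support := by simpa using hw
    have h2 := hcyc.ncard_neighborSet_toSubgraph_eq_two hwc
    have hsub : c.toSubgraph.neighborSet w ⊆
        ((((star a b M w).filter (fun e => a e ∈ c.support.toFinset ∧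
          b e ∈ c.support.toFinset)).image (fun e => if a e = w then b e else a e) :
          Finset V) : Set V) := by
      intro w' hw'
      have hadj : c.toSubgraph.Adj w w' := hw'
      have hw's : w' ∈ c.support := by
        have := hadj.snd_mem
        rwa [SimpleGraph.Walk.mem_verts_toSubgraph] at this
      obtain ⟨hne, i, hi⟩ := hadj.adj_sub
      rw [Finset.mem_coe, mem_image]
      refine ⟨s i, ?_, ?_⟩
      · rw [mem_filter]
        refine ⟨mem_filter.2 ⟨(sM i).1, ?_⟩, ?_, ?_⟩
        · rcases hi with ⟨h1, h2⟩ | ⟨h1, h2⟩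
          · exact Or.inl h1
          · exact Or.inr h2
        · rcases hi with ⟨h1, h2⟩ | ⟨h1, h2⟩
          · rw [h1]; simpa using hwc
          · rw [h1]; simpa using hw's
        · rcases hi with ⟨h1, h2⟩ | ⟨h1, h2⟩
          · rw [h2]; simpa using hw's
          · rw [h2]; simpa using hwc
      · rcases hi with ⟨h1, h2⟩ | ⟨h1, h2⟩
        · rw [if_pos h1, h2]
        · have : a (s i) ≠ w := by rw [h1]; exact hne.symm
          rw [if_neg this, h1]
    have h3 := Set.ncard_le_ncard hsub (Finset.finite_toSet _)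
    rw [Set.ncard_coe_finset, h2] at h3
    have h4 := card_image_le (s := (star a b M w).filter (fun e => a e ∈ c.support.toFinset ∧
          b e ∈ c.support.toFinset)) (f := fun e => if a e = w then b e else a e)
    omega
  · intro w
    have hsub : (selGraph a b s).neighborSet w ⊆
        (((star a b M w).image (fun e => if a e = w then b e else a e) : Finset V) : Set V) := by
      intro w' hw'
      obtain ⟨hne, i, hi⟩ := hw'
      rw [Finset.mem_coe, mem_image]
      refine ⟨s i, ?_, ?_⟩
      · refine mem_filter.2 ⟨(sM i).1, ?_⟩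
        rcases hi with ⟨h1, h2⟩ | ⟨h1, h2⟩
        · exact Or.inl h1
        · exact Or.inr h2
      · rcases hi with ⟨h1, h2⟩ | ⟨h1, h2⟩
        · rw [if_pos h1, h2]
        · have : a (s i) ≠ w := by rw [h1]; exact hne.symm
          rw [if_neg this, h1]
    have h3 := Set.ncard_le_ncard hsub (Finset.finite_toSet _)
    rw [Set.ncard_coe_finset] at h3
    exact h3.trans (card_image_le.trans (hM2 w))
  · -- no parallel edges
    intro i j hij
    by_contra hne
    have hsne : s i ≠ s j := by
      intro h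
      exact hne (by rw [← (sM i).2, ← (sM j).2, h])
    obtain ⟨w, hw, hcard⟩ := hM3 {a (s i), b (s i)} ⟨a (s i), by simp⟩
    have hj : (a (s j) = a (s i) ∧ b (s j) = b (s i)) ∨
        (a (s j) = b (s i) ∧ b (s j) = a (s i)) := by
      rcases Sym2.eq_iff.1 hij with ⟨h1, h2⟩ | ⟨h1, h2⟩
      · exact Or.inl ⟨h1.symm, h2.symm⟩
      · exact Or.inr ⟨h2.symm, h1.symm⟩
    have hw' : w = a (s i) ∨ w = b (s i) := by simpa using hw
    have hsub : ({s i, s j} : Finset E) ⊆ (star a b M w).filter
        (fun e => a e ∈ ({a (s i), b (s i)} : Finset V) ∧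
          b e ∈ ({a (s i), b (s i)} : Finset V)) := by
      intro e he
      rw [mem_insert, mem_singleton] at he
      rcases he with rfl | rfl
      · refine mem_filter.2 ⟨mem_filter.2 ⟨(sM i).1, ?_⟩, by simp, by simp⟩
        rcases hw' with h | h
        · exact Or.inl h.symm
        · exact Or.inr h.symm
      · refine mem_filter.2 ⟨mem_filter.2 ⟨(sM j).1, ?_⟩, ?_, ?_⟩
        · rcases hw' with h | h <;> rcases hj with ⟨h1, h2⟩ | ⟨h1, h2⟩
          · exact Or.inl (by rw [h, h1])
          · exact Or.inr (by rw [h, h2])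
          · exact Or.inr (by rw [h, h2])
          · exact Or.inl (by rw [h, h1])
        · rcases hj with ⟨h1, h2⟩ | ⟨h1, h2⟩ <;> rw [h1] <;> simp
        · rcases hj with ⟨h1, h2⟩ | ⟨h1, h2⟩ <;> rw [h2] <;> simp
    have h3 := card_le_card hsub
    rw [card_pair hsne] at h3
    omega

end sel

/-- The multigraph in which the pair `u`, `v` has multiplicity `w u v` is covered by `k` linear
forests. -/
def MC {W : Type} (w : W → W → ℕ) (k : ℕ) : Prop :=
  ∃ F : Fin k → SimpleGraph W, (∀ i, IsLF (F i)) ∧ ∀ u v, w u v ≤ {c | (F c).Adj u v}.ncard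

theorem mc_of_type {W τ : Type} [Finite τ] (w : W → W → ℕ) (F : τ → SimpleGraph W)
    (hF : ∀ t, IsLF (F t)) (h : ∀ u v, w u v ≤ {t | (F t).Adj u v}.ncard) :
    MC w (Nat.card τ) := by
  refine ⟨fun i => F ((Finite.equivFin τ).symm i), fun i => hF _, fun u v => ?_⟩
  refine (h u v).trans (le_of_eq ?_)
  refine Set.ncard_congr (fun t _ => Finite.equivFin τ t) ?_ ?_ ?_
  · intro t ht
    show (F ((Finite.equivFin τ).symm (Finite.equivFin τ t))).Adj u v
    rw [Equiv.symm_apply_apply]
    exact ht
  · intro t t' _ _ htt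
    exact (Finite.equivFin τ).injective htt
  · intro c hc
    exact ⟨(Finite.equivFin τ).symm c, hc, Equiv.apply_symm_apply _ _⟩

theorem mc_add {W : Type} {w₁ w₂ : W → W → ℕ} {k₁ k₂ : ℕ} (h₁ : MC w₁ k₁) (h₂ : MC w₂ k₂) :
    MC (fun u v => w₁ u v + w₂ u v) (k₁ + k₂) := by
  obtain ⟨F₁, hF₁, hw₁⟩ := h₁
  obtain ⟨F₂, hF₂, hw₂⟩ := h₂
  have hcard : Nat.card (Fin k₁ ⊕ Fin k₂) = k₁ + k₂ := by simp
  rw [← hcard]
  refine mc_of_type _ (Sum.elim F₁ F₂) ?_ ?_
  · rintro (i | i)
    · exact hF₁ i
    · exact hF₂ i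
  · intro u v
    have h3 : {t | (Sum.elim F₁ F₂ t).Adj u v} =
        Sum.inl '' {c | (F₁ c).Adj u v} ∪ Sum.inr '' {c | (F₂ c).Adj u v} := by
      ext t
      rcases t with t | t <;> simp
    rw [h3, Set.ncard_union_eq, Set.ncard_image_of_injective _ Sum.inl_injective,
      Set.ncard_image_of_injective _ Sum.inr_injective]
    · exact Nat.add_le_add (hw₁ u v) (hw₂ u v)
    · rw [Set.disjoint_left]
      rintro _ ⟨c, _, rfl⟩ ⟨d, _, hd⟩
      cases hd

theorem mc_mono {W : Type} {w₁ w₂ : W → W → ℕ} {k : ℕ} (h : MC w₁ k)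
    (hw : ∀ u v, w₂ u v ≤ w₁ u v) : MC w₂ k := by
  obtain ⟨F, hF, h1⟩ := h
  exact ⟨F, hF, fun u v => (hw u v).trans (h1 u v)⟩

/-- Assembly with multiplicities. -/
theorem assemble2 {V κ : Type} [Finite V] [Fintype κ] {H : κ → SimpleGraph V}
    (hdeg : ∀ i v, ((H i).neighborSet v).ncard ≤ 2) (s : II H → EE H) (hs : ∀ c, cl (s c) = c)
    (Q : SimpleGraph V) (hQ : IsLF Q) (hsel : ∀ c, Q.Adj (aa (s c)) (bb (s c)))
    (hpar : ∀ c d, s(aa (s c), bb (s c)) = s(aa (s d), bb (s d)) → c = d) :
    MC (fun u v => {i | (H i).Adj u v}.ncard) (Fintype.card κ + 1) := by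
  classical
  let F : Option κ → SimpleGraph V := fun t => match t with
    | none => Q
    | some i => (H i).deleteEdges {d | ∃ c : II H, c.1.1 = i ∧ d = (s c).1.2}
  have hcard : Nat.card (Option κ) = Fintype.card κ + 1 := by
    rw [Nat.card_eq_fintype_card, Fintype.card_option]
  rw [← hcard]
  have hsi : ∀ c : II H, (s c).1.1 = c.1.1 := fun c => ((cl_iff (s c) c).1 (hs c)).1
  refine mc_of_type _ F ?_ ?_
  · intro t
    cases t with
    | none => exact hQ
    | some i =>
      have hle : F (some i) ≤ H i := deleteEdges_le _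
      refine ⟨?_, fun v => le_trans (Set.ncard_le_ncard (fun u hu => hle hu) (Set.toFinite _))
        (hdeg i v)⟩
      intro v c hc
      have hcl' := closed_cycle hle (hdeg i) hc
      have hcyc : Cyc (H i) v := fun w hw => (hcl' w hw).2.1
      let c0 : II H := ⟨(i, rep (H i) v), hcyc.trans (rep_reach _ _).symm, rep_eq (rep_reach _ _)⟩
      have h1 := (cl_iff (s c0) c0).1 (hs c0)
      have h2 : (H i).Reachable v (aa (s c0)) := (rep_reach (H i) v).symm.trans h1.2.symm
      have h3 : (H i).Adj (aa (s c0)) (bb (s c0)) := by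
        have := adj_ends (s c0)
        rw [hsi c0] at this
        exact this
      have h4 := (hcl' _ h2).2.2 _ h3
      have h5 : (F (some i)).Adj (aa (s c0)) (bb (s c0)) ↔ (H i).Adj (aa (s c0)) (bb (s c0)) ∧
          s(aa (s c0), bb (s c0)) ∉ {d | ∃ c : II H, c.1.1 = i ∧ d = (s c).1.2} := deleteEdges_adj
      exact (h5.1 h4).2 ⟨c0, rfl, mk_ends _⟩
  · intro u v
    show {i | (H i).Adj u v}.ncard ≤ {t | (F t).Adj u v}.ncard
    by_cases hex : ∃ c : II H, (s c).1.2 = s(u, v)
    · obtain ⟨c0, hc0⟩ := hex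
      have huniq : ∀ c : II H, (s c).1.2 = s(u, v) → c = c0 := by
        intro c hc
        apply hpar
        rw [mk_ends, mk_ends, hc, hc0]
      have hnone : (F none).Adj u v := by
        show Q.Adj u v
        have h1 := mk_ends (s c0)
        rw [hc0] at h1
        rcases Sym2.eq_iff.1 h1 with ⟨h2, h3⟩ | ⟨h2, h3⟩
        · rw [← h2, ← h3]; exact hsel c0
        · rw [← h2, ← h3]; exact (hsel c0).symm
      refine Set.ncard_le_ncard_of_injOn (fun i => if i = c0.1.1 then none else some i) ?_ ?_
        (Set.toFinite _)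
      · intro i hi
        show (F (if i = c0.1.1 then none else some i)).Adj u v
        by_cases h : i = c0.1.1
        · rw [if_pos h]; exact hnone
        · rw [if_neg h]
          refine deleteEdges_adj.2 ⟨hi, ?_⟩
          rintro ⟨c, hc1, hc2⟩
          have := huniq c hc2.symm
          rw [this] at hc1
          exact h hc1.symm
      · intro i _ j _ hij
        simp only at hij
        by_cases h : i = c0.1.1
        · by_cases h' : j = c0.1.1
          · rw [h, h']
          · rw [if_pos h, if_neg h'] at hij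
            cases hij
        · by_cases h' : j = c0.1.1
          · rw [if_neg h, if_pos h'] at hij
            cases hij
          · rw [if_neg h, if_neg h'] at hij
            exact Option.some.inj hij
    · push Not at hex
      refine Set.ncard_le_ncard_of_injOn some ?_ ?_ (Set.toFinite _)
      · intro i hi
        show (F (some i)).Adj u v
        refine deleteEdges_adj.2 ⟨hi, ?_⟩
        rintro ⟨c, hc1, hc2⟩
        exact hex c hc2.symm
      · intro i _ j _ hij
        exact Option.some.inj hij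

open Classical in
/-- The load criterion with multiplicities. -/
theorem mc_load {V κ : Type} [Finite V] [Fintype κ] (H : κ → SimpleGraph V)
    (hdeg : ∀ i v, ((H i).neighborSet v).ncard ≤ 2)
    (hload : ∀ v, ∑ i, (if Cyc (H i) v then (2 : ℝ) / csize (H i) v else 0) ≤ 1) :
    MC (fun u v => {i | (H i).Adj u v}.ncard) (Fintype.card κ + 1) := by
  have := Fintype.ofFinite V
  have : Fintype (EE H) := Fintype.ofFinite (EE H)
  have : Fintype (II H) := Fintype.ofFinite (II H)
  let x : EE H → ℝ := fun e => 1 / csize (H e.1.1) (aa e)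
  have hclass : ∀ c : II H, ∑ e ∈ univ.filter (fun e => cl e = c), x e = 1 := by
    intro c
    have hx : ∀ e ∈ univ.filter (fun e : EE H => cl e = c), x e = 1 / csize (H c.1.1) c.1.2 := by
      intro e he
      obtain ⟨h1, h2⟩ := (cl_iff e c).1 (mem_filter.1 he).2
      show (1 : ℝ) / csize (H e.1.1) (aa e) = _
      rw [h1, csize_eq h2]
    rw [sum_congr rfl hx, sum_const, nsmul_eq_mul, class_card]
    have hpos : (0 : ℝ) < csize (H c.1.1) c.1.2 := by exact_mod_cast csize_pos _ _
    field_simp
  have hvert : ∀ v, ∑ e ∈ star aa bb univ v, x e ≤ 1 := by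
    intro v
    refine le_trans (le_of_eq ?_) (hload v)
    rw [← sum_fiberwise (star aa bb univ v) (fun e : EE H => e.1.1) x]
    refine sum_congr rfl fun i _ => ?_
    by_cases hcyc : Cyc (H i) v
    · rw [if_pos hcyc]
      have hx : ∀ e ∈ (star aa bb (univ : Finset (EE H)) v).filter (fun e => e.1.1 = i), x e =
          1 / csize (H i) v := by
        intro e he
        obtain ⟨he1, he2⟩ := mem_filter.1 he
        obtain ⟨_, hinc⟩ := mem_filter.1 he1
        show (1 : ℝ) / csize (H e.1.1) (aa e) = _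
        rw [← csize_eq (ends_reach e v hinc), he2]
      rw [sum_congr rfl hx, sum_const, cnt i v hcyc, nsmul_eq_mul]
      push_cast
      ring
    · rw [if_neg hcyc, cnt0 i v hcyc, sum_empty]
  have hx0 : ∀ e, 0 ≤ x e := fun e => by
    show (0 : ℝ) ≤ 1 / csize (H e.1.1) (aa e)
    positivity
  obtain ⟨s, hs, hLF, hpar⟩ := selection2 aa bb ends_ne cl x hx0 hclass hvert
  exact assemble2 hdeg s hs (selGraph aa bb s) hLF
    (fun c => ⟨ends_ne _, c, Or.inl ⟨rfl, rfl⟩⟩) hpar

/-- At most `m` graphs whose cyclic components have at least `2 m` vertices. -/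
theorem mc_small {V κ : Type} [Finite V] [Fintype κ] (H : κ → SimpleGraph V) (m : ℕ)
    (hm : Fintype.card κ ≤ m) (hdeg : ∀ i v, ((H i).neighborSet v).ncard ≤ 2)
    (hsz : ∀ i v, Cyc (H i) v → 2 * m ≤ csize (H i) v) :
    MC (fun u v => {i | (H i).Adj u v}.ncard) (Fintype.card κ + 1) := by
  classical
  refine mc_load H hdeg fun v => ?_
  rcases Nat.eq_zero_or_pos m with hm0 | hm0
  · have : IsEmpty κ := Fintype.card_eq_zero_iff.1 (by omega)
    simp
  · have h1 : ∀ i ∈ (univ : Finset κ), (if Cyc (H i) v then (2 : ℝ) / csize (H i) v else 0) ≤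
        1 / m := by
      intro i _
      have hm1 : (0 : ℝ) < m := by exact_mod_cast hm0
      split_ifs with h
      · have h2 : (2 * m : ℝ) ≤ csize (H i) v := by exact_mod_cast hsz i v h
        rw [div_le_div_iff₀ (by linarith) hm1]
        linarith
      · positivity
    refine le_trans (sum_le_sum h1) ?_
    rw [sum_const, nsmul_eq_mul, card_univ]
    have hm1 : (0 : ℝ) < m := by exact_mod_cast hm0
    have hm2 : (Fintype.card κ : ℝ) ≤ m := by exact_mod_cast hm
    rw [mul_one_div, div_le_one hm1]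
    exact hm2

theorem mc_zero {W : Type} : MC (fun _ _ : W => 0) 0 :=
  ⟨fun i => i.elim0, fun i => i.elim0, fun _ _ => Nat.zero_le _⟩

theorem mc_group {V κ : Type} [Finite V] [DecidableEq κ] (H : κ → SimpleGraph V) (m : ℕ)
    (hm : 1 ≤ m) (hdeg : ∀ i v, ((H i).neighborSet v).ncard ≤ 2)
    (hsz : ∀ i v, Cyc (H i) v → 2 * m ≤ csize (H i) v) :
    ∀ (n : ℕ) (s : Finset κ), s.card = n →
      MC (fun u v => {i | i ∈ s ∧ (H i).Adj u v}.ncard) (n + (n + m - 1) / m) := by
  have hsub : ∀ s : Finset κ, s.card ≤ m →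
      MC (fun u v => {i | i ∈ s ∧ (H i).Adj u v}.ncard) (s.card + 1) := by
    intro s hs
    have h1 := mc_small (fun i : s => H i.1) m (by simpa using hs) (fun i v => hdeg i.1 v)
      (fun i v h => hsz i.1 v h)
    rw [Fintype.card_coe] at h1
    refine mc_mono h1 fun u v => ?_
    show {i | i ∈ s ∧ (H i).Adj u v}.ncard ≤ {i : s | (H i.1).Adj u v}.ncard
    rw [← Set.ncard_image_of_injective {i : s | (H i.1).Adj u v} Subtype.val_injective]
    refine Set.ncard_le_ncard ?_ ((Set.toFinite _).image _)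
    rintro i ⟨hi, hadj⟩
    exact ⟨⟨i, hi⟩, hadj, rfl⟩
  intro n
  induction n using Nat.strong_induction_on with
  | _ n ih =>
    intro s hs
    rcases Nat.eq_zero_or_pos n with h0 | h0
    · subst h0
      have : s = ∅ := card_eq_zero.1 hs
      subst this
      have h3 : (0 + m - 1) / m = 0 := by
        rw [Nat.div_eq_of_lt]
        omega
      rw [h3]
      refine mc_mono mc_zero fun u v => ?_
      simp
    · by_cases hnm : n ≤ m
      · have h1 := hsub s (by omega)
        rw [hs] at h1
        have h3 : (n + m - 1) / m = 1 := by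
          rw [Nat.div_eq_of_lt_le]
          · omega
          · omega
        rwa [h3]
      · obtain ⟨t, hts, ht⟩ := exists_subset_card_eq (s := s) (n := m) (by omega)
        have h1 := hsub t (by omega)
        have h2 := ih (n - m) (by omega) (s \ t) (by
          rw [card_sdiff_of_subset hts]
          omega)
        have h3 := mc_add h1 h2
        rw [ht] at h3
        have h5 : (n + m - 1) / m = (n - m + m - 1) / m + 1 := by
          have : n + m - 1 = (n - m + m - 1) + m := by omega
          rw [this, Nat.add_div_right _ (by omega)]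
        rw [h5]
        have h6 : m + 1 + (n - m + (n - m + m - 1) / m) = n + ((n - m + m - 1) / m + 1) := by
          omega
        rw [h6] at h3
        refine mc_mono h3 fun u v => ?_
        have h7 : {i | i ∈ s ∧ (H i).Adj u v} ⊆
            {i | i ∈ t ∧ (H i).Adj u v} ∪ {i | i ∈ s \ t ∧ (H i).Adj u v} := by
          rintro i ⟨hi, hadj⟩
          by_cases hit : i ∈ t
          · exact Or.inl ⟨hit, hadj⟩
          · exact Or.inr ⟨mem_sdiff.2 ⟨hi, hit⟩, hadj⟩
        have hf1 : {i | i ∈ t ∧ (H i).Adj u v}.Finite :=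
          t.finite_toSet.subset fun i hi => hi.1
        have hf2 : {i | i ∈ s \ t ∧ (H i).Adj u v}.Finite :=
          (s \ t).finite_toSet.subset fun i hi => by
            have := hi.1
            exact_mod_cast this
        exact (Set.ncard_le_ncard h7 (hf1.union hf2)).trans (Set.ncard_union_le _ _)

/-- Many-fold covers of graphs of large girth. -/
theorem cov_fold {V W : Type} [Finite V] [Finite W] (B : SimpleGraph V) (G : SimpleGraph W)
    (f : V → W) (k m l : ℕ) (hl : 1 ≤ l) (hdeg : ∀ w, (G.neighborSet w).ncard ≤ 2 * k)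
    (hcyc : ∀ (w : W) (c : G.Walk w w), c.IsCycle → 2 * l ≤ c.length)
    (hom : ∀ u v, B.Adj u v → G.Adj (f u) (f v))
    (hm : ∀ u j, {v | B.Adj u v ∧ f v = j}.ncard ≤ m) :
    Cov B (m * k + (m * k + l - 1) / l) := by
  classical
  obtain ⟨H, hH, hG⟩ := decomp G k hdeg
  have h1 := mc_group (fun p : Fin m × Fin k => H p.2) l hl (fun p v => hH p.2 v)
    (fun p v h => by
      obtain ⟨w, c, hc, hlen⟩ := exists_cycle h
      have hle : H p.2 ≤ G := by rw [← hG]; exact le_iSup H p.2
      have h2 := hcyc w (c.mapLe hle) (hc.mapLe hle)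
      rw [Walk.length_mapLe] at h2
      omega) (m * k) univ (by simp)
  obtain ⟨F, hF, hw⟩ := h1
  refine Pool.Agent.TH525.FRG.cov_quot B _ F hF f fun u j => ?_
  by_cases hadj : G.Adj (f u) j
  · refine (hm u j).trans (le_trans ?_ (hw (f u) j))
    rw [← hG, iSup_adj] at hadj
    obtain ⟨i, hi⟩ := hadj
    have h2 : (fun a : Fin m => (a, i)) '' Set.univ ⊆
        {p : Fin m × Fin k | p ∈ (univ : Finset (Fin m × Fin k)) ∧ (H p.2).Adj (f u) j} := by
      rintro _ ⟨a, _, rfl⟩
      exact ⟨mem_univ _, hi⟩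
    have h3 := Set.ncard_le_ncard h2 (Set.toFinite _)
    rw [Set.ncard_image_of_injective _ (fun a b hab => (Prod.mk.inj hab).1), Set.ncard_univ,
      Nat.card_eq_fintype_card, Fintype.card_fin] at h3
    exact h3
  · have h2 : {v | B.Adj u v ∧ f v = j} = ∅ := by
      rw [Set.eq_empty_iff_forall_notMem]
      rintro v ⟨h3, h4⟩
      exact hadj (h4 ▸ hom u v h3)
    rw [h2, Set.ncard_empty]
    exact Nat.zero_le _

/-- Many-fold covers of Cayley graphs without involutions whose generators have large order. -/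
theorem cov_cay {V Γ : Type} [Group Γ] [Finite Γ] [Finite V] (S : Finset Γ) (hone : (1 : Γ) ∉ S)
    (hinv : ∀ s ∈ S, s⁻¹ ∈ S) (hno : ∀ s ∈ S, s * s ≠ 1) (m : ℕ)
    (hsum : ∑ s ∈ S, (m : ℝ) / orderOf s ≤ 1) (G : SimpleGraph Γ)
    (hG : ∀ g h, G.Adj g h ↔ g⁻¹ * h ∈ S) (B : SimpleGraph V) (f : V → Γ)
    (hom : ∀ u v, B.Adj u v → G.Adj (f u) (f v))
    (hm : ∀ u j, {v | B.Adj u v ∧ f v = j}.ncard ≤ m) :
    Cov B (m * S.card / 2 + 1) := by
  classical
  have := Fintype.ofFinite Γ
  obtain ⟨T, hTS, hT, hcard, hf⟩ := halve S hinv hno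
  have h1 := mc_load (fun p : Fin m × T => gen p.2.1 (fun h => hone (h ▸ hTS p.2.2)))
    (fun p g => gen_deg _ _ g) (by
      intro g
      refine le_trans ?_ hsum
      have key : ∀ s : T, (if Cyc (gen s.1 (fun h => hone (h ▸ hTS s.2))) g then
          (2 : ℝ) / csize (gen s.1 (fun h => hone (h ▸ hTS s.2))) g else 0) ≤
          2 / orderOf s.1 := by
        intro s
        have hpos : (0 : ℝ) < orderOf s.1 := by exact_mod_cast orderOf_pos s.1
        split_ifs with h
        · have h2 : (orderOf s.1 : ℝ) ≤ csize (gen s.1 (fun h => hone (h ▸ hTS s.2))) g := by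
            exact_mod_cast gen_size _ _ g
          exact div_le_div_of_nonneg_left (by norm_num) hpos h2
        · positivity
      rw [Fintype.sum_prod_type]
      refine le_trans (sum_le_sum (fun x _ => sum_le_sum (fun y _ => key y))) (le_of_eq ?_)
      rw [hf (fun s => (m : ℝ) / orderOf s) (fun s => by rw [orderOf_inv]), sum_const, card_univ,
        Fintype.card_fin, nsmul_eq_mul, mul_sum, mul_sum, ← sum_coe_sort T]
      refine sum_congr rfl fun s _ => ?_
      ring)
  obtain ⟨F, hF, hw⟩ := h1
  have hc : Fintype.card (Fin m × T) + 1 = m * S.card / 2 + 1 := by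
    rw [Fintype.card_prod, Fintype.card_fin, Fintype.card_coe, hcard]
    congr 1
    rw [show m * (2 * T.card) = (m * T.card) * 2 by ring, Nat.mul_div_cancel _ (by norm_num)]
  rw [← hc]
  refine Pool.Agent.TH525.FRG.cov_quot B _ F hF f fun u j => ?_
  by_cases hadj : G.Adj (f u) j
  · refine (hm u j).trans (le_trans ?_ (hw (f u) j))
    rw [hG, ← cay_sup T S hTS hone hinv hT, iSup_adj] at hadj
    obtain ⟨i, hi⟩ := hadj
    have h2 : (fun a : Fin m => (a, i)) '' Set.univ ⊆
        {p : Fin m × T | (gen p.2.1 (fun h => hone (h ▸ hTS p.2.2))).Adj (f u) j} := by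
      rintro _ ⟨a, _, rfl⟩
      exact hi
    have h3 := Set.ncard_le_ncard h2 (Set.toFinite _)
    rw [Set.ncard_image_of_injective _ (fun a b hab => (Prod.mk.inj hab).1), Set.ncard_univ,
      Nat.card_eq_fintype_card, Fintype.card_fin] at h3
    exact h3
  · have h2 : {v | B.Adj u v ∧ f v = j} = ∅ := by
      rw [Set.eq_empty_iff_forall_notMem]
      rintro v ⟨h3, h4⟩
      exact hadj (h4 ▸ hom u v h3)
    rw [h2, Set.ncard_empty]
    exact Nat.zero_le _

end Pool.Agent.Q126.LAM
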