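import Pool.Agent.Q126.LZB
import Pool.Agent.Y344.KD.Pert

/-! The complexity of a level does not exceed that of nearby arrangements in general position. -/

set_option autoImplicit false

namespace Pool.Agent.Q126.LV

open Finset Filter Pool.Agent.H189R2.Lev
open scoped Topology

open Pool.Agent.Results.MP_a08d0a_co.SmoothedLevel (Simple crossings psi level level_eq
  exists_level psi_le)

/-- the value of the level is attained -/
theorem level_spec {n : ℕ} (a B : Fin n → ℝ) {k : ℕ} (hk : k < n) (x : ℝ) :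
    (∃ i, level a B k x = ht a B i x) ∧ {l | ht a B l x < level a B k x}.ncard ≤ k ∧
      k < {l | ht a B l x ≤ level a B k x}.ncard := by
  obtain ⟨i, h1, h2⟩ := exists_level a B hk x
  have h3 := level_eq h1 h2
  rw [h3]
  exact ⟨⟨i, rfl⟩, h1, h2⟩

/-- the level moves less than the lines -/
theorem level_near {n : ℕ} {a B a' B' : Fin n → ℝ} {k : ℕ} (hk : k < n) {x η : ℝ}
    (h : ∀ l, |ht a' B' l x - ht a B l x| ≤ η) : |level a' B' k x - level a B k x| ≤ η := by
  obtain ⟨-, h1, h2⟩ := level_spec a B hk x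
  obtain ⟨-, h3, h4⟩ := level_spec a' B' hk x
  rw [abs_le]
  constructor
  · by_contra hcon
    push Not at hcon
    have := Set.ncard_le_ncard (s := {l | ht a' B' l x ≤ level a' B' k x})
      (t := {l | ht a B l x < level a B k x}) (fun l hl => by
        rw [Set.mem_ofPred_eq] at hl ⊢
        have := (abs_le.1 (h l)).1
        linarith) (Set.toFinite _)
    omega
  · by_contra hcon
    push Not at hcon
    have := Set.ncard_le_ncard (s := {l | ht a B l x ≤ level a B k x})
      (t := {l | ht a' B' l x < level a' B' k x}) (fun l hl => by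
        rw [Set.mem_ofPred_eq] at hl ⊢
        have := (abs_le.1 (h l)).2
        linarith) (Set.toFinite _)
    omega

/-- the determinant of three points of a graph -/
def det3 (f : ℝ → ℝ) (x : ℝ × ℝ × ℝ) : ℝ :=
  (x.2.2 - x.2.1) * f x.1 - (x.2.2 - x.1) * f x.2.1 + (x.2.1 - x.1) * f x.2.2

/-- if all the determinants vanish, the level follows a line -/
theorem follows {n : ℕ} (a B : Fin n → ℝ) {k : ℕ} (hk : k < n) {x₀ δ : ℝ} (hδ : 0 < δ)
    (h : ∀ x y z, x ∈ Set.Ioo (x₀ - δ) (x₀ + δ) → y ∈ Set.Ioo (x₀ - δ) (x₀ + δ) →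
      z ∈ Set.Ioo (x₀ - δ) (x₀ + δ) → det3 (level a B k) (x, y, z) = 0) :
    ∃ l, level a B k =ᶠ[𝓝 x₀] ht a B l := by
  classical
  choose i hi using fun x => (level_spec a B hk x).1
  have hinf : (Set.Ioo (x₀ - δ) (x₀ + δ)).Infinite := Set.Ioo_infinite (by linarith)
  obtain ⟨x, hx, y, hy, hxy, hixy⟩ := hinf.exists_ne_map_eq_of_mapsTo (f := i)
    (t := Set.univ) (fun _ _ => Set.mem_univ _) Set.finite_univ
  refine ⟨i x, ?_⟩
  have hnhds : Set.Ioo (x₀ - δ) (x₀ + δ) ∈ 𝓝 x₀ := Ioo_mem_nhds (by linarith) (by linarith)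
  filter_upwards [hnhds] with z hz
  have h1 := h x y z hx hy hz
  have h2 := hi x
  have h3 := hi y
  rw [← hixy] at h3
  unfold det3 at h1
  dsimp only at h1
  rw [h2, h3] at h1
  unfold ht at h1 ⊢
  have h4 : (y - x) * level a B k z = (y - x) * (a (i x) * z + B (i x)) := by linarith
  exact mul_left_cancel₀ (sub_ne_zero.2 (Ne.symm hxy)) h4

/-- if the level follows a line near every point of an interval, the determinants vanish -/
theorem no_break {n : ℕ} (a B : Fin n → ℝ) {k : ℕ} {u v : ℝ}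
    (h : ∀ x ∈ Set.Ioo u v, ∃ l, level a B k =ᶠ[𝓝 x] ht a B l) :
    ∀ x y z, x ∈ Set.Ioo u v → y ∈ Set.Ioo u v → z ∈ Set.Ioo u v →
      det3 (level a B k) (x, y, z) = 0 := by
  intro x y z hx hy hz
  obtain ⟨i, hi⟩ := h x hx
  have haff : ∀ l, (∃ w, ht a B l =ᶠ[𝓝 w] ht a B i) → ht a B l = ht a B i := by
    rintro l ⟨w, hw⟩
    obtain ⟨w', hw', hne⟩ : ∃ w', ht a B l w' = ht a B i w' ∧ w' ≠ w := by
      have h1 : ∀ᶠ w' in 𝓝[≠] w, ht a B l w' = ht a B i w' := hw.filter_mono nhdsWithin_le_nhds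
      have h2 : ∀ᶠ w' in 𝓝[≠] w, w' ≠ w := eventually_mem_nhdsWithin
      exact (h1.and h2).exists
    have h0 := hw.self_of_nhds
    unfold ht at hw' h0 ⊢
    have h3 : (a l - a i) * (w' - w) = 0 := by linarith
    have h4 : a l - a i = 0 := by
      rcases mul_eq_zero.1 h3 with h4 | h4
      · exact h4
      · exact absurd (sub_eq_zero.1 h4) hne
    have h5 : a l = a i := by linarith
    rw [h5] at h0 ⊢
    have h6 : B l = B i := by linarith
    rw [h6]
  set S : Set ℝ := {w | ∀ᶠ y in 𝓝 w, level a B k y = ht a B i y} with hS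
  set S' : Set ℝ := ⋃ l ∈ {l | ht a B l ≠ ht a B i}, {w | ∀ᶠ y in 𝓝 w, level a B k y = ht a B l y}
    with hS'
  have o1 : IsOpen S := isOpen_setOfPred_eventually_nhds
  have o2 : IsOpen S' := isOpen_biUnion fun l _ => isOpen_setOfPred_eventually_nhds
  have hcov : Set.Ioo u v ⊆ S ∪ S' := by
    intro w hw
    obtain ⟨l, hl⟩ := h w hw
    by_cases hli : ht a B l = ht a B i
    · left
      rw [hli] at hl
      exact hl
    · right
      exact Set.mem_biUnion (show l ∈ {l | ht a B l ≠ ht a B i} from hli) hl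
  have hsub : Set.Ioo u v ⊆ S := by
    intro w hw
    rcases hcov hw with h1 | h1
    · exact h1
    · exfalso
      obtain ⟨w', -, hw1, hw2⟩ := isPreconnected_Ioo S S' o1 o2 hcov ⟨x, hx, hi⟩ ⟨w, hw, h1⟩
      obtain ⟨l, hl, hl'⟩ := Set.mem_iUnion₂.1 hw2
      refine hl (haff l ⟨w', ?_⟩)
      have e1 : ∀ᶠ y in 𝓝 w', level a B k y = ht a B i y := hw1
      have e2 : ∀ᶠ y in 𝓝 w', level a B k y = ht a B l y := hl'
      filter_upwards [e1, e2] with y y1 y2
      rw [← y1, ← y2]
  have e : ∀ w ∈ Set.Ioo u v, level a B k w = ht a B i w := fun w hw =>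
    (hsub hw : ∀ᶠ y in 𝓝 w, level a B k y = ht a B i y).self_of_nhds
  unfold det3
  dsimp only
  rw [e x hx, e y hy, e z hz]
  unfold ht
  ring

/-- **Nearby arrangements.** -/
theorem psi_lsc {n : ℕ} (a B : Fin n → ℝ) {k : ℕ} (hk : k < n) (K : ℕ)
    (hK : ∃ᶠ P : Fin n → ℝ × ℝ in 𝓝 (fun l => (a l, B l)),
      psi (fun l => (P l).1) (fun l => (P l).2) k ≤ K) : psi a B k ≤ K := by
  classical
  by_contra hcon
  push Not at hcon
  obtain ⟨T0, hT0, hT0c⟩ := Set.exists_subset_encard_eq (Order.add_one_le_of_lt hcon)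
  have hfin : T0.Finite := by
    apply Set.finite_of_encard_eq_coe (k := K + 1)
    rw [hT0c]
    push_cast
    rfl
  -- a positive separation
  obtain ⟨δ, hδ, hsep⟩ : ∃ δ > 0, ∀ x ∈ T0, ∀ y ∈ T0, x ≠ y → 2 * δ ≤ |x - y| := by
    have h1 : ∀ᶠ δ in 𝓝[>] (0 : ℝ), ∀ p ∈ T0 ×ˢ T0, p.1 ≠ p.2 → 2 * δ ≤ |p.1 - p.2| := by
      rw [(hfin.prod hfin).eventually_all]
      intro p _
      by_cases hp : p.1 = p.2
      · exact Eventually.of_forall fun _ h => absurd hp h
      · have hpos : 0 < |p.1 - p.2| / 2 := by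
          have := abs_pos.2 (sub_ne_zero.2 hp)
          linarith
        filter_upwards [Ioo_mem_nhdsGT hpos] with δ hδ _
        linarith [hδ.2]
    obtain ⟨δ, hδ1, hδ2⟩ := (h1.and self_mem_nhdsWithin).exists
    exact ⟨δ, hδ2, fun x hx y hy hxy => hδ1 (x, y) ⟨hx, hy⟩ hxy⟩
  have htr : ∀ x₀ : ℝ, ∃ w : ℝ × ℝ × ℝ, x₀ ∈ T0 → w.1 ∈ Set.Ioo (x₀ - δ) (x₀ + δ) ∧
      w.2.1 ∈ Set.Ioo (x₀ - δ) (x₀ + δ) ∧ w.2.2 ∈ Set.Ioo (x₀ - δ) (x₀ + δ) ∧
      det3 (level a B k) w ≠ 0 := by
    intro x₀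
    by_cases hx₀ : x₀ ∈ T0
    · have h1 : ¬ ∃ l, level a B k =ᶠ[𝓝 x₀] ht a B l := hT0 hx₀
      by_contra h2
      push Not at h2
      apply h1
      refine follows a B hk hδ fun x y z hx hy hz => ?_
      exact (h2 (x, y, z)).2 hx hy hz
    · exact ⟨(0, 0, 0), fun h => absurd h hx₀⟩
  choose w hw using htr
  -- nearby the determinants do not vanish
  have hnear : ∀ᶠ P : Fin n → ℝ × ℝ in 𝓝 (fun l => (a l, B l)), ∀ x₀ ∈ T0,
      det3 (level (fun l => (P l).1) (fun l => (P l).2) k) (w x₀) ≠ 0 := by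
    rw [hfin.eventually_all]
    intro x₀ hx₀
    have hcont : ∀ x : ℝ, Tendsto (fun P : Fin n → ℝ × ℝ =>
        level (fun l => (P l).1) (fun l => (P l).2) k x) (𝓝 (fun l => (a l, B l)))
        (𝓝 (level a B k x)) := by
      intro x
      rw [Metric.tendsto_nhds]
      intro η hη
      have h1 : ∀ᶠ P : Fin n → ℝ × ℝ in 𝓝 (fun l => (a l, B l)), ∀ l,
          |ht (fun l => (P l).1) (fun l => (P l).2) l x - ht a B l x| ≤ η / 2 := by
        rw [eventually_all]
        intro l
        have hc : Tendsto (fun P : Fin n → ℝ × ℝ => |ht (fun l => (P l).1) (fun l => (P l).2) l x -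
            ht a B l x|) (𝓝 (fun l => (a l, B l))) (𝓝 0) := by
          have h2 : Continuous (fun P : Fin n → ℝ × ℝ =>
              |ht (fun l => (P l).1) (fun l => (P l).2) l x - ht a B l x|) := by
            unfold ht
            have := continuous_apply (A := fun _ : Fin n => ℝ × ℝ) l
            fun_prop
          have h3 := h2.tendsto (fun l => (a l, B l))
          have h4 : |ht (fun l => ((a l, B l) : ℝ × ℝ).1) (fun l => ((a l, B l) : ℝ × ℝ).2) l x -
              ht a B l x| = 0 := by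
            simp
          rw [h4] at h3
          exact h3
        have h5 := hc.eventually (gt_mem_nhds (show (0 : ℝ) < η / 2 by linarith))
        filter_upwards [h5] with P hP
        exact le_of_lt hP
      filter_upwards [h1] with P hP
      rw [Real.dist_eq]
      have := level_near hk hP
      linarith
    have hdet : Tendsto (fun P : Fin n → ℝ × ℝ =>
        det3 (level (fun l => (P l).1) (fun l => (P l).2) k) (w x₀)) (𝓝 (fun l => (a l, B l)))
        (𝓝 (det3 (level a B k) (w x₀))) := by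
      unfold det3
      exact (((hcont _).const_mul _).sub ((hcont _).const_mul _)).add ((hcont _).const_mul _)
    exact hdet.eventually_ne (hw x₀ hx₀).2.2.2
  obtain ⟨P, hP1, hP2⟩ := (hK.and_eventually hnear).exists
  -- breakpoints of the nearby arrangement
  have hbr : ∀ x₀ : ℝ, ∃ y, x₀ ∈ T0 → y ∈ Set.Ioo (x₀ - δ) (x₀ + δ) ∧
      ¬ ∃ l, level (fun l => (P l).1) (fun l => (P l).2) k =ᶠ[𝓝 y]
        ht (fun l => (P l).1) (fun l => (P l).2) l := by
    intro x₀
    by_cases hx₀ : x₀ ∈ T0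
    · by_contra h2
      push Not at h2
      apply hP2 x₀ hx₀
      obtain ⟨m1, m2, m3, -⟩ := hw x₀ hx₀
      exact no_break _ _ (fun x hx => (h2 x).2 hx) _ _ _ m1 m2 m3
    · exact ⟨0, fun h => absurd h hx₀⟩
  choose y hy using hbr
  have hinj : Set.InjOn y T0 := by
    intro x hx x' hx' hyy
    by_contra hne
    have h1 := hsep x hx x' hx' hne
    have h2 := (hy x hx).1
    have h3 := (hy x' hx').1
    rw [← hyy] at h3
    have h4 : |x - x'| < 2 * δ := by
      rw [abs_lt]
      constructor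
      · linarith [h2.1, h2.2, h3.1, h3.2]
      · linarith [h2.1, h2.2, h3.1, h3.2]
    linarith
  have hle : T0.encard ≤ psi (fun l => (P l).1) (fun l => (P l).2) k := by
    rw [← hinj.encard_image]
    unfold psi
    apply Set.encard_le_encard
    rintro _ ⟨x, hx, rfl⟩
    exact (hy x hx).2
  rw [hT0c] at hle
  have h5 := hle.trans hP1
  have h6 : ((K : ℕ∞) + 1) ≤ K := h5
  have h7 : ((K + 1 : ℕ) : ℕ∞) ≤ ((K : ℕ) : ℕ∞) := by exact_mod_cast h6
  have h8 : K + 1 ≤ K := by exact_mod_cast h7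
  omega

end Pool.Agent.Q126.LV
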