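import Pool.Agent.TH124.KE.Lev

/-! Levels: counting the edges with `k` points below direction by direction. -/

set_option autoImplicit false

namespace Pool.Agent.Q126.LV

open Finset Pool.Agent.TH124.KE

theorem dey {P : Finset (ℝ × ℝ)} (hP : GP P) (k : ℕ) :
    (#(kes P k) : ℝ) ≤ 7 * ((#P : ℝ) * #P) ^ (2 / 3 : ℝ) := by
  have h := kes_bound (k := k) hP (c := 0) (fun i => i.elim0) (fun i => i.elim0)
  simpa using h

theorem gp_sub {P Q : Finset (ℝ × ℝ)} (hP : GP P) (h : Q ⊆ P) : GP Q :=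
  ⟨fun p hp q hq => hP.inj p (h hp) q (h hq),
    fun p hp q hq r hr => hP.col p (h hp) q (h hq) r (h hr)⟩

/-- Counting by labels: every pair of points gets a label and the points of the plane a value for
each label. Both ends of a pair have the same value for the label of the pair, and points with
smaller values are below the line of the pair, points with larger values above it. -/
theorem local_count {Λ : Type*} [DecidableEq Λ] {P : Finset (ℝ × ℝ)} (hP : GP P) (k : ℕ)
    (lab : Seg → Λ) (val : Λ → ℝ × ℝ → ℝ)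
    (h1 : ∀ p ∈ P, ∀ q ∈ P, p.1 < q.1 → val (lab (p, q)) q = val (lab (p, q)) p)
    (h2 : ∀ p ∈ P, ∀ q ∈ P, p.1 < q.1 → ∀ s ∈ P, val (lab (p, q)) s < val (lab (p, q)) p →
      hh (sl p q) s < hh (sl p q) p)
    (h3 : ∀ p ∈ P, ∀ q ∈ P, p.1 < q.1 → ∀ s ∈ P, val (lab (p, q)) p < val (lab (p, q)) s →
      hh (sl p q) p < hh (sl p q) s)
    (L : Finset Λ) (hL : ∀ p ∈ P, ∀ q ∈ P, p.1 < q.1 → lab (p, q) ∈ L)
    (c : Λ → ℝ) (hc0 : ∀ ρ ∈ L, 0 ≤ c ρ)
    (hc : ∀ ρ ∈ L, ∀ t, (#{s ∈ P | val ρ s = t} : ℝ) * #{s ∈ P | val ρ s = t} ≤ c ρ) :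
    (#(kes P k) : ℝ) ≤ ∑ ρ ∈ L, 7 * (c ρ) ^ (2 / 3 : ℝ) := by
  classical
  have hmem : ∀ e ∈ kes P k, e.1 ∈ P ∧ e.2 ∈ P ∧ e.1.1 < e.2.1 ∧
      bel P (sl e.1 e.2) e.1 = k := fun e he => mem_kes.1 he
  have hfib : #(kes P k) = ∑ ρ ∈ L, #{e ∈ kes P k | lab e = ρ} :=
    card_eq_sum_card_fiberwise fun e he => by
      obtain ⟨a1, a2, a3, -⟩ := hmem e he
      exact hL e.1 a1 e.2 a2 a3
  rw [hfib]
  push_cast
  refine sum_le_sum fun ρ hρ => ?_
  rcases (univ.filter fun _ : Unit => ∃ e ∈ kes P k, lab e = ρ).eq_empty_or_nonempty with h0 | h0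
  · have hF : #{e ∈ kes P k | lab e = ρ} = 0 := by
      rw [card_eq_zero, filter_eq_empty_iff]
      intro e he hlab
      have : () ∈ (univ.filter fun _ : Unit => ∃ e ∈ kes P k, lab e = ρ) :=
        mem_filter.2 ⟨mem_univ _, e, he, hlab⟩
      rw [h0] at this
      exact absurd this (notMem_empty _)
    rw [hF]
    have := Real.rpow_nonneg (hc0 ρ hρ) (2 / 3 : ℝ)
    push_cast
    linarith
  · obtain ⟨_, h0⟩ := h0
    obtain ⟨e0, he0, hl0⟩ := (mem_filter.1 h0).2
    -- the number of points below is split by the values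
    have hsplit : ∀ e ∈ kes P k, lab e = ρ →
        k = #{s ∈ P | val ρ s < val ρ e.1} +
          bel {s ∈ P | val ρ s = val ρ e.1} (sl e.1 e.2) e.1 := by
      intro e he hl
      obtain ⟨a1, a2, a3, a4⟩ := hmem e he
      have b2 := h2 e.1 a1 e.2 a2 a3
      have b3 := h3 e.1 a1 e.2 a2 a3
      have hl' : lab (e.1, e.2) = ρ := hl
      rw [hl'] at b2 b3
      rw [← a4]
      unfold bel
      rw [← card_union_of_disjoint]
      · congr 1
        ext s
        simp only [mem_filter, mem_union]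
        constructor
        · rintro ⟨hs, hlt⟩
          rcases lt_trichotomy (val ρ s) (val ρ e.1) with h | h | h
          · exact Or.inl ⟨hs, h⟩
          · exact Or.inr ⟨⟨hs, h⟩, hlt⟩
          · exact absurd hlt (not_lt.2 (b3 s hs h).le)
        · rintro (⟨hs, h⟩ | ⟨⟨hs, _⟩, hlt⟩)
          · exact ⟨hs, b2 s hs h⟩
          · exact ⟨hs, hlt⟩
      · rw [disjoint_left]
        intro s hs hs'
        have x1 := (mem_filter.1 hs).2
        have x2 := (mem_filter.1 (mem_filter.1 hs').1).2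
        linarith
    have hlt : ∀ e ∈ kes P k, lab e = ρ → k < #{s ∈ P | val ρ s ≤ val ρ e.1} := by
      intro e he hl
      obtain ⟨a1, -, -, -⟩ := hmem e he
      have h4 := hsplit e he hl
      have h5 : bel {s ∈ P | val ρ s = val ρ e.1} (sl e.1 e.2) e.1 <
          #{s ∈ P | val ρ s = val ρ e.1} := by
        unfold bel
        apply card_lt_card
        rw [ssubset_iff_of_subset (filter_subset _ _)]
        exact ⟨e.1, mem_filter.2 ⟨a1, rfl⟩, fun h => lt_irrefl _ (mem_filter.1 h).2⟩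
      have h6 : #{s ∈ P | val ρ s < val ρ e.1} + #{s ∈ P | val ρ s = val ρ e.1} =
          #{s ∈ P | val ρ s ≤ val ρ e.1} := by
        rw [← card_union_of_disjoint]
        · congr 1
          ext s
          simp only [mem_filter, mem_union]
          constructor
          · rintro (⟨hs, h⟩ | ⟨hs, h⟩)
            · exact ⟨hs, h.le⟩
            · exact ⟨hs, h.le⟩
          · rintro ⟨hs, h⟩
            rcases h.lt_or_eq with h | h
            · exact Or.inl ⟨hs, h⟩
            · exact Or.inr ⟨hs, h⟩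
        · rw [disjoint_left]
          intro s hs hs'
          have x1 := (mem_filter.1 hs).2
          have x2 := (mem_filter.1 hs').2
          linarith
      omega
    have hge : ∀ e ∈ kes P k, lab e = ρ → #{s ∈ P | val ρ s < val ρ e.1} ≤ k := by
      intro e he hl
      have := hsplit e he hl
      omega
    have hcmp : ∀ e ∈ kes P k, lab e = ρ → ∀ f ∈ kes P k, lab f = ρ →
        ¬ val ρ e.1 < val ρ f.1 := by
      intro e he hl f hf hl' hval
      have x1 := hlt e he hl
      have x2 := hge f hf hl'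
      have x3 : #{s ∈ P | val ρ s ≤ val ρ e.1} ≤ #{s ∈ P | val ρ s < val ρ f.1} := by
        apply card_le_card
        intro s hs
        rw [mem_filter] at hs ⊢
        exact ⟨hs.1, lt_of_le_of_lt hs.2 hval⟩
      omega
    have heq : ∀ e ∈ kes P k, lab e = ρ → val ρ e.1 = val ρ e0.1 := by
      intro e he hl
      rcases lt_trichotomy (val ρ e.1) (val ρ e0.1) with h | h | h
      · exact absurd h (hcmp e he hl e0 he0 hl0)
      · exact h
      · exact absurd h (hcmp e0 he0 hl0 e he hl)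
    set t := val ρ e0.1 with ht
    set Q : Finset (ℝ × ℝ) := {s ∈ P | val ρ s = t} with hQ
    have hsub : {e ∈ kes P k | lab e = ρ} ⊆ kes Q (k - #{s ∈ P | val ρ s < t}) := by
      intro e he
      obtain ⟨he, hl⟩ := mem_filter.1 he
      obtain ⟨a1, a2, a3, a4⟩ := hmem e he
      have hv := heq e he hl
      have h4 := hsplit e he hl
      rw [hv] at h4
      have hl' : lab (e.1, e.2) = ρ := hl
      have h5 := h1 e.1 a1 e.2 a2 a3
      rw [hl'] at h5
      rw [mem_kes]
      refine ⟨mem_filter.2 ⟨a1, hv⟩, mem_filter.2 ⟨a2, h5.trans hv⟩, a3, ?_⟩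
      rw [hQ]
      omega
    have h4 := dey (gp_sub hP (filter_subset _ P : Q ⊆ P)) (k - #{s ∈ P | val ρ s < t})
    have h5 : (#{e ∈ kes P k | lab e = ρ} : ℝ) ≤ #(kes Q (k - #{s ∈ P | val ρ s < t})) := by
      exact_mod_cast card_le_card hsub
    have h6 := hc ρ hρ t
    have h7 : ((#Q : ℝ) * #Q) ^ (2 / 3 : ℝ) ≤ (c ρ) ^ (2 / 3 : ℝ) :=
      Real.rpow_le_rpow (by positivity) h6 (by norm_num)
    linarith

end Pool.Agent.Q126.LV
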