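import Pool.Agent.Q126.LV

/-! Levels of perturbed lattice arrangements. -/

set_option autoImplicit false

namespace Pool.Agent.Q126.LV

open Finset Pool.Agent.TH124.KE

/-- A finite set of points close to different lattice points of the box `[0, M) × [0, N)`. -/
structure Near (P : Finset (ℝ × ℝ)) (U V : ℝ × ℝ → ℤ) (M N : ℕ) : Prop where
  u : ∀ p ∈ P, |p.1 - U p| ≤ 1 / (8 * ((M : ℝ) + N))
  v : ∀ p ∈ P, |p.2 - V p| ≤ 1 / (8 * ((M : ℝ) + N))
  u0 : ∀ p ∈ P, 0 ≤ U p ∧ U p < M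
  v0 : ∀ p ∈ P, 0 ≤ V p ∧ V p < N
  inj : ∀ p ∈ P, ∀ q ∈ P, U p = U q → V p = V q → p = q

/-- The perturbation does not change the orientation of triples. -/
theorem orient {P : Finset (ℝ × ℝ)} {U V : ℝ × ℝ → ℤ} {M N : ℕ} (hM : 1 ≤ M) (hN : 1 ≤ N)
    (h : Near P U V M N) {p q s : ℝ × ℝ} (hp : p ∈ P) (hq : q ∈ P) (hs : s ∈ P) :
    |((s.2 - p.2) * (q.1 - p.1) - (q.2 - p.2) * (s.1 - p.1)) -
      (((V s - V p) * (U q - U p) - (V q - V p) * (U s - U p) : ℤ) : ℝ)| < 1 := by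
  set η : ℝ := 1 / (8 * ((M : ℝ) + N)) with hη
  have hM' : (1 : ℝ) ≤ M := by exact_mod_cast hM
  have hN' : (1 : ℝ) ≤ N := by exact_mod_cast hN
  have hη0 : 0 < η := by positivity
  have hηMN : η * ((M : ℝ) + N) = 1 / 8 := by
    rw [hη]; field_simp
  have hη1 : η ≤ 1 / 16 := by
    rw [hη]
    apply one_div_le_one_div_of_le (by norm_num)
    linarith
  have cast : ∀ (a : ℤ) (b : ℕ), 0 ≤ a ∧ a < b → (0 : ℝ) ≤ a ∧ (a : ℝ) ≤ b - 1 := by
    intro a b ⟨h1, h2⟩
    refine ⟨by exact_mod_cast h1, ?_⟩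
    have : a ≤ b - 1 := by omega
    have : (a : ℝ) ≤ ((b - 1 : ℤ) : ℝ) := by exact_mod_cast this
    push_cast at this
    exact this
  obtain ⟨p1, p2⟩ := cast _ _ (h.u0 p hp)
  obtain ⟨q1, q2⟩ := cast _ _ (h.u0 q hq)
  obtain ⟨s1, s2⟩ := cast _ _ (h.u0 s hs)
  obtain ⟨p3, p4⟩ := cast _ _ (h.v0 p hp)
  obtain ⟨q3, q4⟩ := cast _ _ (h.v0 q hq)
  obtain ⟨s3, s4⟩ := cast _ _ (h.v0 s hs)
  have hup := abs_le.1 (h.u p hp)
  have huq := abs_le.1 (h.u q hq)
  have hus := abs_le.1 (h.u s hs)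
  have hvp := abs_le.1 (h.v p hp)
  have hvq := abs_le.1 (h.v q hq)
  have hvs := abs_le.1 (h.v s hs)
  push_cast
  set e1 : ℝ := (s.2 - p.2) - ((V s : ℝ) - V p) with he1
  set e2 : ℝ := (q.1 - p.1) - ((U q : ℝ) - U p) with he2
  set e3 : ℝ := (q.2 - p.2) - ((V q : ℝ) - V p) with he3
  set e4 : ℝ := (s.1 - p.1) - ((U s : ℝ) - U p) with he4
  have a1 : |e1| ≤ 2 * η := abs_le.2 ⟨by rw [he1]; linarith, by rw [he1]; linarith⟩
  have a2 : |e2| ≤ 2 * η := abs_le.2 ⟨by rw [he2]; linarith, by rw [he2]; linarith⟩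
  have a3 : |e3| ≤ 2 * η := abs_le.2 ⟨by rw [he3]; linarith, by rw [he3]; linarith⟩
  have a4 : |e4| ≤ 2 * η := abs_le.2 ⟨by rw [he4]; linarith, by rw [he4]; linarith⟩
  have b1 : |(U q : ℝ) - U p| ≤ M := abs_le.2 ⟨by linarith, by linarith⟩
  have b2 : |(V s : ℝ) - V p| ≤ N := abs_le.2 ⟨by linarith, by linarith⟩
  have b3 : |(U s : ℝ) - U p| ≤ M := abs_le.2 ⟨by linarith, by linarith⟩
  have b4 : |(V q : ℝ) - V p| ≤ N := abs_le.2 ⟨by linarith, by linarith⟩
  have key : ((s.2 - p.2) * (q.1 - p.1) - (q.2 - p.2) * (s.1 - p.1)) -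
      (((V s : ℝ) - V p) * ((U q : ℝ) - U p) - ((V q : ℝ) - V p) * ((U s : ℝ) - U p)) =
      e1 * ((U q : ℝ) - U p) + e2 * ((V s : ℝ) - V p) + e1 * e2 - e3 * ((U s : ℝ) - U p) -
        e4 * ((V q : ℝ) - V p) - e3 * e4 := by
    rw [he1, he2, he3, he4]; ring
  rw [key]
  have m1 : |e1 * ((U q : ℝ) - U p)| ≤ 2 * η * M := by
    rw [abs_mul]; exact mul_le_mul a1 b1 (abs_nonneg _) (by positivity)
  have m2 : |e2 * ((V s : ℝ) - V p)| ≤ 2 * η * N := by
    rw [abs_mul]; exact mul_le_mul a2 b2 (abs_nonneg _) (by positivity)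
  have m3 : |e1 * e2| ≤ 2 * η * (2 * η) := by
    rw [abs_mul]; exact mul_le_mul a1 a2 (abs_nonneg _) (by positivity)
  have m4 : |e3 * ((U s : ℝ) - U p)| ≤ 2 * η * M := by
    rw [abs_mul]; exact mul_le_mul a3 b3 (abs_nonneg _) (by positivity)
  have m5 : |e4 * ((V q : ℝ) - V p)| ≤ 2 * η * N := by
    rw [abs_mul]; exact mul_le_mul a4 b4 (abs_nonneg _) (by positivity)
  have m6 : |e3 * e4| ≤ 2 * η * (2 * η) := by
    rw [abs_mul]; exact mul_le_mul a3 a4 (abs_nonneg _) (by positivity)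
  have n1 := abs_le.1 m1
  have n2 := abs_le.1 m2
  have n3 := abs_le.1 m3
  have n4 := abs_le.1 m4
  have n5 := abs_le.1 m5
  have n6 := abs_le.1 m6
  have hηη : 2 * η * (2 * η) ≤ 1 / 64 := by nlinarith
  rw [abs_lt]
  constructor
  · linarith
  · linarith

/-- Below and above the line of a pair, in terms of the lattice orientation. -/
theorem below {P : Finset (ℝ × ℝ)} {U V : ℝ × ℝ → ℤ} {M N : ℕ} (hM : 1 ≤ M) (hN : 1 ≤ N)
    (h : Near P U V M N) {p q s : ℝ × ℝ} (hp : p ∈ P) (hq : q ∈ P) (hs : s ∈ P)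
    (hpq : p.1 < q.1) :
    ((V s - V p) * (U q - U p) - (V q - V p) * (U s - U p) < 0 →
      hh (sl p q) s < hh (sl p q) p) ∧
    (0 < (V s - V p) * (U q - U p) - (V q - V p) * (U s - U p) →
      hh (sl p q) p < hh (sl p q) s) := by
  have hd : 0 < q.1 - p.1 := by linarith
  have h1 := abs_lt.1 (orient hM hN h hp hq hs)
  have hsl : sl p q * (q.1 - p.1) = q.2 - p.2 := by
    unfold sl
    rw [div_mul_cancel₀ _ hd.ne']
  unfold hh
  constructor
  · intro ho
    have ho' : (((V s - V p) * (U q - U p) - (V q - V p) * (U s - U p) : ℤ) : ℝ) ≤ -1 := by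
      have : (V s - V p) * (U q - U p) - (V q - V p) * (U s - U p) ≤ -1 := by omega
      exact_mod_cast this
    have h2 : (s.2 - p.2) * (q.1 - p.1) < (q.2 - p.2) * (s.1 - p.1) := by linarith
    rw [← hsl] at h2
    have h3 : (s.2 - p.2) * (q.1 - p.1) < (sl p q * (s.1 - p.1)) * (q.1 - p.1) := by linarith
    have h4 := lt_of_mul_lt_mul_right h3 hd.le
    linarith
  · intro ho
    have ho' : (1 : ℝ) ≤ (((V s - V p) * (U q - U p) - (V q - V p) * (U s - U p) : ℤ) : ℝ) := by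
      have : 1 ≤ (V s - V p) * (U q - U p) - (V q - V p) * (U s - U p) := by omega
      exact_mod_cast this
    have h2 : (q.2 - p.2) * (s.1 - p.1) < (s.2 - p.2) * (q.1 - p.1) := by linarith
    rw [← hsl] at h2
    have h3 : (sl p q * (s.1 - p.1)) * (q.1 - p.1) < (s.2 - p.2) * (q.1 - p.1) := by linarith
    have h4 := lt_of_mul_lt_mul_right h3 hd.le
    linarith

/-- The label of a pair: its direction in the lattice. -/
def lab (U V : ℝ × ℝ → ℤ) (e : Seg) : ℚ ⊕ Bool :=
  if U e.1 = U e.2 then Sum.inr (decide (V e.1 < V e.2))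
  else Sum.inl (((V e.2 - V e.1 : ℤ) : ℚ) / ((U e.2 - U e.1 : ℤ) : ℚ))

/-- The value of a point for a direction. -/
def val (U V : ℝ × ℝ → ℤ) : ℚ ⊕ Bool → ℝ × ℝ → ℝ
  | Sum.inl r, s => (V s : ℝ) - (r : ℝ) * U s
  | Sum.inr true, s => -(U s : ℝ)
  | Sum.inr false, s => (U s : ℝ)

theorem u_le {P : Finset (ℝ × ℝ)} {U V : ℝ × ℝ → ℤ} {M N : ℕ} (hM : 1 ≤ M) (hN : 1 ≤ N)
    (h : Near P U V M N) {p q : ℝ × ℝ} (hp : p ∈ P) (hq : q ∈ P) (hpq : p.1 < q.1) :
    U p ≤ U q := by
  have hM' : (1 : ℝ) ≤ M := by exact_mod_cast hM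
  have hN' : (1 : ℝ) ≤ N := by exact_mod_cast hN
  have hη1 : 1 / (8 * ((M : ℝ) + N)) ≤ 1 / 16 :=
    one_div_le_one_div_of_le (by norm_num) (by linarith)
  have hup := abs_le.1 (h.u p hp)
  have huq := abs_le.1 (h.u q hq)
  by_contra hcon
  push Not at hcon
  have h1 : (U q : ℝ) + 1 ≤ U p := by exact_mod_cast hcon
  linarith

/-- The sign of the difference of two values is the orientation. -/
theorem val_orient {P : Finset (ℝ × ℝ)} {U V : ℝ × ℝ → ℤ} {M N : ℕ} (hM : 1 ≤ M) (hN : 1 ≤ N)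
    (h : Near P U V M N) {p q s : ℝ × ℝ} (hp : p ∈ P) (hq : q ∈ P)
    (hpq : p.1 < q.1) :
    (val U V (lab U V (p, q)) s < val U V (lab U V (p, q)) p →
      (V s - V p) * (U q - U p) - (V q - V p) * (U s - U p) < 0) ∧
    (val U V (lab U V (p, q)) p < val U V (lab U V (p, q)) s →
      0 < (V s - V p) * (U q - U p) - (V q - V p) * (U s - U p)) := by
  have hu := u_le hM hN h hp hq hpq
  by_cases huu : U p = U q
  · have hne : V p ≠ V q := fun hv => by
      have := h.inj p hp q hq huu hv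
      rw [this] at hpq
      exact lt_irrefl _ hpq
    have hl : lab U V (p, q) = Sum.inr (decide (V p < V q)) := by
      unfold lab
      rw [if_pos huu]
    rw [hl]
    rcases lt_or_gt_of_ne hne with hv | hv
    · rw [show decide (V p < V q) = true from by simpa using hv]
      simp only [val]
      constructor
      · intro h1
        have h2 : U p < U s := by
          have : (U p : ℝ) < U s := by linarith
          exact_mod_cast this
        rw [huu] at h2 ⊢
        nlinarith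
      · intro h1
        have h2 : U s < U p := by
          have : (U s : ℝ) < U p := by linarith
          exact_mod_cast this
        rw [huu] at h2 ⊢
        nlinarith
    · rw [show decide (V p < V q) = false from by simpa using hv.le]
      simp only [val]
      constructor
      · intro h1
        have h2 : U s < U p := by exact_mod_cast h1
        rw [huu] at h2 ⊢
        nlinarith
      · intro h1
        have h2 : U p < U s := by exact_mod_cast h1
        rw [huu] at h2 ⊢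
        nlinarith
  · have hlt : U p < U q := lt_of_le_of_ne hu huu
    have hl : lab U V (p, q) = Sum.inl (((V q - V p : ℤ) : ℚ) / ((U q - U p : ℤ) : ℚ)) := by
      unfold lab
      rw [if_neg huu]
    rw [hl]
    simp only [val]
    have hd : (0 : ℝ) < ((U q - U p : ℤ) : ℝ) := by
      have : 0 < U q - U p := by omega
      exact_mod_cast this
    have hr : ((((V q - V p : ℤ) : ℚ) / ((U q - U p : ℤ) : ℚ) : ℚ) : ℝ) * ((U q - U p : ℤ) : ℝ) =
        ((V q - V p : ℤ) : ℝ) := by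
      push_cast
      push_cast at hd
      rw [div_mul_cancel₀ _ hd.ne']
    set r : ℝ := ((((V q - V p : ℤ) : ℚ) / ((U q - U p : ℤ) : ℚ) : ℚ) : ℝ) with hrdef
    have key : (((V s - V p) * (U q - U p) - (V q - V p) * (U s - U p) : ℤ) : ℝ) =
        (((V s : ℝ) - r * U s) - ((V p : ℝ) - r * U p)) * ((U q - U p : ℤ) : ℝ) := by
      have : (((V s - V p) * (U q - U p) - (V q - V p) * (U s - U p) : ℤ) : ℝ) =
          ((V s : ℝ) - V p) * ((U q - U p : ℤ) : ℝ) - ((V q - V p : ℤ) : ℝ) * ((U s : ℝ) - U p) := by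
        push_cast; ring
      rw [this, ← hr]
      ring
    constructor
    · intro h1
      have : (((V s - V p) * (U q - U p) - (V q - V p) * (U s - U p) : ℤ) : ℝ) < 0 := by
        rw [key]
        exact mul_neg_of_neg_of_pos (by linarith) hd
      exact_mod_cast this
    · intro h1
      have : 0 < (((V s - V p) * (U q - U p) - (V q - V p) * (U s - U p) : ℤ) : ℝ) := by
        rw [key]
        exact mul_pos (by linarith) hd
      exact_mod_cast this

theorem val_eq {U V : ℝ × ℝ → ℤ} (p q : ℝ × ℝ) :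
    val U V (lab U V (p, q)) q = val U V (lab U V (p, q)) p := by
  by_cases huu : U p = U q
  · have hl : lab U V (p, q) = Sum.inr (decide (V p < V q)) := by
      unfold lab
      rw [if_pos huu]
    rw [hl]
    cases decide (V p < V q)
    · simp only [val, huu]
    · simp only [val, huu]
  · have hl : lab U V (p, q) = Sum.inl (((V q - V p : ℤ) : ℚ) / ((U q - U p : ℤ) : ℚ)) := by
      unfold lab
      rw [if_neg huu]
    rw [hl]
    simp only [val]
    have hd : ((U q : ℝ) - U p) ≠ 0 := by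
      intro h0
      apply huu
      have : (U q : ℝ) = U p := by linarith
      exact (by exact_mod_cast this.symm)
    push_cast
    field_simp
    ring

/-- Pairwise congruent integers of an interval. -/
theorem card_congr_le (A : Finset ℤ) (M d : ℕ) (hd : 1 ≤ d) (hdM : d ≤ M)
    (h0 : ∀ x ∈ A, 0 ≤ x ∧ x < M) (h1 : ∀ x ∈ A, ∀ y ∈ A, (d : ℤ) ∣ x - y) :
    (#A : ℝ) ≤ 2 * M / d := by
  have hd' : (0 : ℝ) < d := by exact_mod_cast hd
  have hmap : #A ≤ #(Finset.Icc (0 : ℤ) ((M / d : ℕ) : ℤ)) := by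
    apply Finset.card_le_card_of_injOn (fun x => x / (d : ℤ))
    · intro x hx
      obtain ⟨a, b⟩ := h0 x hx
      rw [mem_coe, mem_Icc]
      refine ⟨Int.ediv_nonneg a (by positivity), ?_⟩
      push_cast
      exact Int.ediv_le_ediv (by exact_mod_cast hd) b.le
    · intro x hx y hy hxy
      have h2 := h1 x hx y hy
      have h3 : x % d = y % d := Int.emod_emod_of_dvd x (dvd_refl (d : ℤ)) ▸
        (Int.emod_emod_of_dvd x (dvd_refl (d : ℤ))).symm ▸
        (Int.emod_eq_emod_iff_emod_sub_eq_zero.2 (Int.emod_eq_zero_of_dvd h2))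
      have h4 := Int.emod_add_mul_ediv x d
      have h5 := Int.emod_add_mul_ediv y d
      simp only at hxy
      rw [hxy, h3] at h4
      linarith
  rw [Int.card_Icc] at hmap
  have h2 : #A ≤ M / d + 1 := by
    refine hmap.trans ?_
    have : ((M / d : ℕ) : ℤ) + 1 - 0 = ((M / d + 1 : ℕ) : ℤ) := by push_cast; ring
    rw [this, Int.toNat_natCast]
  have h3 : ((M / d : ℕ) : ℝ) ≤ (M : ℝ) / d := Nat.cast_div_le
  have h4 : (1 : ℝ) ≤ (M : ℝ) / d := by
    rw [le_div_iff₀ hd', one_mul]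
    exact_mod_cast hdM
  have h5 : (#A : ℝ) ≤ ((M / d : ℕ) : ℝ) + 1 := by exact_mod_cast h2
  have h6 : 2 * (M : ℝ) / d = (M : ℝ) / d + (M : ℝ) / d := by ring
  rw [h6]
  linarith

end Pool.Agent.Q126.LV
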