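import Pool.Agent.Q126.LW

/-! Levels of perturbed lattice arrangements: the sizes of the clusters and the sum. -/

set_option autoImplicit false

namespace Pool.Agent.Q126.LV

open Finset Pool.Agent.TH124.KE

/-- Two points with the same value for a direction. -/
theorem val_inl {U V : ℝ × ℝ → ℤ} {r : ℚ} {s s' : ℝ × ℝ}
    (h : val U V (Sum.inl r) s = val U V (Sum.inl r) s') :
    (V s - V s') * (r.den : ℤ) = r.num * (U s - U s') := by
  simp only [val] at h
  have h1 : (V s : ℝ) - V s' = (r : ℝ) * ((U s : ℝ) - U s') := by linarith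
  have h2 : (r : ℝ) * (r.den : ℝ) = r.num := by
    exact_mod_cast Rat.mul_den_eq_num r
  have h3 : ((V s : ℝ) - V s') * (r.den : ℝ) = (r.num : ℝ) * ((U s : ℝ) - U s') := by
    rw [h1, ← h2]; ring
  exact_mod_cast h3

theorem den_dvd {U V : ℝ × ℝ → ℤ} {r : ℚ} {s s' : ℝ × ℝ}
    (h : val U V (Sum.inl r) s = val U V (Sum.inl r) s') : (r.den : ℤ) ∣ U s - U s' := by
  have h1 := val_inl h
  have h2 : IsCoprime (r.den : ℤ) r.num := by
    rw [Int.isCoprime_iff_gcd_eq_one, Int.gcd_comm]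
    exact r.reduced
  exact h2.dvd_of_dvd_mul_left (Dvd.intro_left _ h1)

theorem num_dvd {U V : ℝ × ℝ → ℤ} {r : ℚ} {s s' : ℝ × ℝ}
    (h : val U V (Sum.inl r) s = val U V (Sum.inl r) s') : r.num ∣ V s - V s' := by
  have h1 := val_inl h
  have h2 : IsCoprime (r.den : ℤ) r.num := by
    rw [Int.isCoprime_iff_gcd_eq_one, Int.gcd_comm]
    exact r.reduced
  exact h2.symm.dvd_of_dvd_mul_right (Dvd.intro _ h1.symm)

theorem cluster_den {P : Finset (ℝ × ℝ)} {U V : ℝ × ℝ → ℤ} {M N : ℕ} (h : Near P U V M N)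
    (r : ℚ) (hr : r.den ≤ M) (t : ℝ) :
    (#{s ∈ P | val U V (Sum.inl r) s = t} : ℝ) ≤ 2 * M / r.den := by
  classical
  have hinj : Set.InjOn U ({s ∈ P | val U V (Sum.inl r) s = t} : Finset (ℝ × ℝ)) := by
    intro s hs s' hs' huu
    rw [mem_coe, mem_filter] at hs hs'
    have h1 := val_inl (hs.2.trans hs'.2.symm)
    rw [huu, sub_self, mul_zero] at h1
    have h2 : V s - V s' = 0 := by
      rcases mul_eq_zero.1 h1 with h2 | h2
      · exact h2
      · exact absurd h2 (by exact_mod_cast r.den_nz)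
    exact h.inj s hs.1 s' hs'.1 huu (by omega)
  rw [← card_image_of_injOn hinj]
  refine card_congr_le _ M r.den r.pos hr ?_ ?_
  · intro x hx
    obtain ⟨s, hs, rfl⟩ := mem_image.1 hx
    exact h.u0 s (mem_filter.1 hs).1
  · intro x hx y hy
    obtain ⟨s, hs, rfl⟩ := mem_image.1 hx
    obtain ⟨s', hs', rfl⟩ := mem_image.1 hy
    exact den_dvd ((mem_filter.1 hs).2.trans (mem_filter.1 hs').2.symm)

theorem cluster_num {P : Finset (ℝ × ℝ)} {U V : ℝ × ℝ → ℤ} {M N : ℕ} (h : Near P U V M N)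
    (r : ℚ) (h0 : r ≠ 0) (hr : r.num.natAbs ≤ N) (t : ℝ) :
    (#{s ∈ P | val U V (Sum.inl r) s = t} : ℝ) ≤ 2 * N / r.num.natAbs := by
  classical
  have hnum : r.num ≠ 0 := by simpa using h0
  have hinj : Set.InjOn V ({s ∈ P | val U V (Sum.inl r) s = t} : Finset (ℝ × ℝ)) := by
    intro s hs s' hs' hvv
    rw [mem_coe, mem_filter] at hs hs'
    have h1 := val_inl (hs.2.trans hs'.2.symm)
    rw [hvv, sub_self, zero_mul] at h1
    have h2 : U s - U s' = 0 := by
      rcases mul_eq_zero.1 h1.symm with h2 | h2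
      · exact absurd h2 hnum
      · exact h2
    exact h.inj s hs.1 s' hs'.1 (by omega) hvv
  rw [← card_image_of_injOn hinj]
  refine card_congr_le _ N r.num.natAbs (by omega) hr ?_ ?_
  · intro x hx
    obtain ⟨s, hs, rfl⟩ := mem_image.1 hx
    exact h.v0 s (mem_filter.1 hs).1
  · intro x hx y hy
    obtain ⟨s, hs, rfl⟩ := mem_image.1 hx
    obtain ⟨s', hs', rfl⟩ := mem_image.1 hy
    rw [Int.natAbs_dvd]
    exact num_dvd ((mem_filter.1 hs).2.trans (mem_filter.1 hs').2.symm)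

theorem cluster_zero {P : Finset (ℝ × ℝ)} {U V : ℝ × ℝ → ℤ} {M N : ℕ} (h : Near P U V M N)
    (t : ℝ) : (#{s ∈ P | val U V (Sum.inl 0) s = t} : ℝ) ≤ M := by
  classical
  have hinj : Set.InjOn U ({s ∈ P | val U V (Sum.inl 0) s = t} : Finset (ℝ × ℝ)) := by
    intro s hs s' hs' huu
    rw [mem_coe, mem_filter] at hs hs'
    have h1 := val_inl (hs.2.trans hs'.2.symm)
    have h2 : V s - V s' = 0 := by simpa using h1
    exact h.inj s hs.1 s' hs'.1 huu (by omega)
  rw [← card_image_of_injOn hinj]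
  have h1 : ({s ∈ P | val U V (Sum.inl 0) s = t} : Finset (ℝ × ℝ)).image U ⊆ Ico (0 : ℤ) M := by
    intro x hx
    obtain ⟨s, hs, rfl⟩ := mem_image.1 hx
    rw [mem_Ico]
    exact h.u0 s (mem_filter.1 hs).1
  have h2 := card_le_card h1
  rw [Int.card_Ico, sub_zero, Int.toNat_natCast] at h2
  exact_mod_cast h2

theorem cluster_inr {P : Finset (ℝ × ℝ)} {U V : ℝ × ℝ → ℤ} {M N : ℕ} (h : Near P U V M N)
    (b : Bool) (t : ℝ) : (#{s ∈ P | val U V (Sum.inr b) s = t} : ℝ) ≤ N := by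
  classical
  have hinj : Set.InjOn V ({s ∈ P | val U V (Sum.inr b) s = t} : Finset (ℝ × ℝ)) := by
    intro s hs s' hs' hvv
    rw [mem_coe, mem_filter] at hs hs'
    have h1 := hs.2.trans hs'.2.symm
    have h2 : U s = U s' := by
      cases b
      · simp only [val] at h1
        exact_mod_cast h1
      · simp only [val] at h1
        have : (U s : ℝ) = U s' := by linarith
        exact_mod_cast this
    exact h.inj s hs.1 s' hs'.1 h2 hvv
  rw [← card_image_of_injOn hinj]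
  have h1 : ({s ∈ P | val U V (Sum.inr b) s = t} : Finset (ℝ × ℝ)).image V ⊆ Ico (0 : ℤ) N := by
    intro x hx
    obtain ⟨s, hs, rfl⟩ := mem_image.1 hx
    rw [mem_Ico]
    exact h.v0 s (mem_filter.1 hs).1
  have h2 := card_le_card h1
  rw [Int.card_Ico, sub_zero, Int.toNat_natCast] at h2
  exact_mod_cast h2

/-- The key of a rational number. -/
def key (r : ℚ) : ℕ × ℕ × Bool := (r.num.natAbs, r.den, decide (0 < r.num))

theorem key_inj : Function.Injective key := by
  intro r s h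
  simp only [key, Prod.mk.injEq, decide_eq_decide] at h
  obtain ⟨h1, h2, h3⟩ := h
  apply Rat.ext
  · rcases lt_trichotomy 0 r.num with h | h | h
    · have := h3.1 h
      omega
    · omega
    · have : ¬ 0 < s.num := fun h' => by have := h3.2 h'; omega
      omega
  · exact h2

/-- The box of the keys. -/
def kbox (M N : ℕ) : Finset (ℕ × ℕ × Bool) := Icc 1 N ×ˢ Icc 1 M ×ˢ univ

/-- The slopes. -/
noncomputable def slopes (M N : ℕ) : Finset ℚ := (kbox M N).preimage key (key_inj.injOn)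

theorem mem_slopes {M N : ℕ} {r : ℚ} :
    r ∈ slopes M N ↔ (1 ≤ r.num.natAbs ∧ r.num.natAbs ≤ N) ∧ r.den ≤ M := by
  unfold slopes
  rw [mem_preimage]
  unfold kbox
  rw [mem_product, mem_product]
  simp only [key, mem_Icc, mem_univ, and_true]
  have := r.pos
  constructor
  · rintro ⟨h1, -, h2⟩
    exact ⟨h1, h2⟩
  · rintro ⟨h1, h2⟩
    exact ⟨h1, this, h2⟩

/-- The sum of the powers. -/
theorem sum_pow (M : ℕ) : ∑ q ∈ Icc 1 M, ((q : ℝ)⁻¹) ^ (2 / 3 : ℝ) ≤ 3 * (M : ℝ) ^ (1 / 3 : ℝ) := by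
  induction M with
  | zero => simp
  | succ M ih =>
    rw [Finset.sum_Icc_succ_top (by omega)]
    set a : ℝ := ((M + 1 : ℕ) : ℝ) ^ (1 / 3 : ℝ) with ha
    set b : ℝ := (M : ℝ) ^ (1 / 3 : ℝ) with hb
    have hM : (0 : ℝ) < ((M + 1 : ℕ) : ℝ) := by positivity
    have ha0 : 0 < a := Real.rpow_pos_of_pos hM _
    have hb0 : 0 ≤ b := Real.rpow_nonneg (by positivity) _
    have hab : b ≤ a := Real.rpow_le_rpow (by positivity) (by push_cast; linarith) (by norm_num)
    have ha3 : a ^ 3 = ((M + 1 : ℕ) : ℝ) := by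
      rw [ha, ← Real.rpow_natCast, ← Real.rpow_mul hM.le]
      norm_num
    have hb3 : b ^ 3 = (M : ℝ) := by
      rw [hb, ← Real.rpow_natCast, ← Real.rpow_mul (by positivity)]
      norm_num
    have h1 : (((M + 1 : ℕ) : ℝ)⁻¹) ^ (2 / 3 : ℝ) = (a ^ 2)⁻¹ := by
      rw [ha, ← Real.rpow_natCast, ← Real.rpow_mul hM.le, Real.inv_rpow hM.le]
      norm_num
    rw [h1]
    have h2 : a ^ 3 - b ^ 3 = 1 := by rw [ha3, hb3]; push_cast; ring
    have h3 : (a ^ 2)⁻¹ ≤ 3 * (a - b) := by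
      rw [inv_le_iff_one_le_mul₀ (by positivity), ← h2]
      nlinarith [mul_nonneg (sub_nonneg.2 hab) (sub_nonneg.2 hab), mul_nonneg ha0.le hb0,
        mul_nonneg (sub_nonneg.2 hab) (mul_nonneg ha0.le (sub_nonneg.2 hab)),
        mul_nonneg (sub_nonneg.2 hab) (mul_nonneg hb0 (sub_nonneg.2 hab)),
        mul_nonneg (sub_nonneg.2 hab) (mul_nonneg hb0 hb0)]
    linarith

end Pool.Agent.Q126.LV
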