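import Pool.Agent.Q126.LX

/-! Levels of arrangements close to lattice arrangements: counting with a tolerance. -/

set_option autoImplicit false

namespace Pool.Agent.Q126.LV

open Finset Pool.Agent.TH124.KE

/-- Counting by labels with a tolerance: the ends of a pair have nearly the same value for the
label of the pair, points with values smaller by more than the tolerance are below the line of the
pair, points with values larger by more than the tolerance above it. -/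
theorem local_count_tol {Λ : Type*} [DecidableEq Λ] {P : Finset (ℝ × ℝ)} (hP : GP P) (k : ℕ)
    (lab : Seg → Λ) (val : Λ → ℝ × ℝ → ℝ) (τ : Λ → ℝ)
    (h1 : ∀ p ∈ P, ∀ q ∈ P, p.1 < q.1 →
      |val (lab (p, q)) q - val (lab (p, q)) p| ≤ τ (lab (p, q)))
    (h2 : ∀ p ∈ P, ∀ q ∈ P, p.1 < q.1 → ∀ s ∈ P,
      val (lab (p, q)) s < val (lab (p, q)) p - τ (lab (p, q)) →
      hh (sl p q) s < hh (sl p q) p)
    (h3 : ∀ p ∈ P, ∀ q ∈ P, p.1 < q.1 → ∀ s ∈ P,
      val (lab (p, q)) p + τ (lab (p, q)) < val (lab (p, q)) s →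
      hh (sl p q) p < hh (sl p q) s)
    (L : Finset Λ) (hL : ∀ p ∈ P, ∀ q ∈ P, p.1 < q.1 → lab (p, q) ∈ L)
    (c : Λ → ℝ) (hc0 : ∀ ρ ∈ L, 0 ≤ c ρ)
    (hc : ∀ ρ ∈ L, ∀ t, (#{s ∈ P | |val ρ s - t| ≤ 3 * τ ρ} : ℝ) ≤ c ρ) :
    (#(kes P k) : ℝ) ≤ ∑ ρ ∈ L, 7 * (c ρ) ^ (4 / 3 : ℝ) := by
  classical
  have hmem : ∀ e ∈ kes P k, e.1 ∈ P ∧ e.2 ∈ P ∧ e.1.1 < e.2.1 ∧
      bel P (sl e.1 e.2) e.1 = k := fun e he => mem_kes.1 he
  have hfib : #(kes P k) = ∑ ρ ∈ L, #{e ∈ kes P k | lab e = ρ} :=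
    card_eq_sum_card_fiberwise fun e he => by
      obtain ⟨a1, a2, a3, -⟩ := hmem e he
      exact hL e.1 a1 e.2 a2 a3
  rw [hfib]
  push_cast
  refine sum_le_sum fun ρ hρ => ?_
  by_cases h0 : ∃ e ∈ kes P k, lab e = ρ
  swap
  · have hF : #{e ∈ kes P k | lab e = ρ} = 0 := by
      rw [card_eq_zero, filter_eq_empty_iff]
      intro e he hlab
      exact h0 ⟨e, he, hlab⟩
    rw [hF]
    have := Real.rpow_nonneg (hc0 ρ hρ) (4 / 3 : ℝ)
    push_cast
    linarith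
  obtain ⟨e0, he0, hl0⟩ := h0
  have hτ0 : 0 ≤ τ ρ := by
    obtain ⟨a1, a2, a3, -⟩ := hmem e0 he0
    have := h1 e0.1 a1 e0.2 a2 a3
    have hl' : lab (e0.1, e0.2) = ρ := hl0
    rw [hl'] at this
    exact (abs_nonneg _).trans this
  have hge : ∀ e ∈ kes P k, lab e = ρ → #{s ∈ P | val ρ s < val ρ e.1 - τ ρ} ≤ k := by
    intro e he hl
    obtain ⟨a1, a2, a3, a4⟩ := hmem e he
    have b2 := h2 e.1 a1 e.2 a2 a3
    have hl' : lab (e.1, e.2) = ρ := hl
    rw [hl'] at b2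
    rw [← a4]
    unfold bel
    apply card_le_card
    intro s hs
    rw [mem_filter] at hs ⊢
    exact ⟨hs.1, b2 s hs.1 hs.2⟩
  have hlt : ∀ e ∈ kes P k, lab e = ρ → k < #{s ∈ P | val ρ s ≤ val ρ e.1 + τ ρ} := by
    intro e he hl
    obtain ⟨a1, a2, a3, a4⟩ := hmem e he
    have b3 := h3 e.1 a1 e.2 a2 a3
    have hl' : lab (e.1, e.2) = ρ := hl
    rw [hl'] at b3
    rw [← a4]
    unfold bel
    apply card_lt_card
    have hsub : {s ∈ P | hh (sl e.1 e.2) s < hh (sl e.1 e.2) e.1} ⊆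
        {s ∈ P | val ρ s ≤ val ρ e.1 + τ ρ} := by
      intro s hs
      rw [mem_filter] at hs ⊢
      refine ⟨hs.1, ?_⟩
      by_contra hcon
      push Not at hcon
      exact absurd hs.2 (not_lt.2 (b3 s hs.1 hcon).le)
    rw [ssubset_iff_of_subset hsub]
    exact ⟨e.1, mem_filter.2 ⟨a1, by linarith⟩, fun h => lt_irrefl _ (mem_filter.1 h).2⟩
  have hcmp : ∀ e ∈ kes P k, lab e = ρ → ∀ f ∈ kes P k, lab f = ρ →
      val ρ f.1 - val ρ e.1 ≤ 2 * τ ρ := by
    intro e he hl f hf hl'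
    by_contra hval
    push Not at hval
    have x1 := hlt e he hl
    have x2 := hge f hf hl'
    have x3 : #{s ∈ P | val ρ s ≤ val ρ e.1 + τ ρ} ≤ #{s ∈ P | val ρ s < val ρ f.1 - τ ρ} := by
      apply card_le_card
      intro s hs
      rw [mem_filter] at hs ⊢
      exact ⟨hs.1, by linarith [hs.2]⟩
    omega
  set t := val ρ e0.1 with ht
  set Q : Finset (ℝ × ℝ) := {s ∈ P | |val ρ s - t| ≤ 3 * τ ρ} with hQ
  have hsub : {e ∈ kes P k | lab e = ρ} ⊆ kes Q (k - #{s ∈ P | val ρ s < t - 3 * τ ρ}) := by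
    intro e he
    obtain ⟨he, hl⟩ := mem_filter.1 he
    obtain ⟨a1, a2, a3, a4⟩ := hmem e he
    have v1 := hcmp e he hl e0 he0 hl0
    have v2 := hcmp e0 he0 hl0 e he hl
    rw [← ht] at v1 v2
    have b1 := h1 e.1 a1 e.2 a2 a3
    have b2 := h2 e.1 a1 e.2 a2 a3
    have b3 := h3 e.1 a1 e.2 a2 a3
    have hl' : lab (e.1, e.2) = ρ := hl
    rw [hl'] at b1 b2 b3
    have b1' := abs_le.1 b1
    have hsplit : k = #{s ∈ P | val ρ s < t - 3 * τ ρ} + bel Q (sl e.1 e.2) e.1 := by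
      rw [← a4]
      unfold bel
      rw [← card_union_of_disjoint]
      · congr 1
        ext s
        simp only [hQ, mem_filter, mem_union]
        constructor
        · rintro ⟨hs, hlt⟩
          by_cases c1 : val ρ s < t - 3 * τ ρ
          · exact Or.inl ⟨hs, c1⟩
          · push Not at c1
            refine Or.inr ⟨⟨hs, abs_le.2 ⟨by linarith, ?_⟩⟩, hlt⟩
            by_contra c2
            push Not at c2
            exact absurd hlt (not_lt.2 (b3 s hs (by linarith)).le)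
        · rintro (⟨hs, h⟩ | ⟨⟨hs, _⟩, hlt⟩)
          · exact ⟨hs, b2 s hs (by linarith)⟩
          · exact ⟨hs, hlt⟩
      · rw [disjoint_left]
        intro s hs hs'
        have x1 := (mem_filter.1 hs).2
        have x2 := (abs_le.1 (mem_filter.1 (mem_filter.1 hs').1).2).1
        linarith
    rw [mem_kes]
    refine ⟨mem_filter.2 ⟨a1, abs_le.2 ⟨by linarith, by linarith⟩⟩,
      mem_filter.2 ⟨a2, abs_le.2 ⟨by linarith, by linarith⟩⟩, a3, ?_⟩
    omega
  have h4 := dey (gp_sub hP (filter_subset _ P : Q ⊆ P)) (k - #{s ∈ P | val ρ s < t - 3 * τ ρ})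
  have h5 : (#{e ∈ kes P k | lab e = ρ} : ℝ) ≤
      #(kes Q (k - #{s ∈ P | val ρ s < t - 3 * τ ρ})) := by
    exact_mod_cast card_le_card hsub
  have h6 := hc ρ hρ t
  have h7 : ((#Q : ℝ) * #Q) ^ (2 / 3 : ℝ) ≤ (c ρ) ^ (4 / 3 : ℝ) := by
    have e1 : (c ρ) ^ (4 / 3 : ℝ) = (c ρ * c ρ) ^ (2 / 3 : ℝ) := by
      rw [Real.mul_rpow (hc0 ρ hρ) (hc0 ρ hρ), ← Real.rpow_add_of_nonneg (hc0 ρ hρ) (by norm_num)
        (by norm_num)]
      norm_num
    rw [e1]
    exact Real.rpow_le_rpow (by positivity)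
      (mul_le_mul h6 h6 (by positivity) (hc0 ρ hρ)) (by norm_num)
  linarith

/-- Dirichlet's theorem for directions. -/
theorem dir_aux (ξ : ℝ) (hξ : |ξ| ≤ 1) {R : ℕ} (hR : 1 ≤ R) :
    ∃ a b : ℤ, IsCoprime a b ∧ 0 < b ∧ b ≤ R ∧ |a| ≤ b ∧ |(b : ℝ) * ξ - a| ≤ 1 / ((R : ℝ) + 1) := by
  obtain ⟨q, h1, h2⟩ := Real.exists_rat_abs_sub_le_and_den_le ξ (n := R) hR
  have hd : (0 : ℝ) < q.den := by exact_mod_cast q.pos
  have hR' : (1 : ℝ) ≤ R := by exact_mod_cast hR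
  have hq : (q : ℝ) * q.den = q.num := by exact_mod_cast Rat.mul_den_eq_num q
  have h3 : |((q.den : ℤ) : ℝ) * ξ - q.num| ≤ 1 / ((R : ℝ) + 1) := by
    have : ((q.den : ℤ) : ℝ) * ξ - q.num = (q.den : ℝ) * (ξ - q) := by
      rw [← hq]; push_cast; ring
    rw [this, abs_mul, abs_of_pos hd]
    calc (q.den : ℝ) * |ξ - q| ≤ q.den * (1 / (((R : ℝ) + 1) * q.den)) :=
          mul_le_mul_of_nonneg_left h1 hd.le
      _ = 1 / ((R : ℝ) + 1) := by field_simp
  refine ⟨q.num, q.den, ?_, by exact_mod_cast q.pos, by exact_mod_cast h2, ?_, h3⟩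
  · rw [Int.isCoprime_iff_gcd_eq_one]
    exact q.reduced
  · have h4 : 1 / ((R : ℝ) + 1) ≤ 1 / 2 := one_div_le_one_div_of_le (by norm_num) (by linarith)
    have h5 : |((q.den : ℤ) : ℝ) * ξ| ≤ q.den := by
      rw [abs_mul]
      push_cast
      rw [abs_of_pos hd]
      nlinarith [abs_nonneg ξ]
    have h6 := abs_le.1 h3
    have h7 := abs_le.1 h5
    have h8 : |(q.num : ℝ)| ≤ q.den + 1 / 2 := abs_le.2 ⟨by linarith, by linarith⟩
    have h9 : |(q.num : ℝ)| < ((q.den : ℤ) : ℝ) + 1 := by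
      push_cast
      linarith
    have h10 : |q.num| < (q.den : ℤ) + 1 := by exact_mod_cast h9
    omega

/-- Directions. -/
def Dir (R : ℕ) (dx dy : ℝ) (z : ℤ × ℤ) : Prop :=
  IsCoprime z.1 z.2 ∧ |z.1| ≤ R ∧ |z.2| ≤ R ∧ ∃ D > 0, ∃ δ₁ δ₂ : ℝ, dx = D * (z.1 + δ₁) ∧
    dy = D * (z.2 + δ₂) ∧ |δ₁| + |δ₂| ≤ 1 / ((R : ℝ) + 1)

theorem exists_dir (dx dy : ℝ) (hdx : 0 < dx) {R : ℕ} (hR : 1 ≤ R) : ∃ z, Dir R dx dy z := by
  rcases le_or_gt |dy| dx with h | h
  · obtain ⟨a, b, h1, h2, h3, h4, h5⟩ := dir_aux (dy / dx) (by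
      rw [abs_div, abs_of_pos hdx, div_le_one hdx]; exact h) hR
    have hb : (0 : ℝ) < b := by exact_mod_cast h2
    refine ⟨(b, a), h1.symm, by rw [abs_of_pos h2]; exact h3, h4.trans h3, dx / b, by positivity, 0,
      (b : ℝ) * (dy / dx) - a, ?_, ?_, ?_⟩
    · dsimp only
      field_simp
      ring
    · dsimp only
      field_simp
      ring
    · simpa using h5
  · have hdy : 0 < |dy| := hdx.trans h
    obtain ⟨a, b, h1, h2, h3, h4, h5⟩ := dir_aux (dx / |dy|) (by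
      rw [abs_div, abs_of_pos hdx, abs_abs, div_le_one hdy]; exact h.le) hR
    have hb : (0 : ℝ) < b := by exact_mod_cast h2
    rcases le_or_gt 0 dy with hy | hy
    · rw [abs_of_nonneg hy] at h5 hdy
      refine ⟨(a, b), h1, h4.trans h3, by rw [abs_of_pos h2]; exact h3, dy / b, by positivity,
        (b : ℝ) * (dx / dy) - a, 0, ?_, ?_, ?_⟩
      · dsimp only
        field_simp
        ring
      · dsimp only
        field_simp
        ring
      · simpa using h5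
    · have hy' : dy ≠ 0 := hy.ne
      rw [abs_of_neg hy] at h5 hdy
      refine ⟨(a, -b), h1.neg_right, h4.trans h3, by rw [abs_neg, abs_of_pos h2]; exact h3,
        -dy / b, by positivity, (b : ℝ) * (dx / -dy) - a, 0, ?_, ?_, ?_⟩
      · dsimp only
        field_simp
        ring
      · dsimp only
        push_cast
        field_simp
        ring
      · simpa using h5

end Pool.Agent.Q126.LV
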