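import Pool.Agent.Q126.LY

/-! Levels of arrangements close to lattice arrangements: directions and clusters. -/

set_option autoImplicit false

namespace Pool.Agent.Q126.LV

open Finset Pool.Agent.TH124.KE

/-- A finite set of points at distance at most `ε` (in each coordinate) from different lattice
points of the box `[0, M) × [0, M)`. -/
structure Close (P : Finset (ℝ × ℝ)) (U V : ℝ × ℝ → ℤ) (M : ℕ) (ε : ℝ) : Prop where
  u : ∀ p ∈ P, |p.1 - U p| ≤ ε
  v : ∀ p ∈ P, |p.2 - V p| ≤ ε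
  u0 : ∀ p ∈ P, 0 ≤ U p ∧ U p < M
  v0 : ∀ p ∈ P, 0 ≤ V p ∧ V p < M
  inj : ∀ p ∈ P, ∀ q ∈ P, U p = U q → V p = V q → p = q

/-- The value of a point for a direction. -/
def vl (U V : ℝ × ℝ → ℤ) (z : ℤ × ℤ) (s : ℝ × ℝ) : ℝ := (z.1 : ℝ) * V s - (z.2 : ℝ) * U s

/-- The size of a direction. -/
def sz (z : ℤ × ℤ) : ℕ := max z.1.natAbs z.2.natAbs

/-- The tolerance of a direction. -/
noncomputable def tol (M R : ℕ) (ε : ℝ) (z : ℤ × ℤ) : ℝ := 5 * ε * sz z + (M : ℝ) / R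

theorem sz_pos {z : ℤ × ℤ} (h : IsCoprime z.1 z.2) : 1 ≤ sz z := by
  unfold sz
  by_contra hcon
  have h1 : z.1.natAbs = 0 := by omega
  have h2 : z.2.natAbs = 0 := by omega
  rw [Int.natAbs_eq_zero] at h1 h2
  rw [h1, h2] at h
  exact not_isUnit_zero (isCoprime_zero_left.1 h)

/-- The orientation of a triple is nearly the difference of the values. -/
theorem orient_dir {P : Finset (ℝ × ℝ)} {U V : ℝ × ℝ → ℤ} {M R : ℕ} {ε : ℝ} (hR : 1 ≤ R)
    (h : Close P U V M ε) {p q : ℝ × ℝ} (hp : p ∈ P) {z : ℤ × ℤ}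
    (hz : Dir R (q.1 - p.1) (q.2 - p.2) z) :
    ∃ D > 0, ∀ s ∈ P, |((s.2 - p.2) * (q.1 - p.1) - (q.2 - p.2) * (s.1 - p.1)) / D -
      (vl U V z s - vl U V z p)| ≤ tol M R ε z := by
  obtain ⟨hco, -, -, D, hD, δ₁, δ₂, e1, e2, hδ⟩ := hz
  refine ⟨D, hD, fun s hs => ?_⟩
  have hR' : (1 : ℝ) ≤ R := by exact_mod_cast hR
  have hup := h.u p hp
  have hvp := h.v p hp
  have hus := h.u s hs
  have hvs := h.v s hs
  have hε : 0 ≤ ε := (abs_nonneg _).trans hup
  have cast : ∀ a : ℤ, 0 ≤ a ∧ a < M → (0 : ℝ) ≤ a ∧ (a : ℝ) ≤ M := by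
    intro a ⟨h1, h2⟩
    exact ⟨by exact_mod_cast h1, by exact_mod_cast h2.le⟩
  obtain ⟨a1, a2⟩ := cast _ (h.u0 p hp)
  obtain ⟨a3, a4⟩ := cast _ (h.v0 p hp)
  obtain ⟨a5, a6⟩ := cast _ (h.u0 s hs)
  obtain ⟨a7, a8⟩ := cast _ (h.v0 s hs)
  have key : ((s.2 - p.2) * (q.1 - p.1) - (q.2 - p.2) * (s.1 - p.1)) / D -
      (vl U V z s - vl U V z p) =
      (z.1 : ℝ) * ((s.2 - V s) - (p.2 - V p)) - (z.2 : ℝ) * ((s.1 - U s) - (p.1 - U p)) +
        (δ₁ * (s.2 - p.2) - δ₂ * (s.1 - p.1)) := by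
    rw [e1, e2]
    unfold vl
    field_simp
    ring
  rw [key]
  have b1 : |(s.2 - V s) - (p.2 - V p)| ≤ 2 * ε := by
    have := abs_sub (s.2 - V s) (p.2 - V p)
    linarith
  have b2 : |(s.1 - U s) - (p.1 - U p)| ≤ 2 * ε := by
    have := abs_sub (s.1 - U s) (p.1 - U p)
    linarith
  have b3 : |s.2 - p.2| ≤ M + 2 * ε := by
    have x1 := abs_le.1 hvp
    have x2 := abs_le.1 hvs
    exact abs_le.2 ⟨by linarith, by linarith⟩
  have b4 : |s.1 - p.1| ≤ M + 2 * ε := by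
    have x1 := abs_le.1 hup
    have x2 := abs_le.1 hus
    exact abs_le.2 ⟨by linarith, by linarith⟩
  have s1 : |(z.1 : ℝ)| ≤ sz z := by
    have : z.1.natAbs ≤ sz z := le_max_left _ _
    rw [← Int.cast_abs, Int.abs_eq_natAbs]
    exact_mod_cast this
  have s2 : |(z.2 : ℝ)| ≤ sz z := by
    have : z.2.natAbs ≤ sz z := le_max_right _ _
    rw [← Int.cast_abs, Int.abs_eq_natAbs]
    exact_mod_cast this
  have s3 : (1 : ℝ) ≤ sz z := by exact_mod_cast sz_pos hco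
  have c1 : |(z.1 : ℝ) * ((s.2 - V s) - (p.2 - V p))| ≤ sz z * (2 * ε) := by
    rw [abs_mul]; exact mul_le_mul s1 b1 (abs_nonneg _) (by linarith)
  have c2 : |(z.2 : ℝ) * ((s.1 - U s) - (p.1 - U p))| ≤ sz z * (2 * ε) := by
    rw [abs_mul]; exact mul_le_mul s2 b2 (abs_nonneg _) (by linarith)
  have c3 : |δ₁ * (s.2 - p.2) - δ₂ * (s.1 - p.1)| ≤ (M : ℝ) / R + ε := by
    have d1 : |δ₁ * (s.2 - p.2)| ≤ |δ₁| * (M + 2 * ε) := by
      rw [abs_mul]; exact mul_le_mul_of_nonneg_left b3 (abs_nonneg _)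
    have d2 : |δ₂ * (s.1 - p.1)| ≤ |δ₂| * (M + 2 * ε) := by
      rw [abs_mul]; exact mul_le_mul_of_nonneg_left b4 (abs_nonneg _)
    have d3 := abs_sub (δ₁ * (s.2 - p.2)) (δ₂ * (s.1 - p.1))
    have hMε : (0 : ℝ) ≤ M + 2 * ε := by positivity
    have d4 : (|δ₁| + |δ₂|) * (M + 2 * ε) ≤ 1 / ((R : ℝ) + 1) * (M + 2 * ε) :=
      mul_le_mul_of_nonneg_right hδ hMε
    have d5 : 1 / ((R : ℝ) + 1) * (M + 2 * ε) = (M : ℝ) / (R + 1) + 2 * ε / (R + 1) := by ring
    have d6 : (M : ℝ) / (R + 1) ≤ (M : ℝ) / R :=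
      div_le_div_of_nonneg_left (by positivity) (by linarith) (by linarith)
    have d7 : 2 * ε / ((R : ℝ) + 1) ≤ ε := by
      rw [div_le_iff₀ (by linarith)]
      nlinarith
    linarith
  have c4 := abs_sub ((z.1 : ℝ) * ((s.2 - V s) - (p.2 - V p)))
    ((z.2 : ℝ) * ((s.1 - U s) - (p.1 - U p)))
  have c5 := abs_add_le ((z.1 : ℝ) * ((s.2 - V s) - (p.2 - V p)) -
    (z.2 : ℝ) * ((s.1 - U s) - (p.1 - U p))) (δ₁ * (s.2 - p.2) - δ₂ * (s.1 - p.1))
  unfold tol
  nlinarith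

/-- Clusters. -/
theorem cluster {P : Finset (ℝ × ℝ)} {U V : ℝ × ℝ → ℤ} {M : ℕ} {ε : ℝ}
    (h : Close P U V M ε) {z : ℤ × ℤ} (hz : IsCoprime z.1 z.2) (hzM : sz z ≤ M) (t T : ℝ)
    (hT : 0 ≤ T) :
    (#{s ∈ P | |vl U V z s - t| ≤ T} : ℝ) ≤ (2 * T + 1) * (2 * M / sz z) := by
  classical
  set Q : Finset (ℝ × ℝ) := {s ∈ P | |vl U V z s - t| ≤ T} with hQ
  set f : ℝ × ℝ → ℤ := fun s => z.1 * V s - z.2 * U s with hf
  have hsz := sz_pos hz
  have hQP : ∀ s ∈ Q, s ∈ P := fun s hs => (mem_filter.1 hs).1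
  have hfib : ∀ w ∈ Q.image f, (#{s ∈ Q | f s = w} : ℝ) ≤ 2 * M / sz z := by
    intro w _
    have hrel : ∀ s ∈ ({s ∈ Q | f s = w} : Finset (ℝ × ℝ)),
        ∀ s' ∈ ({s ∈ Q | f s = w} : Finset (ℝ × ℝ)), z.1 * (V s - V s') = z.2 * (U s - U s') := by
      intro s hs s' hs'
      have x1 := (mem_filter.1 hs).2
      have x2 := (mem_filter.1 hs').2
      simp only [hf] at x1 x2
      linarith
    rcases le_total z.2.natAbs z.1.natAbs with hle | hle
    · have hszz : sz z = z.1.natAbs := max_eq_left hle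
      have hne : z.1 ≠ 0 := by
        intro h0
        rw [hszz, h0] at hsz
        simp at hsz
      have hinj : Set.InjOn U ({s ∈ Q | f s = w} : Finset (ℝ × ℝ)) := by
        intro s hs s' hs' huu
        rw [mem_coe] at hs hs'
        have x1 := hrel s hs s' hs'
        rw [huu, sub_self, mul_zero] at x1
        have x2 : V s - V s' = 0 := by
          rcases mul_eq_zero.1 x1 with x2 | x2
          · exact absurd x2 hne
          · exact x2
        exact h.inj s (hQP s (mem_filter.1 hs).1) s' (hQP s' (mem_filter.1 hs').1) huu (by omega)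
      rw [← card_image_of_injOn hinj]
      refine card_congr_le _ M (sz z) hsz hzM ?_ ?_
      · intro x hx
        obtain ⟨s, hs, rfl⟩ := mem_image.1 hx
        exact h.u0 s (hQP s (mem_filter.1 hs).1)
      · intro x hx y hy
        obtain ⟨s, hs, rfl⟩ := mem_image.1 hx
        obtain ⟨s', hs', rfl⟩ := mem_image.1 hy
        rw [hszz, Int.natAbs_dvd]
        exact hz.dvd_of_dvd_mul_left (Dvd.intro _ (hrel s hs s' hs'))
    · have hszz : sz z = z.2.natAbs := max_eq_right hle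
      have hne : z.2 ≠ 0 := by
        intro h0
        rw [hszz, h0] at hsz
        simp at hsz
      have hinj : Set.InjOn V ({s ∈ Q | f s = w} : Finset (ℝ × ℝ)) := by
        intro s hs s' hs' hvv
        rw [mem_coe] at hs hs'
        have x1 := hrel s hs s' hs'
        rw [hvv, sub_self, mul_zero] at x1
        have x2 : U s - U s' = 0 := by
          rcases mul_eq_zero.1 x1.symm with x2 | x2
          · exact absurd x2 hne
          · exact x2
        exact h.inj s (hQP s (mem_filter.1 hs).1) s' (hQP s' (mem_filter.1 hs').1) (by omega) hvv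
      rw [← card_image_of_injOn hinj]
      refine card_congr_le _ M (sz z) hsz hzM ?_ ?_
      · intro x hx
        obtain ⟨s, hs, rfl⟩ := mem_image.1 hx
        exact h.v0 s (hQP s (mem_filter.1 hs).1)
      · intro x hx y hy
        obtain ⟨s, hs, rfl⟩ := mem_image.1 hx
        obtain ⟨s', hs', rfl⟩ := mem_image.1 hy
        rw [hszz, Int.natAbs_dvd]
        exact hz.symm.dvd_of_dvd_mul_left (Dvd.intro _ (hrel s hs s' hs').symm)
  have himg : (#(Q.image f) : ℝ) ≤ 2 * T + 1 := by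
    have hsub : Q.image f ⊆ Icc ⌈t - T⌉ ⌊t + T⌋ := by
      intro w hw
      obtain ⟨s, hs, rfl⟩ := mem_image.1 hw
      have x1 := abs_le.1 (mem_filter.1 hs).2
      have x2 : ((f s : ℤ) : ℝ) = vl U V z s := by
        simp only [hf, vl]
        push_cast
        ring
      rw [mem_Icc, Int.ceil_le, Int.le_floor, x2]
      exact ⟨by linarith, by linarith⟩
    have x1 := card_le_card hsub
    rw [Int.card_Icc] at x1
    have x2 : ((⌊t + T⌋ + 1 - ⌈t - T⌉).toNat : ℝ) ≤ 2 * T + 1 := by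
      rcases le_total 0 (⌊t + T⌋ + 1 - ⌈t - T⌉) with h0 | h0
      · have : ((⌊t + T⌋ + 1 - ⌈t - T⌉).toNat : ℤ) = ⌊t + T⌋ + 1 - ⌈t - T⌉ := Int.toNat_of_nonneg h0
        have : ((⌊t + T⌋ + 1 - ⌈t - T⌉).toNat : ℝ) = ((⌊t + T⌋ + 1 - ⌈t - T⌉ : ℤ) : ℝ) := by
          exact_mod_cast this
        rw [this]
        push_cast
        have y1 := Int.floor_le (t + T)
        have y2 := Int.le_ceil (t - T)
        linarith
      · rw [Int.toNat_of_nonpos h0]
        push_cast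
        linarith
    exact (by exact_mod_cast x1 : (#(Q.image f) : ℝ) ≤
      ((⌊t + T⌋ + 1 - ⌈t - T⌉).toNat : ℝ)).trans x2
  have hsum : (#Q : ℝ) = ∑ w ∈ Q.image f, (#{s ∈ Q | f s = w} : ℝ) := by
    exact_mod_cast card_eq_sum_card_image f Q
  rw [hsum]
  calc ∑ w ∈ Q.image f, (#{s ∈ Q | f s = w} : ℝ) ≤ ∑ _w ∈ Q.image f, (2 * (M : ℝ) / sz z) :=
        sum_le_sum hfib
    _ = #(Q.image f) * (2 * (M : ℝ) / sz z) := by rw [sum_const, nsmul_eq_mul]
    _ ≤ _ := mul_le_mul_of_nonneg_right himg (by positivity)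

end Pool.Agent.Q126.LV
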