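import Pool.Agent.Q126.LZ

/-! Levels of arrangements close to lattice arrangements: the bound. -/

set_option autoImplicit false

namespace Pool.Agent.Q126.LV

open Finset Pool.Agent.TH124.KE

/-- The directions of size at most `R`. -/
noncomputable def dirs (R : ℕ) : Finset (ℤ × ℤ) :=
  open Classical in
  (Icc (-(R : ℤ)) R ×ˢ Icc (-(R : ℤ)) R).filter fun z => IsCoprime z.1 z.2

theorem mem_dirs {R : ℕ} {z : ℤ × ℤ} :
    z ∈ dirs R ↔ (|z.1| ≤ R ∧ |z.2| ≤ R) ∧ IsCoprime z.1 z.2 := by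
  unfold dirs
  rw [mem_filter, mem_product, mem_Icc, mem_Icc, abs_le, abs_le]

theorem sz_le {R : ℕ} {z : ℤ × ℤ} (hz : z ∈ dirs R) : sz z ≤ R := by
  obtain ⟨⟨h1, h2⟩, -⟩ := mem_dirs.1 hz
  unfold sz
  rw [Int.abs_eq_natAbs] at h1 h2
  exact max_le (by exact_mod_cast h1) (by exact_mod_cast h2)

theorem sum_dirs (R : ℕ) (f : ℕ → ℝ) (hf : ∀ b ∈ Icc 1 R, 0 ≤ f b) :
    ∑ z ∈ dirs R, f (sz z) ≤ ∑ b ∈ Icc 1 R, 12 * (b : ℝ) * f b := by
  classical
  have hmap : ∀ z ∈ dirs R, sz z ∈ Icc 1 R := fun z hz =>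
    mem_Icc.2 ⟨sz_pos (mem_dirs.1 hz).2, sz_le hz⟩
  rw [← sum_fiberwise_of_maps_to hmap]
  refine sum_le_sum fun b hb => ?_
  have h1 : ∑ z ∈ dirs R with sz z = b, f (sz z) = #{z ∈ dirs R | sz z = b} * f b := by
    rw [← nsmul_eq_mul, ← sum_const]
    refine sum_congr rfl fun z hz => ?_
    rw [(mem_filter.1 hz).2]
  rw [h1]
  refine mul_le_mul_of_nonneg_right ?_ (hf b hb)
  have hb1 := (mem_Icc.1 hb).1
  have hsub : ({z ∈ dirs R | sz z = b} : Finset (ℤ × ℤ)) ⊆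
      (({(b : ℤ), -(b : ℤ)} : Finset ℤ) ×ˢ Icc (-(b : ℤ)) b) ∪
        (Icc (-(b : ℤ)) b ×ˢ ({(b : ℤ), -(b : ℤ)} : Finset ℤ)) := by
    intro z hz
    have hs := (mem_filter.1 hz).2
    unfold sz at hs
    rw [mem_union, mem_product, mem_product, mem_insert, mem_singleton, mem_insert,
      mem_singleton, mem_Icc, mem_Icc]
    rcases le_total z.2.natAbs z.1.natAbs with h | h
    · left
      rw [max_eq_left h] at hs
      constructor
      · omega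
      · constructor <;> omega
    · right
      rw [max_eq_right h] at hs
      constructor
      · constructor <;> omega
      · omega
  have h2 : #({z ∈ dirs R | sz z = b} : Finset (ℤ × ℤ)) ≤ 12 * b := by
    refine (card_le_card hsub).trans ((card_union_le _ _).trans ?_)
    rw [card_product, card_product, Int.card_Icc]
    have h3 : #({(b : ℤ), -(b : ℤ)} : Finset ℤ) ≤ 2 := card_le_two
    have h4 : ((b : ℤ) + 1 - -(b : ℤ)).toNat = 2 * b + 1 := by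
      have : (b : ℤ) + 1 - -(b : ℤ) = ((2 * b + 1 : ℕ) : ℤ) := by push_cast; ring
      rw [this, Int.toNat_natCast]
    rw [h4]
    have h5 : #({(b : ℤ), -(b : ℤ)} : Finset ℤ) * (2 * b + 1) ≤ 2 * (2 * b + 1) :=
      Nat.mul_le_mul_right _ h3
    have h6 : (2 * b + 1) * #({(b : ℤ), -(b : ℤ)} : Finset ℤ) ≤ (2 * b + 1) * 2 :=
      Nat.mul_le_mul_left _ h3
    omega
  exact_mod_cast h2

theorem cube_root {x : ℝ} (hx : 0 ≤ x) : ∃ y, 0 ≤ y ∧ y ^ 3 = x ∧ x ^ (1 / 3 : ℝ) = y := by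
  refine ⟨x ^ (1 / 3 : ℝ), Real.rpow_nonneg hx _, ?_, rfl⟩
  rw [← Real.rpow_natCast, ← Real.rpow_mul hx]
  norm_num

theorem pow_cube {y : ℝ} (hy : 0 ≤ y) (j : ℕ) : (y ^ 3) ^ ((j : ℝ) / 3) = y ^ j := by
  rw [← Real.rpow_natCast, ← Real.rpow_mul hy, ← Real.rpow_natCast]
  congr 1
  push_cast
  ring

/-- The sum of the inverse cube roots. -/
theorem sum_cube (R : ℕ) :
    ∑ b ∈ Icc 1 R, ((b : ℝ) ^ (1 / 3 : ℝ))⁻¹ ≤ 3 / 2 * ((R : ℝ) ^ (1 / 3 : ℝ)) ^ 2 := by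
  induction R with
  | zero => simp
  | succ R ih =>
    rw [Finset.sum_Icc_succ_top (by omega)]
    obtain ⟨x, hx0, hx3, hx⟩ := cube_root (x := ((R + 1 : ℕ) : ℝ)) (by positivity)
    obtain ⟨y, hy0, hy3, hy⟩ := cube_root (x := (R : ℝ)) (by positivity)
    rw [hx]
    rw [hy] at ih
    have h1 : x ^ 3 - y ^ 3 = 1 := by rw [hx3, hy3]; push_cast; ring
    have hxpos : 0 < x := by
      rcases hx0.lt_or_eq with h | h
      · exact h
      · exfalso
        rw [← h] at h1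
        have : 0 ≤ y ^ 3 := by positivity
        norm_num at h1
        linarith
    have h2 : x⁻¹ ≤ 3 / 2 * (x ^ 2 - y ^ 2) := by
      rw [inv_le_iff_one_le_mul₀ hxpos, ← h1]
      nlinarith [mul_nonneg (sq_nonneg (x - y)) (by linarith : (0 : ℝ) ≤ x + 2 * y)]
    linarith

/-- **The bound for points close to lattice points.** -/
theorem kes_close {P : Finset (ℝ × ℝ)} {U V : ℝ × ℝ → ℤ} {M : ℕ} {ε : ℝ} (hM : 1 ≤ M)
    (hP : GP P) (h : Close P U V M ε) (h1 : 1 / (M : ℝ) ≤ ε) (h2 : ε ≤ M) (k : ℕ) :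
    (#(kes P k) : ℝ) ≤ 68000 * (((M : ℝ) ^ (1 / 3 : ℝ)) ^ 7 * ε ^ (1 / 3 : ℝ)) := by
  classical
  have hM' : (1 : ℝ) ≤ M := by exact_mod_cast hM
  have hε : 0 < ε := lt_of_lt_of_le (by positivity) h1
  set x : ℝ := Real.sqrt ((M : ℝ) / ε) with hx
  have hx2 : x * x = (M : ℝ) / ε := Real.mul_self_sqrt (by positivity)
  have hx0 : 0 ≤ x := Real.sqrt_nonneg _
  have hx1 : 1 ≤ x := by
    rw [hx, Real.one_le_sqrt, le_div_iff₀ hε]
    linarith
  have hxM : x ≤ M := by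
    rw [hx, Real.sqrt_le_left (by positivity), div_le_iff₀ hε]
    have : (1 : ℝ) ≤ ε * M := by
      rwa [div_le_iff₀ (by linarith)] at h1
    nlinarith
  set R : ℕ := ⌊x⌋₊ with hR
  have hR1 : 1 ≤ R := Nat.one_le_floor_iff x |>.2 hx1
  have hRx : (R : ℝ) ≤ x := Nat.floor_le hx0
  have hxR : x < R + 1 := Nat.lt_floor_add_one x
  have hR1' : (1 : ℝ) ≤ R := by exact_mod_cast hR1
  have hRM : (R : ℝ) ≤ M := hRx.trans hxM
  have hRM' : R ≤ M := by exact_mod_cast hRM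
  have hdir : ∀ e : Seg, ∃ z, e.1.1 < e.2.1 → Dir R (e.2.1 - e.1.1) (e.2.2 - e.1.2) z := by
    intro e
    by_cases he : e.1.1 < e.2.1
    · obtain ⟨z, hz⟩ := exists_dir (e.2.1 - e.1.1) (e.2.2 - e.1.2) (by linarith) hR1
      exact ⟨z, fun _ => hz⟩
    · exact ⟨(0, 0), fun h' => absurd h' he⟩
  choose lb hlb using hdir
  have hOr : ∀ p q s : ℝ × ℝ, p.1 < q.1 →
      hh (sl p q) s - hh (sl p q) p =
        ((s.2 - p.2) * (q.1 - p.1) - (q.2 - p.2) * (s.1 - p.1)) / (q.1 - p.1) := by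
    intro p q s hpq
    have : q.1 - p.1 ≠ 0 := by linarith
    unfold hh sl
    field_simp
    ring
  have hmain := local_count_tol hP k lb (vl U V) (tol M R ε) (L := dirs R)
    (c := fun z => (2 * (3 * tol M R ε z) + 1) * (2 * M / sz z)) ?_ ?_ ?_ ?_ ?_ ?_
  rotate_left
  · intro p hp q hq hpq
    obtain ⟨D, hD, hs⟩ := orient_dir hR1 h hp (hlb (p, q) hpq)
    have h3 := hs q hq
    have h4 : ((q.2 - p.2) * (q.1 - p.1) - (q.2 - p.2) * (q.1 - p.1)) / D = 0 := by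
      rw [sub_self, zero_div]
    rw [h4, zero_sub, abs_neg] at h3
    exact h3
  · intro p hp q hq hpq s hs' hlt
    obtain ⟨D, hD, hs⟩ := orient_dir hR1 h hp (hlb (p, q) hpq)
    have h3 := (abs_le.1 (hs s hs')).2
    have h4 : ((s.2 - p.2) * (q.1 - p.1) - (q.2 - p.2) * (s.1 - p.1)) / D < 0 := by linarith
    have h5 : (s.2 - p.2) * (q.1 - p.1) - (q.2 - p.2) * (s.1 - p.1) < 0 := by
      by_contra hcon
      push Not at hcon
      exact absurd h4 (not_lt.2 (div_nonneg hcon hD.le))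
    have h6 := hOr p q s hpq
    have h7 := div_neg_of_neg_of_pos h5 (sub_pos.2 hpq)
    linarith
  · intro p hp q hq hpq s hs' hlt
    obtain ⟨D, hD, hs⟩ := orient_dir hR1 h hp (hlb (p, q) hpq)
    have h3 := (abs_le.1 (hs s hs')).1
    have h4 : 0 < ((s.2 - p.2) * (q.1 - p.1) - (q.2 - p.2) * (s.1 - p.1)) / D := by linarith
    have h5 : 0 < (s.2 - p.2) * (q.1 - p.1) - (q.2 - p.2) * (s.1 - p.1) := by
      by_contra hcon
      push Not at hcon
      exact absurd h4 (not_lt.2 (div_nonpos_of_nonpos_of_nonneg hcon hD.le))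
    have h6 := hOr p q s hpq
    have h7 := div_pos h5 (sub_pos.2 hpq)
    linarith
  · intro p hp q hq hpq
    obtain ⟨a1, a2, a3, -⟩ := hlb (p, q) hpq
    exact mem_dirs.2 ⟨⟨a2, a3⟩, a1⟩
  · intro z hz
    have : 0 ≤ tol M R ε z := by unfold tol; positivity
    positivity
  · intro z hz t
    have : 0 ≤ tol M R ε z := by unfold tol; positivity
    exact cluster h (mem_dirs.1 hz).2 ((sz_le hz).trans hRM') t _ (by linarith)
  refine hmain.trans ?_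
  -- the sum
  obtain ⟨m, hm0, hm3, hm⟩ := cube_root (x := (M : ℝ)) (by positivity)
  obtain ⟨e, he0, he3, he⟩ := cube_root hε.le
  obtain ⟨r, hr0, hr3, hr⟩ := cube_root (x := (R : ℝ)) (by positivity)
  have hmpos : 0 < m := by
    rcases hm0.lt_or_eq with h' | h'
    · exact h'
    · rw [← h'] at hm3; norm_num at hm3; linarith
  have hepos : 0 < e := by
    rcases he0.lt_or_eq with h' | h'
    · exact h'
    · rw [← h'] at he3; norm_num at he3; linarith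
  have hrpos : 0 < r := by
    rcases hr0.lt_or_eq with h' | h'
    · exact h'
    · rw [← h'] at hr3; norm_num at hr3; linarith
  have hf : ∀ b ∈ Icc 1 R, 7 * ((2 * (3 * (5 * ε * b + (M : ℝ) / R)) + 1) * (2 * M / b)) ^
      (4 / 3 : ℝ) ≤ 7 * (600 * (e * m) ^ 4 + 86 * (m ^ 2 / r) ^ 4 *
        (((b : ℝ) ^ (1 / 3 : ℝ))⁻¹) ^ 4) := by
    intro b hb
    have hb1 : (1 : ℝ) ≤ b := by exact_mod_cast (mem_Icc.1 hb).1
    obtain ⟨β, hβ0, hβ3, hβ⟩ := cube_root (x := (b : ℝ)) (by positivity)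
    have hβpos : 0 < β := by
      rcases hβ0.lt_or_eq with h' | h'
      · exact h'
      · rw [← h'] at hβ3; norm_num at hβ3; linarith
    rw [hβ]
    have k1 : (2 * (3 * (5 * ε * b + (M : ℝ) / R)) + 1) * (2 * M / b) ≤
        60 * (ε * M) + 14 * (M ^ 2 / (R * b)) := by
      have y1 : (2 * (3 * (5 * ε * b + (M : ℝ) / R)) + 1) * (2 * M / b) =
          60 * (ε * M) + 12 * (M ^ 2 / (R * b)) + 2 * (M / b) := by
        field_simp
        ring
      have y2 : (M : ℝ) / b ≤ M ^ 2 / (R * b) := by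
        rw [div_le_div_iff₀ (by linarith) (by positivity)]
        nlinarith [mul_le_mul_of_nonneg_left hRM (by positivity : (0 : ℝ) ≤ M * b)]
      linarith
    have k2 : 0 ≤ (2 * (3 * (5 * ε * b + (M : ℝ) / R)) + 1) * (2 * M / b) := by positivity
    have k3 : ((2 * (3 * (5 * ε * b + (M : ℝ) / R)) + 1) * (2 * M / b)) ^ (4 / 3 : ℝ) ≤
        (120 * (ε * M)) ^ (4 / 3 : ℝ) + (28 * (M ^ 2 / (R * b))) ^ (4 / 3 : ℝ) := by
      rcases le_total (60 * (ε * M)) (14 * ((M : ℝ) ^ 2 / (R * b))) with h' | h'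
      · have z1 : ((2 * (3 * (5 * ε * b + (M : ℝ) / R)) + 1) * (2 * M / b)) ^ (4 / 3 : ℝ) ≤
            (28 * (M ^ 2 / (R * b))) ^ (4 / 3 : ℝ) :=
          Real.rpow_le_rpow k2 (by linarith) (by norm_num)
        have z2 : 0 ≤ (120 * (ε * M)) ^ (4 / 3 : ℝ) := by positivity
        linarith
      · have z1 : ((2 * (3 * (5 * ε * b + (M : ℝ) / R)) + 1) * (2 * M / b)) ^ (4 / 3 : ℝ) ≤
            (120 * (ε * M)) ^ (4 / 3 : ℝ) :=
          Real.rpow_le_rpow k2 (by linarith) (by norm_num)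
        have z2 : 0 ≤ (28 * ((M : ℝ) ^ 2 / (R * b))) ^ (4 / 3 : ℝ) := by positivity
        linarith
    have k4 : ((120 : ℝ)) ^ (4 / 3 : ℝ) ≤ 600 := by
      have z1 : (600 : ℝ) = ((600 : ℝ) ^ 3) ^ ((1 : ℝ) / 3) := by
        rw [← Real.rpow_natCast, ← Real.rpow_mul (by norm_num)]
        norm_num
      have z2 : ((120 : ℝ)) ^ (4 / 3 : ℝ) = ((120 : ℝ) ^ 4) ^ ((1 : ℝ) / 3) := by
        rw [← Real.rpow_natCast, ← Real.rpow_mul (by norm_num)]
        norm_num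
      rw [z1, z2]
      exact Real.rpow_le_rpow (by norm_num) (by norm_num) (by norm_num)
    have k5 : ((28 : ℝ)) ^ (4 / 3 : ℝ) ≤ 86 := by
      have z1 : (86 : ℝ) = ((86 : ℝ) ^ 3) ^ ((1 : ℝ) / 3) := by
        rw [← Real.rpow_natCast, ← Real.rpow_mul (by norm_num)]
        norm_num
      have z2 : ((28 : ℝ)) ^ (4 / 3 : ℝ) = ((28 : ℝ) ^ 4) ^ ((1 : ℝ) / 3) := by
        rw [← Real.rpow_natCast, ← Real.rpow_mul (by norm_num)]
        norm_num
      rw [z1, z2]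
      exact Real.rpow_le_rpow (by norm_num) (by norm_num) (by norm_num)
    have k6 : (120 * (ε * M)) ^ (4 / 3 : ℝ) ≤ 600 * (e * m) ^ 4 := by
      rw [Real.mul_rpow (by norm_num) (by positivity)]
      have z1 : (ε * M) ^ (4 / 3 : ℝ) = (e * m) ^ 4 := by
        rw [← he3, ← hm3, ← mul_pow]
        exact_mod_cast pow_cube (by positivity : 0 ≤ e * m) 4
      rw [z1]
      exact mul_le_mul_of_nonneg_right k4 (by positivity)
    have k7 : (28 * ((M : ℝ) ^ 2 / (R * b))) ^ (4 / 3 : ℝ) ≤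
        86 * (m ^ 2 / r) ^ 4 * (β⁻¹) ^ 4 := by
      rw [Real.mul_rpow (by norm_num) (by positivity)]
      have z1 : ((M : ℝ) ^ 2 / (R * b)) ^ (4 / 3 : ℝ) = (m ^ 2 / r * β⁻¹) ^ 4 := by
        have z2 : (M : ℝ) ^ 2 / (R * b) = (m ^ 2 / r * β⁻¹) ^ 3 := by
          rw [← hm3, ← hr3, ← hβ3]
          field_simp
        rw [z2]
        exact_mod_cast pow_cube (by positivity : 0 ≤ m ^ 2 / r * β⁻¹) 4
      rw [z1, mul_pow, ← mul_assoc]
      exact mul_le_mul_of_nonneg_right (mul_le_mul_of_nonneg_right k5 (by positivity))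
        (by positivity)
    linarith
  have hs1 : ∑ z ∈ dirs R, 7 * ((2 * (3 * tol M R ε z) + 1) * (2 * M / sz z)) ^ (4 / 3 : ℝ) ≤
      ∑ b ∈ Icc 1 R, 12 * (b : ℝ) * (7 * (600 * (e * m) ^ 4 + 86 * (m ^ 2 / r) ^ 4 *
        (((b : ℝ) ^ (1 / 3 : ℝ))⁻¹) ^ 4)) := by
    refine (sum_dirs R (fun b => 7 * ((2 * (3 * (5 * ε * b + (M : ℝ) / R)) + 1) *
      (2 * M / b)) ^ (4 / 3 : ℝ)) (fun b _ => by positivity)).trans ?_
    refine sum_le_sum fun b hb => ?_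
    exact mul_le_mul_of_nonneg_left (hf b hb) (by positivity)
  refine hs1.trans ?_
  have hs2 : ∀ b ∈ Icc 1 R, 12 * (b : ℝ) * (7 * (600 * (e * m) ^ 4 + 86 * (m ^ 2 / r) ^ 4 *
      (((b : ℝ) ^ (1 / 3 : ℝ))⁻¹) ^ 4)) ≤ 84 * (600 * (e * m) ^ 4) * R +
        84 * (86 * (m ^ 2 / r) ^ 4) * ((b : ℝ) ^ (1 / 3 : ℝ))⁻¹ := by
    intro b hb
    have hb1 : (1 : ℝ) ≤ b := by exact_mod_cast (mem_Icc.1 hb).1
    have hbR : (b : ℝ) ≤ R := by exact_mod_cast (mem_Icc.1 hb).2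
    obtain ⟨β, hβ0, hβ3, hβ⟩ := cube_root (x := (b : ℝ)) (by positivity)
    have hβpos : 0 < β := by
      rcases hβ0.lt_or_eq with h' | h'
      · exact h'
      · rw [← h'] at hβ3; norm_num at hβ3; linarith
    rw [hβ]
    have y1 : (b : ℝ) * (β⁻¹) ^ 4 = β⁻¹ := by
      rw [← hβ3]
      field_simp
    have y2 : 12 * (b : ℝ) * (7 * (600 * (e * m) ^ 4 + 86 * (m ^ 2 / r) ^ 4 * (β⁻¹) ^ 4)) =
        84 * (600 * (e * m) ^ 4) * b + 84 * (86 * (m ^ 2 / r) ^ 4) * ((b : ℝ) * (β⁻¹) ^ 4) := by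
      ring
    rw [y2, y1]
    have y3 : 84 * (600 * (e * m) ^ 4) * (b : ℝ) ≤ 84 * (600 * (e * m) ^ 4) * R :=
      mul_le_mul_of_nonneg_left hbR (by positivity)
    linarith
  refine (sum_le_sum hs2).trans ?_
  rw [sum_add_distrib, sum_const, ← mul_sum, Nat.card_Icc, nsmul_eq_mul]
  have hcube := sum_cube R
  rw [hr] at hcube
  rw [hm, he]
  have hR6 : (R : ℝ) * R = r ^ 6 := by rw [← hr3]; ring
  have w1 : (R : ℝ) * R ≤ (M : ℝ) / ε := by
    rw [← hx2]; exact mul_le_mul hRx hRx (by positivity) hx0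
  have w2 : (M : ℝ) / ε ≤ 4 * ((R : ℝ) * R) := by
    rw [← hx2]
    have : x ≤ 2 * R := by linarith
    nlinarith
  rw [← hm3, ← he3, hR6] at w1 w2
  have w3 : e ^ 3 * r ^ 6 ≤ m ^ 3 := by
    rw [le_div_iff₀ (by positivity)] at w1
    linarith
  have w4 : m ≤ 1.6 * (e * r ^ 2) := by
    rw [div_le_iff₀ (by positivity)] at w2
    have : m ^ 3 ≤ (1.6 * (e * r ^ 2)) ^ 3 := by
      have z1 : (1.6 * (e * r ^ 2)) ^ 3 = 4.096 * (e ^ 3 * r ^ 6) := by ring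
      rw [z1]
      have : 0 ≤ e ^ 3 * r ^ 6 := by positivity
      nlinarith
    exact le_of_pow_le_pow_left₀ (by norm_num) (by positivity) this
  have v1 : ((R + 1 - 1 : ℕ) : ℝ) * (84 * (600 * (e * m) ^ 4) * R) ≤ 50400 * (m ^ 7 * e) := by
    rw [Nat.add_sub_cancel]
    have z1 : (R : ℝ) * (84 * (600 * (e * m) ^ 4) * R) = 50400 * (e * m ^ 4 * (e ^ 3 * r ^ 6)) := by
      rw [← hR6]; ring
    rw [z1]
    have z2 : e * m ^ 4 * (e ^ 3 * r ^ 6) ≤ e * m ^ 4 * m ^ 3 :=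
      mul_le_mul_of_nonneg_left w3 (by positivity)
    have z3 : e * m ^ 4 * m ^ 3 = m ^ 7 * e := by ring
    linarith
  have v2 : 84 * (86 * (m ^ 2 / r) ^ 4) * ∑ b ∈ Icc 1 R, ((b : ℝ) ^ (1 / 3 : ℝ))⁻¹ ≤
      17338 * (m ^ 7 * e) := by
    have z1 : 84 * (86 * (m ^ 2 / r) ^ 4) * ∑ b ∈ Icc 1 R, ((b : ℝ) ^ (1 / 3 : ℝ))⁻¹ ≤
        84 * (86 * (m ^ 2 / r) ^ 4) * (3 / 2 * r ^ 2) :=
      mul_le_mul_of_nonneg_left hcube (by positivity)
    have z2 : 84 * (86 * (m ^ 2 / r) ^ 4) * (3 / 2 * r ^ 2) = 10836 * (m ^ 7 * (m / r ^ 2)) := by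
      field_simp
      ring
    have z3 : m / r ^ 2 ≤ 1.6 * e := by
      rw [div_le_iff₀ (by positivity)]
      linarith
    have z4 : m ^ 7 * (m / r ^ 2) ≤ m ^ 7 * (1.6 * e) :=
      mul_le_mul_of_nonneg_left z3 (by positivity)
    have z5 : m ^ 7 * (1.6 * e) = 1.6 * (m ^ 7 * e) := by ring
    have z6 : 0 ≤ m ^ 7 * e := by positivity
    rw [z2] at z1
    linarith
  have v3 : 0 ≤ m ^ 7 * e := by positivity
  linarith

end Pool.Agent.Q126.LV
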