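import Mathlib

set_option autoImplicit false

namespace Pool.Agent.Q126.MX

open Finset

section
variable (ι : Type) [Fintype ι] [DecidableEq ι]

/-- functions with sum exactly `S` -/
noncomputable def eqs (S : ℕ) : Finset (ι → ℕ) :=
  ((Finset.univ : Finset ι).finsuppAntidiag S).image (fun f : ι →₀ ℕ => (⇑f : ι → ℕ))

variable {ι}

theorem mem_eqs {S : ℕ} {f : ι → ℕ} : f ∈ eqs ι S ↔ ∑ i, f i = S := by
  unfold eqs
  rw [Finset.mem_image]
  constructor
  · rintro ⟨g, hg, rfl⟩
    rw [Finset.mem_finsuppAntidiag] at hg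
    exact hg.1
  · intro h
    refine ⟨Finsupp.equivFunOnFinite.symm f, ?_, ?_⟩
    · rw [Finset.mem_finsuppAntidiag]
      exact ⟨h, Finset.subset_univ _⟩
    · exact Finsupp.coe_equivFunOnFinite_symm f

theorem card_eqs (S : ℕ) : (eqs ι S).card = (Fintype.card ι + S - 1).choose S := by
  unfold eqs
  rw [Finset.card_image_of_injective _ DFunLike.coe_injective,
    Finset.card_finsuppAntidiag_nat_eq_choose, Finset.card_univ]

/-- functions with sum at most `S` -/
noncomputable def les (ι : Type) [Fintype ι] [DecidableEq ι] (S : ℕ) : Finset (ι → ℕ) :=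
  (eqs (Option ι) S).image (fun f i => f (some i))

theorem mem_les {S : ℕ} {f : ι → ℕ} : f ∈ les ι S ↔ ∑ i, f i ≤ S := by
  unfold les
  rw [Finset.mem_image]
  constructor
  · rintro ⟨g, hg, rfl⟩
    rw [mem_eqs, Fintype.sum_option] at hg
    show ∑ i, g (some i) ≤ S
    omega
  · intro h
    refine ⟨fun o => o.elim (S - ∑ i, f i) f, ?_, ?_⟩
    · rw [mem_eqs, Fintype.sum_option]
      simp only [Option.elim]
      omega
    · rfl

theorem card_les (S : ℕ) : (les ι S).card = (S + Fintype.card ι).choose (Fintype.card ι) := by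
  unfold les
  rw [Finset.card_image_of_injOn, card_eqs, Fintype.card_option]
  · have e : Fintype.card ι + 1 + S - 1 = S + Fintype.card ι := by omega
    rw [e, Nat.choose_symm_add]
  · intro f hf g hg hfg
    rw [Finset.mem_coe, mem_eqs, Fintype.sum_option] at hf hg
    have h1 : ∀ i, f (some i) = g (some i) := fun i => congrFun hfg i
    have h2 : ∑ i, f (some i) = ∑ i, g (some i) := Finset.sum_congr rfl (fun i _ => h1 i)
    funext o
    rcases o with _ | i
    · omega
    · exact h1 i

theorem card_les_le (S : ℕ) : ((les ι S).card : ℝ)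
    ≤ ((S : ℝ) + Fintype.card ι) ^ (Fintype.card ι) / ((Fintype.card ι).factorial : ℝ) := by
  rw [card_les]
  have := Nat.choose_le_pow_div (α := ℝ) (Fintype.card ι) (S + Fintype.card ι)
  push_cast at this
  exact this

theorem card_les_ge (S : ℕ) : (S : ℝ) ^ (Fintype.card ι) / ((Fintype.card ι).factorial : ℝ)
    ≤ ((les ι S).card : ℝ) := by
  rw [card_les]
  have h1 := Nat.pow_le_choose (Fintype.card ι) (S + Fintype.card ι) (α := ℝ)
  have e : S + Fintype.card ι + 1 - Fintype.card ι = S + 1 := by omega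
  rw [e] at h1
  push_cast at h1
  refine le_trans ?_ h1
  have h2 : (S : ℝ) ^ (Fintype.card ι) ≤ ((S : ℝ) + 1) ^ (Fintype.card ι) :=
    pow_le_pow_left₀ (by positivity) (by linarith) _
  gcongr

theorem card_eqs_choose {q : ℕ} (hq : Fintype.card ι = q + 1) (S : ℕ) :
    (eqs ι S).card = (S + q).choose q := by
  rw [card_eqs, hq]
  have e : q + 1 + S - 1 = S + q := by omega
  rw [e, Nat.choose_symm_add]

theorem card_eqs_le {q : ℕ} (hq : Fintype.card ι = q + 1) (S : ℕ) :
    ((eqs ι S).card : ℝ) ≤ ((S : ℝ) + q) ^ q / (q.factorial : ℝ) := by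
  rw [card_eqs_choose hq]
  have := Nat.choose_le_pow_div (α := ℝ) q (S + q)
  push_cast at this
  exact this

theorem card_eqs_ge {q : ℕ} (hq : Fintype.card ι = q + 1) (S : ℕ) :
    (S : ℝ) ^ q / (q.factorial : ℝ) ≤ ((eqs ι S).card : ℝ) := by
  rw [card_eqs_choose hq]
  have h1 := Nat.pow_le_choose q (S + q) (α := ℝ)
  have e : S + q + 1 - q = S + 1 := by omega
  rw [e] at h1
  push_cast at h1
  refine le_trans ?_ h1
  have h2 : (S : ℝ) ^ q ≤ ((S : ℝ) + 1) ^ q :=
    pow_le_pow_left₀ (by positivity) (by linarith) _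
  gcongr

theorem les_mono {S T : ℕ} (h : S ≤ T) : les ι S ⊆ les ι T := by
  intro f hf
  rw [mem_les] at hf ⊢
  omega

theorem sum_sub_single {f : ι → ℕ} {v : ι} {t : ℕ} (h : t ≤ f v) :
    ∑ i, (Function.update f v (f v - t)) i = ∑ i, f i - t := by
  have h1 := Finset.sum_update_of_mem (Finset.mem_univ v) f (f v - t)
  have h2 := Finset.add_sum_erase Finset.univ f (Finset.mem_univ v)
  rw [h1]
  have h3 : ∑ x ∈ Finset.univ \ {v}, f x = ∑ x ∈ Finset.univ.erase v, f x := by
    rw [Finset.sdiff_singleton_eq_erase]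
  rw [h3]
  omega

/-- functions with sum `S` and a large value at `v` -/
theorem card_bad_eqs (S M : ℕ) (v : ι) :
    ((eqs ι S).filter (fun f => M < f v)).card ≤ (eqs ι (S - (M + 1))).card := by
  apply Finset.card_le_card_of_injOn (fun f => Function.update f v (f v - (M + 1)))
  · intro f hf
    have hf' := Finset.mem_filter.1 (Finset.mem_coe.1 hf)
    rw [Finset.mem_coe, mem_eqs, sum_sub_single (by omega), mem_eqs.1 hf'.1]
  · intro f hf g hg hfg
    have hf' := Finset.mem_filter.1 (Finset.mem_coe.1 hf)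
    have hg' := Finset.mem_filter.1 (Finset.mem_coe.1 hg)
    funext i
    by_cases hi : i = v
    · rw [hi]
      have := congrFun hfg v
      simp only [Function.update_self] at this
      omega
    · have := congrFun hfg i
      simpa [hi] using this

theorem card_bad_les (S M : ℕ) (v : ι) :
    ((les ι S).filter (fun f => M < f v)).card ≤ (les ι (S - (M + 1))).card := by
  apply Finset.card_le_card_of_injOn (fun f => Function.update f v (f v - (M + 1)))
  · intro f hf
    have hf' := Finset.mem_filter.1 (Finset.mem_coe.1 hf)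
    have h1 := mem_les.1 hf'.1
    rw [Finset.mem_coe, mem_les, sum_sub_single (by omega)]
    omega
  · intro f hf g hg hfg
    have hf' := Finset.mem_filter.1 (Finset.mem_coe.1 hf)
    have hg' := Finset.mem_filter.1 (Finset.mem_coe.1 hg)
    funext i
    by_cases hi : i = v
    · rw [hi]
      have := congrFun hfg v
      simp only [Function.update_self] at this
      omega
    · have := congrFun hfg i
      simpa [hi] using this

theorem filter_lower (A : Finset (ι → ℕ)) (M : ℕ) (B : ℕ)
    (hB : ∀ v, (A.filter (fun f => M < f v)).card ≤ B) :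
    A.card ≤ (A.filter (fun f => ∀ v, f v ≤ M)).card + Fintype.card ι * B := by
  have h1 : A ⊆ (A.filter (fun f => ∀ v, f v ≤ M)) ∪
      Finset.univ.biUnion (fun v => A.filter (fun f => M < f v)) := by
    intro f hf
    rw [Finset.mem_union, Finset.mem_filter]
    by_cases h : ∀ v, f v ≤ M
    · exact Or.inl ⟨hf, h⟩
    · push Not at h
      obtain ⟨v, hv⟩ := h
      right
      rw [Finset.mem_biUnion]
      exact ⟨v, Finset.mem_univ _, Finset.mem_filter.2 ⟨hf, hv⟩⟩
  refine le_trans (Finset.card_le_card h1) (le_trans (Finset.card_union_le _ _) ?_)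
  apply Nat.add_le_add_left
  refine le_trans Finset.card_biUnion_le ?_
  refine le_trans (Finset.sum_le_sum (fun v _ => hB v)) ?_
  rw [Finset.sum_const, Finset.card_univ, smul_eq_mul]

/-- box lemma, exact sum -/
theorem box_eqs {q : ℕ} (hq : Fintype.card ι = q + 1) (S M : ℕ) {a b : ℝ} (ha0 : 0 ≤ a)
    (ha : a ≤ S) (hb : ((S - (M + 1) : ℕ) : ℝ) + q ≤ b) :
    (a ^ q - (q + 1) * b ^ q) / (q.factorial : ℝ)
      ≤ (((eqs ι S).filter (fun f => ∀ v, f v ≤ M)).card : ℝ) := by
  have h1 := filter_lower (eqs ι S) M (eqs ι (S - (M + 1))).card (fun v => card_bad_eqs S M v)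
  rw [hq] at h1
  have h2 : ((eqs ι S).card : ℝ) ≤ (((eqs ι S).filter (fun f => ∀ v, f v ≤ M)).card : ℝ)
      + ((q : ℝ) + 1) * ((eqs ι (S - (M + 1))).card : ℝ) := by exact_mod_cast h1
  have h3 := card_eqs_ge hq S
  have h4 := card_eqs_le hq (S - (M + 1))
  have hf : (0 : ℝ) < (q.factorial : ℝ) := by positivity
  have h5 : a ^ q ≤ (S : ℝ) ^ q := pow_le_pow_left₀ ha0 ha _
  have h6 : (((S - (M + 1) : ℕ) : ℝ) + q) ^ q ≤ b ^ q := pow_le_pow_left₀ (by positivity) hb _
  rw [div_le_iff₀ hf]
  rw [div_le_iff₀ hf] at h3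
  rw [le_div_iff₀ hf] at h4
  have h7 := mul_le_mul_of_nonneg_left (le_trans h4 h6) (show (0 : ℝ) ≤ q + 1 by positivity)
  nlinarith

/-- box lemma, sum in a window -/
theorem box_les (S T M : ℕ) (hT : 1 ≤ T) {a b c : ℝ} (ha0 : 0 ≤ a) (ha : a ≤ S)
    (hb : ((T : ℝ) + Fintype.card ι) ≤ b) (hc : ((S - (M + 1) : ℕ) : ℝ) + Fintype.card ι ≤ c) :
    (a ^ (Fintype.card ι) - b ^ (Fintype.card ι) - (Fintype.card ι) * c ^ (Fintype.card ι))
      / ((Fintype.card ι).factorial : ℝ)
      ≤ (((les ι S).filter (fun f => (∀ v, f v ≤ M) ∧ T ≤ ∑ i, f i)).card : ℝ) := by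
  set p := Fintype.card ι with hp
  have h1 := filter_lower (les ι S) M (les ι (S - (M + 1))).card (fun v => card_bad_les S M v)
  have h2 : ((les ι S).filter (fun f => ∀ v, f v ≤ M)).card
      ≤ ((les ι S).filter (fun f => (∀ v, f v ≤ M) ∧ T ≤ ∑ i, f i)).card + (les ι (T - 1)).card := by
    have h3 : (les ι S).filter (fun f => ∀ v, f v ≤ M)
        ⊆ ((les ι S).filter (fun f => (∀ v, f v ≤ M) ∧ T ≤ ∑ i, f i)) ∪ les ι (T - 1) := by
      intro f hf
      rw [Finset.mem_filter] at hf
      rw [Finset.mem_union, Finset.mem_filter, mem_les (S := T - 1)]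
      by_cases h : T ≤ ∑ i, f i
      · exact Or.inl ⟨hf.1, hf.2, h⟩
      · exact Or.inr (by omega)
    exact le_trans (Finset.card_le_card h3) (Finset.card_union_le _ _)
  have h3 : ((les ι S).card : ℝ)
      ≤ (((les ι S).filter (fun f => (∀ v, f v ≤ M) ∧ T ≤ ∑ i, f i)).card : ℝ)
        + ((les ι (T - 1)).card : ℝ) + p * ((les ι (S - (M + 1))).card : ℝ) := by
    have := le_trans h1 (Nat.add_le_add_right h2 _)
    exact_mod_cast this
  have h4 := card_les_ge (ι := ι) S
  have h5 := card_les_le (ι := ι) (T - 1)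
  have h6 := card_les_le (ι := ι) (S - (M + 1))
  rw [← hp] at h4 h5 h6
  have hf : (0 : ℝ) < (p.factorial : ℝ) := by positivity
  have h7 : a ^ p ≤ (S : ℝ) ^ p := pow_le_pow_left₀ ha0 ha _
  have h8 : (((S - (M + 1) : ℕ) : ℝ) + p) ^ p ≤ c ^ p := pow_le_pow_left₀ (by positivity) hc _
  have h9 : (((T - 1 : ℕ) : ℝ) + p) ^ p ≤ b ^ p := by
    apply pow_le_pow_left₀ (by positivity)
    have : ((T - 1 : ℕ) : ℝ) ≤ T := by
      have : T - 1 ≤ T := by omega
      exact_mod_cast this
    linarith
  rw [div_le_iff₀ hf]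
  rw [div_le_iff₀ hf] at h4
  rw [le_div_iff₀ hf] at h5 h6
  have h10 := mul_le_mul_of_nonneg_left (le_trans h6 h8) (show (0 : ℝ) ≤ p by positivity)
  nlinarith

end

/-! ### block decomposition -/

section
variable {V B : Type} [Fintype V] [DecidableEq V] [Fintype B] [DecidableEq B]

/-- indicator function of a set -/
def ind (F : Finset V) : V → ℕ := fun v => if v ∈ F then 1 else 0

theorem sum_ind (F : Finset V) : ∑ v, ind F v = F.card := by
  unfold ind
  rw [Finset.sum_ite_mem, Finset.univ_inter, Finset.sum_const, smul_eq_mul, mul_one]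

/-- `x` is a sum of `m` indicators of sets from the family -/
inductive SumOf (E : Finset V → Prop) : ℕ → (V → ℕ) → Prop
  | zero : SumOf E 0 0
  | add (m : ℕ) (x : V → ℕ) (F : Finset V) : SumOf E m x → E F → SumOf E (m + 1) (x + ind F)

theorem SumOf.mono {E E' : Finset V → Prop} (h : ∀ F, E F → E' F) {m : ℕ} {x : V → ℕ}
    (hx : SumOf E m x) : SumOf E' m x := by
  induction hx with
  | zero => exact SumOf.zero
  | add m x F _ hF ih => exact SumOf.add m x F ih (h F hF)

theorem SumOf.add' {E : Finset V → Prop} {m k : ℕ} {x y : V → ℕ} (hx : SumOf E m x)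
    (hy : SumOf E k y) : SumOf E (m + k) (x + y) := by
  induction hy with
  | zero => simpa using hx
  | add k y F _ hF ih =>
    have := SumOf.add (m + k) (x + y) F ih hF
    rw [add_assoc x y, add_assoc m k] at this
    exact this

/-- the block lemma -/
theorem block (b : V → B) (j m : ℕ) (x : V → ℕ) (hx : ∑ v, x v = j * m)
    (hb : ∀ c, ∑ v ∈ Finset.univ.filter (fun v => b v = c), x v ≤ m) :
    SumOf (fun F => F.card = j ∧ (∀ u ∈ F, ∀ v ∈ F, b u = b v → u = v) ∧ ∀ v ∈ F, x v ≠ 0) m x := by
  induction m generalizing x with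
  | zero =>
    have : x = 0 := by
      rw [mul_zero, Finset.sum_eq_zero_iff] at hx
      funext v
      exact hx v (Finset.mem_univ v)
    rw [this]
    exact SumOf.zero
  | succ m ih =>
    set s : B → ℕ := fun c => ∑ v ∈ Finset.univ.filter (fun v => b v = c), x v with hs
    have hsum : ∑ c, s c = j * (m + 1) := by
      rw [← hx, hs]
      exact Finset.sum_fiberwise Finset.univ b x
    set full := Finset.univ.filter (fun c => s c = m + 1) with hfull
    set nz := Finset.univ.filter (fun c => s c ≠ 0) with hnz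
    have h1 : full.card ≤ j := by
      have h2 : ∑ c ∈ full, s c ≤ ∑ c, s c :=
        Finset.sum_le_sum_of_subset (Finset.subset_univ _)
      have h3 : ∑ c ∈ full, s c = full.card * (m + 1) := by
        rw [Finset.sum_congr rfl (fun c hc => (Finset.mem_filter.1 hc).2), Finset.sum_const,
          smul_eq_mul]
      rw [h3, hsum] at h2
      exact Nat.le_of_mul_le_mul_right h2 (Nat.succ_pos m)
    have h2 : j ≤ nz.card := by
      have h3 : ∑ c, s c = ∑ c ∈ nz, s c := by
        rw [hnz, Finset.sum_filter]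
        apply Finset.sum_congr rfl
        intro c _
        by_cases h : s c = 0
        · simp [h]
        · simp [h]
      have h4 : ∑ c ∈ nz, s c ≤ nz.card * (m + 1) := by
        rw [← smul_eq_mul, ← Finset.sum_const]
        exact Finset.sum_le_sum (fun c _ => hb c)
      rw [← h3, hsum] at h4
      exact Nat.le_of_mul_le_mul_right h4 (Nat.succ_pos m)
    have h3 : full ⊆ nz := by
      intro c hc
      rw [hfull, Finset.mem_filter] at hc
      rw [hnz, Finset.mem_filter]
      exact ⟨hc.1, by omega⟩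
    obtain ⟨T, hT1, hT2, hT3⟩ := Finset.exists_subsuperset_card_eq h3 h1 h2
    have hchoice : ∀ c : B, c ∈ T → ∃ v : V, b v = c ∧ x v ≠ 0 := by
      intro c hc
      have := hT2 hc
      rw [hnz, Finset.mem_filter] at this
      have hne := this.2
      rw [hs] at hne
      obtain ⟨v, hv, hv2⟩ := Finset.exists_ne_zero_of_sum_ne_zero hne
      exact ⟨v, (Finset.mem_filter.1 hv).2, hv2⟩
    choose g hg using hchoice
    set F : Finset V := T.attach.image (fun c => g c.1 c.2) with hF
    have hFm : ∀ v ∈ F, ∃ c, ∃ hc : c ∈ T, g c hc = v := by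
      intro v hv
      rw [hF, Finset.mem_image] at hv
      obtain ⟨c, _, hc⟩ := hv
      exact ⟨c.1, c.2, hc⟩
    have hFcard : F.card = j := by
      rw [hF, Finset.card_image_of_injective, Finset.card_attach, hT3]
      intro c c' h
      apply Subtype.ext
      have e1 := (hg c.1 c.2).1
      have e2 := (hg c'.1 c'.2).1
      have h' : g c.1 c.2 = g c'.1 c'.2 := h
      rw [← e1, ← e2, h']
    have hFinj : ∀ u ∈ F, ∀ v ∈ F, b u = b v → u = v := by
      intro u hu v hv huv
      obtain ⟨c, hc, rfl⟩ := hFm u hu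
      obtain ⟨c', hc', rfl⟩ := hFm v hv
      rw [(hg c hc).1, (hg c' hc').1] at huv
      subst huv
      rfl
    have hFx : ∀ v ∈ F, x v ≠ 0 := by
      intro v hv
      obtain ⟨c, hc, rfl⟩ := hFm v hv
      exact (hg c hc).2
    set y : V → ℕ := fun v => x v - ind F v with hy
    have hle : ∀ v, ind F v ≤ x v := by
      intro v
      unfold ind
      split_ifs with h
      · have := hFx v h
        omega
      · omega
    have hyx : y + ind F = x := by
      funext v
      have := hle v
      simp only [hy, Pi.add_apply]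
      omega
    have hysum : ∑ v, y v = j * m := by
      have e1 : ∑ v, (y + ind F) v = j * (m + 1) := by rw [hyx, hx]
      have e2 : ∑ v, (y + ind F) v = ∑ v, y v + F.card := by
        rw [← sum_ind F, ← Finset.sum_add_distrib]
        rfl
      rw [e2, hFcard] at e1
      have e3 : j * (m + 1) = j * m + j := by ring
      omega
    have hyb : ∀ c, ∑ v ∈ Finset.univ.filter (fun v => b v = c), y v ≤ m := by
      intro c
      have hyle : ∀ v, y v ≤ x v := fun v => Nat.sub_le _ _
      by_cases hc : c ∈ T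
      · have hlt : ∑ v ∈ Finset.univ.filter (fun v => b v = c), y v
            < ∑ v ∈ Finset.univ.filter (fun v => b v = c), x v := by
          apply Finset.sum_lt_sum (fun v _ => hyle v)
          refine ⟨g c hc, Finset.mem_filter.2 ⟨Finset.mem_univ _, (hg c hc).1⟩, ?_⟩
          have h4 : g c hc ∈ F := by
            rw [hF, Finset.mem_image]
            exact ⟨⟨c, hc⟩, Finset.mem_attach _ _, rfl⟩
          have h5 := hFx _ h4
          have h6 : ind F (g c hc) = 1 := by
            unfold ind
            rw [if_pos h4]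
          simp only [hy, h6]
          omega
        have := hb c
        omega
      · have h4 : ∑ v ∈ Finset.univ.filter (fun v => b v = c), y v
            ≤ ∑ v ∈ Finset.univ.filter (fun v => b v = c), x v :=
          Finset.sum_le_sum (fun v _ => hyle v)
        have h5 : c ∉ full := fun h => hc (hT1 h)
        rw [hfull, Finset.mem_filter] at h5
        have h6 : s c ≠ m + 1 := fun h => h5 ⟨Finset.mem_univ _, h⟩
        have h7 := hb c
        simp only [hs] at h6
        omega
    have hrec := ih y hysum hyb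
    rw [← hyx]
    refine SumOf.add m y F (SumOf.mono ?_ hrec) ⟨hFcard, hFinj, ?_⟩
    · rintro G ⟨h4, h5, h6⟩
      refine ⟨h4, h5, fun v hv => ?_⟩
      have := h6 v hv
      simp only [Pi.add_apply]
      omega
    · intro v hv
      have h4 : ind F v = 1 := by
        unfold ind
        rw [if_pos hv]
      simp only [Pi.add_apply, h4]
      omega

end

end Pool.Agent.Q126.MX
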