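import Pool.Agent.Q126.MX7

set_option autoImplicit false

namespace Pool.Agent.Q126.MX

open Finset Filter Topology Pool.Agent.Q126.MXD

theorem big_diff : (18 : ℝ) * 3 ^ 18 < (15200 / 4000 : ℝ) ^ 18 - 19 * (12000 / 4000) ^ 18 := by
  norm_num

theorem first_ineq : ∀ᶠ N : ℕ in atTop, (18 : ℝ) * 3 ^ 18
    < (1 - (3600 / 4000 : ℝ) ^ N) * (1 - (3600 / 4000 : ℝ) ^ (18 * N))
      * ((15200 / 4000 : ℝ) ^ 18 - 19 * (12000 / 4000) ^ 18) := by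
  have h1 : Tendsto (fun N : ℕ => (3600 / 4000 : ℝ) ^ N) atTop (𝓝 0) :=
    tendsto_pow_atTop_nhds_zero_of_lt_one (by norm_num) (by norm_num)
  have h2 : Tendsto (fun N : ℕ => (3600 / 4000 : ℝ) ^ (18 * N)) atTop (𝓝 0) := by
    have h3 : Tendsto (fun N : ℕ => ((3600 / 4000 : ℝ) ^ 18) ^ N) atTop (𝓝 0) :=
      tendsto_pow_atTop_nhds_zero_of_lt_one (by norm_num) (by norm_num)
    refine h3.congr (fun N => ?_)
    rw [← pow_mul]
  have h3 := ((tendsto_const_nhds (x := (1 : ℝ))).sub h1).mul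
    ((tendsto_const_nhds (x := (1 : ℝ))).sub h2)
  have h4 := h3.mul_const ((15200 / 4000 : ℝ) ^ 18 - 19 * (12000 / 4000) ^ 18)
  rw [sub_zero, one_mul, one_mul] at h4
  exact h4.eventually (lt_mem_nhds big_diff)

theorem second_tend : Tendsto (fun N : ℕ =>
    ((4190 / 4000 : ℝ) ^ N - (3791 / 4000) ^ N - N * (4180 / 4000) ^ N)
      * ((3990 / 4000 : ℝ) ^ (18 * N) - (3591 / 4000) ^ (18 * N))
      * (3192 / 4000 : ℝ) ^ 18) atTop atTop := by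
  have h1 : Tendsto (fun N : ℕ => (3791 / 4190 : ℝ) ^ N) atTop (𝓝 0) :=
    tendsto_pow_atTop_nhds_zero_of_lt_one (by norm_num) (by norm_num)
  have h2 : Tendsto (fun N : ℕ => (N : ℝ) * (4180 / 4190 : ℝ) ^ N) atTop (𝓝 0) :=
    tendsto_self_mul_const_pow_of_lt_one (by norm_num) (by norm_num)
  have h3 : Tendsto (fun N : ℕ => ((3591 / 3990 : ℝ) ^ 18) ^ N) atTop (𝓝 0) :=
    tendsto_pow_atTop_nhds_zero_of_lt_one (by norm_num) (by norm_num)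
  have h4 := ((((tendsto_const_nhds (x := (1 : ℝ))).sub h1).sub h2).mul
    ((tendsto_const_nhds (x := (1 : ℝ))).sub h3)).mul_const ((3192 / 4000 : ℝ) ^ 18)
  have h5 : Tendsto (fun N : ℕ => ((4190 / 4000 : ℝ) * (3990 / 4000) ^ 18) ^ N) atTop atTop :=
    tendsto_pow_atTop_atTop_of_one_lt (by norm_num)
  have h6 : (0 : ℝ) < (1 - 0 - 0) * (1 - 0) * (3192 / 4000 : ℝ) ^ 18 := by norm_num
  have h7 := h5.atTop_mul_pos h6 h4
  refine h7.congr (fun N => ?_)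
  have e1 : (4190 / 4000 : ℝ) ^ N * (3791 / 4190) ^ N = (3791 / 4000) ^ N := by
    rw [← mul_pow]
    norm_num
  have e2 : (4190 / 4000 : ℝ) ^ N * (4180 / 4190) ^ N = (4180 / 4000) ^ N := by
    rw [← mul_pow]
    norm_num
  have e3 : (((3990 / 4000 : ℝ) ^ 18) ^ N) * ((3591 / 3990 : ℝ) ^ 18) ^ N
      = (3591 / 4000) ^ (18 * N) := by
    rw [← mul_pow, ← mul_pow, ← pow_mul]
    norm_num
  have e4 : ((3990 / 4000 : ℝ) ^ 18) ^ N = (3990 / 4000) ^ (18 * N) := by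
    rw [← pow_mul]
  have e5 : ((4190 / 4000 : ℝ) * (3990 / 4000) ^ 18) ^ N
      * ((1 - (3791 / 4190 : ℝ) ^ N - (N : ℝ) * (4180 / 4190 : ℝ) ^ N)
        * (1 - ((3591 / 3990 : ℝ) ^ 18) ^ N) * (3192 / 4000 : ℝ) ^ 18)
      = ((4190 / 4000 : ℝ) ^ N - (4190 / 4000 : ℝ) ^ N * (3791 / 4190) ^ N
          - N * ((4190 / 4000 : ℝ) ^ N * (4180 / 4190) ^ N))
        * (((3990 / 4000 : ℝ) ^ 18) ^ N
          - ((3990 / 4000 : ℝ) ^ 18) ^ N * ((3591 / 3990 : ℝ) ^ 18) ^ N)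
        * (3192 / 4000 : ℝ) ^ 18 := by
    rw [mul_pow]
    ring
  rw [e5, e1, e2, e3, e4]

theorem bracket_pos : ∀ᶠ N : ℕ in atTop,
    0 < ((4190 / 4000 : ℝ) ^ N - (3791 / 4000) ^ N - N * (4180 / 4000) ^ N) := by
  have h1 : Tendsto (fun N : ℕ => (3791 / 4190 : ℝ) ^ N) atTop (𝓝 0) :=
    tendsto_pow_atTop_nhds_zero_of_lt_one (by norm_num) (by norm_num)
  have h2 : Tendsto (fun N : ℕ => (N : ℝ) * (4180 / 4190 : ℝ) ^ N) atTop (𝓝 0) :=
    tendsto_self_mul_const_pow_of_lt_one (by norm_num) (by norm_num)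
  have h4 := (((tendsto_const_nhds (x := (1 : ℝ))).sub h1).sub h2)
  filter_upwards [h4.eventually (lt_mem_nhds (by norm_num : (0 : ℝ) < 1 - 0 - 0))] with N hN
  have e1 : (4190 / 4000 : ℝ) ^ N * (3791 / 4190) ^ N = (3791 / 4000) ^ N := by
    rw [← mul_pow]
    norm_num
  have e2 : (4190 / 4000 : ℝ) ^ N * (4180 / 4190) ^ N = (4180 / 4000) ^ N := by
    rw [← mul_pow]
    norm_num
  have h5 := mul_pos (show (0 : ℝ) < (4190 / 4000 : ℝ) ^ N by positivity) hN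
  have e3 : (4190 / 4000 : ℝ) ^ N * (1 - (3791 / 4190 : ℝ) ^ N - (N : ℝ) * (4180 / 4190 : ℝ) ^ N)
      = (4190 / 4000 : ℝ) ^ N - (4190 / 4000 : ℝ) ^ N * (3791 / 4190) ^ N
        - N * ((4190 / 4000 : ℝ) ^ N * (4180 / 4190) ^ N) := by ring
  rw [e3, e1, e2] at h5
  exact h5

/-- the choice of the size -/
theorem exists_N : ∃ N : ℕ, 21 ≤ N ∧ ∀ U : Fin 20 → ℕ, ∀ a16 a17 a19 : ℝ,
    Tendsto (XN N U 16) atTop (𝓝 a16) → Tendsto (XN N U 17) atTop (𝓝 a17) →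
    Tendsto (XN N U 19) atTop (𝓝 a19) → a17 < a16 ∧ a17 < a19 := by
  obtain ⟨N, hN1, hN2, hN3, hN4⟩ := ((eventually_ge_atTop 21).and (first_ineq.and
    (bracket_pos.and (second_tend.eventually_gt_atTop (18 * 3 ^ 18))))).exists
  refine ⟨N, hN1, ?_⟩
  intro U a16 a17 a19 h16 h17 h19
  have b1 := a16_ge hN1 U h16 (lt_trans (by norm_num) big_diff)
  have b2 := a17_le hN1 U h17
  have b3 := a19_ge hN1 U h19 hN3
  have f1 : (0 : ℝ) < (N.factorial : ℝ) := by positivity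
  have f2 : (0 : ℝ) < ((18 * N).factorial : ℝ) := by positivity
  have f3 : (0 : ℝ) < ((Nat.factorial 18 : ℕ) : ℝ) := by positivity
  have f4 : (0 : ℝ) < ((N.factorial : ℕ) : ℝ) * (((18 * N).factorial : ℕ) : ℝ)
    * ((Nat.factorial 18 : ℕ) : ℝ) := by positivity
  constructor
  · refine lt_of_le_of_lt b2 (lt_of_lt_of_le ?_ b1)
    have e1 : ((3 : ℝ) ^ 18 / ((Nat.factorial 18 : ℕ) : ℝ))
      * (18 / (((N.factorial : ℕ) : ℝ) * (((18 * N).factorial : ℕ) : ℝ)))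
      = (18 * 3 ^ 18) / (((N.factorial : ℕ) : ℝ) * (((18 * N).factorial : ℕ) : ℝ)
        * ((Nat.factorial 18 : ℕ) : ℝ)) := by
      rw [div_mul_div_comm]
      congr 1 <;> ring
    have e2 : (1 - (3600 / 4000 : ℝ) ^ N) / (N.factorial : ℝ)
      * ((1 - (3600 / 4000 : ℝ) ^ (18 * N)) / ((18 * N).factorial : ℝ))
      * (((15200 / 4000 : ℝ) ^ 18 - 19 * (12000 / 4000) ^ 18) / ((Nat.factorial 18 : ℕ) : ℝ))
      = ((1 - (3600 / 4000 : ℝ) ^ N) * (1 - (3600 / 4000 : ℝ) ^ (18 * N))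
      * ((15200 / 4000 : ℝ) ^ 18 - 19 * (12000 / 4000) ^ 18))
        / (((N.factorial : ℕ) : ℝ) * (((18 * N).factorial : ℕ) : ℝ)
          * ((Nat.factorial 18 : ℕ) : ℝ)) := by
      rw [div_mul_div_comm, div_mul_div_comm]
    rw [e1, e2]
    exact div_lt_div_of_pos_right hN2 f4
  · refine lt_of_le_of_lt b2 (lt_of_lt_of_le ?_ b3)
    have e1 : ((3 : ℝ) ^ 18 / ((Nat.factorial 18 : ℕ) : ℝ))
      * (18 / (((N.factorial : ℕ) : ℝ) * (((18 * N).factorial : ℕ) : ℝ)))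
      = (18 * 3 ^ 18) / (((N.factorial : ℕ) : ℝ) * (((18 * N).factorial : ℕ) : ℝ)
        * ((Nat.factorial 18 : ℕ) : ℝ)) := by
      rw [div_mul_div_comm]
      congr 1 <;> ring
    have e2 : ((4190 / 4000 : ℝ) ^ N - (3791 / 4000) ^ N - N * (4180 / 4000) ^ N) / (N.factorial : ℝ)
      * (((3990 / 4000 : ℝ) ^ (18 * N) - (3591 / 4000) ^ (18 * N)) / ((18 * N).factorial : ℝ))
      * ((3192 / 4000 : ℝ) ^ 18 / ((Nat.factorial 18 : ℕ) : ℝ))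
      = (((4190 / 4000 : ℝ) ^ N - (3791 / 4000) ^ N - N * (4180 / 4000) ^ N)
      * ((3990 / 4000 : ℝ) ^ (18 * N) - (3591 / 4000) ^ (18 * N))
      * (3192 / 4000 : ℝ) ^ 18)
        / (((N.factorial : ℕ) : ℝ) * (((18 * N).factorial : ℕ) : ℝ)
          * ((Nat.factorial 18 : ℕ) : ℝ)) := by
      rw [div_mul_div_comm, div_mul_div_comm]
    rw [e1, e2]
    exact div_lt_div_of_pos_right hN4 f4

end Pool.Agent.Q126.MX
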