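import Pool.Agent.Q126.MX9
import Pool.Agent.Q126.MX8

set_option autoImplicit false

namespace Pool.Agent.Q126.MX

open Finset Filter Topology Pool.Agent.Q126.MXD

section
variable {V : Type} [Fintype V] [DecidableEq V]
variable {Ω : Type} [Fintype Ω] [DecidableEq Ω] {d : ℕ} (c : Ω → Fin d) (a : Ω → V → ℕ)

/-- the value of a combination -/
def val (l : Ω → ℕ) : V → ℕ := fun v => ∑ w, l w * a w v

theorem val_add (l k : Ω → ℕ) : val a (l + k) = val a l + val a k := by
  funext v
  unfold val
  rw [Pi.add_apply, ← Finset.sum_add_distrib]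
  apply Finset.sum_congr rfl
  intro w _
  rw [Pi.add_apply, add_mul]

/-- the key of a combination, ordered lexicographically -/
noncomputable def key (l : Ω → ℕ) : Lex (Fin (Fintype.card Ω) → ℕ) :=
  toLex (fun j => l ((Fintype.equivFin Ω).symm j))

theorem key_inj : Function.Injective (key : (Ω → ℕ) → _) := by
  intro l k h
  funext w
  have h1 : (fun j => l ((Fintype.equivFin Ω).symm j)) = (fun j => k ((Fintype.equivFin Ω).symm j)) :=
    toLex.injective h
  have h2 := congrFun h1 (Fintype.equivFin Ω w)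
  simpa using h2

theorem key_add {l k : Ω → ℕ} (h : key l < key k) (m : Ω → ℕ) : key (l + m) < key (k + m) := by
  obtain ⟨i, h1, h2⟩ := h
  refine ⟨i, fun j hj => ?_, ?_⟩
  · have := h1 j hj
    show l _ + m _ = k _ + m _
    have h3 : l ((Fintype.equivFin Ω).symm j) = k ((Fintype.equivFin Ω).symm j) := this
    rw [h3]
  · show l _ + m _ < k _ + m _
    have h3 : l ((Fintype.equivFin Ω).symm i) < k ((Fintype.equivFin Ω).symm i) := h2
    omega

/-- combinations which are not the first of their value -/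
def Bad (l : Ω → ℕ) : Prop := ∃ k : Ω → ℕ, key k < key l ∧ cs c k = cs c l ∧ val a k = val a l

theorem Bad.up {l m : Ω → ℕ} (hl : Bad c a l) (h : l ≤ m) : Bad c a m := by
  obtain ⟨k, h1, h2, h3⟩ := hl
  have hm : m = l + (m - l) := by
    funext w
    have h' : l w ≤ m w := h w
    simp only [Pi.add_apply, Pi.sub_apply]
    omega
  refine ⟨k + (m - l), ?_, ?_, ?_⟩
  · conv_rhs => rw [hm]
    exact key_add h1 _
  · conv_rhs => rw [hm]
    rw [cs_add, cs_add, h2]
  · conv_rhs => rw [hm]
    rw [val_add, val_add, h3]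

theorem bad_basis : ∃ G : Finset (Ω → ℕ), ∀ l, Bad c a l ↔ ∃ g ∈ G, g ≤ l := by
  have hfin : {l : Ω → ℕ | Minimal (Bad c a) l}.Finite :=
    WellQuasiOrderedLE.finite_of_isAntichain (setOfPred_minimal_antichain _)
  refine ⟨hfin.toFinset, fun l => ⟨fun h => ?_, ?_⟩⟩
  · obtain ⟨g, hg1, hg2⟩ := exists_minimal_le_of_wellFoundedLT (Bad c a) l h
    exact ⟨g, hfin.mem_toFinset.2 hg2, hg1⟩
  · rintro ⟨g, hg, hgl⟩
    exact Bad.up c a (hfin.mem_toFinset.1 hg).1 hgl

/-- the number of values is eventually polynomial -/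
theorem values_poly (hc : ∀ i, ∃ w, c w = i) :
    PolyEv (fun u => ((({x : V → ℕ | ∃ l, cs c l = u ∧ x = val a l}).ncard : ℕ) : ℚ)) := by
  classical
  obtain ⟨G, hG⟩ := bad_basis c a
  have h1 : ∀ u, ({x : V → ℕ | ∃ l, cs c l = u ∧ x = val a l}).ncard
      = ((lev c u).filter (fun l => ∀ g ∈ G, ¬ g ≤ l)).card := by
    intro u
    have h2 : {x : V → ℕ | ∃ l, cs c l = u ∧ x = val a l}
        = (((lev c u).filter (fun l => ∀ g ∈ G, ¬ g ≤ l)).image (val a) : Finset (V → ℕ)) := by
      ext x
      simp only [Set.mem_ofPred_eq, Finset.coe_image, Set.mem_image, Finset.mem_coe,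
        Finset.mem_filter, mem_lev]
      constructor
      · rintro ⟨l, hl, rfl⟩
        have hwf : WellFounded (fun p q : Ω → ℕ => key p < key q) := InvImage.wf key wellFounded_lt
        obtain ⟨k, ⟨hk1, hk2⟩, hk3⟩ := hwf.has_min {k | cs c k = u ∧ val a k = val a l} ⟨l, hl, rfl⟩
        refine ⟨k, ⟨hk1, ?_⟩, hk2⟩
        intro g hg hgk
        obtain ⟨m, h3, h4, h5⟩ := (hG k).2 ⟨g, hg, hgk⟩
        exact hk3 m ⟨h4.trans hk1, h5.trans hk2⟩ h3
      · rintro ⟨l, ⟨hl, _⟩, rfl⟩
        exact ⟨l, hl, rfl⟩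
    rw [h2, Set.ncard_coe_finset, Finset.card_image_of_injOn]
    intro l hl k hk h
    have hl' := Finset.mem_filter.1 (Finset.mem_coe.1 hl)
    have hk' := Finset.mem_filter.1 (Finset.mem_coe.1 hk)
    have e1 := (mem_lev c).1 hl'.1
    have e2 := (mem_lev c).1 hk'.1
    by_contra hne
    rcases lt_trichotomy (key l) (key k) with h3 | h3 | h3
    · obtain ⟨g, hg, hgk⟩ := (hG k).1 ⟨l, h3, e1.trans e2.symm, h⟩
      exact hk'.2 g hg hgk
    · exact hne (key_inj h3)
    · obtain ⟨g, hg, hgk⟩ := (hG l).1 ⟨k, h3, e2.trans e1.symm, h.symm⟩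
      exact hl'.2 g hg hgk
  simp only [h1]
  have h3 := avoid_poly c hc G
  obtain ⟨P, U, hP⟩ := h3
  refine ⟨P, U, fun u hu => ?_⟩
  rw [← hP u hu]

end

/-! ### the exponents of the mixed powers -/

section
variable {V : Type} [Fintype V] [DecidableEq V]

theorem sumOf_coeff {E : Finset V → Prop} [Fintype {F // E F}] {k : ℕ} {x : V → ℕ}
    (h : SumOf E k x) : ∃ l : {F // E F} → ℕ, ∑ F, l F = k ∧ x = fun v => ∑ F, l F * ind F.1 v := by
  classical
  induction h with
  | zero => exact ⟨0, by simp, by funext v; simp⟩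
  | add k x F _ hF ih =>
    obtain ⟨l, h1, h2⟩ := ih
    refine ⟨l + Pi.single ⟨F, hF⟩ 1, ?_, ?_⟩
    · simp only [Pi.add_apply]
      rw [Finset.sum_add_distrib, h1]
      simp
    · funext v
      rw [Pi.add_apply, h2]
      simp only [Pi.add_apply, add_mul]
      rw [Finset.sum_add_distrib]
      congr 1
      rw [Finset.sum_eq_single ⟨F, hF⟩]
      · simp
      · intro G _ hG
        rw [Pi.single_eq_of_ne hG, zero_mul]
      · intro h
        exact absurd (Finset.mem_univ _) h

theorem sumOf_smul {E : Finset V → Prop} {F : Finset V} (hF : E F) (k : ℕ) :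
    SumOf E k (fun v => k * ind F v) := by
  induction k with
  | zero =>
    have : (fun v => 0 * ind F v) = 0 := by funext v; simp
    rw [this]
    exact SumOf.zero
  | succ k ih =>
    have := SumOf.add k _ F ih hF
    have e : (fun v => (k + 1) * ind F v) = (fun v => k * ind F v) + ind F := by
      funext v
      rw [Pi.add_apply, add_mul, one_mul]
    rw [e]
    exact this

theorem sumOf_of_coeff {E : Finset V → Prop} [Fintype {F // E F}] (l : {F // E F} → ℕ) :
    SumOf E (∑ F, l F) (fun v => ∑ F, l F * ind F.1 v) := by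
  classical
  have : ∀ s : Finset {F // E F}, SumOf E (∑ F ∈ s, l F) (fun v => ∑ F ∈ s, l F * ind F.1 v) := by
    intro s
    induction s using Finset.induction_on with
    | empty =>
      simp only [Finset.sum_empty]
      exact SumOf.zero
    | insert F s hF ih =>
      rw [Finset.sum_insert hF]
      have e : (fun v => ∑ G ∈ insert F s, l G * ind G.1 v)
          = (fun v => l F * ind F.1 v) + (fun v => ∑ G ∈ s, l G * ind G.1 v) := by
        funext v
        rw [Finset.sum_insert hF]
        rfl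
      rw [e]
      exact (sumOf_smul F.2 _).add' ih
  exact this Finset.univ

open scoped Classical in
theorem ExpF_poly (Δ : AbstractSimplicialComplex V) (d : ℕ)
    (hF : ∀ i : Fin d, ∃ F, FE Δ (i : ℕ) F) :
    PolyEv (fun u : Fin d → ℕ => (((ExpF (FE Δ) u).ncard : ℕ) : ℚ)) := by
  let Ω : Type := Σ i : Fin d, {F : Finset V // FE Δ (i : ℕ) F}
  have h1 := values_poly (V := V) (Ω := Ω) (fun w => w.1) (fun w => ind w.2.1) (by
    intro i
    obtain ⟨F, hF⟩ := hF i
    exact ⟨⟨i, F, hF⟩, rfl⟩)
  have h2 : ∀ u : Fin d → ℕ, ExpF (FE Δ) u = {x : V → ℕ | ∃ l : Ω → ℕ,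
      cs (fun w : Ω => w.1) l = u ∧ x = val (fun w : Ω => ind w.2.1) l} := by
    intro u
    have hcs : ∀ (l : Ω → ℕ) (i : Fin d), cs (fun w : Ω => w.1) l i
        = ∑ F : {F : Finset V // FE Δ (i : ℕ) F}, l ⟨i, F⟩ := by
      intro l i
      unfold cs
      rw [← Equiv.sum_comp (Equiv.sigmaSubtype i).symm]
      rfl
    have hval : ∀ l : Ω → ℕ, val (fun w : Ω => ind w.2.1) l
        = ∑ i : Fin d, (fun v => ∑ F : {F : Finset V // FE Δ (i : ℕ) F}, l ⟨i, F⟩ * ind F.1 v) := by
      intro l
      funext v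
      unfold val
      rw [Fintype.sum_sigma, Finset.sum_apply]
    ext x
    simp only [ExpF, Set.mem_ofPred_eq]
    constructor
    · rintro ⟨z, hz, rfl⟩
      choose l hl1 hl2 using fun i => sumOf_coeff (hz i)
      refine ⟨fun w => l w.1 w.2, ?_, ?_⟩
      · funext i
        rw [hcs]
        exact hl1 i
      · rw [hval]
        apply Finset.sum_congr rfl
        intro i _
        exact hl2 i
    · rintro ⟨l, hl, rfl⟩
      refine ⟨fun i v => ∑ F : {F : Finset V // FE Δ (i : ℕ) F}, l ⟨i, F⟩ * ind F.1 v, ?_, ?_⟩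
      · intro i
        rw [← hl, hcs]
        exact sumOf_of_coeff (fun F => l ⟨i, F⟩)
      · rw [hval]
  simp only [h2]
  exact h1

end

/-! ### the degree -/

theorem degree_bound {d : ℕ} (P : MvPolynomial (Fin d) ℚ) (D U : ℕ) (C : ℝ)
    (h : ∀ u : Fin d → ℕ, (∀ i, U ≤ u i) →
      |((MvPolynomial.eval (fun i => (u i : ℚ)) P : ℚ) : ℝ)| ≤ C * (1 + ∑ i, (u i : ℝ)) ^ D) :
    P.totalDegree ≤ D := by
  by_contra hcon
  push Not at hcon
  set E := P.totalDegree with hE
  set Q : MvPolynomial (Fin d) ℚ :=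
    ∑ s ∈ P.support.filter (fun s => ∑ k, s k = E), MvPolynomial.monomial s (P.coeff s) with hQ
  have hdeg : ∀ s ∈ P.support, ∑ k, s k ≤ E := by
    intro s hs
    have h2 := MvPolynomial.le_totalDegree hs
    rw [Finsupp.sum_fintype _ _ (fun _ => rfl)] at h2
    exact h2
  have hzero : Q = 0 := by
    apply MvPolynomial.funext_set (fun _ => Set.range (fun n : ℕ => ((n : ℚ) + 1)))
    · intro i
      apply Set.infinite_range_of_injective
      intro n m hnm
      have : (n : ℚ) + 1 = m + 1 := hnm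
      exact_mod_cast add_right_cancel this
    · intro x hx
      choose v hv using fun i => hx i (Set.mem_univ i)
      have hv' : x = fun i => ((v i + 1 : ℕ) : ℚ) := by
        funext i
        rw [← hv i]
        push_cast
        rfl
      rw [map_zero]
      -- the limit along the ray
      have t1 : Tendsto (fun t : ℕ => ((MvPolynomial.eval
          (fun i => (((t * (v i + 1) : ℕ)) : ℚ)) P : ℚ) : ℝ) / (t : ℝ) ^ E) atTop
          (𝓝 ((MvPolynomial.eval x Q : ℚ) : ℝ)) := by
        have t2 : Tendsto (fun t : ℕ => ∑ s ∈ P.support, ((P.coeff s : ℚ) : ℝ)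
            * (∏ k, (((v k + 1 : ℕ) : ℝ)) ^ (s k))
            * ((((0 + t : ℕ) : ℝ)) ^ (∑ k, s k) / (t : ℝ) ^ E)) atTop
            (𝓝 (∑ s ∈ P.support, ((P.coeff s : ℚ) : ℝ)
            * (∏ k, (((v k + 1 : ℕ) : ℝ)) ^ (s k)) * (if ∑ k, s k = E then 1 else 0))) := by
          apply tendsto_finsetSum
          intro s hs
          apply Tendsto.const_mul
          exact lim_ratio 0 _ _ (hdeg s hs)
        have e1 : (∑ s ∈ P.support, ((P.coeff s : ℚ) : ℝ)
            * (∏ k, (((v k + 1 : ℕ) : ℝ)) ^ (s k)) * (if ∑ k, s k = E then 1 else 0))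
            = ((MvPolynomial.eval x Q : ℚ) : ℝ) := by
          rw [hQ, map_sum, Finset.sum_filter]
          push_cast
          apply Finset.sum_congr rfl
          intro s _
          split_ifs with hs
          · rw [MvPolynomial.eval_monomial, Finsupp.prod_fintype _ _ (fun _ => pow_zero _), hv']
            push_cast
            ring
          · simp
        rw [e1] at t2
        refine t2.congr (fun t => ?_)
        rw [MvPolynomial.eval_eq']
        push_cast
        rw [Finset.sum_div]
        apply Finset.sum_congr rfl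
        intro s _
        have e2 : ∏ k, ((t : ℝ) * ((v k : ℝ) + 1)) ^ (s k)
            = (t : ℝ) ^ (∑ k, s k) * ∏ k, ((v k : ℝ) + 1) ^ (s k) := by
          rw [← Finset.prod_pow_eq_pow_sum, ← Finset.prod_mul_distrib]
          apply Finset.prod_congr rfl
          intro k _
          rw [mul_pow]
        rw [e2]
        simp only [zero_add]
        ring
      have t3 : Tendsto (fun t : ℕ => |C| * ((1 + ∑ i, ((v i : ℝ) + 1)) ^ D)
          * ((((0 + t : ℕ) : ℝ)) ^ D / (t : ℝ) ^ E)) atTop (𝓝 0) := by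
        have := (lim_ratio 0 D E hcon.le).const_mul (|C| * ((1 + ∑ i, ((v i : ℝ) + 1)) ^ D))
        rw [if_neg (by omega), mul_zero] at this
        exact this
      have t4 : Tendsto (fun t : ℕ => ((MvPolynomial.eval
          (fun i => (((t * (v i + 1) : ℕ)) : ℚ)) P : ℚ) : ℝ) / (t : ℝ) ^ E) atTop (𝓝 0) := by
        apply squeeze_zero_norm' _ t3
        filter_upwards [eventually_ge_atTop (U + 1)] with t ht
        have htpos : (1 : ℝ) ≤ t := by
          have : 1 ≤ t := by omega
          exact_mod_cast this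
        rw [Real.norm_eq_abs, abs_div, abs_of_nonneg (show (0 : ℝ) ≤ (t : ℝ) ^ E by positivity),
          ← mul_div_assoc]
        apply div_le_div_of_nonneg_right _ (by positivity)
        have h5 := h (fun i => t * (v i + 1)) (fun i => by nlinarith [Nat.zero_le (v i)])
        refine le_trans h5 ?_
        have h6 : (1 + ∑ i, ((t * (v i + 1) : ℕ) : ℝ)) ≤ (1 + ∑ i, ((v i : ℝ) + 1)) * t := by
          push_cast
          rw [← Finset.mul_sum]
          nlinarith
        have h7 : (0 : ℝ) ≤ 1 + ∑ i, ((t * (v i + 1) : ℕ) : ℝ) := by positivity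
        calc C * (1 + ∑ i, ((t * (v i + 1) : ℕ) : ℝ)) ^ D
            ≤ |C| * (1 + ∑ i, ((t * (v i + 1) : ℕ) : ℝ)) ^ D :=
              mul_le_mul_of_nonneg_right (le_abs_self C) (by positivity)
          _ ≤ |C| * ((1 + ∑ i, ((v i : ℝ) + 1)) * t) ^ D :=
              mul_le_mul_of_nonneg_left (pow_le_pow_left₀ h7 h6 _) (abs_nonneg C)
          _ = |C| * (1 + ∑ i, ((v i : ℝ) + 1)) ^ D * ((0 + t : ℕ) : ℝ) ^ D := by
              rw [mul_pow, zero_add]
              ring
      have := tendsto_nhds_unique t1 t4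
      exact_mod_cast this
  -- a monomial of top degree
  have hne : P.support.Nonempty := by
    rw [Finset.nonempty_iff_ne_empty]
    intro h0
    have : P = 0 := MvPolynomial.support_eq_empty.1 h0
    rw [this, MvPolynomial.totalDegree_zero] at hE
    omega
  obtain ⟨s, hs1, hs2⟩ := Finset.exists_mem_eq_sup P.support hne (fun s => s.sum fun _ e => e)
  have hs3 : ∑ k, s k = E := by
    rw [hE]
    unfold MvPolynomial.totalDegree
    rw [hs2, Finsupp.sum_fintype _ _ (fun _ => rfl)]
  have h8 : MvPolynomial.coeff s Q = P.coeff s := by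
    rw [hQ, MvPolynomial.coeff_sum]
    simp only [MvPolynomial.coeff_monomial]
    rw [Finset.sum_ite_eq', if_pos (Finset.mem_filter.2 ⟨hs1, hs3⟩)]
  rw [hzero, MvPolynomial.coeff_zero] at h8
  exact (MvPolynomial.mem_support_iff.1 hs1) h8.symm

end Pool.Agent.Q126.MX
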