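import Pool.Agent.Q126.MX10

set_option autoImplicit false

namespace Pool.Agent.Q126.MX

open Finset Filter Topology Pool.Agent.Q126.MXD

theorem card_VV (N : ℕ) : Fintype.card (VV N) = 19 * N + 18 + 1 := by
  simp only [Fintype.card_sum, Fintype.card_fin]
  ring

theorem ncard_bound (N : ℕ) (u : Fin 20 → ℕ) :
    (((ExpF (FE (cx N)) u).ncard : ℕ) : ℝ)
      ≤ (((19 * N + 18 : ℕ) : ℝ) + 20) ^ (19 * N + 18) * (1 + ∑ i, (u i : ℝ)) ^ (19 * N + 18) := by
  have h1 : (ExpF (FE (cx N)) u).ncard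
      ≤ (eqs (VV N) (∑ i : Fin 20, ((i : ℕ) + 1) * u i)).card := by
    rw [← Set.ncard_coe_finset]
    apply Set.ncard_le_ncard _ (Finset.finite_toSet _)
    intro x hx
    rw [Finset.mem_coe, mem_eqs]
    exact ExpF_total (cx N) u hx
  have h2 := card_eqs_le (ι := VV N) (q := 19 * N + 18) (card_VV N)
    (∑ i : Fin 20, ((i : ℕ) + 1) * u i)
  have h3 : (((∑ i : Fin 20, ((i : ℕ) + 1) * u i : ℕ) : ℝ) + ((19 * N + 18 : ℕ) : ℝ))
      ≤ (((19 * N + 18 : ℕ) : ℝ) + 20) * (1 + ∑ i, (u i : ℝ)) := by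
    have h4 : ((∑ i : Fin 20, ((i : ℕ) + 1) * u i : ℕ) : ℝ) ≤ 20 * ∑ i, (u i : ℝ) := by
      push_cast
      rw [Finset.mul_sum]
      apply Finset.sum_le_sum
      intro i _
      have : ((i : ℕ) : ℝ) + 1 ≤ 20 := by
        have : (i : ℕ) + 1 ≤ 20 := i.2
        exact_mod_cast this
      exact mul_le_mul_of_nonneg_right this (by positivity)
    have h5 : (0 : ℝ) ≤ ((19 * N + 18 : ℕ) : ℝ) * ∑ i, (u i : ℝ) := by positivity
    nlinarith
  have h6 : (1 : ℝ) ≤ (((19 * N + 18).factorial : ℕ) : ℝ) := by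
    exact_mod_cast Nat.one_le_iff_ne_zero.2 (Nat.factorial_ne_zero _)
  have h7 : (0 : ℝ) ≤ (((∑ i : Fin 20, ((i : ℕ) + 1) * u i : ℕ) : ℝ)
      + ((19 * N + 18 : ℕ) : ℝ)) := add_nonneg (Nat.cast_nonneg _) (Nat.cast_nonneg _)
  generalize (((∑ i : Fin 20, ((i : ℕ) + 1) * u i : ℕ) : ℝ) + ((19 * N + 18 : ℕ) : ℝ)) = A
    at h2 h3 h7
  rw [← mul_pow]
  have h8 : (((ExpF (FE (cx N)) u).ncard : ℕ) : ℝ)
      ≤ ((eqs (VV N) (∑ i : Fin 20, ((i : ℕ) + 1) * u i)).card : ℝ) := by exact_mod_cast h1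
  have h9 : A ^ (19 * N + 18) / (((19 * N + 18).factorial : ℕ) : ℝ) ≤ A ^ (19 * N + 18) :=
    div_le_self (pow_nonneg h7 _) h6
  exact le_trans h8 (le_trans h2 (le_trans h9 (pow_le_pow_left₀ h7 h3 _)))

theorem exists_mixed (K : Type*) [Field K] {N : ℕ} (hN : 21 ≤ N) :
    ∃ e : (Fin 20 →₀ ℕ) → ℚ, IsMixedMultiplicity K (cx N) 20 e := by
  obtain ⟨P, U, hP⟩ := ExpF_poly (cx N) 20 (FE_exists hN)
  refine ⟨fun a => P.coeff a * ∏ i, ((a i).factorial : ℚ), P, ?_, ⟨U, ?_⟩, ?_⟩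
  · rw [card_VV, Nat.add_sub_cancel]
    apply degree_bound P (19 * N + 18) U ((((19 * N + 18 : ℕ) : ℝ) + 20) ^ (19 * N + 18))
    intro u hu
    rw [← hP u hu]
    have := ncard_bound N u
    rw [abs_of_nonneg (by push_cast; exact Nat.cast_nonneg _)]
    push_cast at this ⊢
    exact this
  · intro u hu
    rw [fiberDim_eq]
    exact hP u hu
  · intro a _
    have : (∏ i, ((a i).factorial : ℚ)) ≠ 0 :=
      Finset.prod_ne_zero_iff.2 (fun i _ => by positivity)
    rw [mul_div_cancel_right₀ _ this]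

theorem single_fact (i : Fin 20) (D : ℕ) :
    ∏ k, (((Finsupp.single i D : Fin 20 →₀ ℕ) k).factorial : ℚ) = (D.factorial : ℚ) := by
  rw [Finset.prod_eq_single i]
  · simp
  · intro k _ hk
    rw [Finsupp.single_apply, if_neg (fun h => hk h.symm)]
    simp
  · intro h
    exact absurd (Finset.mem_univ i) h

theorem main : ∃ (V : Type) (_ : Fintype V) (Δ : AbstractSimplicialComplex V),
    IsPure Δ 20 ∧ ∀ (K : Type*) [Field K],
      (∃ e : (Fin 20 →₀ ℕ) → ℚ, IsMixedMultiplicity K Δ 20 e) ∧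
      ∀ e : (Fin 20 →₀ ℕ) → ℚ, IsMixedMultiplicity K Δ 20 e →
        e (Finsupp.single 17 (Fintype.card V - 1)) < e (Finsupp.single 16 (Fintype.card V - 1)) ∧
        e (Finsupp.single 17 (Fintype.card V - 1)) < e (Finsupp.single 19 (Fintype.card V - 1)) ∧
        ¬ Unimodal (fun i : Fin 20 => e (Finsupp.single i (Fintype.card V - 1))) := by
  obtain ⟨N, hN, hmain⟩ := exists_N
  refine ⟨VV N, inferInstance, cx N, pure_cx N hN, ?_⟩
  intro K _
  refine ⟨exists_mixed K hN, ?_⟩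
  rintro e ⟨P, hP1, ⟨U, hU⟩, hP2⟩
  rw [card_VV, Nat.add_sub_cancel] at hP1 hP2 ⊢
  have hlim : ∀ i : Fin 20, Tendsto (XN N (fun _ => U) i) atTop
      (𝓝 ((P.coeff (Finsupp.single i (19 * N + 18)) : ℚ) : ℝ)) := by
    intro i
    refine (eval_lim P (19 * N + 18) hP1 (fun _ => U) i).congr (fun m => ?_)
    have h1 := hU (bump (fun _ => U) i m) (fun k => by
      unfold bump
      by_cases hk : k = i
      · subst hk
        rw [Function.update_self]
        exact Nat.le_add_right _ _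
      · rw [Function.update_of_ne hk])
    rw [← h1, fiberDim_eq]
    unfold XN
    push_cast
    rfl
  obtain ⟨h1, h2⟩ := hmain (fun _ => U) _ _ _ (hlim 16) (hlim 17) (hlim 19)
  have h3 : P.coeff (Finsupp.single (17 : Fin 20) (19 * N + 18))
      < P.coeff (Finsupp.single (16 : Fin 20) (19 * N + 18)) := by exact_mod_cast h1
  have h4 : P.coeff (Finsupp.single (17 : Fin 20) (19 * N + 18))
      < P.coeff (Finsupp.single (19 : Fin 20) (19 * N + 18)) := by exact_mod_cast h2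
  have hsum : ∀ i : Fin 20, ∑ k, (Finsupp.single i (19 * N + 18) : Fin 20 →₀ ℕ) k
      = 19 * N + 18 := by
    intro i
    rw [Finset.sum_eq_single i]
    · simp
    · intro k _ hk
      rw [Finsupp.single_apply, if_neg (fun h => hk h.symm)]
    · intro h
      exact absurd (Finset.mem_univ i) h
  have hf : (0 : ℚ) < ((19 * N + 18).factorial : ℚ) := by positivity
  have he : ∀ i : Fin 20, e (Finsupp.single i (19 * N + 18))
      = P.coeff (Finsupp.single i (19 * N + 18)) * ((19 * N + 18).factorial : ℚ) := by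
    intro i
    rw [hP2 _ (hsum i), single_fact, div_mul_cancel₀ _ hf.ne']
  have i1 : e (Finsupp.single 17 (19 * N + 18)) < e (Finsupp.single 16 (19 * N + 18)) := by
    rw [he, he]
    exact mul_lt_mul_of_pos_right h3 hf
  have i2 : e (Finsupp.single 17 (19 * N + 18)) < e (Finsupp.single 19 (19 * N + 18)) := by
    rw [he, he]
    exact mul_lt_mul_of_pos_right h4 hf
  refine ⟨i1, i2, ?_⟩
  rintro ⟨k, hk1, hk2⟩
  rcases le_total k 17 with hk | hk
  · exact absurd i2 (not_lt.2 (hk2 17 19 hk (by decide)))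
  · exact absurd i1 (not_lt.2 (hk1 16 17 (by decide) hk))

end Pool.Agent.Q126.MX
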