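import Pool.Agent.Q126.MX1

set_option autoImplicit false

namespace Pool.Agent.Q126.MX

open Finset

section win
variable {ι : Type} [Fintype ι] [DecidableEq ι]

theorem win_les (S T : ℕ) (hT : 1 ≤ T) {a b : ℝ} (ha0 : 0 ≤ a) (ha : a ≤ S)
    (hb : ((T : ℝ) + Fintype.card ι) ≤ b) :
    (a ^ (Fintype.card ι) - b ^ (Fintype.card ι)) / ((Fintype.card ι).factorial : ℝ)
      ≤ (((les ι S).filter (fun f => T ≤ ∑ i, f i)).card : ℝ) := by
  set p := Fintype.card ι with hp
  have h2 : (les ι S).card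
      ≤ ((les ι S).filter (fun f => T ≤ ∑ i, f i)).card + (les ι (T - 1)).card := by
    have h3 : les ι S ⊆ ((les ι S).filter (fun f => T ≤ ∑ i, f i)) ∪ les ι (T - 1) := by
      intro f hf
      rw [Finset.mem_union, Finset.mem_filter, mem_les (S := T - 1)]
      by_cases h : T ≤ ∑ i, f i
      · exact Or.inl ⟨hf, h⟩
      · exact Or.inr (by omega)
    exact le_trans (Finset.card_le_card h3) (Finset.card_union_le _ _)
  have h3 : ((les ι S).card : ℝ)
      ≤ (((les ι S).filter (fun f => T ≤ ∑ i, f i)).card : ℝ)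
        + ((les ι (T - 1)).card : ℝ) := by
    exact_mod_cast h2
  have h4 := card_les_ge (ι := ι) S
  have h5 := card_les_le (ι := ι) (T - 1)
  rw [← hp] at h4 h5
  have hf : (0 : ℝ) < (p.factorial : ℝ) := by positivity
  have h7 : a ^ p ≤ (S : ℝ) ^ p := pow_le_pow_left₀ ha0 ha _
  have h9 : (((T - 1 : ℕ) : ℝ) + p) ^ p ≤ b ^ p := by
    apply pow_le_pow_left₀ (by positivity)
    have : ((T - 1 : ℕ) : ℝ) ≤ T := by
      have : T - 1 ≤ T := by omega
      exact_mod_cast this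
    linarith
  rw [div_le_iff₀ hf]
  rw [div_le_iff₀ hf] at h4
  rw [le_div_iff₀ hf] at h5
  nlinarith

/-- a part of given size below a function -/
theorem exists_part (x : ι → ℕ) (t : ℕ) (ht : t ≤ ∑ i, x i) :
    ∃ y : ι → ℕ, (∀ i, y i ≤ x i) ∧ ∑ i, y i = t := by
  induction t with
  | zero => exact ⟨0, fun i => Nat.zero_le _, by simp⟩
  | succ t ih =>
    obtain ⟨y, hy, hs⟩ := ih (by omega)
    have h1 : ∃ i, y i < x i := by
      by_contra h
      push Not at h
      have : ∑ i, x i ≤ ∑ i, y i := Finset.sum_le_sum (fun i _ => h i)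
      omega
    obtain ⟨v, hv⟩ := h1
    refine ⟨Function.update y v (y v + 1), ?_, ?_⟩
    · intro i
      by_cases hi : i = v
      · subst hi
        rw [Function.update_self]
        omega
      · rw [Function.update_of_ne hi]
        exact hy i
    · have h2 := Finset.sum_update_of_mem (Finset.mem_univ v) y (y v + 1)
      have h3 := Finset.add_sum_erase Finset.univ y (Finset.mem_univ v)
      rw [Finset.sdiff_singleton_eq_erase] at h2
      omega

end win

/-- the vertex set -/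
abbrev VV (N : ℕ) : Type := Fin N ⊕ (Fin (18 * N) ⊕ Fin 19)

/-- the faces -/
def TypeI {N : ℕ} (F : Finset (VV N)) : Prop :=
  (∀ a b, Sum.inl a ∈ F → Sum.inl b ∈ F → a = b) ∧
    (∀ a b, Sum.inr (Sum.inl a) ∈ F → Sum.inr (Sum.inl b) ∈ F → a = b)

def TypeII {N : ℕ} (F : Finset (VV N)) : Prop :=
  (∀ v ∈ F, ∃ a, v = Sum.inl a) ∧ F.card ≤ 21

def Face {N : ℕ} (F : Finset (VV N)) : Prop := TypeI F ∨ TypeII F

/-- faces with `j` vertices -/
def EF (N j : ℕ) (F : Finset (VV N)) : Prop := F.card = j ∧ Face F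

/-- the block map -/
def bm {N : ℕ} : VV N → Unit ⊕ (Unit ⊕ Fin 19)
  | Sum.inl _ => Sum.inl ()
  | Sum.inr (Sum.inl _) => Sum.inr (Sum.inl ())
  | Sum.inr (Sum.inr v) => Sum.inr (Sum.inr v)

/-- glue three functions -/
def glue {N : ℕ} (x1 : Fin N → ℕ) (x2 : Fin (18 * N) → ℕ) (h : Fin 19 → ℕ) : VV N → ℕ :=
  Sum.elim x1 (Sum.elim x2 h)

theorem sum_glue {N : ℕ} (x1 : Fin N → ℕ) (x2 : Fin (18 * N) → ℕ) (h : Fin 19 → ℕ) :
    ∑ v, glue x1 x2 h v = ∑ i, x1 i + (∑ i, x2 i + ∑ i, h i) := by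
  unfold glue
  rw [Fintype.sum_sum_type, Fintype.sum_sum_type]
  rfl

/-- functions with bounded block sums are sums of type I faces -/
theorem typeI_sum {N : ℕ} (j m : ℕ) (x1 : Fin N → ℕ) (x2 : Fin (18 * N) → ℕ) (h : Fin 19 → ℕ)
    (hs : ∑ i, x1 i + (∑ i, x2 i + ∑ i, h i) = j * m) (h1 : ∑ i, x1 i ≤ m)
    (h2 : ∑ i, x2 i ≤ m) (h3 : ∀ i, h i ≤ m) :
    SumOf (EF N j) m (glue x1 x2 h) := by
  have hb := block (V := VV N) (B := Unit ⊕ (Unit ⊕ Fin 19)) bm j m (glue x1 x2 h)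
    (by rw [sum_glue, hs]) (by
      intro c
      rw [Finset.sum_filter, Fintype.sum_sum_type, Fintype.sum_sum_type]
      rcases c with c | c | c
      · simpa [bm, glue] using h1
      · simpa [bm, glue] using h2
      · simpa [bm, glue] using h3 c)
  refine SumOf.mono ?_ hb
  rintro F ⟨hF1, hF2, _⟩
  refine ⟨hF1, Or.inl ⟨?_, ?_⟩⟩
  · intro a b ha hb'
    exact Sum.inl_injective (hF2 _ ha _ hb' rfl)
  · intro a b ha hb'
    exact Sum.inl_injective (Sum.inr_injective (hF2 _ ha _ hb' rfl))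

/-- bounded functions on the first part are sums of type II faces -/
theorem typeII_sum {N : ℕ} (j m : ℕ) (hj : j ≤ 21) (x1 : Fin N → ℕ)
    (hs : ∑ i, x1 i = j * m) (h1 : ∀ i, x1 i ≤ m) :
    SumOf (EF N j) m (glue x1 0 0) := by
  have hb := block (V := VV N) (B := VV N) id j m (glue x1 0 0)
    (by rw [sum_glue, hs]; simp) (by
      intro c
      rw [Finset.sum_filter]
      simp only [id]
      rw [Finset.sum_ite_eq']
      rcases c with c | c | c
      · simpa [glue] using h1 c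
      · simp [glue]
      · simp [glue])
  refine SumOf.mono ?_ hb
  rintro F ⟨hF1, _, hF3⟩
  refine ⟨hF1, Or.inr ⟨?_, by omega⟩⟩
  intro v hv
  have := hF3 v hv
  rcases v with v | v | v
  · exact ⟨v, rfl⟩
  · simp [glue] at this
  · simp [glue] at this

/-- counting triples -/
theorem count_triples {N : ℕ} (A1 : Finset (Fin N → ℕ)) (A2 : Finset (Fin (18 * N) → ℕ))
    (W : (Fin N → ℕ) → (Fin (18 * N) → ℕ) → Finset (Fin 19 → ℕ)) (M : ℕ)
    (hW : ∀ x1 ∈ A1, ∀ x2 ∈ A2, ∀ w ∈ W x1 x2, ∀ i, w i ≤ M)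
    (T : Finset (VV N → ℕ))
    (hT : ∀ x1 ∈ A1, ∀ x2 ∈ A2, ∀ w ∈ W x1 x2, glue x1 x2 (fun i => M - w i) ∈ T)
    {a1 a2 a3 : ℝ} (h1 : a1 ≤ A1.card) (h2 : a2 ≤ A2.card)
    (h3 : ∀ x1 ∈ A1, ∀ x2 ∈ A2, a3 ≤ (W x1 x2).card)
    (p1 : 0 ≤ a1) (p2 : 0 ≤ a2) (p3 : 0 ≤ a3) : a1 * a2 * a3 ≤ T.card := by
  classical
  set S : Finset (Sigma (fun _ : (Fin N → ℕ) × (Fin (18 * N) → ℕ) => (Fin 19 → ℕ))) :=
    (A1 ×ˢ A2).sigma (fun p => W p.1 p.2) with hS
  have hc : S.card ≤ T.card := by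
    apply Finset.card_le_card_of_injOn (fun q => glue q.1.1 q.1.2 (fun i => M - q.2 i))
    · intro q hq
      have hq' := Finset.mem_sigma.1 (Finset.mem_coe.1 hq)
      have hq1 := Finset.mem_product.1 hq'.1
      exact hT _ hq1.1 _ hq1.2 _ hq'.2
    · rintro ⟨⟨x1, x2⟩, w⟩ hq ⟨⟨x1', x2'⟩, w'⟩ hq' h
      have hq1 := Finset.mem_sigma.1 (Finset.mem_coe.1 hq)
      have hq2 := Finset.mem_product.1 hq1.1
      have hq1' := Finset.mem_sigma.1 (Finset.mem_coe.1 hq')
      have hq2' := Finset.mem_product.1 hq1'.1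
      have e1 : x1 = x1' := by
        funext i
        exact congrFun h (Sum.inl i)
      have e2 : x2 = x2' := by
        funext i
        exact congrFun h (Sum.inr (Sum.inl i))
      have e3 : w = w' := by
        funext i
        have h4 : M - w i = M - w' i := congrFun h (Sum.inr (Sum.inr i))
        have h5 := hW _ hq2.1 _ hq2.2 _ hq1.2 i
        have h6 := hW _ hq2'.1 _ hq2'.2 _ hq1'.2 i
        simp only at h5 h6
        omega
      subst e1 e2 e3
      rfl
  have hS2 : (S.card : ℝ) = ∑ p ∈ A1 ×ˢ A2, ((W p.1 p.2).card : ℝ) := by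
    rw [hS, Finset.card_sigma]
    push_cast
    rfl
  have h4 : ((A1 ×ˢ A2).card : ℝ) * a3 ≤ (S.card : ℝ) := by
    rw [hS2, ← nsmul_eq_mul, ← Finset.sum_const]
    apply Finset.sum_le_sum
    intro p hp
    have := Finset.mem_product.1 hp
    exact h3 _ this.1 _ this.2
  rw [Finset.card_product] at h4
  push_cast at h4
  have h5 : a1 * a2 ≤ (A1.card : ℝ) * A2.card := mul_le_mul h1 h2 p2 (by positivity)
  have h6 : a1 * a2 * a3 ≤ (A1.card : ℝ) * A2.card * a3 := mul_le_mul_of_nonneg_right h5 p3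
  have h7 : (S.card : ℝ) ≤ T.card := by exact_mod_cast hc
  linarith

/-- lower bound, level 20 -/
theorem lower2 (N s : ℕ) (hs : 1 ≤ s) (T : Finset (VV N → ℕ))
    (hT : ∀ x, SumOf (EF N 20) (4000 * s) x → x ∈ T)
    (p1 : 0 ≤ ((4190 * s : ℝ) ^ N - (3791 * s + N) ^ N - N * (4180 * s + N) ^ N)
      / (N.factorial : ℝ))
    (p2 : 0 ≤ ((3990 * s : ℝ) ^ (18 * N) - (3591 * s + (18 * N : ℕ)) ^ (18 * N))
      / ((18 * N).factorial : ℝ)) :
    ((4190 * s : ℝ) ^ N - (3791 * s + N) ^ N - N * (4180 * s + N) ^ N) / (N.factorial : ℝ)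
      * (((3990 * s : ℝ) ^ (18 * N) - (3591 * s + (18 * N : ℕ)) ^ (18 * N))
        / ((18 * N).factorial : ℝ))
      * ((3192 * s : ℝ) ^ 18 / ((Nat.factorial 18 : ℕ) : ℝ))
      ≤ T.card := by
  apply count_triples
    ((les (Fin N) (4190 * s)).filter (fun f => (∀ v, f v ≤ 10 * s) ∧ 3791 * s ≤ ∑ i, f i))
    ((les (Fin (18 * N)) (3990 * s)).filter (fun f => 3591 * s ≤ ∑ i, f i))
    (fun x1 x2 => eqs (Fin 19) (∑ i, x1 i + ∑ i, x2 i - 4190 * s)) (3990 * s) ?_ T ?_ ?_ ?_ ?_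
      p1 p2 (by positivity)
  · intro x1 h1 x2 h2 w hw i
    rw [Finset.mem_filter, mem_les] at h1 h2
    rw [mem_eqs] at hw
    have h3 : w i ≤ ∑ i, w i := Finset.single_le_sum (fun _ _ => Nat.zero_le _) (Finset.mem_univ i)
    omega
  · intro x1 h1 x2 h2 w hw
    apply hT
    rw [Finset.mem_filter, mem_les] at h1 h2
    rw [mem_eqs] at hw
    have hwi : ∀ i, w i ≤ 3990 * s := by
      intro i
      have h3 : w i ≤ ∑ i, w i :=
        Finset.single_le_sum (fun _ _ => Nat.zero_le _) (Finset.mem_univ i)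
      omega
    have h3 : ∑ i, (3990 * s - w i) + ∑ i, w i = 19 * (3990 * s) := by
      rw [← Finset.sum_add_distrib]
      rw [Finset.sum_congr rfl (fun i _ => Nat.sub_add_cancel (hwi i))]
      simp
    obtain ⟨y, hy1, hy2⟩ := exists_part x1 (200 * s) (by omega)
    have h4 : ∑ i, (x1 i - y i) + ∑ i, y i = ∑ i, x1 i := by
      rw [← Finset.sum_add_distrib]
      exact Finset.sum_congr rfl (fun i _ => Nat.sub_add_cancel (hy1 i))
    have hA := typeI_sum (N := N) 20 (3990 * s) (fun i => x1 i - y i) x2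
      (fun i => 3990 * s - w i) (by omega) (by omega) h2.1 (fun i => Nat.sub_le _ _)
    have hB := typeII_sum (N := N) 20 (10 * s) (by norm_num) y (by omega)
      (fun i => le_trans (hy1 i) (h1.2.1 i))
    have hAB := hA.add' hB
    have e1 : 3990 * s + 10 * s = 4000 * s := by ring
    have e2 : glue (fun i => x1 i - y i) x2 (fun i => 3990 * s - w i) + glue y 0 0
        = glue x1 x2 (fun i => 3990 * s - w i) := by
      funext v
      rcases v with v | v | v
      · have := hy1 v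
        simp only [glue, Pi.add_apply, Sum.elim_inl]
        omega
      · simp [glue]
      · simp [glue]
    rw [e1, e2] at hAB
    exact hAB
  · have := box_les (ι := Fin N) (4190 * s) (3791 * s) (10 * s) (by omega) (a := 4190 * s)
      (b := 3791 * s + N) (c := 4180 * s + N) (by positivity) (by push_cast; exact le_rfl)
      (by push_cast; simp) (by
        have : 4190 * s - (10 * s + 1) + N ≤ 4180 * s + N := by omega
        simp only [Fintype.card_fin]
        exact_mod_cast this)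
    refine le_trans (le_of_eq ?_) (le_trans this (le_of_eq ?_))
    · simp
    · congr 2
      ext f
      simp only [Finset.mem_filter]
  · have := win_les (ι := Fin (18 * N)) (3990 * s) (3591 * s) (by omega) (a := 3990 * s)
      (b := 3591 * s + (18 * N : ℕ)) (by positivity) (by push_cast; exact le_rfl)
      (by push_cast; simp)
    simpa using this
  · intro x1 h1 x2 h2
    rw [Finset.mem_filter, mem_les] at h1 h2
    have h3 := card_eqs_ge (ι := Fin 19) (q := 18) (by simp)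
      (∑ i, x1 i + ∑ i, x2 i - 4190 * s)
    have h4 : 3192 * s ≤ ∑ i, x1 i + ∑ i, x2 i - 4190 * s := by omega
    have h5 : (3192 * s : ℝ) ≤ ((∑ i, x1 i + ∑ i, x2 i - 4190 * s : ℕ) : ℝ) := by
      exact_mod_cast h4
    have h6 : (3192 * s : ℝ) ^ 18 ≤ ((∑ i, x1 i + ∑ i, x2 i - 4190 * s : ℕ) : ℝ) ^ 18 :=
      pow_le_pow_left₀ (by positivity) h5 _
    refine le_trans ?_ h3
    gcongr

/-- lower bound, level 17 -/
theorem lower0 (N s : ℕ) (hs : 1 ≤ s) (T : Finset (VV N → ℕ))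
    (hT : ∀ x, SumOf (EF N 17) (4000 * s) x → x ∈ T)
    (p1 : 0 ≤ ((4000 * s : ℝ) ^ N - (3600 * s + N) ^ N) / (N.factorial : ℝ))
    (p2 : 0 ≤ ((4000 * s : ℝ) ^ (18 * N) - (3600 * s + (18 * N : ℕ)) ^ (18 * N))
      / ((18 * N).factorial : ℝ))
    (p3 : 0 ≤ ((15200 * s : ℝ) ^ 18 - 19 * (12000 * s + 18) ^ 18) / ((Nat.factorial 18 : ℕ) : ℝ)) :
    ((4000 * s : ℝ) ^ N - (3600 * s + N) ^ N) / (N.factorial : ℝ)
      * (((4000 * s : ℝ) ^ (18 * N) - (3600 * s + (18 * N : ℕ)) ^ (18 * N))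
        / ((18 * N).factorial : ℝ))
      * (((15200 * s : ℝ) ^ 18 - 19 * (12000 * s + 18) ^ 18) / ((Nat.factorial 18 : ℕ) : ℝ))
      ≤ T.card := by
  apply count_triples
    ((les (Fin N) (4000 * s)).filter (fun f => 3600 * s ≤ ∑ i, f i))
    ((les (Fin (18 * N)) (4000 * s)).filter (fun f => 3600 * s ≤ ∑ i, f i))
    (fun x1 x2 => (eqs (Fin 19) (8000 * s + ∑ i, x1 i + ∑ i, x2 i)).filter
      (fun f => ∀ v, f v ≤ 4000 * s)) (4000 * s) ?_ T ?_ ?_ ?_ ?_ p1 p2 p3
  · intro x1 _ x2 _ w hw i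
    exact (Finset.mem_filter.1 hw).2 i
  · intro x1 h1 x2 h2 w hw
    apply hT
    rw [Finset.mem_filter, mem_les] at h1 h2
    rw [Finset.mem_filter, mem_eqs] at hw
    have h3 : ∑ i, (4000 * s - w i) + ∑ i, w i = 19 * (4000 * s) := by
      rw [← Finset.sum_add_distrib]
      rw [Finset.sum_congr rfl (fun i _ => Nat.sub_add_cancel (hw.2 i))]
      simp
    apply typeI_sum 17 (4000 * s) _ _ _ ?_ h1.1 h2.1 (fun i => Nat.sub_le _ _)
    omega
  · have := win_les (ι := Fin N) (4000 * s) (3600 * s) (by omega) (a := 4000 * s)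
      (b := 3600 * s + N) (by positivity) (by push_cast; exact le_rfl)
      (by push_cast; simp)
    simpa using this
  · have := win_les (ι := Fin (18 * N)) (4000 * s) (3600 * s) (by omega) (a := 4000 * s)
      (b := 3600 * s + (18 * N : ℕ)) (by positivity) (by push_cast; exact le_rfl)
      (by push_cast; simp)
    simpa using this
  · intro x1 h1 x2 h2
    rw [Finset.mem_filter, mem_les] at h1 h2
    have h3 := box_eqs (ι := Fin 19) (q := 18) (by simp)
      (8000 * s + ∑ i, x1 i + ∑ i, x2 i) (4000 * s) (a := 15200 * s) (b := 12000 * s + 18)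
      (by positivity) (by
        have : 15200 * s ≤ 8000 * s + ∑ i, x1 i + ∑ i, x2 i := by omega
        exact_mod_cast this) (by
        have : 8000 * s + ∑ i, x1 i + ∑ i, x2 i - (4000 * s + 1) + 18 ≤ 12000 * s + 18 := by omega
        exact_mod_cast this)
    refine le_trans (le_of_eq ?_) (le_trans h3 (le_of_eq ?_))
    · norm_num
    · congr 2
      ext f
      simp only [Finset.mem_filter]

end Pool.Agent.Q126.MX
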