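import Pool.Agent.Q126.MX2

set_option autoImplicit false

namespace Pool.Agent.Q126.MX

open Finset

theorem pow_step (n k : ℕ) : n ^ (k + 1) + (k + 1) * n ^ k ≤ (n + 1) ^ (k + 1) := by
  induction k with
  | zero => simp
  | succ k ih =>
    have h1 : (n + 1) ^ (k + 1 + 1) = (n + 1) * (n + 1) ^ (k + 1) := by ring
    rw [h1]
    refine le_trans ?_ (Nat.mul_le_mul_left _ ih)
    have h2 : (n + 1) * (n ^ (k + 1) + (k + 1) * n ^ k)
        = (n ^ (k + 1 + 1) + (k + 1 + 1) * n ^ (k + 1)) + (k + 1) * n ^ k := by ring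
    rw [h2]
    exact Nat.le_add_right _ _

theorem sum_pow_le (n k : ℕ) : (k + 1) * ∑ y ∈ Finset.range n, y ^ k ≤ n ^ (k + 1) := by
  induction n with
  | zero => simp
  | succ n ih =>
    rw [Finset.sum_range_succ, mul_add]
    have := pow_step n k
    omega

theorem bern {y mu : ℝ} (hy : 0 < y) (hmu : y ≤ mu) : y ^ 17 * (18 * mu - 17 * y) ≤ mu ^ 18 := by
  have h1 : 1 + (18 : ℕ) * (mu / y - 1) ≤ (1 + (mu / y - 1)) ^ 18 := by
    apply one_add_mul_le_pow
    have : 0 < mu / y := div_pos (lt_of_lt_of_le hy hmu) hy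
    linarith
  have h2 : (1 + (mu / y - 1)) ^ 18 = mu ^ 18 / y ^ 18 := by
    rw [add_sub_cancel, div_pow]
  rw [h2, le_div_iff₀ (by positivity)] at h1
  have h3 : (1 + (18 : ℕ) * (mu / y - 1)) * y ^ 18 = y ^ 17 * (18 * mu - 17 * y) := by
    push_cast
    field_simp
    ring
  rw [← h3]
  exact h1

/-- statistics of sums of faces with 18 vertices -/
theorem stats {N m : ℕ} {z : VV N → ℕ} (hz : SumOf (EF N 18) m z) :
    ∃ K, K ≤ m ∧ ∑ i, z (Sum.inr (Sum.inl i)) ≤ K ∧ (∀ v, z (Sum.inr (Sum.inr v)) ≤ K) ∧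
      ∑ i, z (Sum.inl i) + 17 * K ≤ 18 * m ∧ ∑ v, z v = 18 * m := by
  induction hz with
  | zero => exact ⟨0, by simp⟩
  | add m x F _ hF ih =>
    obtain ⟨K, h1, h2, h3, h4, h5⟩ := ih
    have hsum : ∑ v, (x + ind F) v = 18 * (m + 1) := by
      simp only [Pi.add_apply]
      rw [Finset.sum_add_distrib, sum_ind, hF.1, h5]
      ring
    have hind : ∀ v, ind F v ≤ 1 := by
      intro v
      unfold ind
      split_ifs <;> omega
    rcases hF.2 with hI | hII
    · have e1 : ∑ i, ind F (Sum.inl i) ≤ 1 := by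
        unfold ind
        rw [Finset.sum_ite, Finset.sum_const_zero, add_zero, Finset.sum_const, smul_eq_mul,
          mul_one, Finset.card_le_one]
        intro a ha b hb
        exact hI.1 a b (Finset.mem_filter.1 ha).2 (Finset.mem_filter.1 hb).2
      have e2 : ∑ i, ind F (Sum.inr (Sum.inl i)) ≤ 1 := by
        unfold ind
        rw [Finset.sum_ite, Finset.sum_const_zero, add_zero, Finset.sum_const, smul_eq_mul,
          mul_one, Finset.card_le_one]
        intro a ha b hb
        exact hI.2 a b (Finset.mem_filter.1 ha).2 (Finset.mem_filter.1 hb).2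
      refine ⟨K + 1, by omega, ?_, ?_, ?_, hsum⟩
      · simp only [Pi.add_apply]
        rw [Finset.sum_add_distrib]
        omega
      · intro v
        have := h3 v
        have := hind (Sum.inr (Sum.inr v))
        simp only [Pi.add_apply]
        omega
      · simp only [Pi.add_apply]
        rw [Finset.sum_add_distrib]
        omega
    · have e0 : ∀ v, ind F (Sum.inr v) = 0 := by
        intro v
        unfold ind
        rw [if_neg]
        intro h
        obtain ⟨a, ha⟩ := hII.1 _ h
        cases ha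
      have e1 : ∑ i, ind F (Sum.inl i) ≤ 18 := by
        have h6 := sum_ind F
        rw [Fintype.sum_sum_type, hF.1] at h6
        omega
      refine ⟨K, by omega, ?_, ?_, ?_, hsum⟩
      · simp only [Pi.add_apply, e0, add_zero]
        exact h2
      · intro v
        simp only [Pi.add_apply, e0, add_zero]
        exact h3 v
      · simp only [Pi.add_apply]
        rw [Finset.sum_add_distrib]
        omega

theorem sum_parts {N : ℕ} (x : VV N → ℕ) :
    ∑ v, x v = ∑ i, x (Sum.inl i) + (∑ i, x (Sum.inr (Sum.inl i))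
      + ∑ i, x (Sum.inr (Sum.inr i))) := by
  rw [Fintype.sum_sum_type, Fintype.sum_sum_type]

/-- the region of the first two parts -/
noncomputable def region (N S : ℕ) : Finset ((Fin N → ℕ) × (Fin (18 * N) → ℕ)) :=
  (Finset.range (S + 1)).biUnion (fun Y =>
    (les (Fin N) (18 * S - 17 * Y)) ×ˢ (eqs (Fin (18 * N)) Y))

theorem card_region (N S : ℕ) (hN : 1 ≤ N) :
    ((region N S).card : ℝ) ≤ 18 * ((S : ℝ) + 18 * N + 1) ^ (19 * N)
      / (((N.factorial : ℕ) : ℝ) * (((18 * N).factorial : ℕ) : ℝ)) := by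
  obtain ⟨q, hq⟩ : ∃ q, 18 * N = q + 1 := ⟨18 * N - 1, by omega⟩
  have hf1 : (0 : ℝ) < ((N.factorial : ℕ) : ℝ) := by positivity
  have hf2 : (0 : ℝ) < ((q.factorial : ℕ) : ℝ) := by positivity
  have hNr : (1 : ℝ) ≤ N := by exact_mod_cast hN
  have h1 : ((region N S).card : ℝ) ≤ ∑ Y ∈ Finset.range (S + 1),
      (((les (Fin N) (18 * S - 17 * Y)).card : ℝ) * ((eqs (Fin (18 * N)) Y).card : ℝ)) := by
    have : (region N S).card ≤ ∑ Y ∈ Finset.range (S + 1),
      ((les (Fin N) (18 * S - 17 * Y)).card * (eqs (Fin (18 * N)) Y).card) := by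
      refine le_trans Finset.card_biUnion_le (le_of_eq ?_)
      apply Finset.sum_congr rfl
      intro Y _
      rw [Finset.card_product]
    exact_mod_cast this
  set mu : ℝ := (S : ℝ) + 18 * N with hmu
  have h2 : ∀ Y ∈ Finset.range (S + 1),
      (((les (Fin N) (18 * S - 17 * Y)).card : ℝ) * ((eqs (Fin (18 * N)) Y).card : ℝ))
        ≤ (((Y + 18 * N : ℕ) : ℝ) ^ (N - 1)) * mu ^ (18 * N)
          / (((N.factorial : ℕ) : ℝ) * ((q.factorial : ℕ) : ℝ)) := by
    intro Y hY
    have hYS : Y ≤ S := by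
      have := Finset.mem_range.1 hY
      omega
    have hYr : (Y : ℝ) ≤ S := by exact_mod_cast hYS
    have hY0 : (0 : ℝ) ≤ Y := by positivity
    have a1 := card_les_le (ι := Fin N) (18 * S - 17 * Y)
    have a2 := card_eqs_le (ι := Fin (18 * N)) (q := q) (by simpa using hq) Y
    rw [Fintype.card_fin] at a1
    set y : ℝ := ((Y + 18 * N : ℕ) : ℝ) with hy
    have hy' : y = Y + 18 * N := by rw [hy]; push_cast; ring
    have hypos : 0 < y := by rw [hy']; linarith
    have hymu : y ≤ mu := by rw [hy', hmu]; linarith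
    have c1 : ((18 * S - 17 * Y : ℕ) : ℝ) + N ≤ 18 * mu - 17 * y := by
      have : ((18 * S - 17 * Y : ℕ) : ℝ) = 18 * S - 17 * Y := by
        rw [Nat.cast_sub (by omega)]
        push_cast
        ring
      rw [this, hy', hmu]
      linarith
    have c0 : (0 : ℝ) ≤ ((18 * S - 17 * Y : ℕ) : ℝ) + N := by positivity
    have c2 : (((18 * S - 17 * Y : ℕ) : ℝ) + N) ^ N ≤ (18 * mu - 17 * y) ^ N :=
      pow_le_pow_left₀ c0 c1 _
    have hqr : (q : ℝ) ≤ 18 * N := by
      have : q ≤ 18 * N := by omega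
      exact_mod_cast this
    have c3 : ((Y : ℝ) + q) ^ q ≤ y ^ q := by
      apply pow_le_pow_left₀ (by positivity)
      rw [hy']
      linarith
    have d1 : ((les (Fin N) (18 * S - 17 * Y)).card : ℝ)
        ≤ (18 * mu - 17 * y) ^ N / ((N.factorial : ℕ) : ℝ) :=
      le_trans a1 (by gcongr)
    have d2 : ((eqs (Fin (18 * N)) Y).card : ℝ) ≤ y ^ q / ((q.factorial : ℕ) : ℝ) :=
      le_trans a2 (by gcongr)
    have hpos : 0 ≤ 18 * mu - 17 * y := le_trans c0 c1
    have d3 := mul_le_mul d1 d2 (by positivity) (by positivity)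
    refine le_trans d3 ?_
    rw [div_mul_div_comm]
    apply div_le_div_of_nonneg_right _ (by positivity)
    have e1 : y ^ q = y ^ (N - 1) * (y ^ 17) ^ N := by
      rw [← pow_mul, ← pow_add]
      congr 1
      omega
    rw [e1]
    have e2 : (18 * mu - 17 * y) ^ N * (y ^ (N - 1) * (y ^ 17) ^ N)
        = y ^ (N - 1) * (y ^ 17 * (18 * mu - 17 * y)) ^ N := by
      rw [mul_pow]
      ring
    rw [e2, pow_mul]
    apply mul_le_mul_of_nonneg_left _ (by positivity)
    exact pow_le_pow_left₀ (by positivity) (bern hypos hymu) _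
  have h3 := le_trans h1 (Finset.sum_le_sum h2)
  refine le_trans h3 ?_
  rw [← Finset.sum_div, ← Finset.sum_mul]
  have h4 : (N : ℝ) * ∑ Y ∈ Finset.range (S + 1), (((Y + 18 * N : ℕ) : ℝ) ^ (N - 1))
      ≤ (mu + 1) ^ N := by
    have h5 := sum_pow_le (S + 18 * N + 1) (N - 1)
    have e3 : N - 1 + 1 = N := by omega
    rw [e3] at h5
    have h6 : ∑ Y ∈ Finset.range (S + 1), (Y + 18 * N) ^ (N - 1)
        ≤ ∑ y ∈ Finset.range (S + 18 * N + 1), y ^ (N - 1) := by
      have e4 : S + 18 * N + 1 = 18 * N + (S + 1) := by ring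
      rw [e4, Finset.sum_range_add (fun y => y ^ (N - 1)) (18 * N) (S + 1)]
      have : ∑ Y ∈ Finset.range (S + 1), (Y + 18 * N) ^ (N - 1)
          = ∑ Y ∈ Finset.range (S + 1), (18 * N + Y) ^ (N - 1) := by
        apply Finset.sum_congr rfl
        intro Y _
        rw [add_comm]
      rw [this]
      exact Nat.le_add_left _ _
    have h7 := le_trans (Nat.mul_le_mul_left N h6) h5
    have h8 : (N : ℝ) * ∑ Y ∈ Finset.range (S + 1), (((Y + 18 * N : ℕ) : ℝ) ^ (N - 1))
        ≤ ((S + 18 * N + 1 : ℕ) : ℝ) ^ N := by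
      exact_mod_cast h7
    refine le_trans h8 (le_of_eq ?_)
    rw [hmu]
    push_cast
    ring
  have hmu0 : 0 ≤ mu := by rw [hmu]; positivity
  have h9 : mu ^ (18 * N) ≤ (mu + 1) ^ (18 * N) := pow_le_pow_left₀ hmu0 (by linarith) _
  have hfac : (((18 * N).factorial : ℕ) : ℝ) = 18 * N * ((q.factorial : ℕ) : ℝ) := by
    rw [hq, Nat.factorial_succ]
    have : ((q + 1 : ℕ) : ℝ) = 18 * N := by
      rw [← hq]
      push_cast
      ring
    push_cast at this ⊢
    rw [this]
  rw [hfac]
  rw [div_le_div_iff₀ (by positivity) (by positivity)]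
  have h10 : (N : ℝ) * (∑ Y ∈ Finset.range (S + 1), (((Y + 18 * N : ℕ) : ℝ) ^ (N - 1)))
      * mu ^ (18 * N) ≤ (mu + 1) ^ N * (mu + 1) ^ (18 * N) :=
    mul_le_mul h4 h9 (by positivity) (by positivity)
  have h11 : (mu + 1) ^ N * (mu + 1) ^ (18 * N) = (mu + 1) ^ (19 * N) := by
    rw [← pow_add]
    congr 1
    ring
  rw [h11] at h10
  have h12 := mul_le_mul_of_nonneg_left h10
    (show (0 : ℝ) ≤ 18 * (((N.factorial : ℕ) : ℝ) * ((q.factorial : ℕ) : ℝ)) by positivity)
  calc _ = 18 * (((N.factorial : ℕ) : ℝ) * ((q.factorial : ℕ) : ℝ))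
        * ((N : ℝ) * (∑ Y ∈ Finset.range (S + 1), (((Y + 18 * N : ℕ) : ℝ) ^ (N - 1)))
          * mu ^ (18 * N)) := by ring
    _ ≤ _ := h12
    _ = _ := by ring

/-- upper bound, level 18 -/
theorem upper1 (N m c : ℕ) (hN : 1 ≤ N) (T : Finset (VV N → ℕ))
    (hT : ∀ x ∈ T, ∃ y z : VV N → ℕ, x = y + z ∧ ∑ v, y v = c ∧ SumOf (EF N 18) m z) :
    (T.card : ℝ) ≤ ((3 * m + 20 * c + 18 : ℝ) ^ 18 / ((Nat.factorial 18 : ℕ) : ℝ))
      * (18 * ((m : ℝ) + c + 18 * N + 1) ^ (19 * N)
        / (((N.factorial : ℕ) : ℝ) * (((18 * N).factorial : ℕ) : ℝ))) := by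
  classical
  have key : ∀ x ∈ T, ∃ K, K ≤ m ∧ ∑ i, x (Sum.inr (Sum.inl i)) ≤ K + c ∧
      (∀ v, x (Sum.inr (Sum.inr v)) ≤ K + c) ∧
      ∑ i, x (Sum.inl i) + 17 * K ≤ 18 * m + c ∧ ∑ v, x v = 18 * m + c := by
    intro x hx
    obtain ⟨y, z, hxy, hy, hz⟩ := hT x hx
    obtain ⟨K, h1, h2, h3, h4, h5⟩ := stats hz
    have hy' := hy
    rw [sum_parts] at hy'
    have hyv : ∀ v, y v ≤ c := by
      intro v
      rw [← hy]
      exact Finset.single_le_sum (fun _ _ => Nat.zero_le _) (Finset.mem_univ v)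
    refine ⟨K, h1, ?_, ?_, ?_, ?_⟩
    · rw [hxy]
      simp only [Pi.add_apply]
      rw [Finset.sum_add_distrib]
      omega
    · intro v
      rw [hxy]
      have := hyv (Sum.inr (Sum.inr v))
      have := h3 v
      simp only [Pi.add_apply]
      omega
    · rw [hxy]
      simp only [Pi.add_apply]
      rw [Finset.sum_add_distrib]
      omega
    · rw [hxy]
      simp only [Pi.add_apply]
      rw [Finset.sum_add_distrib]
      omega
  set f : (VV N → ℕ) → (Fin N → ℕ) × (Fin (18 * N) → ℕ) :=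
    fun x => (fun i => x (Sum.inl i), fun i => x (Sum.inr (Sum.inl i))) with hf
  have himg : T.image f ⊆ region N (m + c) := by
    intro p hp
    obtain ⟨x, hx, rfl⟩ := Finset.mem_image.1 hp
    obtain ⟨K, h1, h2, h3, h4, h5⟩ := key x hx
    unfold region
    rw [Finset.mem_biUnion]
    refine ⟨∑ i, x (Sum.inr (Sum.inl i)), Finset.mem_range.2 (by omega), ?_⟩
    rw [Finset.mem_product, mem_les, mem_eqs]
    refine ⟨?_, rfl⟩
    simp only [hf]
    omega
  have hfib : ∀ a ∈ T.image f, (T.filter (fun x => f x = a)).card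
      ≤ (3 * m + 20 * c + 18).choose 18 := by
    intro a _
    have hle : (eqs (Fin 19) (3 * m + 20 * c)).card = (3 * m + 20 * c + 18).choose 18 :=
      card_eqs_choose (by simp) _
    set X1 := ∑ i, a.1 i with hX1
    set X2 := ∑ i, a.2 i with hX2
    set M := min m ((18 * m + c - X1) / 17) with hM
    have hcard : (T.filter (fun x => f x = a)).card
        ≤ (eqs (Fin 19) (19 * (M + c) - (18 * m + c - X1 - X2))).card := by
      apply Finset.card_le_card_of_injOn (fun x => fun v => M + c - x (Sum.inr (Sum.inr v)))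
      · intro x hx
        have hx' := Finset.mem_filter.1 (Finset.mem_coe.1 hx)
        obtain ⟨K, h1, h2, h3, h4, h5⟩ := key x hx'.1
        have e1 : ∑ i, x (Sum.inl i) = X1 := by
          rw [hX1, ← hx'.2]
        have e2 : ∑ i, x (Sum.inr (Sum.inl i)) = X2 := by
          rw [hX2, ← hx'.2]
        have hKM : K ≤ M := by
          rw [hM]
          apply le_min h1
          rw [Nat.le_div_iff_mul_le (by norm_num)]
          omega
        have h6 : ∀ v, x (Sum.inr (Sum.inr v)) ≤ M + c := fun v => by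
          have := h3 v
          omega
        rw [Finset.mem_coe, mem_eqs]
        have h7 : ∑ v, (M + c - x (Sum.inr (Sum.inr v))) + ∑ v, x (Sum.inr (Sum.inr v))
            = 19 * (M + c) := by
          rw [← Finset.sum_add_distrib]
          rw [Finset.sum_congr rfl (fun i _ => Nat.sub_add_cancel (h6 i))]
          simp
        rw [sum_parts] at h5
        show ∑ v, (M + c - x (Sum.inr (Sum.inr v))) = _
        omega
      · intro x hx x' hx' h
        have hx1 := Finset.mem_filter.1 (Finset.mem_coe.1 hx)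
        have hx1' := Finset.mem_filter.1 (Finset.mem_coe.1 hx')
        obtain ⟨K, h1, h2, h3, h4, h5⟩ := key x hx1.1
        obtain ⟨K', h1', h2', h3', h4', h5'⟩ := key x' hx1'.1
        have e1 : ∑ i, x (Sum.inl i) = X1 := by
          rw [hX1, ← hx1.2]
        have e1' : ∑ i, x' (Sum.inl i) = X1 := by
          rw [hX1, ← hx1'.2]
        have hKM : K ≤ M := by
          rw [hM]
          apply le_min h1
          rw [Nat.le_div_iff_mul_le (by norm_num)]
          omega
        have hKM' : K' ≤ M := by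
          rw [hM]
          apply le_min h1'
          rw [Nat.le_div_iff_mul_le (by norm_num)]
          omega
        have hff : f x = f x' := by rw [hx1.2, hx1'.2]
        funext v
        rcases v with v | v | v
        · exact congrFun (congrArg Prod.fst hff) v
        · exact congrFun (congrArg Prod.snd hff) v
        · have h6 : M + c - x (Sum.inr (Sum.inr v)) = M + c - x' (Sum.inr (Sum.inr v)) :=
            congrFun h v
          have := h3 v
          have := h3' v
          omega
    by_cases hne : (T.filter (fun x => f x = a)).Nonempty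
    · obtain ⟨x, hx⟩ := hne
      have hx' := Finset.mem_filter.1 hx
      obtain ⟨K, h1, h2, h3, h4, h5⟩ := key x hx'.1
      have e1 : ∑ i, x (Sum.inl i) = X1 := by
        rw [hX1, ← hx'.2]
      have e2 : ∑ i, x (Sum.inr (Sum.inl i)) = X2 := by
        rw [hX2, ← hx'.2]
      have hKM : K ≤ M := by
        rw [hM]
        apply le_min h1
        rw [Nat.le_div_iff_mul_le (by norm_num)]
        omega
      have hMm : M ≤ m := min_le_left _ _
      have h17 : 17 * M ≤ 18 * m + c - X1 := by
        have h8 : M ≤ (18 * m + c - X1) / 17 := min_le_right _ _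
        omega
      refine le_trans hcard ?_
      rw [card_eqs_choose (q := 18) (by simp)]
      apply Nat.choose_le_choose
      rw [sum_parts] at h5
      omega
    · rw [Finset.not_nonempty_iff_eq_empty.1 hne]
      simp
  have h1 := Finset.card_le_mul_card_image T _ hfib
  have h2 := Finset.card_le_card himg
  have h3 := card_region N (m + c) hN
  have h4 : (T.card : ℝ) ≤ ((3 * m + 20 * c + 18).choose 18 : ℕ) * ((region N (m + c)).card : ℝ) := by
    exact_mod_cast le_trans h1 (Nat.mul_le_mul_left _ h2)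
  have h5 := Nat.choose_le_pow_div (α := ℝ) 18 (3 * m + 20 * c + 18)
  push_cast at h3 h5
  refine le_trans h4 (mul_le_mul h5 h3 (by positivity) (by positivity))

end Pool.Agent.Q126.MX
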