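import Pool.Agent.Q126.MX1

set_option autoImplicit false

namespace Pool.Agent.Q126.MX

open Finset

section
variable {V : Type} [Fintype V] [DecidableEq V] {K : Type*} [Field K]

variable (K) in
/-- the ideal generated by monomials with exponents in `A` -/
noncomputable def monI (A : Set (V →₀ ℕ)) : Ideal (MvPolynomial V K) :=
  Ideal.span ((fun s => MvPolynomial.monomial s (1 : K)) '' A)

theorem mem_monI {A : Set (V →₀ ℕ)} {f : MvPolynomial V K} :
    f ∈ monI K A ↔ ∀ s ∈ f.support, ∃ a ∈ A, a ≤ s :=
  MvPolynomial.mem_ideal_span_monomial_image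

theorem monI_mul (A B : Set (V →₀ ℕ)) :
    monI K A * monI K B = monI K {x | ∃ a ∈ A, ∃ b ∈ B, x = a + b} := by
  unfold monI
  rw [Ideal.span_mul_span']
  congr 1
  ext f
  rw [Set.mem_mul]
  constructor
  · rintro ⟨p, ⟨a, ha, rfl⟩, q, ⟨b, hb, rfl⟩, rfl⟩
    refine ⟨a + b, ⟨a, ha, b, hb, rfl⟩, ?_⟩
    simp only [MvPolynomial.monomial_mul, mul_one]
  · rintro ⟨x, ⟨a, ha, b, hb, rfl⟩, rfl⟩
    refine ⟨MvPolynomial.monomial a 1, ⟨a, ha, rfl⟩, MvPolynomial.monomial b 1, ⟨b, hb, rfl⟩, ?_⟩
    simp only [MvPolynomial.monomial_mul, mul_one]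

theorem monI_zero : monI K ({0} : Set (V →₀ ℕ)) = ⊤ := by
  unfold monI
  rw [Set.image_singleton]
  have : (MvPolynomial.monomial (0 : V →₀ ℕ)) (1 : K) = 1 := rfl
  rw [this, Ideal.span_singleton_one]

/-- sums of `k` elements of `A` -/
inductive Rep (A : Set (V →₀ ℕ)) : ℕ → (V →₀ ℕ) → Prop
  | zero : Rep A 0 0
  | add (k : ℕ) (x a : V →₀ ℕ) : Rep A k x → a ∈ A → Rep A (k + 1) (x + a)

theorem monI_pow (A : Set (V →₀ ℕ)) (k : ℕ) : monI K A ^ k = monI K {x | Rep A k x} := by
  induction k with
  | zero =>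
    rw [pow_zero, Ideal.one_eq_top, ← monI_zero]
    congr 1
    ext x
    rw [Set.mem_singleton_iff, Set.mem_ofPred_eq]
    constructor
    · intro h
      rw [h]
      exact Rep.zero
    · intro h
      cases h
      rfl
  | succ k ih =>
    rw [pow_succ, ih, monI_mul]
    congr 1
    ext x
    simp only [Set.mem_ofPred_eq]
    constructor
    · rintro ⟨a, ha, b, hb, rfl⟩
      exact Rep.add k a b ha hb
    · intro h
      cases h with
      | add _ y a h1 h2 => exact ⟨y, h1, a, h2, rfl⟩

theorem monI_prod {ι : Type} [DecidableEq ι] (s : Finset ι) (B : ι → Set (V →₀ ℕ)) :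
    ∏ i ∈ s, monI K (B i)
      = monI K {x | ∃ z : ι → (V →₀ ℕ), (∀ i ∈ s, z i ∈ B i) ∧ x = ∑ i ∈ s, z i} := by
  induction s using Finset.induction_on with
  | empty =>
    rw [Finset.prod_empty, Ideal.one_eq_top, ← monI_zero]
    congr 1
    ext x
    simp only [Set.mem_singleton_iff, Set.mem_ofPred_eq, Finset.sum_empty]
    constructor
    · intro h
      exact ⟨fun _ => 0, by simp, h⟩
    · rintro ⟨_, _, h⟩
      exact h
  | insert j s hj ih =>
    rw [Finset.prod_insert hj, ih, monI_mul]
    congr 1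
    ext x
    simp only [Set.mem_ofPred_eq]
    constructor
    · rintro ⟨a, ha, b, ⟨z, hz, rfl⟩, rfl⟩
      refine ⟨Function.update z j a, ?_, ?_⟩
      · intro i hi
        by_cases hij : i = j
        · subst hij
          rw [Function.update_self]
          exact ha
        · rw [Function.update_of_ne hij]
          rcases Finset.mem_insert.1 hi with h | h
          · exact absurd h hij
          · exact hz i h
      · rw [Finset.sum_insert hj, Function.update_self]
        congr 1
        apply Finset.sum_congr rfl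
        intro i hi
        rw [Function.update_of_ne]
        rintro rfl
        exact hj hi
    · rintro ⟨z, hz, rfl⟩
      refine ⟨z j, hz j (Finset.mem_insert_self _ _), ∑ i ∈ s, z i,
        ⟨z, fun i hi => hz i (Finset.mem_insert_of_mem hi), rfl⟩, ?_⟩
      rw [Finset.sum_insert hj]

/-- the degree of an exponent -/
def deg (s : V →₀ ℕ) : ℕ := ∑ v, s v

theorem deg_mono {s t : V →₀ ℕ} (h : s ≤ t) : deg s ≤ deg t :=
  Finset.sum_le_sum (fun v _ => h v)

theorem deg_add (s t : V →₀ ℕ) : deg (s + t) = deg s + deg t := by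
  unfold deg
  rw [← Finset.sum_add_distrib]
  rfl

theorem eq_of_le_of_deg {s t : V →₀ ℕ} (h : s ≤ t) (hd : deg s = deg t) : s = t := by
  ext v
  by_contra hne
  have h1 : s v < t v := lt_of_le_of_ne (h v) hne
  have : deg s < deg t := Finset.sum_lt_sum (fun v _ => h v) ⟨v, Finset.mem_univ v, h1⟩
  omega

/-- the irrelevant ideal -/
theorem maxI_eq : Ideal.span (Set.range (MvPolynomial.X : V → MvPolynomial V K))
    = monI K (Set.range (fun v : V => Finsupp.single v 1)) := by
  unfold monI
  congr 1
  rw [← Set.range_comp]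
  rfl

/-- the number of generators -/
theorem finrank_fiber (A : Finset (V →₀ ℕ)) (δ : ℕ) (hA : ∀ a ∈ A, deg a = δ)
    (J : Ideal (MvPolynomial V K)) (hJ : J = monI K (A : Set (V →₀ ℕ))) :
    Module.finrank K (↥J ⧸ ((Ideal.span (Set.range (MvPolynomial.X : V → MvPolynomial V K)))
      • (⊤ : Submodule (MvPolynomial V K) ↥J))) = A.card := by
  set m := Ideal.span (Set.range (MvPolynomial.X : V → MvPolynomial V K)) with hm
  let φ : ↥J →ₗ[K] (↥A → K) := LinearMap.pi
    (fun a => (MvPolynomial.lcoeff K (a : V →₀ ℕ)).comp (J.subtype.restrictScalars K))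
  have hφ : ∀ (f : ↥J) (a : ↥A), φ f a = MvPolynomial.coeff (a : V →₀ ℕ) (f : MvPolynomial V K) :=
    fun f a => rfl
  have hsurj : Function.Surjective φ := by
    intro g
    have hmem : ∑ a : ↥A, MvPolynomial.monomial (a : V →₀ ℕ) (g a) ∈ J := by
      apply Ideal.sum_mem
      intro a _
      rw [hJ, mem_monI]
      intro s hs
      have h1 := MvPolynomial.support_monomial_subset hs
      rw [Finset.mem_singleton] at h1
      exact ⟨a, a.2, by rw [h1]⟩
    refine ⟨⟨_, hmem⟩, ?_⟩
    funext a
    rw [hφ]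
    simp only [MvPolynomial.coeff_sum, MvPolynomial.coeff_monomial]
    rw [Finset.sum_eq_single a]
    · simp
    · intro b _ hb
      rw [if_neg]
      intro h
      exact hb (Subtype.ext h)
    · intro h
      exact absurd (Finset.mem_univ a) h
  have hker : (m • (⊤ : Submodule (MvPolynomial V K) ↥J)).restrictScalars K = LinearMap.ker φ := by
    ext f
    rw [Submodule.restrictScalars_mem, Submodule.mem_smul_top_iff, LinearMap.mem_ker, smul_eq_mul,
      hm, maxI_eq]
    have hmul : monI K (Set.range (fun v : V => Finsupp.single v 1)) * J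
        = monI K {x | ∃ a ∈ Set.range (fun v : V => Finsupp.single v 1), ∃ b ∈ (A : Set (V →₀ ℕ)),
          x = a + b} := by
      rw [hJ, monI_mul]
    rw [hmul, mem_monI]
    constructor
    · intro h
      funext a
      rw [hφ]
      by_contra hne
      have h1 : (a : V →₀ ℕ) ∈ (f : MvPolynomial V K).support := MvPolynomial.mem_support_iff.2 hne
      obtain ⟨x, ⟨_, ⟨v, rfl⟩, b, hb, rfl⟩, hx⟩ := h _ h1
      have h2 := deg_mono hx
      rw [deg_add, hA b hb, hA a a.2] at h2
      have h3 : deg (Finsupp.single v 1 : V →₀ ℕ) = 1 := by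
        unfold deg
        simp [Finsupp.single_apply]
      simp only at h2
      omega
    · intro h s hs
      have hfJ : (f : MvPolynomial V K) ∈ monI K (A : Set (V →₀ ℕ)) := by
        rw [← hJ]
        exact f.2
      obtain ⟨a, ha, has⟩ := mem_monI.1 hfJ s hs
      have hne : a ≠ s := by
        rintro rfl
        have := congrFun h ⟨a, ha⟩
        rw [hφ] at this
        exact (MvPolynomial.mem_support_iff.1 hs) this
      have h1 : ∃ v, a v < s v := by
        by_contra hcon
        push Not at hcon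
        exact hne (le_antisymm has hcon)
      obtain ⟨v, hv⟩ := h1
      refine ⟨Finsupp.single v 1 + a, ⟨_, ⟨v, rfl⟩, a, ha, rfl⟩, ?_⟩
      intro w
      rw [Finsupp.add_apply, Finsupp.single_apply]
      have := has w
      split_ifs with hw
      · subst hw
        omega
      · omega
  have e1 : (↥J ⧸ (m • (⊤ : Submodule (MvPolynomial V K) ↥J))) ≃ₗ[K] (↥A → K) :=
    (Submodule.Quotient.restrictScalarsEquiv K (m • (⊤ : Submodule (MvPolynomial V K) ↥J))).symm.trans
      ((Submodule.quotEquivOfEq _ _ hker).trans (φ.quotKerEquivOfSurjective hsurj))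
  rw [e1.finrank_eq, Module.finrank_fintype_fun_eq_card, Fintype.card_coe]

end

end Pool.Agent.Q126.MX
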