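import Mathlib

set_option autoImplicit false

/-!
# Mixed multiplicities of the skeleta of a simplicial complex

Definitions for the problem of the unimodality of the extreme mixed multiplicities.
-/

namespace Pool.Agent.Q126.MXD

/-- A simplicial complex on the finite vertex set `V` (faces are nonempty, all singletons are
faces) is pure of dimension `d`: every face has at most `d + 1` vertices and lies in a face with
exactly `d + 1` vertices. -/
def IsPure {V : Type} (Δ : AbstractSimplicialComplex V) (d : ℕ) : Prop :=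
  (∀ F ∈ Δ.faces, F.card ≤ d + 1) ∧ ∀ F ∈ Δ.faces, ∃ G ∈ Δ.faces, F ⊆ G ∧ G.card = d + 1

section
variable (K : Type*) [Field K] {V : Type} [Fintype V]

variable (V) in
/-- The ideal `𝔪` generated by all variables of `K[x_v : v ∈ V]`. -/
noncomputable def irr : Ideal (MvPolynomial V K) :=
  Ideal.span (Set.range MvPolynomial.X)

/-- The ideal `I_i` generated by the squarefree monomials of the `i`-dimensional faces. -/
noncomputable def skel (Δ : AbstractSimplicialComplex V) (i : ℕ) : Ideal (MvPolynomial V K) :=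
  Ideal.span {f | ∃ F ∈ Δ.faces, F.card = i + 1 ∧ f = ∏ v ∈ F, MvPolynomial.X v}

/-- The ideal `J^u = 𝔪^(u 0) I_1^(u 1) ⋯ I_(d-1)^(u (d-1))`. -/
noncomputable def mixedPower (Δ : AbstractSimplicialComplex V) (d : ℕ) (u : Fin d → ℕ) :
    Ideal (MvPolynomial V K) :=
  ∏ i : Fin d, (if (i : ℕ) = 0 then irr K V else skel K Δ i) ^ u i

/-- The dimension over `K` of `J^u / 𝔪 J^u`. -/
noncomputable def fiberDim (Δ : AbstractSimplicialComplex V) (d : ℕ) (u : Fin d → ℕ) : ℕ :=
  Module.finrank K (↥(mixedPower K Δ d u) ⧸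
    (irr K V • (⊤ : Submodule (MvPolynomial V K) ↥(mixedPower K Δ d u))))

/-- The numbers `e a`, `a ∈ ℕ^d` with `|a| = n - 1` (`n` the number of vertices), are the mixed
multiplicities `e_a(𝔪 | I_1, …, I_(d-1))`: there is a polynomial `P` of total degree at most
`n - 1` which gives the dimension of `J^u / 𝔪 J^u` for all `u` with every entry large, and the
coefficient of `u^a` in `P` is `e a / (a_0! ⋯ a_(d-1)!)` whenever `|a| = n - 1`. -/
def IsMixedMultiplicity (Δ : AbstractSimplicialComplex V) (d : ℕ) (e : (Fin d →₀ ℕ) → ℚ) : Prop :=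
  ∃ P : MvPolynomial (Fin d) ℚ, P.totalDegree ≤ Fintype.card V - 1 ∧
    (∃ U : ℕ, ∀ u : Fin d → ℕ, (∀ i, U ≤ u i) →
      (fiberDim K Δ d u : ℚ) = MvPolynomial.eval (fun i => (u i : ℚ)) P) ∧
    ∀ a : Fin d →₀ ℕ, ∑ i, a i = Fintype.card V - 1 →
      P.coeff a = e a / ∏ i, ((a i).factorial : ℚ)

end

/-- A finite sequence is unimodal: it increases weakly up to some place `k` and decreases weakly
from there on. -/
def Unimodal {m : ℕ} (a : Fin m → ℚ) : Prop :=
  ∃ k : Fin m, (∀ i j : Fin m, i ≤ j → j ≤ k → a i ≤ a j) ∧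
    ∀ i j : Fin m, k ≤ i → i ≤ j → a j ≤ a i

end Pool.Agent.Q126.MXD
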