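import Pool.Agent.Q126.MX4
import Pool.Agent.Q126.MXD

set_option autoImplicit false

namespace Pool.Agent.Q126.MX

open Finset Pool.Agent.Q126.MXD

section
variable {V : Type} [Fintype V] [DecidableEq V] {K : Type*} [Field K]

/-- from functions to exponents -/
noncomputable def fs (x : V → ℕ) : V →₀ ℕ := Finsupp.equivFunOnFinite.symm x

theorem fs_apply (x : V → ℕ) (v : V) : fs x v = x v := rfl

theorem fs_add (x y : V → ℕ) : fs (x + y) = fs x + fs y := by
  ext v
  rfl

theorem fs_coe (x : V →₀ ℕ) : fs (⇑x) = x := by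
  ext v
  rfl

theorem coe_fs (x : V → ℕ) : ⇑(fs x) = x := rfl

theorem prod_X (F : Finset V) :
    ∏ v ∈ F, (MvPolynomial.X v : MvPolynomial V K) = MvPolynomial.monomial (fs (ind F)) 1 := by
  induction F using Finset.induction_on with
  | empty =>
    rw [Finset.prod_empty]
    have : fs (ind (∅ : Finset V)) = 0 := by
      ext v
      rw [fs_apply]
      rfl
    rw [this]
    rfl
  | insert a s ha ih =>
    rw [Finset.prod_insert ha, ih]
    unfold MvPolynomial.X
    rw [MvPolynomial.monomial_mul, mul_one]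
    congr 2
    ext v
    rw [Finsupp.add_apply, fs_apply, fs_apply, Finsupp.single_apply]
    unfold ind
    by_cases h1 : a = v
    · subst h1
      simp [ha]
    · have h2 : v ≠ a := fun h => h1 h.symm
      simp [h1, h2]

/-- exponents of a family of sets -/
def expo (E : Finset V → Prop) : Set (V →₀ ℕ) := {x | ∃ F, E F ∧ x = fs (ind F)}

theorem rep_iff (E : Finset V → Prop) (k : ℕ) (x : V →₀ ℕ) :
    Rep (expo E) k x ↔ SumOf E k (⇑x) := by
  constructor
  · intro h
    induction h with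
    | zero => exact SumOf.zero
    | add k x a _ ha ih =>
      obtain ⟨F, hF, rfl⟩ := ha
      rw [Finsupp.coe_add, coe_fs]
      exact SumOf.add k _ F ih hF
  · intro h
    have : ∀ (y : V → ℕ), SumOf E k y → Rep (expo E) k (fs y) := by
      clear h
      intro y hy
      induction hy with
      | zero =>
        have : fs (0 : V → ℕ) = 0 := by ext v; rfl
        rw [this]
        exact Rep.zero
      | add k y F _ hF ih =>
        rw [fs_add]
        exact Rep.add k _ _ ih ⟨F, hF, rfl⟩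
    have := this _ h
    rwa [fs_coe] at this

theorem skel_eq (Δ : AbstractSimplicialComplex V) (i : ℕ) :
    skel K Δ i = monI K (expo (fun F => F ∈ Δ.faces ∧ F.card = i + 1)) := by
  unfold skel monI
  congr 1
  ext f
  simp only [Set.mem_ofPred_eq, Set.mem_image, expo]
  constructor
  · rintro ⟨F, h1, h2, rfl⟩
    exact ⟨_, ⟨F, ⟨h1, h2⟩, rfl⟩, (prod_X F).symm⟩
  · rintro ⟨_, ⟨F, ⟨h1, h2⟩, rfl⟩, rfl⟩
    exact ⟨F, h1, h2, (prod_X F).symm⟩

theorem irr_eq (Δ : AbstractSimplicialComplex V) :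
    irr K V = monI K (expo (fun F => F ∈ Δ.faces ∧ F.card = 0 + 1)) := by
  unfold irr
  rw [maxI_eq]
  congr 1
  ext x
  simp only [Set.mem_range, expo, Set.mem_ofPred_eq]
  have hind : ∀ v : V, (Finsupp.single v 1 : V →₀ ℕ) = fs (ind {v}) := by
    intro v
    ext w
    rw [fs_apply, Finsupp.single_apply]
    unfold ind
    simp [eq_comm]
  constructor
  · rintro ⟨v, rfl⟩
    exact ⟨{v}, ⟨Δ.singleton_mem v, by simp⟩, hind v⟩
  · rintro ⟨F, ⟨_, h2⟩, rfl⟩
    obtain ⟨v, rfl⟩ := Finset.card_eq_one.1 h2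
    exact ⟨v, hind v⟩

/-- sums of sums -/
def ExpF (E : ℕ → Finset V → Prop) {d : ℕ} (u : Fin d → ℕ) : Set (V → ℕ) :=
  {x | ∃ z : Fin d → V → ℕ, (∀ i : Fin d, SumOf (E (i : ℕ)) (u i) (z i)) ∧ x = ∑ i, z i}

/-- the faces of dimension `i` -/
def FE (Δ : AbstractSimplicialComplex V) (i : ℕ) (F : Finset V) : Prop :=
  F ∈ Δ.faces ∧ F.card = i + 1

theorem mixedPower_eq (Δ : AbstractSimplicialComplex V) (d : ℕ) (u : Fin d → ℕ) :
    mixedPower K Δ d u = monI K {x | ⇑x ∈ ExpF (FE Δ) u} := by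
  unfold mixedPower
  have h1 : ∀ i : Fin d, (if (i : ℕ) = 0 then irr K V else skel K Δ i) ^ u i
      = monI K {x | Rep (expo (FE Δ i)) (u i) x} := by
    intro i
    rw [← monI_pow]
    congr 1
    split_ifs with h
    · rw [h]
      exact irr_eq Δ
    · exact skel_eq Δ i
  rw [Finset.prod_congr rfl (fun i _ => h1 i), monI_prod]
  congr 1
  ext x
  simp only [Set.mem_ofPred_eq, ExpF]
  constructor
  · rintro ⟨z, hz, rfl⟩
    refine ⟨fun i => ⇑(z i), fun i => (rep_iff _ _ _).1 (hz i (Finset.mem_univ i)), ?_⟩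
    funext v
    simp [Finsupp.coe_finsetSum]
  · rintro ⟨z, hz, hx⟩
    refine ⟨fun i => fs (z i), fun i _ => (rep_iff _ _ _).2 (hz i), ?_⟩
    ext v
    rw [hx]
    simp [fs_apply]

theorem SumOf.total {E : Finset V → Prop} {j : ℕ} (hE : ∀ F, E F → F.card = j) {k : ℕ} {x : V → ℕ}
    (h : SumOf E k x) : ∑ v, x v = j * k := by
  induction h with
  | zero => simp
  | add k x F _ hF ih =>
    simp only [Pi.add_apply]
    rw [Finset.sum_add_distrib, sum_ind, hE F hF, ih]
    ring

theorem ExpF_total (Δ : AbstractSimplicialComplex V) {d : ℕ} (u : Fin d → ℕ) {x : V → ℕ}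
    (hx : x ∈ ExpF (FE Δ) u) : ∑ v, x v = ∑ i : Fin d, ((i : ℕ) + 1) * u i := by
  obtain ⟨z, hz, rfl⟩ := hx
  simp only [Finset.sum_apply]
  rw [Finset.sum_comm]
  apply Finset.sum_congr rfl
  intro i _
  exact SumOf.total (fun F hF => hF.2) (hz i)

theorem ExpF_finite (Δ : AbstractSimplicialComplex V) {d : ℕ} (u : Fin d → ℕ) :
    (ExpF (FE Δ) u).Finite := by
  apply Set.Finite.subset (Finset.finite_toSet (eqs V (∑ i : Fin d, ((i : ℕ) + 1) * u i)))
  intro x hx
  rw [Finset.mem_coe, mem_eqs]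
  exact ExpF_total Δ u hx

/-- the dimension of the fiber is the number of exponents -/
theorem fiberDim_eq (Δ : AbstractSimplicialComplex V) (d : ℕ) (u : Fin d → ℕ) :
    fiberDim K Δ d u = (ExpF (FE Δ) u).ncard := by
  have himg : {x : V →₀ ℕ | ⇑x ∈ ExpF (FE Δ) u} = fs '' (ExpF (FE Δ) u) := by
    ext x
    simp only [Set.mem_ofPred_eq, Set.mem_image]
    constructor
    · intro h
      exact ⟨_, h, fs_coe x⟩
    · rintro ⟨y, hy, rfl⟩
      exact hy
  have hinj : Function.Injective (fs : (V → ℕ) → (V →₀ ℕ)) := Finsupp.equivFunOnFinite.symm.injective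
  have hfin : ({x : V →₀ ℕ | ⇑x ∈ ExpF (FE Δ) u}).Finite := by
    rw [himg]
    exact (ExpF_finite Δ u).image _
  have h1 := finrank_fiber (K := K) hfin.toFinset (∑ i : Fin d, ((i : ℕ) + 1) * u i) (by
    intro a ha
    rw [Set.Finite.mem_toFinset] at ha
    exact ExpF_total Δ u ha) (mixedPower K Δ d u) (by
    rw [mixedPower_eq, Set.Finite.coe_toFinset])
  unfold fiberDim irr
  rw [h1, ← Set.ncard_eq_toFinset_card _ hfin, himg, Set.ncard_image_of_injective _ hinj]

theorem SumOf.split {E : Finset V → Prop} (a b : ℕ) (x : V → ℕ) (h : SumOf E (a + b) x) :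
    ∃ y z, SumOf E a y ∧ SumOf E b z ∧ x = y + z := by
  induction b generalizing x with
  | zero => exact ⟨x, 0, h, SumOf.zero, by simp⟩
  | succ b ih =>
    have h' : SumOf E (a + b + 1) x := h
    cases h' with
    | add _ x' F hx' hF =>
      obtain ⟨y, z, hy, hz, rfl⟩ := ih x' hx'
      exact ⟨y, z + ind F, hy, SumOf.add b z F hz hF, by rw [add_assoc]⟩

/-- add `m` at the place `i` -/
def bump {d : ℕ} (U : Fin d → ℕ) (i : Fin d) (m : ℕ) : Fin d → ℕ :=
  Function.update U i (U i + m)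

theorem ExpF_upper (Δ : AbstractSimplicialComplex V) {d : ℕ} (U : Fin d → ℕ) (i : Fin d) (m : ℕ)
    {x : V → ℕ} (hx : x ∈ ExpF (FE Δ) (bump U i m)) :
    ∃ y z : V → ℕ, x = y + z ∧ ∑ v, y v = ∑ k : Fin d, ((k : ℕ) + 1) * U k ∧
      SumOf (FE Δ i) m z := by
  obtain ⟨z, hz, rfl⟩ := hx
  have h1 := hz i
  unfold bump at h1
  rw [Function.update_self] at h1
  obtain ⟨a, b, ha, hb, hab⟩ := SumOf.split _ _ _ h1
  have hy : ∑ k, Function.update z i a k ∈ ExpF (FE Δ) U := by
    refine ⟨Function.update z i a, ?_, rfl⟩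
    intro k
    by_cases hk : k = i
    · subst hk
      rw [Function.update_self]
      exact ha
    · rw [Function.update_of_ne hk]
      have := hz k
      unfold bump at this
      rwa [Function.update_of_ne hk] at this
  refine ⟨_, b, ?_, ExpF_total Δ U hy, hb⟩
  rw [Finset.sum_update_of_mem (Finset.mem_univ i), ← Finset.add_sum_erase _ z (Finset.mem_univ i),
    hab, Finset.sdiff_singleton_eq_erase]
  abel

theorem ExpF_lower (Δ : AbstractSimplicialComplex V) {d : ℕ} (U : Fin d → ℕ) (i : Fin d) (m : ℕ)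
    {y z : V → ℕ} (hy : y ∈ ExpF (FE Δ) U) (hz : SumOf (FE Δ i) m z) :
    y + z ∈ ExpF (FE Δ) (bump U i m) := by
  obtain ⟨w, hw, rfl⟩ := hy
  refine ⟨Function.update w i (w i + z), ?_, ?_⟩
  · intro k
    by_cases hk : k = i
    · subst hk
      unfold bump
      rw [Function.update_self, Function.update_self]
      exact (hw k).add' hz
    · unfold bump
      rw [Function.update_of_ne hk, Function.update_of_ne hk]
      exact hw k
  · rw [Finset.sum_update_of_mem (Finset.mem_univ i),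
      ← Finset.add_sum_erase _ w (Finset.mem_univ i), Finset.sdiff_singleton_eq_erase]
    abel

theorem SumOf.const {E : Finset V → Prop} {F : Finset V} (hF : E F) (k : ℕ) :
    ∃ x, SumOf E k x := by
  induction k with
  | zero => exact ⟨0, SumOf.zero⟩
  | succ k ih =>
    obtain ⟨x, hx⟩ := ih
    exact ⟨_, SumOf.add k x F hx hF⟩

theorem ExpF_nonempty (Δ : AbstractSimplicialComplex V) {d : ℕ} (U : Fin d → ℕ)
    (h : ∀ i : Fin d, ∃ F, FE Δ i F) : ∃ y, y ∈ ExpF (FE Δ) U := by
  have h1 : ∀ i : Fin d, ∃ x, SumOf (FE Δ i) (U i) x := by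
    intro i
    obtain ⟨F, hF⟩ := h i
    exact SumOf.const hF _
  choose z hz using h1
  exact ⟨_, z, hz, rfl⟩

end

end Pool.Agent.Q126.MX
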