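import Pool.Agent.Q126.MX3
import Pool.Agent.Q126.MX5

set_option autoImplicit false

namespace Pool.Agent.Q126.MX

open Finset Filter Topology Pool.Agent.Q126.MXD

theorem face_down {N : ℕ} {F G : Finset (VV N)} (hF : Face F) (h : G ⊆ F) : Face G := by
  rcases hF with ⟨h1, h2⟩ | ⟨h1, h2⟩
  · left
    exact ⟨fun a b ha hb => h1 a b (h ha) (h hb), fun a b ha hb => h2 a b (h ha) (h hb)⟩
  · right
    exact ⟨fun v hv => h1 v (h hv), le_trans (Finset.card_le_card h) h2⟩

/-- the complex -/
def cx (N : ℕ) : AbstractSimplicialComplex (VV N) where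
  faces := {F | F.Nonempty ∧ Face F}
  isRelLowerSet_faces := by
    intro F hF
    exact ⟨hF.1, fun G hG hne => ⟨hne, face_down hF.2 hG⟩⟩
  singleton_mem := by
    intro v
    refine ⟨Finset.singleton_nonempty v, Or.inl ⟨?_, ?_⟩⟩
    · intro a b ha hb
      rw [Finset.mem_singleton] at ha hb
      exact Sum.inl_injective (ha.trans hb.symm)
    · intro a b ha hb
      rw [Finset.mem_singleton] at ha hb
      exact Sum.inl_injective (Sum.inr_injective (ha.trans hb.symm))

theorem FE_iff {N : ℕ} (i : ℕ) (F : Finset (VV N)) : FE (cx N) i F ↔ EF N (i + 1) F := by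
  unfold FE EF
  constructor
  · rintro ⟨⟨_, h1⟩, h2⟩
    exact ⟨h2, h1⟩
  · rintro ⟨h1, h2⟩
    refine ⟨⟨?_, h2⟩, h1⟩
    rw [← Finset.card_pos]
    omega

theorem typeI_card {N : ℕ} {F : Finset (VV N)} (hI : TypeI F) : F.card ≤ 21 := by
  have h6 := sum_ind F
  rw [sum_parts] at h6
  have e1 : ∑ i, ind F (Sum.inl i) ≤ 1 := by
    unfold ind
    rw [Finset.sum_ite, Finset.sum_const_zero, add_zero, Finset.sum_const, smul_eq_mul,
      mul_one, Finset.card_le_one]
    intro a ha b hb
    exact hI.1 a b (Finset.mem_filter.1 ha).2 (Finset.mem_filter.1 hb).2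
  have e2 : ∑ i, ind F (Sum.inr (Sum.inl i)) ≤ 1 := by
    unfold ind
    rw [Finset.sum_ite, Finset.sum_const_zero, add_zero, Finset.sum_const, smul_eq_mul,
      mul_one, Finset.card_le_one]
    intro a ha b hb
    exact hI.2 a b (Finset.mem_filter.1 ha).2 (Finset.mem_filter.1 hb).2
  have e3 : ∑ i : Fin 19, ind F (Sum.inr (Sum.inr i)) ≤ 19 := by
    have : ∑ i : Fin 19, ind F (Sum.inr (Sum.inr i)) ≤ ∑ _i : Fin 19, 1 := by
      apply Finset.sum_le_sum
      intro i _
      unfold ind
      split_ifs <;> omega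
    simpa using this
  omega

theorem face_card {N : ℕ} {F : Finset (VV N)} (hF : Face F) : F.card ≤ 21 := by
  rcases hF with h | h
  · exact typeI_card h
  · exact h.2

/-- the type I facet -/
def facetI {N : ℕ} (a : Fin N) (b : Fin (18 * N)) : Finset (VV N) :=
  Finset.univ.filter (fun v => bm v = Sum.inl () → v = Sum.inl a) |>.filter
    (fun v => bm v = Sum.inr (Sum.inl ()) → v = Sum.inr (Sum.inl b))

theorem mem_facetI {N : ℕ} {a : Fin N} {b : Fin (18 * N)} {v : VV N} :
    v ∈ facetI a b ↔ (bm v = Sum.inl () → v = Sum.inl a) ∧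
      (bm v = Sum.inr (Sum.inl ()) → v = Sum.inr (Sum.inl b)) := by
  unfold facetI
  rw [Finset.mem_filter, Finset.mem_filter]
  simp

theorem facetI_type {N : ℕ} (a : Fin N) (b : Fin (18 * N)) : TypeI (facetI a b) := by
  constructor
  · intro x y hx hy
    rw [mem_facetI] at hx hy
    exact Sum.inl_injective ((hx.1 rfl).trans (hy.1 rfl).symm)
  · intro x y hx hy
    rw [mem_facetI] at hx hy
    exact Sum.inl_injective (Sum.inr_injective ((hx.2 rfl).trans (hy.2 rfl).symm))

theorem facetI_card {N : ℕ} (a : Fin N) (b : Fin (18 * N)) : (facetI a b).card = 21 := by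
  rw [← sum_ind, sum_parts]
  have e1 : ∀ i, ind (facetI a b) (Sum.inl i) = if i = a then 1 else 0 := by
    intro i
    unfold ind
    have : (Sum.inl i : VV N) ∈ facetI a b ↔ i = a := by
      rw [mem_facetI]
      simp [bm]
    simp only [this]
  have e2 : ∀ i, ind (facetI a b) (Sum.inr (Sum.inl i)) = if i = b then 1 else 0 := by
    intro i
    unfold ind
    have : (Sum.inr (Sum.inl i) : VV N) ∈ facetI a b ↔ i = b := by
      rw [mem_facetI]
      simp [bm]
    simp only [this]
  have e3 : ∀ i, ind (facetI a b) (Sum.inr (Sum.inr i)) = 1 := by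
    intro i
    unfold ind
    have : (Sum.inr (Sum.inr i) : VV N) ∈ facetI a b := by
      rw [mem_facetI]
      simp [bm]
    simp only [this, if_true]
  simp only [e1, e2, e3]
  simp

theorem pure_cx (N : ℕ) (hN : 21 ≤ N) : IsPure (cx N) 20 := by
  constructor
  · intro F hF
    exact face_card hF.2
  · intro F hF
    rcases hF.2 with hI | hII
    · have h1 : ∃ a : Fin N, ∀ x, Sum.inl x ∈ F → x = a := by
        by_cases h : ∃ a, Sum.inl a ∈ F
        · obtain ⟨a, ha⟩ := h
          exact ⟨a, fun x hx => hI.1 x a hx ha⟩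
        · push Not at h
          exact ⟨⟨0, by omega⟩, fun x hx => absurd hx (h x)⟩
      have h2 : ∃ b : Fin (18 * N), ∀ x, Sum.inr (Sum.inl x) ∈ F → x = b := by
        by_cases h : ∃ a, Sum.inr (Sum.inl a) ∈ F
        · obtain ⟨a, ha⟩ := h
          exact ⟨a, fun x hx => hI.2 x a hx ha⟩
        · push Not at h
          exact ⟨⟨0, by omega⟩, fun x hx => absurd hx (h x)⟩
      obtain ⟨a, ha⟩ := h1
      obtain ⟨b, hb⟩ := h2
      have hc := facetI_card a b
      refine ⟨facetI a b, ⟨?_, Or.inl (facetI_type a b)⟩, ?_, hc⟩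
      · rw [← Finset.card_pos, hc]
        norm_num
      · intro v hv
        rw [mem_facetI]
        rcases v with v | v | v
        · refine ⟨fun _ => by rw [ha v hv], fun h => ?_⟩
          simp [bm] at h
        · refine ⟨fun h => ?_, fun _ => by rw [hb v hv]⟩
          simp [bm] at h
        · constructor <;> intro h <;> simp [bm] at h
    · have h1 : F ⊆ Finset.univ.image (Sum.inl : Fin N → VV N) := by
        intro v hv
        obtain ⟨a, rfl⟩ := hII.1 v hv
        exact Finset.mem_image_of_mem _ (Finset.mem_univ a)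
      have h2 : (Finset.univ.image (Sum.inl : Fin N → VV N)).card = N := by
        rw [Finset.card_image_of_injective _ Sum.inl_injective]
        simp
      obtain ⟨G, hG1, hG2, hG3⟩ := Finset.exists_subsuperset_card_eq h1 hII.2 (by rw [h2]; exact hN)
      refine ⟨G, ⟨?_, Or.inr ⟨?_, by omega⟩⟩, hG1, by omega⟩
      · rw [← Finset.card_pos]
        omega
      · intro v hv
        obtain ⟨a, _, ha⟩ := Finset.mem_image.1 (hG2 hv)
        exact ⟨a, ha.symm⟩

theorem FE_exists {N : ℕ} (hN : 21 ≤ N) (i : Fin 20) : ∃ F, FE (cx N) (i : ℕ) F := by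
  have hc := facetI_card (N := N) ⟨0, by omega⟩ ⟨0, by omega⟩
  obtain ⟨F, hF1, hF2⟩ := Finset.exists_subset_card_eq
    (s := facetI (N := N) ⟨0, by omega⟩ ⟨0, by omega⟩) (n := (i : ℕ) + 1) (by
      rw [hc]
      have := i.2
      omega)
  exact ⟨F, (FE_iff _ _).2 ⟨hF2, face_down (Or.inl (facetI_type _ _)) hF1⟩⟩

/-! ### limits -/

theorem lim_ratio (U p D : ℕ) (hp : p ≤ D) :
    Tendsto (fun m : ℕ => (((U + m : ℕ) : ℝ)) ^ p / (m : ℝ) ^ D) atTop
      (𝓝 (if p = D then 1 else 0)) := by
  have h1 : Tendsto (fun m : ℕ => (((U + m : ℕ) : ℝ)) / (m : ℝ)) atTop (𝓝 1) := by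
    have h2 : Tendsto (fun m : ℕ => (U : ℝ) / (m : ℝ) + 1) atTop (𝓝 (0 + 1)) :=
      (tendsto_const_div_atTop_nhds_zero_nat (U : ℝ)).add tendsto_const_nhds
    rw [zero_add] at h2
    refine h2.congr' ?_
    filter_upwards [eventually_gt_atTop 0] with m hm
    have hm' : (m : ℝ) ≠ 0 := by positivity
    push_cast
    field_simp
  have h3 : Tendsto (fun m : ℕ => ((((U + m : ℕ) : ℝ)) / (m : ℝ)) ^ p * (1 / (m : ℝ) ^ (D - p)))
      atTop (𝓝 (1 ^ p * (if p = D then 1 else 0))) := by
    apply (h1.pow p).mul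
    split_ifs with h
    · subst h
      simp
    · have : D - p ≠ 0 := by omega
      have h4 : Tendsto (fun m : ℕ => (1 / (m : ℝ)) ^ (D - p)) atTop (𝓝 (0 ^ (D - p))) :=
        (tendsto_const_div_atTop_nhds_zero_nat (1 : ℝ)).pow _
      rw [zero_pow this] at h4
      refine h4.congr (fun m => ?_)
      rw [div_pow, one_pow]
  rw [one_pow, one_mul] at h3
  refine h3.congr' ?_
  filter_upwards [eventually_gt_atTop 0] with m hm
  have hm' : (m : ℝ) ≠ 0 := by positivity
  rw [div_pow, div_mul_div_comm, mul_one, ← pow_add]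
  congr 2
  omega

theorem term_lim {d : ℕ} (U : Fin d → ℕ) (i : Fin d) (D : ℕ) (s : Fin d →₀ ℕ)
    (hs : ∑ k, s k ≤ D) :
    Tendsto (fun m : ℕ => (∏ k, ((bump U i m k : ℕ) : ℝ) ^ (s k)) / (m : ℝ) ^ D) atTop
      (𝓝 (if s = Finsupp.single i D then 1 else 0)) := by
  have hsi : s i ≤ D := le_trans (Finset.single_le_sum (fun _ _ => Nat.zero_le _)
    (Finset.mem_univ i)) hs
  have h1 := (lim_ratio (U i) (s i) D hsi).mul_const
    (∏ k ∈ Finset.univ.erase i, ((U k : ℕ) : ℝ) ^ (s k))
  have h2 : (if s i = D then (1 : ℝ) else 0) * (∏ k ∈ Finset.univ.erase i, ((U k : ℕ) : ℝ) ^ (s k))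
      = (if s = Finsupp.single i D then 1 else 0) := by
    by_cases h : s i = D
    · have h3 : ∀ k, k ≠ i → s k = 0 := by
        intro k hk
        have h4 := Finset.add_sum_erase Finset.univ (fun k => s k) (Finset.mem_univ i)
        have h5 : s k ≤ ∑ k ∈ Finset.univ.erase i, s k :=
          Finset.single_le_sum (f := fun k => s k) (fun _ _ => Nat.zero_le _)
            (Finset.mem_erase.2 ⟨hk, Finset.mem_univ k⟩)
        omega
      have h4 : s = Finsupp.single i D := by
        ext k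
        by_cases hk : k = i
        · subst hk
          simp [h]
        · rw [h3 k hk, Finsupp.single_apply, if_neg (fun h => hk h.symm)]
      rw [if_pos h, if_pos h4, one_mul]
      apply Finset.prod_eq_one
      intro k hk
      rw [h3 k (Finset.mem_erase.1 hk).1, pow_zero]
    · rw [if_neg h, if_neg, zero_mul]
      intro h4
      apply h
      rw [h4]
      simp
  rw [h2] at h1
  refine h1.congr (fun m => ?_)
  rw [← Finset.mul_prod_erase _ _ (Finset.mem_univ i)]
  have h3 : ∏ k ∈ Finset.univ.erase i, ((bump U i m k : ℕ) : ℝ) ^ (s k)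
      = ∏ k ∈ Finset.univ.erase i, ((U k : ℕ) : ℝ) ^ (s k) := by
    apply Finset.prod_congr rfl
    intro k hk
    unfold bump
    rw [Function.update_of_ne (Finset.mem_erase.1 hk).1]
  rw [h3]
  unfold bump
  rw [Function.update_self]
  ring

theorem eval_lim {d : ℕ} (P : MvPolynomial (Fin d) ℚ) (D : ℕ) (hP : P.totalDegree ≤ D)
    (U : Fin d → ℕ) (i : Fin d) :
    Tendsto (fun m : ℕ => ((MvPolynomial.eval (fun k => ((bump U i m k : ℕ) : ℚ)) P : ℚ) : ℝ)
      / (m : ℝ) ^ D) atTop (𝓝 ((P.coeff (Finsupp.single i D) : ℚ) : ℝ)) := by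
  have h1 : Tendsto (fun m : ℕ => ∑ s ∈ P.support, ((P.coeff s : ℚ) : ℝ)
      * ((∏ k, ((bump U i m k : ℕ) : ℝ) ^ (s k)) / (m : ℝ) ^ D)) atTop
      (𝓝 (∑ s ∈ P.support, ((P.coeff s : ℚ) : ℝ)
        * (if s = Finsupp.single i D then 1 else 0))) := by
    apply tendsto_finsetSum
    intro s hs
    apply Tendsto.const_mul
    apply term_lim
    have h2 := MvPolynomial.le_totalDegree hs
    rw [Finsupp.sum_fintype _ _ (fun _ => rfl)] at h2
    exact le_trans h2 hP
  have h2 : ∑ s ∈ P.support, ((P.coeff s : ℚ) : ℝ) * (if s = Finsupp.single i D then 1 else 0)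
      = ((P.coeff (Finsupp.single i D) : ℚ) : ℝ) := by
    simp only [mul_ite, mul_one, mul_zero]
    rw [Finset.sum_ite_eq']
    split_ifs with h
    · rfl
    · rw [MvPolynomial.notMem_support_iff.1 h]
      simp
  rw [h2] at h1
  refine h1.congr (fun m => ?_)
  rw [MvPolynomial.eval_eq']
  push_cast
  rw [Finset.sum_div]
  apply Finset.sum_congr rfl
  intro s _
  ring

end Pool.Agent.Q126.MX
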