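import Pool.Agent.Q126.MX6

set_option autoImplicit false

namespace Pool.Agent.Q126.MX

open Finset Filter Topology Pool.Agent.Q126.MXD

/-- the normalised number of exponents -/
noncomputable def XN (N : ℕ) (U : Fin 20 → ℕ) (i : Fin 20) (m : ℕ) : ℝ :=
  ((ExpF (FE (cx N)) (bump U i m)).ncard : ℝ) / (m : ℝ) ^ (19 * N + 18)

theorem ncard_lower {N : ℕ} (hN : 21 ≤ N) (U : Fin 20 → ℕ) (i : Fin 20) (m : ℕ) :
    ∃ T : Finset (VV N → ℕ), (∀ x, SumOf (EF N ((i : ℕ) + 1)) m x → x ∈ T) ∧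
      T.card ≤ (ExpF (FE (cx N)) (bump U i m)).ncard := by
  classical
  obtain ⟨y, hy⟩ := ExpF_nonempty (cx N) U (FE_exists hN)
  refine ⟨(eqs (VV N) (((i : ℕ) + 1) * m)).filter (fun x => SumOf (FE (cx N) i) m x), ?_, ?_⟩
  · intro x hx
    have hx' : SumOf (FE (cx N) i) m x := SumOf.mono (fun F hF => (FE_iff _ _).2 hF) hx
    rw [Finset.mem_filter, mem_eqs]
    exact ⟨SumOf.total (fun F hF => hF.2) hx', hx'⟩
  · rw [Set.ncard_eq_toFinset_card _ (ExpF_finite (cx N) (bump U i m))]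
    apply Finset.card_le_card_of_injOn (fun x => y + x)
    · intro x hx
      have hx' := Finset.mem_filter.1 (Finset.mem_coe.1 hx)
      rw [Finset.mem_coe, Set.Finite.mem_toFinset]
      exact ExpF_lower (cx N) U i m hy hx'.2
    · intro x _ x' _ h
      exact add_left_cancel h

theorem ncard_upper {N : ℕ} (U : Fin 20 → ℕ) (m : ℕ) :
    ∃ T : Finset (VV N → ℕ), (∀ x ∈ T, ∃ y z : VV N → ℕ, x = y + z ∧
      ∑ v, y v = ∑ k : Fin 20, ((k : ℕ) + 1) * U k ∧ SumOf (EF N 18) m z) ∧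
      (ExpF (FE (cx N)) (bump U 17 m)).ncard = T.card := by
  classical
  refine ⟨(ExpF_finite (cx N) (bump U 17 m)).toFinset, ?_, ?_⟩
  · intro x hx
    rw [Set.Finite.mem_toFinset] at hx
    obtain ⟨y, z, h1, h2, h3⟩ := ExpF_upper (cx N) U 17 m hx
    exact ⟨y, z, h1, h2, SumOf.mono (fun F hF => (FE_iff _ _).1 hF) h3⟩
  · rw [Set.ncard_eq_toFinset_card _ (ExpF_finite (cx N) (bump U 17 m))]

theorem aff_lim (α β γ : ℝ) (hγ : γ ≠ 0) (p : ℕ) :
    Tendsto (fun s : ℕ => (α * s + β) ^ p / (γ * s) ^ p) atTop (𝓝 ((α / γ) ^ p)) := by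
  have h1 : Tendsto (fun s : ℕ => α / γ + (β / γ) / (s : ℝ)) atTop (𝓝 (α / γ + 0)) :=
    tendsto_const_nhds.add (tendsto_const_div_atTop_nhds_zero_nat (β / γ))
  rw [add_zero] at h1
  refine (h1.pow p).congr' ?_
  filter_upwards [eventually_gt_atTop 0] with s hs
  have hs' : (s : ℝ) ≠ 0 := by positivity
  rw [← div_pow]
  congr 1
  field_simp

theorem four_tend : Tendsto (fun s : ℕ => 4000 * s) atTop atTop :=
  tendsto_id.const_mul_atTop' (by norm_num)

/-- lower bound for the level 17 -/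
theorem a16_ge {N : ℕ} (hN : 21 ≤ N) (U : Fin 20 → ℕ) {a : ℝ}
    (ha : Tendsto (XN N U 16) atTop (𝓝 a))
    (q : 0 < ((15200 / 4000 : ℝ) ^ 18 - 19 * (12000 / 4000) ^ 18)) :
    (1 - (3600 / 4000 : ℝ) ^ N) / (N.factorial : ℝ)
      * ((1 - (3600 / 4000 : ℝ) ^ (18 * N)) / ((18 * N).factorial : ℝ))
      * (((15200 / 4000 : ℝ) ^ 18 - 19 * (12000 / 4000) ^ 18) / ((Nat.factorial 18 : ℕ) : ℝ))
      ≤ a := by
  have hN0 : N ≠ 0 := by omega
  have q1 : (0 : ℝ) < (1 - (3600 / 4000 : ℝ) ^ N) / (N.factorial : ℝ) := by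
    apply div_pos _ (by positivity)
    have : (3600 / 4000 : ℝ) ^ N < 1 := pow_lt_one₀ (by norm_num) (by norm_num) hN0
    linarith
  have q2 : (0 : ℝ) < (1 - (3600 / 4000 : ℝ) ^ (18 * N)) / ((18 * N).factorial : ℝ) := by
    apply div_pos _ (by positivity)
    have : (3600 / 4000 : ℝ) ^ (18 * N) < 1 := pow_lt_one₀ (by norm_num) (by norm_num) (by omega)
    linarith
  have q3 : (0 : ℝ) < ((15200 / 4000 : ℝ) ^ 18 - 19 * (12000 / 4000) ^ 18)
      / ((Nat.factorial 18 : ℕ) : ℝ) := div_pos q (by positivity)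
  have t1 : Tendsto (fun s : ℕ => ((4000 * s : ℝ) ^ N - (3600 * s + N) ^ N) / (N.factorial : ℝ)
      / (4000 * s : ℝ) ^ N) atTop (𝓝 ((1 - (3600 / 4000 : ℝ) ^ N) / (N.factorial : ℝ))) := by
    have h1 := aff_lim 4000 0 4000 (by norm_num) N
    have h2 := aff_lim 3600 N 4000 (by norm_num) N
    have h3 := (h1.sub h2).div_const (N.factorial : ℝ)
    rw [div_self (by norm_num : (4000 : ℝ) ≠ 0), one_pow] at h3
    refine h3.congr (fun s => ?_)
    rw [add_zero, ← sub_div, div_right_comm]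
  have t2 : Tendsto (fun s : ℕ => ((4000 * s : ℝ) ^ (18 * N) - (3600 * s + (18 * N : ℕ)) ^ (18 * N))
      / ((18 * N).factorial : ℝ) / (4000 * s : ℝ) ^ (18 * N)) atTop
      (𝓝 ((1 - (3600 / 4000 : ℝ) ^ (18 * N)) / ((18 * N).factorial : ℝ))) := by
    have h1 := aff_lim 4000 0 4000 (by norm_num) (18 * N)
    have h2 := aff_lim 3600 (18 * N : ℕ) 4000 (by norm_num) (18 * N)
    have h3 := (h1.sub h2).div_const ((18 * N).factorial : ℝ)
    rw [div_self (by norm_num : (4000 : ℝ) ≠ 0), one_pow] at h3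
    refine h3.congr (fun s => ?_)
    rw [add_zero, ← sub_div, div_right_comm]
  have t3 : Tendsto (fun s : ℕ => ((15200 * s : ℝ) ^ 18 - 19 * (12000 * s + 18) ^ 18)
      / ((Nat.factorial 18 : ℕ) : ℝ) / (4000 * s : ℝ) ^ 18) atTop
      (𝓝 (((15200 / 4000 : ℝ) ^ 18 - 19 * (12000 / 4000) ^ 18) / ((Nat.factorial 18 : ℕ) : ℝ))) := by
    have h1 := aff_lim 15200 0 4000 (by norm_num) 18
    have h2 := (aff_lim 12000 18 4000 (by norm_num) 18).const_mul 19
    have h3 := (h1.sub h2).div_const ((Nat.factorial 18 : ℕ) : ℝ)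
    refine h3.congr (fun s => ?_)
    rw [add_zero, ← mul_div_assoc, ← sub_div, div_right_comm]
  refine le_of_tendsto_of_tendsto ((t1.mul t2).mul t3) (ha.comp four_tend) ?_
  filter_upwards [eventually_gt_atTop 0, t1.eventually (lt_mem_nhds q1),
    t2.eventually (lt_mem_nhds q2), t3.eventually (lt_mem_nhds q3)] with s hs e1 e2 e3
  have hs' : (0 : ℝ) < 4000 * s := by positivity
  have p1 := (div_pos_iff_of_pos_right (pow_pos hs' N)).1 e1
  have p2 := (div_pos_iff_of_pos_right (pow_pos hs' (18 * N))).1 e2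
  have p3 := (div_pos_iff_of_pos_right (pow_pos hs' 18)).1 e3
  obtain ⟨T, hT1, hT2⟩ := ncard_lower hN U 16 (4000 * s)
  have h4 := lower0 N s hs T hT1 p1.le p2.le p3.le
  have h5 : (T.card : ℝ) ≤ ((ExpF (FE (cx N)) (bump U 16 (4000 * s))).ncard : ℝ) := by
    exact_mod_cast hT2
  have h6 := le_trans h4 h5
  show _ ≤ XN N U 16 (4000 * s)
  unfold XN
  rw [div_mul_div_comm, div_mul_div_comm, ← pow_add, ← pow_add]
  have e : N + 18 * N + 18 = 19 * N + 18 := by ring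
  rw [e]
  push_cast
  apply div_le_div_of_nonneg_right _ (by positivity)
  push_cast at h6
  exact h6

/-- lower bound for the level 20 -/
theorem a19_ge {N : ℕ} (hN : 21 ≤ N) (U : Fin 20 → ℕ) {a : ℝ}
    (ha : Tendsto (XN N U 19) atTop (𝓝 a))
    (q1 : 0 < ((4190 / 4000 : ℝ) ^ N - (3791 / 4000) ^ N - N * (4180 / 4000) ^ N)) :
    ((4190 / 4000 : ℝ) ^ N - (3791 / 4000) ^ N - N * (4180 / 4000) ^ N) / (N.factorial : ℝ)
      * (((3990 / 4000 : ℝ) ^ (18 * N) - (3591 / 4000) ^ (18 * N)) / ((18 * N).factorial : ℝ))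
      * ((3192 / 4000 : ℝ) ^ 18 / ((Nat.factorial 18 : ℕ) : ℝ))
      ≤ a := by
  have hN0 : N ≠ 0 := by omega
  have q1 : (0 : ℝ) < ((4190 / 4000 : ℝ) ^ N - (3791 / 4000) ^ N - N * (4180 / 4000) ^ N)
      / (N.factorial : ℝ) := div_pos q1 (by positivity)
  have q2 : (0 : ℝ) < ((3990 / 4000 : ℝ) ^ (18 * N) - (3591 / 4000) ^ (18 * N))
      / ((18 * N).factorial : ℝ) := by
    apply div_pos _ (by positivity)
    have : (3591 / 4000 : ℝ) ^ (18 * N) < (3990 / 4000 : ℝ) ^ (18 * N) :=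
      pow_lt_pow_left₀ (by norm_num) (by norm_num) (by omega)
    linarith
  have t1 : Tendsto (fun s : ℕ => ((4190 * s : ℝ) ^ N - (3791 * s + N) ^ N - N * (4180 * s + N) ^ N)
      / (N.factorial : ℝ) / (4000 * s : ℝ) ^ N) atTop
      (𝓝 (((4190 / 4000 : ℝ) ^ N - (3791 / 4000) ^ N - N * (4180 / 4000) ^ N)
        / (N.factorial : ℝ))) := by
    have h1 := aff_lim 4190 0 4000 (by norm_num) N
    have h2 := aff_lim 3791 N 4000 (by norm_num) N
    have h4 := (aff_lim 4180 N 4000 (by norm_num) N).const_mul (N : ℝ)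
    have h3 := ((h1.sub h2).sub h4).div_const (N.factorial : ℝ)
    refine h3.congr (fun s => ?_)
    rw [add_zero, ← mul_div_assoc, ← sub_div, ← sub_div, div_right_comm]
  have t2 : Tendsto (fun s : ℕ => ((3990 * s : ℝ) ^ (18 * N) - (3591 * s + (18 * N : ℕ)) ^ (18 * N))
      / ((18 * N).factorial : ℝ) / (4000 * s : ℝ) ^ (18 * N)) atTop
      (𝓝 (((3990 / 4000 : ℝ) ^ (18 * N) - (3591 / 4000) ^ (18 * N))
        / ((18 * N).factorial : ℝ))) := by
    have h1 := aff_lim 3990 0 4000 (by norm_num) (18 * N)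
    have h2 := aff_lim 3591 (18 * N : ℕ) 4000 (by norm_num) (18 * N)
    have h3 := (h1.sub h2).div_const ((18 * N).factorial : ℝ)
    refine h3.congr (fun s => ?_)
    rw [add_zero, ← sub_div, div_right_comm]
  have t3 : Tendsto (fun s : ℕ => (3192 * s : ℝ) ^ 18
      / ((Nat.factorial 18 : ℕ) : ℝ) / (4000 * s : ℝ) ^ 18) atTop
      (𝓝 ((3192 / 4000 : ℝ) ^ 18 / ((Nat.factorial 18 : ℕ) : ℝ))) := by
    have h1 := aff_lim 3192 0 4000 (by norm_num) 18
    have h3 := h1.div_const ((Nat.factorial 18 : ℕ) : ℝ)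
    refine h3.congr (fun s => ?_)
    rw [add_zero, div_right_comm]
  refine le_of_tendsto_of_tendsto ((t1.mul t2).mul t3) (ha.comp four_tend) ?_
  filter_upwards [eventually_gt_atTop 0, t1.eventually (lt_mem_nhds q1),
    t2.eventually (lt_mem_nhds q2)] with s hs e1 e2
  have hs' : (0 : ℝ) < 4000 * s := by positivity
  have p1 := (div_pos_iff_of_pos_right (pow_pos hs' N)).1 e1
  have p2 := (div_pos_iff_of_pos_right (pow_pos hs' (18 * N))).1 e2
  obtain ⟨T, hT1, hT2⟩ := ncard_lower hN U 19 (4000 * s)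
  have h4 := lower2 N s hs T hT1 p1.le p2.le
  have h5 : (T.card : ℝ) ≤ ((ExpF (FE (cx N)) (bump U 19 (4000 * s))).ncard : ℝ) := by
    exact_mod_cast hT2
  have h6 := le_trans h4 h5
  show _ ≤ XN N U 19 (4000 * s)
  unfold XN
  rw [div_mul_div_comm, div_mul_div_comm, ← pow_add, ← pow_add]
  have e : N + 18 * N + 18 = 19 * N + 18 := by ring
  rw [e]
  push_cast
  apply div_le_div_of_nonneg_right _ (by positivity)
  push_cast at h6
  exact h6

/-- upper bound for the level 18 -/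
theorem a17_le {N : ℕ} (hN : 21 ≤ N) (U : Fin 20 → ℕ) {a : ℝ}
    (ha : Tendsto (XN N U 17) atTop (𝓝 a)) :
    a ≤ ((3 : ℝ) ^ 18 / ((Nat.factorial 18 : ℕ) : ℝ))
      * (18 / (((N.factorial : ℕ) : ℝ) * (((18 * N).factorial : ℕ) : ℝ))) := by
  set c := ∑ k : Fin 20, ((k : ℕ) + 1) * U k with hc
  have t1 : Tendsto (fun m : ℕ => (3 * m + 20 * c + 18 : ℝ) ^ 18 / ((Nat.factorial 18 : ℕ) : ℝ)
      / (m : ℝ) ^ 18) atTop (𝓝 ((3 : ℝ) ^ 18 / ((Nat.factorial 18 : ℕ) : ℝ))) := by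
    have h1 := (aff_lim 3 (20 * c + 18) 1 (by norm_num) 18).div_const ((Nat.factorial 18 : ℕ) : ℝ)
    rw [div_one] at h1
    refine h1.congr (fun m => ?_)
    rw [one_mul, div_right_comm, add_assoc]
  have t2 : Tendsto (fun m : ℕ => (18 * ((m : ℝ) + c + 18 * N + 1) ^ (19 * N)
        / (((N.factorial : ℕ) : ℝ) * (((18 * N).factorial : ℕ) : ℝ))) / (m : ℝ) ^ (19 * N)) atTop
      (𝓝 (18 / (((N.factorial : ℕ) : ℝ) * (((18 * N).factorial : ℕ) : ℝ)))) := by
    have h1 := ((aff_lim 1 (c + 18 * N + 1) 1 (by norm_num) (19 * N)).const_mul 18).div_const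
      (((N.factorial : ℕ) : ℝ) * (((18 * N).factorial : ℕ) : ℝ))
    rw [div_one, one_pow, mul_one] at h1
    refine h1.congr (fun m => ?_)
    rw [one_mul, ← mul_div_assoc, div_right_comm, add_assoc, add_assoc, add_assoc]
  refine le_of_tendsto_of_tendsto ha (t1.mul t2) ?_
  filter_upwards [eventually_gt_atTop 0] with m hm
  obtain ⟨T, hT1, hT2⟩ := ncard_upper (N := N) U m
  have h4 := upper1 N m c (by omega) T hT1
  rw [← hT2] at h4
  unfold XN
  rw [div_mul_div_comm, ← pow_add]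
  have e : 18 + 19 * N = 19 * N + 18 := by ring
  rw [e]
  have hpos : (0 : ℝ) ≤ (m : ℝ) ^ (19 * N + 18) := pow_nonneg (Nat.cast_nonneg m) _
  exact div_le_div_of_nonneg_right h4 hpos

end Pool.Agent.Q126.MX
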