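import Pool.Agent.Q126.MX1

set_option autoImplicit false

namespace Pool.Agent.Q126.MX

open Finset

/-- eventually polynomial functions -/
def PolyEv {d : ℕ} (f : (Fin d → ℕ) → ℚ) : Prop :=
  ∃ P : MvPolynomial (Fin d) ℚ, ∃ U : ℕ, ∀ u : Fin d → ℕ, (∀ i, U ≤ u i) →
    f u = MvPolynomial.eval (fun i => (u i : ℚ)) P

section
variable {d : ℕ}

theorem PolyEv.const (c : ℚ) : PolyEv (fun _ : Fin d → ℕ => c) :=
  ⟨MvPolynomial.C c, 0, fun _ _ => by rw [MvPolynomial.eval_C]⟩

theorem PolyEv.add {f g : (Fin d → ℕ) → ℚ} (hf : PolyEv f) (hg : PolyEv g) :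
    PolyEv (fun u => f u + g u) := by
  obtain ⟨P, U, hP⟩ := hf
  obtain ⟨Q, W, hQ⟩ := hg
  refine ⟨P + Q, max U W, fun u hu => ?_⟩
  show f u + g u = _
  rw [map_add, hP u (fun i => le_trans (le_max_left _ _) (hu i)),
    hQ u (fun i => le_trans (le_max_right _ _) (hu i))]

theorem PolyEv.mul {f g : (Fin d → ℕ) → ℚ} (hf : PolyEv f) (hg : PolyEv g) :
    PolyEv (fun u => f u * g u) := by
  obtain ⟨P, U, hP⟩ := hf
  obtain ⟨Q, W, hQ⟩ := hg
  refine ⟨P * Q, max U W, fun u hu => ?_⟩
  show f u * g u = _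
  rw [map_mul, hP u (fun i => le_trans (le_max_left _ _) (hu i)),
    hQ u (fun i => le_trans (le_max_right _ _) (hu i))]

theorem PolyEv.sum {ι : Type} (s : Finset ι) {f : ι → (Fin d → ℕ) → ℚ}
    (hf : ∀ i ∈ s, PolyEv (f i)) : PolyEv (fun u => ∑ i ∈ s, f i u) := by
  classical
  induction s using Finset.induction_on with
  | empty => simpa using PolyEv.const 0
  | insert a s ha ih =>
    simp only [Finset.sum_insert ha]
    exact (hf a (Finset.mem_insert_self _ _)).add
      (ih (fun i hi => hf i (Finset.mem_insert_of_mem hi)))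

theorem PolyEv.prod {ι : Type} (s : Finset ι) {f : ι → (Fin d → ℕ) → ℚ}
    (hf : ∀ i ∈ s, PolyEv (f i)) : PolyEv (fun u => ∏ i ∈ s, f i u) := by
  classical
  induction s using Finset.induction_on with
  | empty => simpa using PolyEv.const 1
  | insert a s ha ih =>
    simp only [Finset.prod_insert ha]
    exact (hf a (Finset.mem_insert_self _ _)).mul
      (ih (fun i hi => hf i (Finset.mem_insert_of_mem hi)))

theorem PolyEv.congr {f g : (Fin d → ℕ) → ℚ} (hf : PolyEv f) (U : ℕ)
    (h : ∀ u : Fin d → ℕ, (∀ i, U ≤ u i) → g u = f u) : PolyEv g := by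
  obtain ⟨P, W, hP⟩ := hf
  refine ⟨P, max U W, fun u hu => ?_⟩
  rw [h u (fun i => le_trans (le_max_left _ _) (hu i)),
    hP u (fun i => le_trans (le_max_right _ _) (hu i))]

theorem PolyEv.coord (R : Polynomial ℚ) (i : Fin d) (h : ℕ) :
    PolyEv (fun u => R.eval (((u i - h : ℕ)) : ℚ)) := by
  refine ⟨R.eval₂ MvPolynomial.C (MvPolynomial.X i - MvPolynomial.C (h : ℚ)), h, fun u hu => ?_⟩
  show Polynomial.eval (((u i - h : ℕ)) : ℚ) R = _
  rw [Polynomial.hom_eval₂]
  have e1 : (MvPolynomial.eval (fun i => (u i : ℚ))).comp MvPolynomial.C = RingHom.id ℚ := by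
    ext x
    simp
  rw [e1]
  rw [map_sub, MvPolynomial.eval_X, MvPolynomial.eval_C, Nat.cast_sub (hu i)]
  rfl

theorem choose_poly (q : ℕ) : ∃ R : Polynomial ℚ, ∀ s : ℕ,
    (((s + q).choose q : ℕ) : ℚ) = R.eval (s : ℚ) := by
  induction q with
  | zero => exact ⟨1, fun s => by simp⟩
  | succ q ih =>
    obtain ⟨R, hR⟩ := ih
    refine ⟨R * (Polynomial.X + Polynomial.C ((q : ℚ) + 1)) * Polynomial.C (1 / ((q : ℚ) + 1)),
      fun s => ?_⟩
    have h1 := Nat.add_one_mul_choose_eq (s + q) q
    have h2 : (((s + q : ℕ) : ℚ) + 1) * (((s + q).choose q : ℕ) : ℚ)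
        = (((s + (q + 1)).choose (q + 1) : ℕ) : ℚ) * ((q : ℚ) + 1) := by
      exact_mod_cast h1
    rw [Polynomial.eval_mul, Polynomial.eval_mul, Polynomial.eval_add, Polynomial.eval_X,
      Polynomial.eval_C, Polynomial.eval_C, ← hR s]
    have h4 : ((q : ℚ) + 1) ≠ 0 := by positivity
    rw [mul_one_div, eq_div_iff h4, ← h2]
    push_cast
    ring

end

section
variable {Ω : Type} [Fintype Ω] [DecidableEq Ω] {d : ℕ} (c : Ω → Fin d)

/-- class sums -/
def cs (l : Ω → ℕ) (i : Fin d) : ℕ := ∑ w : {w // c w = i}, l w.1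

theorem cs_add (l k : Ω → ℕ) : cs c (l + k) = cs c l + cs c k := by
  funext i
  unfold cs
  rw [Pi.add_apply, ← Finset.sum_add_distrib]
  rfl

/-- functions with given class sums -/
noncomputable def lev (u : Fin d → ℕ) : Finset (Ω → ℕ) :=
  (Fintype.piFinset (fun i => eqs {w // c w = i} (u i))).image (fun g w => g (c w) ⟨w, rfl⟩)

theorem mem_lev {u : Fin d → ℕ} {l : Ω → ℕ} : l ∈ lev c u ↔ cs c l = u := by
  unfold lev
  rw [Finset.mem_image]
  constructor
  · rintro ⟨g, hg, rfl⟩
    rw [Fintype.mem_piFinset] at hg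
    funext i
    have h1 := mem_eqs.1 (hg i)
    rw [← h1]
    unfold cs
    apply Finset.sum_congr rfl
    rintro ⟨w, hw⟩ _
    subst hw
    rfl
  · intro h
    refine ⟨fun i w => l w.1, ?_, rfl⟩
    rw [Fintype.mem_piFinset]
    intro i
    rw [mem_eqs, ← h]
    rfl

theorem card_lev (u : Fin d → ℕ) :
    (lev c u).card = ∏ i, (eqs {w // c w = i} (u i)).card := by
  unfold lev
  rw [Finset.card_image_of_injective, Fintype.card_piFinset]
  intro g g' h
  funext i w
  obtain ⟨w, hw⟩ := w
  subst hw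
  exact congrFun h w

theorem lev_poly (hc : ∀ i, ∃ w, c w = i) (h : Fin d → ℕ) :
    PolyEv (fun u => (((lev c (fun i => u i - h i)).card : ℕ) : ℚ)) := by
  have h1 : ∀ i, ∃ q, Fintype.card {w // c w = i} = q + 1 := by
    intro i
    obtain ⟨w, hw⟩ := hc i
    have : 0 < Fintype.card {w // c w = i} := Fintype.card_pos_iff.2 ⟨⟨w, hw⟩⟩
    exact ⟨_, (Nat.succ_pred_eq_of_pos this).symm⟩
  choose q hq using h1
  choose R hR using fun i => choose_poly (q i)
  have h2 : ∀ u : Fin d → ℕ, (((lev c (fun i => u i - h i)).card : ℕ) : ℚ)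
      = ∏ i, (R i).eval (((u i - h i : ℕ)) : ℚ) := by
    intro u
    rw [card_lev]
    push_cast
    apply Finset.prod_congr rfl
    intro i _
    rw [card_eqs_choose (hq i), ← hR i]
  simp only [h2]
  exact PolyEv.prod _ (fun i _ => PolyEv.coord (R i) i (h i))

open scoped Classical in
/-- counting functions above a given one -/
theorem card_above (h : Ω → ℕ) (u : Fin d → ℕ) (hu : ∀ i, cs c h i ≤ u i) :
    ((lev c u).filter (fun l => h ≤ l)).card = (lev c (fun i => u i - cs c h i)).card := by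
  apply Finset.card_nbij' (fun l => l - h) (fun l => l + h)
  · intro l hl
    have hl' := Finset.mem_filter.1 (Finset.mem_coe.1 hl)
    have h1 := (mem_lev c).1 hl'.1
    rw [Finset.mem_coe, mem_lev]
    have h2 : cs c (l - h + h) = cs c (l - h) + cs c h := cs_add c _ _
    rw [tsub_add_cancel_of_le hl'.2, h1] at h2
    funext i
    have h3 := congrFun h2 i
    rw [Pi.add_apply] at h3
    show cs c (l - h) i = u i - cs c h i
    omega
  · intro l hl
    have hl' := (mem_lev c).1 (Finset.mem_coe.1 hl)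
    rw [Finset.mem_coe, Finset.mem_filter, mem_lev]
    refine ⟨?_, fun w => Nat.le_add_left _ _⟩
    rw [cs_add, hl']
    funext i
    rw [Pi.add_apply]
    have := hu i
    omega
  · intro l hl
    have hl' := Finset.mem_filter.1 (Finset.mem_coe.1 hl)
    exact tsub_add_cancel_of_le hl'.2
  · intro l _
    exact add_tsub_cancel_right l h

open scoped Classical in
/-- counting the complement of an up-set -/
theorem avoid_poly (hc : ∀ i, ∃ w, c w = i) (G : Finset (Ω → ℕ)) :
    PolyEv (fun u => ((((lev c u).filter (fun l => ∀ g ∈ G, ¬ g ≤ l)).card : ℕ) : ℚ)) := by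
  have h1 : ∀ u : Fin d → ℕ, ((((lev c u).filter (fun l => ∀ g ∈ G, ¬ g ≤ l)).card : ℕ) : ℚ)
      = ∑ T ∈ G.powerset, (-1 : ℚ) ^ T.card
        * ((((lev c u).filter (fun l => T.sup id ≤ l)).card : ℕ) : ℚ) := by
    intro u
    rw [Finset.card_filter]
    push_cast
    have h2 : ∀ l : Ω → ℕ, (if ∀ g ∈ G, ¬ g ≤ l then (1 : ℚ) else 0)
        = ∑ T ∈ G.powerset, (-1 : ℚ) ^ T.card * (if T.sup id ≤ l then (1 : ℚ) else 0) := by
      intro l
      have h3 : (if ∀ g ∈ G, ¬ g ≤ l then (1 : ℚ) else 0)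
          = ∏ g ∈ G, ((-(if g ≤ l then (1 : ℚ) else 0)) + 1) := by
        split_ifs with h
        · rw [eq_comm]
          apply Finset.prod_eq_one
          intro g hg
          rw [if_neg (h g hg)]
          norm_num
        · push Not at h
          obtain ⟨g, hg, hgl⟩ := h
          rw [eq_comm]
          apply Finset.prod_eq_zero hg
          rw [if_pos hgl]
          norm_num
      rw [h3, Finset.prod_add_one]
      apply Finset.sum_congr rfl
      intro T _
      rw [Finset.prod_neg]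
      congr 1
      split_ifs with h
      · apply Finset.prod_eq_one
        intro g hg
        rw [if_pos]
        exact le_trans (Finset.le_sup (f := id) hg) h
      · have h4 : ∃ g ∈ T, ¬ g ≤ l := by
          by_contra hcon
          push Not at hcon
          exact h (Finset.sup_le hcon)
        obtain ⟨g, hg, hgl⟩ := h4
        apply Finset.prod_eq_zero hg
        rw [if_neg hgl]
    rw [Finset.sum_congr rfl (fun l _ => h2 l), Finset.sum_comm]
    apply Finset.sum_congr rfl
    intro T _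
    rw [← Finset.mul_sum, Finset.card_filter]
    push_cast
    rfl
  simp only [h1]
  apply PolyEv.sum
  intro T _
  apply (PolyEv.const _).mul
  apply (lev_poly c hc (cs c (T.sup id))).congr (∑ i, cs c (T.sup id) i)
  intro u hu
  rw [card_above]
  intro i
  exact le_trans (Finset.single_le_sum (f := fun i => cs c (T.sup id) i)
    (fun _ _ => Nat.zero_le _) (Finset.mem_univ i)) (hu i)

end

end Pool.Agent.Q126.MX
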