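import Pool.Agent.TH409.RG.Fold

/-! Vertex splitting in three dimensions. -/

set_option autoImplicit false

namespace Pool.Agent.Q126.RS

open Finset Matrix Pool.Agent.H789R5 Pool.Agent.H283R2.DR Pool.Agent.TH349.Rig Pool.Agent.TH409.RG

variable {V : Type} [Fintype V]

open Classical in
/-- **Vertex splitting.** If `v` and `y` are adjacent and have two common neighbours and `G'` has
at most the edges of `G`, where `v` is identified with `y`, then rigidity of `G'` implies rigidity
of `G`. -/
theorem ri_split {p : V → Fin 3 → ℝ} (hp : MG p) {G G' : SimpleGraph V} {U : Finset V}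
    {v y x z : V} (hv : v ∉ U) (hy : y ∈ U) (hx : x ∈ U) (hz : z ∈ U) (hxz : x ≠ z)
    (hvy : G.Adj v y) (hvx : G.Adj v x) (hyx : G.Adj y x) (hvz : G.Adj v z) (hyz : G.Adj y z)
    (hG' : ∀ a ∈ U, ∀ b ∈ U, G'.Adj a b →
      G.Adj a b ∨ (a = y ∧ G.Adj v b) ∨ (b = y ∧ G.Adj v a))
    (hr : ri p G' U) : ri p G (insert v U) := by
  have hyv : y ≠ v := fun h => hv (h ▸ hy)
  have hyx' : y ≠ x := hyx.ne
  have hyz' : y ≠ z := hyz.ne
  have hxv : x ≠ v := fun h => hv (h ▸ hx)
  have hzv : z ≠ v := fun h => hv (h ▸ hz)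
  -- a third direction
  have hli2 : LinearIndependent ℝ ![p y - p x, p y - p z] := by
    have h1 := lin_of_pos hp (v := y) (T := {x, z}) (by simp [hyx', hyz'])
      (by rw [card_pair hxz]; norm_num)
    have h2 := h1.comp (![⟨x, by simp⟩, ⟨z, by simp⟩] : Fin 2 → ({x, z} : Finset V)) (by
      intro i j hij
      fin_cases i <;> fin_cases j <;> simp_all [hxz.symm])
    convert h2 using 1
    funext i
    fin_cases i <;> rfl
  obtain ⟨w, hw⟩ := exists_linearIndependent_cons_of_lt_finrank hli2 (by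
    rw [Module.finrank_fin_fun]; norm_num)
  set W := ins G (insert v U) with hW
  set W' := W \ SimpleGraph.edge v y with hW'
  set p0 : V → Fin 3 → ℝ := Function.update p v (p y) with hp0
  set p1 : V → Fin 3 → ℝ := Function.update 0 v w with hp1
  have hpv : p0 v = p y := Function.update_self _ _ _
  have hpn : ∀ a, a ≠ v → p0 a = p a := fun a ha => Function.update_of_ne ha _ _
  have hpU : ∀ a ∈ U, p0 a = p a := fun a ha => hpn a (fun h => hv (h ▸ ha))
  let L : (V → Fin 3 → ℝ) →ₗ[ℝ] ℝ := {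
    toFun := fun q => w ⬝ᵥ (q v - q y)
    map_add' := fun q q' => by
      simp only [Pi.add_apply]
      rw [← dotProduct_add]
      congr 1
      abel
    map_smul' := fun c q => by
      simp only [Pi.smul_apply, RingHom.id_apply]
      rw [← smul_sub, dotProduct_smul] }
  have hL : ∀ q, L q = w ⬝ᵥ (q v - q y) := fun q => rfl
  let f := (TA.rig W' p0).prod L
  let g := (TA.rig W' p1).prod (0 : (V → Fin 3 → ℝ) →ₗ[ℝ] ℝ)
  obtain ⟨s, hs0, hs⟩ : ∃ s : ℝ, s ≠ 0 ∧ Module.finrank ℝ (LinearMap.range f) ≤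
      Module.finrank ℝ (LinearMap.range (f + s • g)) := by
    have hfin := TA.rank_good f g
    obtain ⟨s, hs⟩ := (hfin.union (Set.finite_singleton (0 : ℝ))).infinite_compl.nonempty
    rw [Set.mem_compl_iff, Set.mem_union, not_or] at hs
    exact ⟨s, hs.2, not_lt.1 hs.1⟩
  have hfg : ∀ q, q ∈ LinearMap.ker (f + s • g) ↔
      q ∈ LinearMap.ker (TA.rig W' (p0 + s • p1)) ∧ w ⬝ᵥ (q v - q y) = 0 := by
    intro q
    rw [TA.rig_line, LinearMap.mem_ker, LinearMap.mem_ker]
    have : (f + s • g) q = ((TA.rig W' p0 + s • TA.rig W' p1) q, L q) := by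
      simp [f, g]
    rw [this, Prod.mk_eq_zero, hL]
  have hker0 : ∀ q, q ∈ LinearMap.ker f ↔
      q ∈ LinearMap.ker (TA.rig W' p0) ∧ w ⬝ᵥ (q v - q y) = 0 := by
    intro q
    rw [LinearMap.mem_ker, LinearMap.mem_ker]
    have : f q = (TA.rig W' p0 q, L q) := by simp [f]
    rw [this, Prod.mk_eq_zero, hL]
  -- the motions of the perturbed framework
  have hle : mo W (p0 + s • p1) ≤ Module.finrank ℝ (LinearMap.ker f) := by
    have h1 : Mot W (p0 + s • p1) ≤ LinearMap.ker (f + s • g) := by
      intro q hq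
      rw [hfg]
      rw [mem_mot] at hq
      refine ⟨(TA.mem_ker_rig _ _ _).2 fun a b hab => hq a b hab.1, ?_⟩
      have h2 := hq v y ⟨hvy, mem_insert_self _ _, mem_insert_of_mem hy⟩
      have h3 : (p0 + s • p1) v - (p0 + s • p1) y = s • w := by
        simp only [Pi.add_apply, Pi.smul_apply, hpv, hpU y hy, hp1, Function.update_self,
          Function.update_of_ne hyv, Pi.zero_apply, smul_zero]
        abel
      rw [h3, smul_dotProduct, smul_eq_mul, mul_eq_zero] at h2
      exact h2.resolve_left hs0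
    have h2 := Submodule.finrank_mono h1
    have e1 := LinearMap.finrank_range_add_finrank_ker f
    have e2 := LinearMap.finrank_range_add_finrank_ker (f + s • g)
    unfold mo
    omega
  have key : Module.finrank ℝ (LinearMap.ker f) + 3 ≤ mo (ins G' U) p := by
    have hq0 : ∀ q ∈ LinearMap.ker f, q v = q y := by
      intro q hq
      rw [hker0, TA.mem_ker_rig] at hq
      obtain ⟨hq, hqw⟩ := hq
      rw [← sub_eq_zero]
      refine eq_zero_of_orth hw (by simp) ?_
      have hcom : ∀ t, t ∈ U → t ≠ v → t ≠ y → G.Adj v t → G.Adj y t →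
          (p y - p t) ⬝ᵥ (q v - q y) = 0 := by
        intro t ht htv hty h1' h2'
        have h1 := hq v t ⟨⟨h1', mem_insert_self _ _, mem_insert_of_mem ht⟩, by
          rw [SimpleGraph.edge_adj]; tauto⟩
        have h2 := hq y t ⟨⟨h2', mem_insert_of_mem hy, mem_insert_of_mem ht⟩, by
          rw [SimpleGraph.edge_adj]; tauto⟩
        rw [hpv, hpU t ht] at h1
        rw [hpU y hy, hpU t ht] at h2
        have : q v - q y = (q v - q t) - (q y - q t) := by abel
        rw [this, dotProduct_sub, h1, h2, sub_zero]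
      intro i
      fin_cases i
      · exact hqw
      · exact hcom x hx hxv hyx'.symm hvx hyx
      · exact hcom z hz hzv hyz'.symm hvz hyz
    let D : (V → Fin 3 → ℝ) →ₗ[ℝ] (Fin 3 → ℝ) :=
      (LinearMap.proj (R := ℝ) (φ := fun _ : V => Fin 3 → ℝ) v) -
        (LinearMap.proj (R := ℝ) (φ := fun _ : V => Fin 3 → ℝ) y)
    have hD : ∀ q i, D q i = q v i - q y i := fun q i => rfl
    have := dim_gain (Mot (ins G' U) p) (LinearMap.ker f)
      (fun i : Fin 3 => (LinearMap.proj (R := ℝ) (φ := fun _ : Fin 3 => ℝ) i).comp D) ?_ ?_ ?_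
    · rw [Fintype.card_fin] at this
      exact this
    · intro q hq
      have hvy' := hq0 q hq
      rw [hker0, TA.mem_ker_rig] at hq
      obtain ⟨hq, -⟩ := hq
      rw [mem_mot]
      rintro a b ⟨hab, ha, hb⟩
      have hav : a ≠ v := fun h => hv (h ▸ ha)
      have hbv : b ≠ v := fun h => hv (h ▸ hb)
      have hab' := hab.ne
      rcases hG' a ha b hb hab with h | ⟨rfl, h⟩ | ⟨rfl, h⟩
      · have h1 := hq a b ⟨⟨h, mem_insert_of_mem ha, mem_insert_of_mem hb⟩, by
          rw [SimpleGraph.edge_adj]; tauto⟩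
        rwa [hpU a ha, hpU b hb] at h1
      · have h1 := hq v b ⟨⟨h, mem_insert_self _ _, mem_insert_of_mem hb⟩, by
          rw [SimpleGraph.edge_adj]; tauto⟩
        rwa [hpv, hpU b hb, hvy'] at h1
      · have h1 := hq a v ⟨⟨h.symm, mem_insert_of_mem ha, mem_insert_self _ _⟩, by
          rw [SimpleGraph.edge_adj]; tauto⟩
        rwa [hpv, hpU a ha, hvy'] at h1
    · intro q hq i
      have hvy' := hq0 q hq
      show D q i = 0
      rw [hD, hvy', sub_self]
    · intro c
      refine ⟨Pi.single v c, ?_, ?_⟩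
      · rw [mem_mot]
        rintro a b ⟨_, ha, hb⟩
        have ha' : a ≠ v := fun h => hv (h ▸ ha)
        have hb' : b ≠ v := fun h => hv (h ▸ hb)
        rw [Pi.single_eq_of_ne ha', Pi.single_eq_of_ne hb']
        simp
      · intro i
        show D _ i = c i
        rw [hD, Pi.single_eq_same, Pi.single_eq_of_ne hyv, Pi.zero_apply, sub_zero]
  have hmin := hp.min W (p0 + s • p1)
  have hfin := hmin.trans hle
  rw [hW] at hfin
  unfold ri at *
  rw [card_insert_of_notMem hv]
  omega

end Pool.Agent.Q126.RS
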