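import Pool.Agent.Q126.RS1

/-! Splitting a path of three vertices; rings. -/

set_option autoImplicit false
set_option linter.unusedSectionVars false

namespace Pool.Agent.Q126.RS

open Finset Matrix Pool.Agent.H789R5 Pool.Agent.H283R2.DR Pool.Agent.TH349.Rig Pool.Agent.TH409.RG

variable {V : Type}

/-- the vertex `s` is identified with `t` -/
def con (G : SimpleGraph V) (s t : V) : SimpleGraph V :=
  SimpleGraph.fromRel fun a b => G.Adj a b ∨ (a = t ∧ G.Adj s b)

theorem con_adj {G : SimpleGraph V} {s t a b : V} : (con G s t).Adj a b ↔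
    a ≠ b ∧ ((G.Adj a b ∨ (a = t ∧ G.Adj s b)) ∨ (G.Adj b a ∨ (b = t ∧ G.Adj s a))) := by
  unfold con
  rw [SimpleGraph.fromRel_adj]

theorem con_of {G : SimpleGraph V} {s t a b : V} (h : G.Adj a b) : (con G s t).Adj a b :=
  con_adj.2 ⟨h.ne, Or.inl (Or.inl h)⟩

variable [Fintype V]

open Classical in
theorem ri_con {p : V → Fin 3 → ℝ} (hp : MG p) {G : SimpleGraph V} {U : Finset V}
    {v y x z : V} (hv : v ∉ U) (hy : y ∈ U) (hx : x ∈ U) (hz : z ∈ U) (hxz : x ≠ z)
    (hvy : G.Adj v y) (hvx : G.Adj v x) (hyx : G.Adj y x) (hvz : G.Adj v z) (hyz : G.Adj y z)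
    (hr : ri p (con G v y) U) : ri p G (insert v U) := by
  refine ri_split hp hv hy hx hz hxz hvy hvx hyx hvz hyz ?_ hr
  intro a _ b _ hab
  rw [con_adj] at hab
  obtain ⟨-, (h | h) | (h | h)⟩ := hab
  · exact Or.inl h
  · exact Or.inr (Or.inl h)
  · exact Or.inl h.symm
  · exact Or.inr (Or.inr h)

open Classical in
/-- A path `a b c` is split into two paths `a b c` and `a' b' c'`. -/
theorem ri_column {p : V → Fin 3 → ℝ} (hp : MG p) {G G' : SimpleGraph V} {U : Finset V}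
    {a b c a' b' c' : V} (ha : a ∈ U) (hb : b ∈ U) (hc : c ∈ U) (hac : a ≠ c)
    (ha' : a' ∉ U) (hb' : b' ∉ U) (hc' : c' ∉ U)
    (n1 : a' ≠ b') (n2 : a' ≠ c') (n3 : b' ≠ c')
    (e1 : G.Adj a b) (e2 : G.Adj b c) (e3 : G.Adj a' b') (e4 : G.Adj b' c')
    (e5 : G.Adj a a') (e6 : G.Adj b b') (e7 : G.Adj c c') (e8 : G.Adj a b') (e9 : G.Adj a' b)
    (e10 : G.Adj b c') (e11 : G.Adj b' c)
    (h0 : ∀ u ∈ U, ∀ w ∈ U, G'.Adj u w → G.Adj u w ∨
      (u = a ∧ G.Adj a' w) ∨ (u = b ∧ G.Adj b' w) ∨ (u = c ∧ G.Adj c' w) ∨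
      (w = a ∧ G.Adj a' u) ∨ (w = b ∧ G.Adj b' u) ∨ (w = c ∧ G.Adj c' u))
    (hr : ri p G' U) : ri p G (insert c' (insert a' (insert b' U))) := by
  set G1 := con G c' c with hG1
  set G2 := con G1 a' a with hG2
  set G3 := con G2 b' b with hG3
  have i1 : ∀ {u w : V}, G.Adj u w → G1.Adj u w := fun h => con_of h
  have i2 : ∀ {u w : V}, G.Adj u w → G2.Adj u w := fun h => con_of (con_of h)
  have i3 : ∀ {u w : V}, G.Adj u w → G3.Adj u w := fun h => con_of (con_of (con_of h))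
  have hr3 : ri p G3 U := by
    refine ri_mono ?_ hr
    intro u hu w hw huw
    have hne := huw.ne
    have j1 : ∀ w, w ≠ c → G.Adj c' w → G1.Adj c w := fun w hne h =>
      con_adj.2 ⟨hne.symm, Or.inl (Or.inr ⟨rfl, h⟩)⟩
    have j2 : ∀ w, w ≠ a → G.Adj a' w → G2.Adj a w := fun w hne h =>
      con_adj.2 ⟨hne.symm, Or.inl (Or.inr ⟨rfl, con_of h⟩)⟩
    have j3 : ∀ w, w ≠ b → G.Adj b' w → G3.Adj b w := fun w hne h =>
      con_adj.2 ⟨hne.symm, Or.inl (Or.inr ⟨rfl, con_of (con_of h)⟩)⟩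
    rcases h0 u hu w hw huw with h | ⟨rfl, h⟩ | ⟨rfl, h⟩ | ⟨rfl, h⟩ | ⟨rfl, h⟩ | ⟨rfl, h⟩ |
      ⟨rfl, h⟩
    · exact i3 h
    · exact con_of (j2 w hne.symm h)
    · exact j3 w hne.symm h
    · exact con_of (con_of (j1 w hne.symm h))
    · exact (con_of (j2 u hne h)).symm
    · exact (j3 u hne h).symm
    · exact (con_of (con_of (j1 u hne h))).symm
  have hr2 : ri p G2 (insert b' U) :=
    ri_con hp hb' hb ha hc hac (i2 e6.symm) (i2 e8.symm) (i2 e1.symm) (i2 e11) (i2 e2) hr3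
  have hr1 : ri p G1 (insert a' (insert b' U)) := by
    refine ri_con hp (x := b) (z := b') ?_ (mem_insert_of_mem ha) (mem_insert_of_mem hb)
      (mem_insert_self _ _) e6.ne (i1 e5.symm) (i1 e9) (i1 e1) (i1 e3) (i1 e8) hr2
    rw [mem_insert, not_or]
    exact ⟨n1, ha'⟩
  refine ri_con hp (x := b) (z := b') ?_ (mem_insert_of_mem (mem_insert_of_mem hc))
    (mem_insert_of_mem (mem_insert_of_mem hb)) (mem_insert_of_mem (mem_insert_self _ _)) e6.ne
    e7.symm e10.symm e2.symm e4.symm e11.symm hr1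
  rw [mem_insert, mem_insert, not_or, not_or]
  exact ⟨n2.symm, n3.symm, hc'⟩

/-- The ring with `m` columns on the vertices `F i j`, `i < 3`, `j < m`. -/
def ring (F : ℕ → ℕ → V) (m : ℕ) : SimpleGraph V :=
  SimpleGraph.fromRel fun u w => ∃ i i' j j', i < 3 ∧ i' < 3 ∧ j < m ∧ j' < m ∧ u = F i j ∧
    w = F i' j' ∧ (i' = i ∨ i' = i + 1 ∨ i = i' + 1) ∧
    (j' = j ∨ j' = j + 1 ∨ (j = 0 ∧ j' + 1 = m))

theorem ring_adj {F : ℕ → ℕ → V} {k m : ℕ} (hmk : m ≤ k)
    (hF : ∀ i < 3, ∀ j < k, ∀ i' < 3, ∀ j' < k, F i j = F i' j' → i = i' ∧ j = j')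
    {i i' j j' : ℕ} (hi : i < 3) (hi' : i' < 3) (hj : j < m) (hj' : j' < m) :
    (ring F m).Adj (F i j) (F i' j') ↔ (i ≠ i' ∨ j ≠ j') ∧
      (i' = i ∨ i' = i + 1 ∨ i = i' + 1) ∧
      (j' = j ∨ j' = j + 1 ∨ j = j' + 1 ∨ (j = 0 ∧ j' + 1 = m) ∨ (j' = 0 ∧ j + 1 = m)) := by
  unfold ring
  rw [SimpleGraph.fromRel_adj]
  constructor
  · rintro ⟨hne, h⟩
    have hne' : i ≠ i' ∨ j ≠ j' := by
      by_contra hcon
      push Not at hcon
      exact hne (by rw [hcon.1, hcon.2])
    refine ⟨hne', ?_⟩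
    rcases h with ⟨i1, i2, j1, j2, a1, a2, a3, a4, a5, a6, a7, a8⟩ |
      ⟨i1, i2, j1, j2, a1, a2, a3, a4, a5, a6, a7, a8⟩
    · obtain ⟨rfl, rfl⟩ := hF i hi j (by omega) i1 a1 j1 (by omega) a5
      obtain ⟨rfl, rfl⟩ := hF i' hi' j' (by omega) i2 a2 j2 (by omega) a6
      exact ⟨a7, by omega⟩
    · obtain ⟨rfl, rfl⟩ := hF i' hi' j' (by omega) i1 a1 j1 (by omega) a5
      obtain ⟨rfl, rfl⟩ := hF i hi j (by omega) i2 a2 j2 (by omega) a6
      exact ⟨by omega, by omega⟩
  · rintro ⟨hne, h1, h2⟩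
    have hne' : F i j ≠ F i' j' := by
      intro h
      obtain ⟨rfl, rfl⟩ := hF i hi j (by omega) i' hi' j' (by omega) h
      omega
    refine ⟨hne', ?_⟩
    by_cases h3 : j' = j ∨ j' = j + 1 ∨ (j = 0 ∧ j' + 1 = m)
    · exact Or.inl ⟨i, i', j, j', hi, hi', hj, hj', rfl, rfl, h1, h3⟩
    · exact Or.inr ⟨i', i, j', j, hi', hi, hj', hj, rfl, rfl, by omega, by omega⟩

theorem ring_mem {F : ℕ → ℕ → V} {m : ℕ} {u w : V} (h : (ring F m).Adj u w) :
    ∃ i < 3, ∃ j < m, u = F i j := by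
  unfold ring at h
  rw [SimpleGraph.fromRel_adj] at h
  rcases h.2 with ⟨i1, i2, j1, j2, a1, a2, a3, a4, a5, a6, a7, a8⟩ |
      ⟨i1, i2, j1, j2, a1, a2, a3, a4, a5, a6, a7, a8⟩
  · exact ⟨i1, a1, j1, a3, a5⟩
  · exact ⟨i2, a2, j2, a4, a6⟩

open Classical in
/-- the vertices of the ring -/
noncomputable def cells (F : ℕ → ℕ → V) (m : ℕ) : Finset V :=
  ((range 3) ×ˢ (range m)).image fun x => F x.1 x.2

open Classical in
theorem mem_cells {F : ℕ → ℕ → V} {m : ℕ} {u : V} :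
    u ∈ cells F m ↔ ∃ i < 3, ∃ j < m, u = F i j := by
  unfold cells
  rw [mem_image]
  constructor
  · rintro ⟨⟨i, j⟩, h, rfl⟩
    rw [mem_product, mem_range, mem_range] at h
    exact ⟨i, h.1, j, h.2, rfl⟩
  · rintro ⟨i, hi, j, hj, rfl⟩
    exact ⟨(i, j), mem_product.2 ⟨mem_range.2 hi, mem_range.2 hj⟩, rfl⟩

/-- **Rings.** -/
theorem ri_ring {p : V → Fin 3 → ℝ} (hp : MG p) {F : ℕ → ℕ → V} {k : ℕ}
    (hF : ∀ i < 3, ∀ j < k, ∀ i' < 3, ∀ j' < k, F i j = F i' j' → i = i' ∧ j = j') (m : ℕ)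
    (hm : 3 ≤ m) : m ≤ k → ri p (ring F m) (cells F m) := by
  classical
  induction m, hm using Nat.le_induction with
  | base =>
    intro hk
    have hadj : ∀ {i i' j j' : ℕ}, i < 3 → i' < 3 → j < 3 → j' < 3 → (i ≠ i' ∨ j ≠ j') →
        (i' = i ∨ i' = i + 1 ∨ i = i' + 1) → (ring F 3).Adj (F i j) (F i' j') := by
      intro i i' j j' hi hi' hj hj' hne h
      rw [ring_adj hk hF hi hi' hj hj']
      exact ⟨hne, h, by omega⟩
    have h1 : ri p (ring F 3) {F 1 2, F 1 1, F 1 0} :=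
      ri_tri hp (hadj (by norm_num) (by norm_num) (by norm_num) (by norm_num) (Or.inr (by norm_num))
        (Or.inl rfl)) (hadj (by norm_num) (by norm_num) (by norm_num) (by norm_num)
        (Or.inr (by norm_num)) (Or.inl rfl)) (hadj (by norm_num) (by norm_num) (by norm_num)
        (by norm_num) (Or.inr (by norm_num)) (Or.inl rfl))
    have hne : ∀ {i i' j j' : ℕ}, i < 3 → i' < 3 → j < 3 → j' < 3 → (i ≠ i' ∨ j ≠ j') →
        F i j ≠ F i' j' := by
      intro i i' j j' hi hi' hj hj' hne h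
      obtain ⟨h1, h2⟩ := hF i hi j (by omega) i' hi' j' (by omega) h
      omega
    have h2 := ri_addall hp (Subset.refl _) (by
      rw [card_insert_of_notMem, card_insert_of_notMem, card_singleton]
      · rw [mem_singleton]
        exact hne (by norm_num) (by norm_num) (by norm_num) (by norm_num) (Or.inr (by norm_num))
      · rw [mem_insert, mem_singleton, not_or]
        exact ⟨hne (by norm_num) (by norm_num) (by norm_num) (by norm_num) (Or.inr (by norm_num)),
          hne (by norm_num) (by norm_num) (by norm_num) (by norm_num) (Or.inr (by norm_num))⟩)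
      (cells F 3) ?_ h1
    · have h3 : cells F 3 ∪ {F 1 2, F 1 1, F 1 0} = cells F 3 := by
        rw [union_eq_left]
        intro u hu
        rw [mem_insert, mem_insert, mem_singleton] at hu
        rw [mem_cells]
        rcases hu with rfl | rfl | rfl
        · exact ⟨1, by norm_num, 2, by norm_num, rfl⟩
        · exact ⟨1, by norm_num, 1, by norm_num, rfl⟩
        · exact ⟨1, by norm_num, 0, by norm_num, rfl⟩
      rw [h3] at h2
      exact h2
    · intro u hu hnu z hz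
      obtain ⟨i, hi, j, hj, rfl⟩ := mem_cells.1 hu
      have hi1 : i ≠ 1 := by
        rintro rfl
        apply hnu
        rw [mem_insert, mem_insert, mem_singleton]
        interval_cases j
        · exact Or.inr (Or.inr rfl)
        · exact Or.inr (Or.inl rfl)
        · exact Or.inl rfl
      rw [mem_insert, mem_insert, mem_singleton] at hz
      rcases hz with rfl | rfl | rfl
      · exact hadj hi (by norm_num) hj (by norm_num) (Or.inl hi1) (by omega)
      · exact hadj hi (by norm_num) hj (by norm_num) (Or.inl hi1) (by omega)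
      · exact hadj hi (by norm_num) hj (by norm_num) (Or.inl hi1) (by omega)
  | succ m hm ih =>
    intro hk
    have hr := ih (by omega)
    have hA : ∀ {i i' j j' : ℕ}, i < 3 → i' < 3 → j < m + 1 → j' < m + 1 →
        ((ring F (m + 1)).Adj (F i j) (F i' j') ↔ (i ≠ i' ∨ j ≠ j') ∧
      (i' = i ∨ i' = i + 1 ∨ i = i' + 1) ∧
      (j' = j ∨ j' = j + 1 ∨ j = j' + 1 ∨ (j = 0 ∧ j' + 1 = m + 1) ∨
        (j' = 0 ∧ j + 1 = m + 1))) := fun hi hi' hj hj' => ring_adj hk hF hi hi' hj hj'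
    have hnot : ∀ i < 3, F i m ∉ cells F m := by
      intro i hi h
      obtain ⟨i', hi', j', hj', h⟩ := mem_cells.1 h
      have := (hF i hi m (by omega) i' hi' j' (by omega) h).2
      omega
    have hin : ∀ i < 3, F i (m - 1) ∈ cells F m := fun i hi =>
      mem_cells.2 ⟨i, hi, m - 1, by omega, rfl⟩
    have hne : ∀ {i i' j j' : ℕ}, i < 3 → i' < 3 → j < m + 1 → j' < m + 1 → (i ≠ i' ∨ j ≠ j') →
        F i j ≠ F i' j' := by
      intro i i' j j' hi hi' hj hj' hne h
      obtain ⟨h1, h2⟩ := hF i hi j (by omega) i' hi' j' (by omega) h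
      omega
    have hset : insert (F 2 m) (insert (F 0 m) (insert (F 1 m) (cells F m))) =
        cells F (m + 1) := by
      ext u
      rw [mem_insert, mem_insert, mem_insert, mem_cells, mem_cells]
      constructor
      · rintro (rfl | rfl | rfl | ⟨i, hi, j, hj, rfl⟩)
        · exact ⟨2, by norm_num, m, by omega, rfl⟩
        · exact ⟨0, by norm_num, m, by omega, rfl⟩
        · exact ⟨1, by norm_num, m, by omega, rfl⟩
        · exact ⟨i, hi, j, by omega, rfl⟩
      · rintro ⟨i, hi, j, hj, rfl⟩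
        by_cases hjm : j = m
        · subst hjm
          interval_cases i
          · exact Or.inr (Or.inl rfl)
          · exact Or.inr (Or.inr (Or.inl rfl))
          · exact Or.inl rfl
        · exact Or.inr (Or.inr (Or.inr ⟨i, hi, j, by omega, rfl⟩))
    rw [← hset]
    have l0 : 0 < 3 := by norm_num
    have l1 : 1 < 3 := by norm_num
    have l2 : 2 < 3 := by norm_num
    refine ri_column hp (a := F 0 (m - 1)) (b := F 1 (m - 1)) (c := F 2 (m - 1))
      (G' := ring F m) (hin 0 l0) (hin 1 l1) (hin 2 l2)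
      (hne l0 l2 (by omega) (by omega) (Or.inl (by norm_num)))
      (hnot 0 l0) (hnot 1 l1) (hnot 2 l2)
      (hne l0 l1 (by omega) (by omega) (Or.inl (by norm_num)))
      (hne l0 l2 (by omega) (by omega) (Or.inl (by norm_num)))
      (hne l1 l2 (by omega) (by omega) (Or.inl (by norm_num)))
      ((hA l0 l1 (by omega) (by omega)).2 ⟨by omega, by omega, by omega⟩)
      ((hA l1 l2 (by omega) (by omega)).2 ⟨by omega, by omega, by omega⟩)
      ((hA l0 l1 (by omega) (by omega)).2 ⟨by omega, by omega, by omega⟩)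
      ((hA l1 l2 (by omega) (by omega)).2 ⟨by omega, by omega, by omega⟩)
      ((hA l0 l0 (by omega) (by omega)).2 ⟨by omega, by omega, by omega⟩)
      ((hA l1 l1 (by omega) (by omega)).2 ⟨by omega, by omega, by omega⟩)
      ((hA l2 l2 (by omega) (by omega)).2 ⟨by omega, by omega, by omega⟩)
      ((hA l0 l1 (by omega) (by omega)).2 ⟨by omega, by omega, by omega⟩)
      ((hA l0 l1 (by omega) (by omega)).2 ⟨by omega, by omega, by omega⟩)
      ((hA l1 l2 (by omega) (by omega)).2 ⟨by omega, by omega, by omega⟩)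
      ((hA l1 l2 (by omega) (by omega)).2 ⟨by omega, by omega, by omega⟩) ?_ hr
    intro u hu w hw huw
    obtain ⟨i, hi, j, hj, rfl⟩ := mem_cells.1 hu
    obtain ⟨i', hi', j', hj', rfl⟩ := mem_cells.1 hw
    rw [ring_adj (by omega) hF hi hi' hj hj'] at huw
    obtain ⟨h1, h2, h3⟩ := huw
    by_cases hcase : (j = 0 ∧ j' + 1 = m) ∨ (j' = 0 ∧ j + 1 = m)
    · right
      rcases hcase with ⟨rfl, hj1⟩ | ⟨rfl, hj1⟩
      · obtain rfl : j' = m - 1 := by omega
        have key : (ring F (m + 1)).Adj (F i' m) (F i 0) := by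
          rw [hA hi' hi (by omega) (by omega)]
          exact ⟨by omega, by omega, by omega⟩
        interval_cases i'
        · exact Or.inr (Or.inr (Or.inr (Or.inl ⟨rfl, key⟩)))
        · exact Or.inr (Or.inr (Or.inr (Or.inr (Or.inl ⟨rfl, key⟩))))
        · exact Or.inr (Or.inr (Or.inr (Or.inr (Or.inr ⟨rfl, key⟩))))
      · obtain rfl : j = m - 1 := by omega
        have key : (ring F (m + 1)).Adj (F i m) (F i' 0) := by
          rw [hA hi hi' (by omega) (by omega)]
          exact ⟨by omega, by omega, by omega⟩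
        interval_cases i
        · exact Or.inl ⟨rfl, key⟩
        · exact Or.inr (Or.inl ⟨rfl, key⟩)
        · exact Or.inr (Or.inr (Or.inl ⟨rfl, key⟩))
    · left
      rw [hA hi hi' (by omega) (by omega)]
      exact ⟨h1, h2, by omega⟩

end Pool.Agent.Q126.RS
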