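import Pool.Agent.Q126.RS2
import Pool.Agent.TH349.Rig.Count

/-! Strong products: growing, bases. -/

set_option autoImplicit false
set_option linter.unusedSectionVars false

namespace Pool.Agent.Q126.RS

open Finset Matrix Pool.Agent.H789R5 Pool.Agent.H283R2.DR Pool.Agent.TH349.Rig Pool.Agent.TH409.RG

variable {V : Type} [Fintype V]

/-- the graph has at most `t` degrees of freedom on the set `U` -/
def rt (t : ℕ) (p : V → Fin 3 → ℝ) (G : SimpleGraph V) (U : Finset V) : Prop :=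
  mo (ins G U) p + 3 * U.card ≤ 6 + t + 3 * Fintype.card V

theorem rt_of_ri {p : V → Fin 3 → ℝ} {G : SimpleGraph V} {U : Finset V} (h : ri p G U) :
    rt 0 p G U := h

open Classical in
theorem rt_add {t : ℕ} {p : V → Fin 3 → ℝ} (hp : MG p) {G : SimpleGraph V} {U T : Finset V} {v : V}
    (hv : v ∉ U) (hTU : T ⊆ U) (hT : T.card = 3) (hadj : ∀ z ∈ T, G.Adj v z)
    (hr : rt t p G U) : rt t p G (insert v U) := by
  have h1 := mo_step hp hv hTU hT.le hadj
  unfold rt at *
  rw [card_insert_of_notMem hv]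
  omega

open Classical in
theorem rt_add_all {t : ℕ} {p : V → Fin 3 → ℝ} (hp : MG p) {G : SimpleGraph V} {U : Finset V}
    (B : Finset V) (hB : ∀ v ∈ B, v ∉ U → ∃ T ⊆ U, T.card = 3 ∧ ∀ z ∈ T, G.Adj v z)
    (hr : rt t p G U) : rt t p G (B ∪ U) := by
  induction B using Finset.induction_on with
  | empty => simpa using hr
  | insert b B hb ih =>
    have h1 := ih (fun v hv => hB v (mem_insert_of_mem hv))
    rw [insert_union]
    by_cases hbU : b ∈ B ∪ U
    · rw [insert_eq_of_mem hbU]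
      exact h1
    · have hbU' : b ∉ U := fun h => hbU (mem_union_right _ h)
      obtain ⟨T, hT1, hT2, hT3⟩ := hB b (mem_insert_self _ _) hbU'
      exact rt_add hp hbU (hT1.trans subset_union_right) hT2 hT3 h1

/-- two neighbours in a set -/
def TwoN {α : Type} (G : SimpleGraph α) (A : Finset α) (a : α) : Prop :=
  ∃ x ∈ A, ∃ y ∈ A, x ≠ y ∧ G.Adj a x ∧ G.Adj a y

/-- each vertex of the set, or a neighbour of it in the set, has two neighbours in the set -/
def Big {α : Type} (G : SimpleGraph α) (A : Finset α) : Prop :=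
  ∀ a ∈ A, TwoN G A a ∨ ∃ b ∈ A, G.Adj a b ∧ TwoN G A b

/-- the graph `K` contains the strong product of `G` and `H`, placed by the injection `e` -/
structure Emb {α β : Type} (G : SimpleGraph α) (H : SimpleGraph β) (K : SimpleGraph V)
    (e : α → β → V) : Prop where
  inj : ∀ a b a' b', e a b = e a' b' → a = a' ∧ b = b'
  adj : ∀ a b a' b', (a ≠ a' ∨ b ≠ b') → (a = a' ∨ G.Adj a a') → (b = b' ∨ H.Adj b b') →
    K.Adj (e a b) (e a' b')

theorem Emb.swap {α β : Type} {G : SimpleGraph α} {H : SimpleGraph β} {K : SimpleGraph V}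
    {e : α → β → V} (h : Emb G H K e) : Emb H G K (fun b a => e a b) := by
  constructor
  · intro a b a' b' h1
    exact (h.inj _ _ _ _ h1).symm
  · intro a b a' b' h1 h2 h3
    exact h.adj _ _ _ _ h1.symm h3 h2

open Classical in
/-- the box of two sets -/
noncomputable def bx {α β : Type} (e : α → β → V) (A : Finset α) (S : Finset β) : Finset V :=
  (A ×ˢ S).image fun x => e x.1 x.2

open Classical in
theorem mem_bx {α β : Type} {e : α → β → V} {A : Finset α} {S : Finset β} {v : V} :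
    v ∈ bx e A S ↔ ∃ a ∈ A, ∃ b ∈ S, v = e a b := by
  unfold bx
  rw [mem_image]
  constructor
  · rintro ⟨⟨a, b⟩, h, rfl⟩
    rw [mem_product] at h
    exact ⟨a, h.1, b, h.2, rfl⟩
  · rintro ⟨a, ha, b, hb, rfl⟩
    exact ⟨(a, b), mem_product.2 ⟨ha, hb⟩, rfl⟩

theorem bx_swap {α β : Type} {e : α → β → V} {A : Finset α} {S : Finset β} :
    bx (fun b a => e a b) S A = bx e A S := by
  ext v
  rw [mem_bx, mem_bx]
  constructor
  · rintro ⟨b, hb, a, ha, rfl⟩
    exact ⟨a, ha, b, hb, rfl⟩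
  · rintro ⟨a, ha, b, hb, rfl⟩
    exact ⟨b, hb, a, ha, rfl⟩

open Classical in
/-- one more column -/
theorem grow_one {t : ℕ} {p : V → Fin 3 → ℝ} (hp : MG p) {α β : Type} {G : SimpleGraph α}
    {H : SimpleGraph β} {K : SimpleGraph V} {e : α → β → V} (he : Emb G H K e) {A : Finset α}
    (hA : Big G A) {S : Finset β} {b₀ b : β} (hb₀ : b₀ ∈ S) (hb : b ∉ S) (hbb : H.Adj b b₀)
    (hr : rt t p K (bx e A S)) : rt t p K (bx e A (insert b S)) := by
  have hne : b ≠ b₀ := hbb.ne
  have hcard : ∀ u v w : V, u ≠ v → u ≠ w → v ≠ w → ({u, v, w} : Finset V).card = 3 := by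
    intro u v w h1 h2 h3
    rw [card_insert_of_notMem, card_pair h3]
    rw [mem_insert, mem_singleton, not_or]
    exact ⟨h1, h2⟩
  have h1 : rt t p K ((bx e (A.filter (TwoN G A)) {b}) ∪ bx e A S) := by
    refine rt_add_all hp _ ?_ hr
    intro v hv _
    obtain ⟨a, ha, b', hb', rfl⟩ := mem_bx.1 hv
    rw [mem_singleton] at hb'
    subst hb'
    rw [mem_filter] at ha
    obtain ⟨ha, x, hx, y, hy, hxy, hax, hay⟩ := ha
    refine ⟨{e a b₀, e x b₀, e y b₀}, ?_, ?_, ?_⟩
    · intro z hz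
      rw [mem_insert, mem_insert, mem_singleton] at hz
      rw [mem_bx]
      rcases hz with rfl | rfl | rfl
      · exact ⟨a, ha, b₀, hb₀, rfl⟩
      · exact ⟨x, hx, b₀, hb₀, rfl⟩
      · exact ⟨y, hy, b₀, hb₀, rfl⟩
    · exact hcard _ _ _ (fun h => hax.ne (he.inj _ _ _ _ h).1) (fun h => hay.ne (he.inj _ _ _ _ h).1)
        (fun h => hxy (he.inj _ _ _ _ h).1)
    · intro z hz
      rw [mem_insert, mem_insert, mem_singleton] at hz
      rcases hz with rfl | rfl | rfl
      · exact he.adj _ _ _ _ (Or.inr hne) (Or.inl rfl) (Or.inr hbb)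
      · exact he.adj _ _ _ _ (Or.inr hne) (Or.inr hax) (Or.inr hbb)
      · exact he.adj _ _ _ _ (Or.inr hne) (Or.inr hay) (Or.inr hbb)
  have h2 : rt t p K ((bx e A {b}) ∪ ((bx e (A.filter (TwoN G A)) {b}) ∪ bx e A S)) := by
    refine rt_add_all hp _ ?_ h1
    intro v hv hvn
    obtain ⟨a, ha, b', hb', rfl⟩ := mem_bx.1 hv
    rw [mem_singleton] at hb'
    subst hb'
    have hnT : ¬ TwoN G A a := by
      intro hT
      apply hvn
      rw [mem_union]
      left
      exact mem_bx.2 ⟨a, mem_filter.2 ⟨ha, hT⟩, _, mem_singleton_self _, rfl⟩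
    obtain ⟨a₁, ha₁, haa, hT₁⟩ := (hA a ha).resolve_left hnT
    refine ⟨{e a b₀, e a₁ b₀, e a₁ b'}, ?_, ?_, ?_⟩
    · intro z hz
      rw [mem_insert, mem_insert, mem_singleton] at hz
      rw [mem_union, mem_bx, mem_bx]
      rcases hz with rfl | rfl | rfl
      · exact Or.inr ⟨a, ha, b₀, hb₀, rfl⟩
      · exact Or.inr ⟨a₁, ha₁, b₀, hb₀, rfl⟩
      · exact Or.inl ⟨a₁, mem_filter.2 ⟨ha₁, hT₁⟩, b', mem_singleton_self _, rfl⟩
    · exact hcard _ _ _ (fun h => haa.ne (he.inj _ _ _ _ h).1)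
        (fun h => haa.ne (he.inj _ _ _ _ h).1) (fun h => hne (he.inj _ _ _ _ h).2.symm)
    · intro z hz
      rw [mem_insert, mem_insert, mem_singleton] at hz
      rcases hz with rfl | rfl | rfl
      · exact he.adj _ _ _ _ (Or.inr hne) (Or.inl rfl) (Or.inr hbb)
      · exact he.adj _ _ _ _ (Or.inr hne) (Or.inr haa) (Or.inr hbb)
      · exact he.adj _ _ _ _ (Or.inl haa.ne) (Or.inr haa) (Or.inl rfl)
  have h3 : (bx e A {b}) ∪ ((bx e (A.filter (TwoN G A)) {b}) ∪ bx e A S) =
      bx e A (insert b S) := by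
    ext v
    rw [mem_union, mem_union, mem_bx, mem_bx, mem_bx, mem_bx]
    constructor
    · rintro (⟨a, ha, b', hb', rfl⟩ | ⟨a, ha, b', hb', rfl⟩ | ⟨a, ha, b', hb', rfl⟩)
      · exact ⟨a, ha, b', mem_insert.2 (Or.inl (mem_singleton.1 hb')), rfl⟩
      · exact ⟨a, (mem_filter.1 ha).1, b', mem_insert.2 (Or.inl (mem_singleton.1 hb')), rfl⟩
      · exact ⟨a, ha, b', mem_insert_of_mem hb', rfl⟩
    · rintro ⟨a, ha, b', hb', rfl⟩
      rcases mem_insert.1 hb' with h | h
      · exact Or.inl ⟨a, ha, b', mem_singleton.2 h, rfl⟩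
      · exact Or.inr (Or.inr ⟨a, ha, b', h, rfl⟩)
  rw [h3] at h2
  exact h2

open Classical in
/-- all columns -/
theorem grow_all {t : ℕ} {p : V → Fin 3 → ℝ} (hp : MG p) {α β : Type} [Fintype β]
    {G : SimpleGraph α} {H : SimpleGraph β} (hH : H.Connected) {K : SimpleGraph V} {e : α → β → V}
    (he : Emb G H K e) {A : Finset α} (hA : Big G A) (n : ℕ) : ∀ S : Finset β, S.Nonempty →
    Sᶜ.card = n → rt t p K (bx e A S) → rt t p K (bx e A univ) := by
  induction n with
  | zero =>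
    intro S _ hn hr
    rw [card_eq_zero] at hn
    have : S = univ := by rwa [compl_eq_empty_iff] at hn
    rwa [this] at hr
  | succ n ih =>
    intro S hS hn hr
    obtain ⟨b₁, hb₁⟩ := hS
    obtain ⟨b₂, hb₂⟩ : (Sᶜ).Nonempty := by
      rw [← card_pos]; omega
    rw [mem_compl] at hb₂
    obtain ⟨w⟩ := hH.preconnected b₁ b₂
    obtain ⟨d, -, hd1, hd2⟩ := w.exists_boundary_dart (S : Set β) (mem_coe.2 hb₁)
      (fun hc => hb₂ (mem_coe.1 hc))
    have hd2' : d.snd ∉ S := fun hc => hd2 (mem_coe.2 hc)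
    refine ih (insert d.snd S) ⟨_, mem_insert_self _ _⟩ ?_
      (grow_one hp he hA (mem_coe.1 hd1) hd2' d.adj.symm hr)
    rw [compl_insert, card_erase_of_mem (mem_compl.2 hd2'), hn]
    rfl

open Classical in
/-- both directions -/
theorem grow_both {t : ℕ} {p : V → Fin 3 → ℝ} (hp : MG p) {α β : Type} [Fintype α] [Fintype β]
    {G : SimpleGraph α} {H : SimpleGraph β} (hG : G.Connected) (hH : H.Connected)
    (hHb : Big H univ) {K : SimpleGraph V} {e : α → β → V}
    (he : Emb G H K e) {A : Finset α} (hA : Big G A) (hA0 : A.Nonempty) {S : Finset β}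
    (hS0 : S.Nonempty) (hr : rt t p K (bx e A S)) : rt t p K (bx e univ univ) := by
  have h1 := grow_all hp hH he hA _ S hS0 rfl hr
  have h2 := grow_all hp hG he.swap hHb _ A hA0 rfl (by rw [bx_swap]; exact h1)
  rw [bx_swap] at h2
  exact h2

theorem exists_two {α : Type} [Fintype α] {G : SimpleGraph α} (hG : G.Connected)
    (h3 : 3 ≤ Fintype.card α) (a : α) : TwoN G univ a ∨ ∃ b, G.Adj a b ∧ TwoN G univ b := by
  classical
  have hadj : ∀ S : Finset α, S.Nonempty → S.card < Fintype.card α →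
      ∃ x ∈ S, ∃ y ∉ S, G.Adj x y := by
    intro S ⟨b₁, hb₁⟩ hc
    obtain ⟨b₂, -, hb₂⟩ := exists_mem_notMem_of_card_lt_card (by rw [card_univ]; exact hc :
      S.card < (univ : Finset α).card)
    obtain ⟨w⟩ := hG.preconnected b₁ b₂
    obtain ⟨d, -, hd1, hd2⟩ := w.exists_boundary_dart (S : Set α) (mem_coe.2 hb₁)
      (fun hc => hb₂ (mem_coe.1 hc))
    exact ⟨d.fst, mem_coe.1 hd1, d.snd, fun hc => hd2 (mem_coe.2 hc), d.adj⟩
  obtain ⟨x, hx, b, hb, hxb⟩ := hadj {a} ⟨a, mem_singleton_self _⟩ (by rw [card_singleton]; omega)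
  rw [mem_singleton] at hx hb
  subst hx
  obtain ⟨y, hy, c, hc, hyc⟩ := hadj {x, b} ⟨x, mem_insert_self _ _⟩ (by
    rw [card_pair hxb.ne]; omega)
  rw [mem_insert, mem_singleton] at hy
  rw [mem_insert, mem_singleton, not_or] at hc
  rcases hy with rfl | rfl
  · exact Or.inl ⟨b, mem_univ _, c, mem_univ _, fun h => hc.2 h.symm, hxb, hyc⟩
  · exact Or.inr ⟨y, hxb, x, mem_univ _, c, mem_univ _, fun h => hc.1 h.symm, hxb.symm, hyc⟩

theorem big_univ {α : Type} [Fintype α] {G : SimpleGraph α} (hG : G.Connected)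
    (h3 : 3 ≤ Fintype.card α) : Big G univ := by
  intro a _
  rcases exists_two hG h3 a with h | ⟨b, h1, h2⟩
  · exact Or.inl h
  · exact Or.inr ⟨b, mem_univ _, h1, h2⟩

/-- a path of three vertices -/
theorem exists_path3 {α : Type} [Fintype α] {G : SimpleGraph α} (hG : G.Connected)
    (h3 : 3 ≤ Fintype.card α) : ∃ x c y : α, x ≠ y ∧ G.Adj c x ∧ G.Adj c y := by
  have h0 : Nonempty α := hG.nonempty
  obtain ⟨a⟩ := h0
  rcases exists_two hG h3 a with ⟨x, -, y, -, h⟩ | ⟨b, -, ⟨x, -, y, -, h⟩⟩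
  · exact ⟨x, a, y, h⟩
  · exact ⟨x, b, y, h⟩

/-- a tree with four vertices -/
theorem exists_four {α : Type} [Fintype α] {G : SimpleGraph α} (hG : G.Connected)
    (h4 : 4 ≤ Fintype.card α) :
    (∃ f : ℕ → α, (∀ i < 4, ∀ j < 4, f i = f j → i = j) ∧ G.Adj (f 0) (f 1) ∧ G.Adj (f 1) (f 2) ∧
      G.Adj (f 2) (f 3)) ∨
    (∃ f : ℕ → α, (∀ i < 4, ∀ j < 4, f i = f j → i = j) ∧ G.Adj (f 0) (f 1) ∧ G.Adj (f 0) (f 2) ∧
      G.Adj (f 0) (f 3)) := by
  classical
  obtain ⟨x, c, y, hxy, hcx, hcy⟩ := exists_path3 hG (by omega)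
  obtain ⟨b₂, -, hb₂⟩ := exists_mem_notMem_of_card_lt_card (s := ({x, c, y} : Finset α))
    (t := (univ : Finset α)) (by
      rw [card_univ]
      exact lt_of_le_of_lt card_le_three (by omega))
  obtain ⟨w⟩ := hG.preconnected x b₂
  obtain ⟨d, -, hd1, hd2⟩ := w.exists_boundary_dart (({x, c, y} : Finset α) : Set α)
    (mem_coe.2 (mem_insert_self _ _)) (fun hc => hb₂ (mem_coe.1 hc))
  rw [mem_coe, mem_insert, mem_insert, mem_singleton] at hd1 hd2
  obtain ⟨⟨u, z⟩, hd⟩ := d
  simp only at hd1 hd2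
  have hd' : G.Adj u z := hd
  push Not at hd2
  obtain ⟨z1, z2, z3⟩ := hd2
  have hinj : ∀ a b c d : α, a ≠ b → a ≠ c → a ≠ d → b ≠ c → b ≠ d → c ≠ d →
      ∀ i < 4, ∀ j < 4, (fun n : ℕ => if n = 0 then a else if n = 1 then b else
        if n = 2 then c else d) i = (fun n : ℕ => if n = 0 then a else if n = 1 then b else
        if n = 2 then c else d) j → i = j := by
    intro a b c d h1 h2 h3 h4 h5 h6 i hi j hj hij
    interval_cases i <;> interval_cases j <;> simp_all
  rcases hd1 with rfl | rfl | rfl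
  · left
    refine ⟨fun n => if n = 0 then z else if n = 1 then u else if n = 2 then c else y,
      hinj z u c y z1 z2 z3 hcx.ne' hxy hcy.ne, ?_, ?_, ?_⟩
    · simpa using hd'.symm
    · simpa using hcx.symm
    · simpa using hcy
  · right
    refine ⟨fun n => if n = 0 then u else if n = 1 then x else if n = 2 then y else z,
      hinj u x y z hcx.ne hcy.ne z2.symm hxy z1.symm z3.symm, ?_, ?_, ?_⟩
    · simpa using hcx
    · simpa using hcy
    · simpa using hd'
  · left
    refine ⟨fun n => if n = 0 then z else if n = 1 then u else if n = 2 then c else x,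
      hinj z u c x z3 z2 z1 hcy.ne' hxy.symm hcx.ne, ?_, ?_, ?_⟩
    · simpa using hd'.symm
    · simpa using hcy.symm
    · simpa using hcx

/-- a cycle -/
theorem exists_ring {β : Type} {H : SimpleGraph β} (hH : ¬ H.IsAcyclic) :
    ∃ (k : ℕ) (g : ℕ → β), 3 ≤ k ∧ (∀ i < k, ∀ j < k, g i = g j → i = j) ∧
      (∀ i, i + 1 < k → H.Adj (g i) (g (i + 1))) ∧ H.Adj (g (k - 1)) (g 0) := by
  unfold SimpleGraph.IsAcyclic at hH
  push Not at hH
  obtain ⟨v, w, hw⟩ := hH
  have h3 := hw.three_le_length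
  refine ⟨w.length, w.getVert, h3, ?_, ?_, ?_⟩
  · intro i hi j hj hij
    exact hw.getVert_injOn' (by simp only [Set.mem_ofPred_eq]; omega)
      (by simp only [Set.mem_ofPred_eq]; omega) hij
  · intro i hi
    exact w.adj_getVert_succ (by omega)
  · have h1 := w.adj_getVert_succ (i := w.length - 1) (by omega)
    have h2 : w.length - 1 + 1 = w.length := by omega
    rw [h2, w.getVert_length] at h1
    rw [w.getVert_zero]
    exact h1

end Pool.Agent.Q126.RS
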