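import Pool.Agent.Q126.RS3

/-! Strong products: the products of trees with four vertices. -/

set_option autoImplicit false
set_option linter.unusedSectionVars false

namespace Pool.Agent.Q126.RS

open Finset Matrix Pool.Agent.H789R5 Pool.Agent.H283R2.DR Pool.Agent.TH349.Rig Pool.Agent.TH409.RG

open Classical in
/-- the graph with the adjacencies `T` on the set `S` is rigid whenever it is contained in a graph -/
def RigT (T : ℕ → ℕ → Bool) (S : Finset ℕ) : Prop :=
  ∀ (V : Type) [Fintype V] (p : V → Fin 3 → ℝ), MG p → ∀ (G : SimpleGraph V)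
    (φ : ℕ → V), (∀ i < 16, ∀ j < 16, φ i = φ j → i = j) →
    (∀ i < 16, ∀ j < 16, T i j = true → G.Adj (φ i) (φ j)) → ri p G (S.image φ)

open Classical in
theorem RigT.e0 {T : ℕ → ℕ → Bool} {S : Finset ℕ} (h : RigT T S) (i : ℕ) (N : Finset ℕ)
    (hi : i < 16) (hS : S ⊆ range 16) (hiS : i ∉ S) (hN : N ⊆ S) (hc : N.card = 3)
    (hT : ∀ z ∈ N, T i z = true) : RigT T (insert i S) := by
  intro V _ p hp G φ hφ hG
  have hS' : ∀ z ∈ S, z < 16 := fun z hz => mem_range.1 (hS hz)
  have h1 := h V p hp G φ hφ hG
  have hinj : Set.InjOn φ N := fun a ha b hb hab =>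
    hφ a (hS' a (hN ha)) b (hS' b (hN hb)) hab
  rw [image_insert]
  have h2 := ri_ext0 hp (G := G) (U := S.image φ) (T := N.image φ) (v := φ i) (by
      intro hc'
      obtain ⟨z, hz, hzi⟩ := mem_image.1 hc'
      exact hiS (hφ z (hS' z hz) i hi hzi ▸ hz))
    (image_subset_image hN) (by rw [card_image_of_injOn hinj, hc]) (by
      intro z hz
      obtain ⟨y, hy, rfl⟩ := mem_image.1 hz
      exact hG i hi y (hS' y (hN hy)) (hT y hy)) h1
  exact h2

/-- an edge is added -/
def addE (T : ℕ → ℕ → Bool) (x y : ℕ) : ℕ → ℕ → Bool := fun i j =>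
  T i j || (decide (i = x) && decide (j = y)) || (decide (i = y) && decide (j = x))

open Classical in
theorem RigT.e1 {T : ℕ → ℕ → Bool} {S : Finset ℕ} {x y : ℕ} (h : RigT (addE T x y) S) (i : ℕ)
    (N : Finset ℕ) (hi : i < 16) (hS : S ⊆ range 16) (hiS : i ∉ S) (hN : N ⊆ S)
    (hc : N.card = 4) (hT : ∀ z ∈ N, T i z = true) (hx : x ∈ N) (hy : y ∈ N) (hxy : x ≠ y) :
    RigT T (insert i S) := by
  intro V _ p hp G φ hφ hG
  have hS' : ∀ z ∈ S, z < 16 := fun z hz => mem_range.1 (hS hz)
  have hx' := hS' x (hN hx)
  have hy' := hS' y (hN hy)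
  have hne : φ x ≠ φ y := fun h => hxy (hφ x hx' y hy' h)
  have h1 := h V p hp (G ⊔ SimpleGraph.edge (φ x) (φ y)) φ hφ (by
    intro a ha b hb hab
    unfold addE at hab
    rw [Bool.or_eq_true, Bool.or_eq_true, Bool.and_eq_true, Bool.and_eq_true] at hab
    simp only [decide_eq_true_eq] at hab
    rw [SimpleGraph.sup_adj, SimpleGraph.edge_adj]
    rcases hab with (hab | ⟨rfl, rfl⟩) | ⟨rfl, rfl⟩
    · exact Or.inl (hG a ha b hb hab)
    · exact Or.inr ⟨Or.inl ⟨rfl, rfl⟩, hne⟩
    · exact Or.inr ⟨Or.inr ⟨rfl, rfl⟩, hne.symm⟩)
  have hinj : Set.InjOn φ N := fun a ha b hb hab =>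
    hφ a (hS' a (hN ha)) b (hS' b (hN hb)) hab
  rw [image_insert]
  have h2 := ri_ext1 hp (G := G) (U := S.image φ) (N := N.image φ) (v := φ i) (x := φ x)
    (y := φ y) (by
      intro hc'
      obtain ⟨z, hz, hzi⟩ := mem_image.1 hc'
      exact hiS (hφ z (hS' z hz) i hi hzi ▸ hz))
    (image_subset_image hN) (by rw [card_image_of_injOn hinj, hc]) (by
      intro z hz
      obtain ⟨y, hy, rfl⟩ := mem_image.1 hz
      exact hG i hi y (hS' y (hN hy)) (hT y hy)) (mem_image_of_mem _ hx) (mem_image_of_mem _ hy)
    hne h1
  exact h2

open Classical in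
theorem RigT.tri {T : ℕ → ℕ → Bool} {x y z : ℕ} (hx : x < 16) (hy : y < 16) (hz : z < 16)
    (h1 : T x y = true) (h2 : T x z = true) (h3 : T y z = true) : RigT T {z, y, x} := by
  intro V _ p hp G φ hφ hG
  have h := ri_tri hp (hG x hx y hy h1) (hG x hx z hz h2) (hG y hy z hz h3)
  rw [image_insert, image_insert, image_singleton]
  exact h

/-- adjacency in the path -/
def pa (i j : ℕ) : Bool := decide (i < 4) && decide (j < 4) && (decide (i = j + 1) || decide (j = i + 1))

/-- adjacency in the star -/
def st (i j : ℕ) : Bool := decide (i < 4) && decide (j < 4) &&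
  ((decide (i = 0) && decide (j ≠ 0)) || (decide (j = 0) && decide (i ≠ 0)))

/-- adjacency in the strong product; the vertex `(a, b)` has the number `4 a + b` -/
def sp (A B : ℕ → ℕ → Bool) (i j : ℕ) : Bool :=
  decide (i ≠ j) && (decide (i / 4 = j / 4) || A (i / 4) (j / 4)) &&
    (decide (i % 4 = j % 4) || B (i % 4) (j % 4))

theorem pp : RigT (sp pa pa) (range 16) := by
  have h : RigT (addE (sp pa pa) 2 10) {10, 6, 5} :=
    RigT.tri (by decide) (by decide) (by decide) (by decide) (by decide) (by decide)
  have h := h.e0 9 {5, 6, 10} (by decide) (by decide) (by decide) (by decide) (by decide) (by decide)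
  have h := h.e0 2 {5, 6, 10} (by decide) (by decide) (by decide) (by decide) (by decide) (by decide)
  have h := h.e0 1 {2, 5, 6} (by decide) (by decide) (by decide) (by decide) (by decide) (by decide)
  have h := h.e0 4 {1, 5, 9} (by decide) (by decide) (by decide) (by decide) (by decide) (by decide)
  have h := h.e0 8 {4, 5, 9} (by decide) (by decide) (by decide) (by decide) (by decide) (by decide)
  have h := h.e0 13 {8, 9, 10} (by decide) (by decide) (by decide) (by decide) (by decide) (by decide)
  have h := h.e0 14 {9, 10, 13} (by decide) (by decide) (by decide) (by decide) (by decide)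
    (by decide)
  have h := h.e0 11 {6, 10, 14} (by decide) (by decide) (by decide) (by decide) (by decide)
    (by decide)
  have h := h.e1 7 {2, 6, 10, 11} (by decide) (by decide) (by decide) (by decide) (by decide)
    (by decide) (by decide) (by decide) (by decide)
  have h := h.e0 3 {2, 6, 7} (by decide) (by decide) (by decide) (by decide) (by decide) (by decide)
  have h := h.e0 15 {10, 11, 14} (by decide) (by decide) (by decide) (by decide) (by decide)
    (by decide)
  have h := h.e0 0 {1, 4, 5} (by decide) (by decide) (by decide) (by decide) (by decide) (by decide)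
  have h := h.e0 12 {8, 9, 13} (by decide) (by decide) (by decide) (by decide) (by decide)
    (by decide)
  have e : ({12, 0, 15, 3, 7, 11, 14, 13, 8, 4, 1, 2, 9, 10, 6, 5} : Finset ℕ) = range 16 := by decide
  rw [e] at h
  exact h

theorem ps : RigT (sp pa st) (range 16) := by
  have h : RigT (addE (addE (sp pa st) 6 12) 0 8) {8, 4, 0} :=
    RigT.tri (by decide) (by decide) (by decide) (by decide) (by decide) (by decide)
  have h := h.e0 7 {0, 4, 8} (by decide) (by decide) (by decide) (by decide) (by decide) (by decide)
  have h := h.e0 11 {4, 7, 8} (by decide) (by decide) (by decide) (by decide) (by decide) (by decide)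
  have h := h.e0 6 {0, 4, 8} (by decide) (by decide) (by decide) (by decide) (by decide) (by decide)
  have h := h.e0 12 {6, 8, 11} (by decide) (by decide) (by decide) (by decide) (by decide)
    (by decide)
  have h := h.e0 9 {4, 8, 12} (by decide) (by decide) (by decide) (by decide) (by decide) (by decide)
  have h := h.e1 5 {0, 4, 8, 9} (by decide) (by decide) (by decide) (by decide) (by decide)
    (by decide) (by decide) (by decide) (by decide)
  have h := h.e1 10 {4, 6, 8, 12} (by decide) (by decide) (by decide) (by decide) (by decide)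
    (by decide) (by decide) (by decide) (by decide)
  have h := h.e0 2 {0, 4, 6} (by decide) (by decide) (by decide) (by decide) (by decide) (by decide)
  have h := h.e0 15 {8, 11, 12} (by decide) (by decide) (by decide) (by decide) (by decide)
    (by decide)
  have h := h.e0 1 {0, 4, 5} (by decide) (by decide) (by decide) (by decide) (by decide) (by decide)
  have h := h.e0 14 {8, 10, 12} (by decide) (by decide) (by decide) (by decide) (by decide)
    (by decide)
  have h := h.e0 3 {0, 4, 7} (by decide) (by decide) (by decide) (by decide) (by decide) (by decide)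
  have h := h.e0 13 {8, 9, 12} (by decide) (by decide) (by decide) (by decide) (by decide)
    (by decide)
  have e : ({13, 3, 14, 1, 15, 2, 10, 5, 9, 12, 6, 11, 7, 8, 4, 0} : Finset ℕ) = range 16 := by decide
  rw [e] at h
  exact h

theorem ss : RigT (sp st st) (range 16) := by
  have h : RigT (addE (sp st st) 8 12) {8, 2, 0} :=
    RigT.tri (by decide) (by decide) (by decide) (by decide) (by decide) (by decide)
  have h := h.e0 12 {0, 2, 8} (by decide) (by decide) (by decide) (by decide) (by decide)
    (by decide)
  have h := h.e0 1 {0, 8, 12} (by decide) (by decide) (by decide) (by decide) (by decide)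
    (by decide)
  have h := h.e0 4 {0, 1, 2} (by decide) (by decide) (by decide) (by decide) (by decide) (by decide)
  have h := h.e1 3 {0, 4, 8, 12} (by decide) (by decide) (by decide) (by decide) (by decide)
    (by decide) (by decide) (by decide) (by decide)
  have h := h.e0 9 {0, 1, 8} (by decide) (by decide) (by decide) (by decide) (by decide) (by decide)
  have h := h.e0 7 {0, 3, 4} (by decide) (by decide) (by decide) (by decide) (by decide) (by decide)
  have h := h.e0 6 {0, 2, 4} (by decide) (by decide) (by decide) (by decide) (by decide) (by decide)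
  have h := h.e0 14 {0, 2, 12} (by decide) (by decide) (by decide) (by decide) (by decide)
    (by decide)
  have h := h.e0 15 {0, 3, 12} (by decide) (by decide) (by decide) (by decide) (by decide)
    (by decide)
  have h := h.e0 13 {0, 1, 12} (by decide) (by decide) (by decide) (by decide) (by decide)
    (by decide)
  have h := h.e0 5 {0, 1, 4} (by decide) (by decide) (by decide) (by decide) (by decide) (by decide)
  have h := h.e0 10 {0, 2, 8} (by decide) (by decide) (by decide) (by decide) (by decide) (by decide)
  have h := h.e0 11 {0, 3, 8} (by decide) (by decide) (by decide) (by decide) (by decide) (by decide)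
  have e : ({11, 10, 5, 13, 15, 14, 6, 7, 9, 3, 4, 1, 12, 8, 2, 0} : Finset ℕ) = range 16 := by decide
  rw [e] at h
  exact h

end Pool.Agent.Q126.RS
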