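import Pool.Agent.Q126.RS4

/-! Strong products: assembly. -/

set_option autoImplicit false
set_option linter.unusedSectionVars false

namespace Pool.Agent.Q126.RS

open Finset Matrix Pool.Agent.H789R5 Pool.Agent.H283R2.DR Pool.Agent.TH349.Rig Pool.Agent.TH409.RG

/-- the strong product of two graphs: different pairs are adjacent if their entries are equal or
adjacent in both places -/
def strong {α β : Type} (G : SimpleGraph α) (H : SimpleGraph β) : SimpleGraph (α × β) where
  Adj x y := x ≠ y ∧ (x.1 = y.1 ∨ G.Adj x.1 y.1) ∧ (x.2 = y.2 ∨ H.Adj x.2 y.2)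
  symm := ⟨fun _ _ h => ⟨h.1.symm, h.2.1.imp Eq.symm (fun h => h.symm),
    h.2.2.imp Eq.symm (fun h => h.symm)⟩⟩
  loopless := ⟨fun _ h => h.1 rfl⟩

theorem strong_emb {α β : Type} (G : SimpleGraph α) (H : SimpleGraph β) :
    Emb (V := α × β) G H (strong G H) (fun a b => (a, b)) := by
  constructor
  · intro a b a' b' h
    exact Prod.mk.inj h
  · intro a b a' b' h1 h2 h3
    refine ⟨fun h => ?_, h2, h3⟩
    have := Prod.mk.inj h
    tauto

variable {V : Type} [Fintype V]

theorem rt_univ {t : ℕ} {p : V → Fin 3 → ℝ} {G : SimpleGraph V} (h : rt t p G univ) :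
    mo G p ≤ 6 + t := by
  have h1 : ins G univ = G := by
    ext a b
    exact ⟨fun h => h.1, fun h => ⟨h, mem_univ _, mem_univ _⟩⟩
  unfold rt at h
  rw [h1, card_univ] at h
  omega

open Classical in
theorem big_path {α : Type} {G : SimpleGraph α} {x c y : α} (hxy : x ≠ y) (h1 : G.Adj c x)
    (h2 : G.Adj c y) : Big G {x, c, y} := by
  have hT : TwoN G ({x, c, y} : Finset α) c :=
    ⟨x, by simp, y, by simp, hxy, h1, h2⟩
  intro a ha
  rw [mem_insert, mem_insert, mem_singleton] at ha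
  rcases ha with rfl | rfl | rfl
  · exact Or.inr ⟨c, by simp, h1.symm, hT⟩
  · exact Or.inl hT
  · exact Or.inr ⟨c, by simp, h2.symm, hT⟩

open Classical in
/-- the ring in a strong product -/
theorem base_ring {p : V → Fin 3 → ℝ} (hp : MG p) {α β : Type} {G : SimpleGraph α}
    {H : SimpleGraph β} {K : SimpleGraph V} {e : α → β → V} (he : Emb G H K e) {x c y : α}
    (hxy : x ≠ y) (h1 : G.Adj c x) (h2 : G.Adj c y) {k : ℕ} {g : ℕ → β} (hk : 3 ≤ k)
    (hg : ∀ i < k, ∀ j < k, g i = g j → i = j) (hg1 : ∀ i, i + 1 < k → H.Adj (g i) (g (i + 1)))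
    (hg2 : H.Adj (g (k - 1)) (g 0)) :
    ri p K (bx e {x, c, y} ((range k).image g)) := by
  set f : ℕ → α := fun i => if i = 0 then x else if i = 1 then c else y with hf
  have f0 : f 0 = x := rfl
  have f1 : f 1 = c := rfl
  have f2 : f 2 = y := rfl
  have hfi : ∀ i < 3, ∀ j < 3, f i = f j → i = j := by
    intro i hi j hj hij
    interval_cases i <;> interval_cases j <;> simp_all
  have hfa : ∀ i < 3, ∀ j < 3, (j = i ∨ j = i + 1 ∨ i = j + 1) → f i = f j ∨ G.Adj (f i) (f j) := by
    intro i hi j hj hij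
    interval_cases i <;> interval_cases j
    · exact Or.inl rfl
    · exact Or.inr h1.symm
    · omega
    · exact Or.inr h1
    · exact Or.inl rfl
    · exact Or.inr h2
    · omega
    · exact Or.inr h2.symm
    · exact Or.inl rfl
  set F : ℕ → ℕ → V := fun i j => e (f i) (g j) with hF
  have hFi : ∀ i < 3, ∀ j < k, ∀ i' < 3, ∀ j' < k, F i j = F i' j' → i = i' ∧ j = j' := by
    intro i hi j hj i' hi' j' hj' h
    obtain ⟨a1, a2⟩ := he.inj _ _ _ _ h
    exact ⟨hfi i hi i' hi' a1, hg j hj j' hj' a2⟩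
  have hr := ri_ring hp hFi k hk le_rfl
  have hcells : cells F k = bx e {x, c, y} ((range k).image g) := by
    ext v
    rw [mem_cells, mem_bx]
    constructor
    · rintro ⟨i, hi, j, hj, rfl⟩
      refine ⟨f i, ?_, g j, mem_image_of_mem _ (mem_range.2 hj), rfl⟩
      interval_cases i <;> simp [f0, f1, f2]
    · rintro ⟨a, ha, b, hb, rfl⟩
      obtain ⟨j, hj, rfl⟩ := mem_image.1 hb
      rw [mem_insert, mem_insert, mem_singleton] at ha
      rw [mem_range] at hj
      rcases ha with rfl | rfl | rfl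
      · exact ⟨0, by norm_num, j, hj, rfl⟩
      · exact ⟨1, by norm_num, j, hj, rfl⟩
      · exact ⟨2, by norm_num, j, hj, rfl⟩
  rw [← hcells]
  refine ri_mono ?_ hr
  intro u hu w hw huw
  obtain ⟨i, hi, j, hj, rfl⟩ := mem_cells.1 hu
  obtain ⟨i', hi', j', hj', rfl⟩ := mem_cells.1 hw
  rw [ring_adj le_rfl hFi hi hi' hj hj'] at huw
  obtain ⟨a1, a2, a3⟩ := huw
  refine he.adj _ _ _ _ ?_ (hfa i hi i' hi' a2) ?_
  · rcases a1 with a1 | a1
    · exact Or.inl fun h => a1 (hfi i hi i' hi' h)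
    · exact Or.inr fun h => a1 (hg j hj j' hj' h)
  · rcases a3 with rfl | rfl | rfl | ⟨rfl, a3⟩ | ⟨rfl, a3⟩
    · exact Or.inl rfl
    · exact Or.inr (hg1 j hj')
    · exact Or.inr (hg1 j' hj).symm
    · obtain rfl : j' = k - 1 := by omega
      exact Or.inr hg2.symm
    · obtain rfl : j = k - 1 := by omega
      exact Or.inr hg2

open Classical in
/-- trees with four vertices in a strong product -/
theorem base_trees {p : V → Fin 3 → ℝ} (hp : MG p) {α β : Type} {G : SimpleGraph α}
    {H : SimpleGraph β} {K : SimpleGraph V} {e : α → β → V} (he : Emb G H K e) {f : ℕ → α}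
    {g : ℕ → β} {A B : ℕ → ℕ → Bool} (hf : ∀ i < 4, ∀ j < 4, f i = f j → i = j)
    (hg : ∀ i < 4, ∀ j < 4, g i = g j → i = j)
    (hA : ∀ i < 4, ∀ j < 4, A i j = true → G.Adj (f i) (f j))
    (hB : ∀ i < 4, ∀ j < 4, B i j = true → H.Adj (g i) (g j)) (hR : RigT (sp A B) (range 16)) :
    ri p K (bx e ((range 4).image f) ((range 4).image g)) := by
  have hr := hR V p hp K (fun n => e (f (n / 4)) (g (n % 4))) (by
    intro i hi j hj hij
    obtain ⟨a1, a2⟩ := he.inj _ _ _ _ hij
    have b1 := hf _ (by omega) _ (by omega) a1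
    have b2 := hg _ (by omega) _ (by omega) a2
    omega) (by
    intro i hi j hj hij
    unfold sp at hij
    simp only [Bool.and_eq_true, Bool.or_eq_true, decide_eq_true_eq] at hij
    obtain ⟨⟨a1, a2⟩, a3⟩ := hij
    refine he.adj _ _ _ _ ?_ ?_ ?_
    · by_cases h : i / 4 = j / 4
      · right
        intro h'
        have := hg _ (by omega) _ (by omega) h'
        omega
      · exact Or.inl fun h' => h (hf _ (by omega) _ (by omega) h')
    · rcases a2 with a2 | a2
      · exact Or.inl (by rw [a2])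
      · exact Or.inr (hA _ (by omega) _ (by omega) a2)
    · rcases a3 with a3 | a3
      · exact Or.inl (by rw [a3])
      · exact Or.inr (hB _ (by omega) _ (by omega) a3))
  have himg : (range 16).image (fun n => e (f (n / 4)) (g (n % 4))) =
      bx e ((range 4).image f) ((range 4).image g) := by
    ext v
    rw [mem_bx, mem_image]
    constructor
    · rintro ⟨n, hn, rfl⟩
      rw [mem_range] at hn
      exact ⟨_, mem_image_of_mem _ (mem_range.2 (by omega)), _,
        mem_image_of_mem _ (mem_range.2 (by omega)), rfl⟩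
    · rintro ⟨a, ha, b, hb, rfl⟩
      obtain ⟨i, hi, rfl⟩ := mem_image.1 ha
      obtain ⟨j, hj, rfl⟩ := mem_image.1 hb
      rw [mem_range] at hi hj
      refine ⟨4 * i + j, mem_range.2 (by omega), ?_⟩
      have h1 : (4 * i + j) / 4 = i := by omega
      have h2 : (4 * i + j) % 4 = j := by omega
      rw [h1, h2]
  rw [himg] at hr
  exact hr

open Classical in
/-- the path and the edge -/
theorem base_edge {p : V → Fin 3 → ℝ} (hp : MG p) {α β : Type} {G : SimpleGraph α}
    {H : SimpleGraph β} {K : SimpleGraph V} {e : α → β → V} (he : Emb G H K e) {x c y : α}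
    (hxy : x ≠ y) (h1 : G.Adj c x) (h2 : G.Adj c y) {b₀ b₁ : β} (hb : H.Adj b₀ b₁) :
    rt 1 p K (bx e {x, c, y} {b₀, b₁}) := by
  have hne : ∀ {a b a' b'}, (a ≠ a' ∨ b ≠ b') → e a b ≠ e a' b' := by
    intro a b a' b' h h'
    have := he.inj _ _ _ _ h'
    tauto
  have r1 : ri p K {e x b₀, e c b₁, e c b₀} := ri_tri hp
    (he.adj _ _ _ _ (Or.inr hb.ne) (Or.inl rfl) (Or.inr hb))
    (he.adj _ _ _ _ (Or.inl h1.ne) (Or.inr h1) (Or.inl rfl))
    (he.adj _ _ _ _ (Or.inl h1.ne) (Or.inr h1) (Or.inr hb.symm))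
  have r2 : ri p K (insert (e x b₁) {e x b₀, e c b₁, e c b₀}) := by
    refine ri_ext0 hp (T := {e x b₀, e c b₁, e c b₀}) ?_ (Subset.refl _) ?_ ?_ r1
    · rw [mem_insert, mem_insert, mem_singleton]
      rintro (h | h | h)
      · exact hne (Or.inr hb.ne.symm) h
      · exact hne (Or.inl h1.ne.symm) h
      · exact hne (Or.inl h1.ne.symm) h
    · rw [card_insert_of_notMem, card_pair (hne (Or.inr hb.ne.symm))]
      rw [mem_insert, mem_singleton, not_or]
      exact ⟨hne (Or.inl h1.ne.symm), hne (Or.inl h1.ne.symm)⟩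
    · intro z hz
      rw [mem_insert, mem_insert, mem_singleton] at hz
      rcases hz with rfl | rfl | rfl
      · exact he.adj _ _ _ _ (Or.inr hb.ne.symm) (Or.inl rfl) (Or.inr hb.symm)
      · exact he.adj _ _ _ _ (Or.inl h1.ne.symm) (Or.inr h1.symm) (Or.inl rfl)
      · exact he.adj _ _ _ _ (Or.inl h1.ne.symm) (Or.inr h1.symm) (Or.inr hb.symm)
  have hnot : ∀ b, e y b ∉ (insert (e x b₁) {e x b₀, e c b₁, e c b₀} : Finset V) := by
    intro b
    rw [mem_insert, mem_insert, mem_insert, mem_singleton]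
    rintro (h | h | h | h)
    · exact hne (Or.inl hxy.symm) h
    · exact hne (Or.inl hxy.symm) h
    · exact hne (Or.inl h2.ne.symm) h
    · exact hne (Or.inl h2.ne.symm) h
  have r3 : rt 1 p K (insert (e y b₀) (insert (e x b₁) {e x b₀, e c b₁, e c b₀})) := by
    have h3 := mo_step hp (G := K) (T := {e c b₁, e c b₀}) (hnot b₀) (by
      intro z hz
      rw [mem_insert, mem_singleton] at hz
      rw [mem_insert, mem_insert, mem_insert, mem_singleton]
      tauto) (by rw [card_pair (hne (Or.inr hb.ne.symm))]; norm_num) (by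
      intro z hz
      rw [mem_insert, mem_singleton] at hz
      rcases hz with rfl | rfl
      · exact he.adj _ _ _ _ (Or.inl h2.ne.symm) (Or.inr h2.symm) (Or.inr hb)
      · exact he.adj _ _ _ _ (Or.inl h2.ne.symm) (Or.inr h2.symm) (Or.inl rfl))
    rw [card_pair (hne (Or.inr hb.ne.symm))] at h3
    unfold ri at r2
    unfold rt
    rw [card_insert_of_notMem (hnot b₀)]
    omega
  have r4 : rt 1 p K (insert (e y b₁) (insert (e y b₀) (insert (e x b₁)
      {e x b₀, e c b₁, e c b₀}))) := by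
    refine rt_add hp (T := {e y b₀, e c b₁, e c b₀}) ?_ ?_ ?_ ?_ r3
    · rw [mem_insert, not_or]
      exact ⟨hne (Or.inr hb.ne.symm), hnot b₁⟩
    · intro z hz
      rw [mem_insert, mem_insert, mem_singleton] at hz
      rw [mem_insert, mem_insert, mem_insert, mem_insert, mem_singleton]
      tauto
    · rw [card_insert_of_notMem, card_pair (hne (Or.inr hb.ne.symm))]
      rw [mem_insert, mem_singleton, not_or]
      exact ⟨hne (Or.inl h2.ne.symm), hne (Or.inl h2.ne.symm)⟩
    · intro z hz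
      rw [mem_insert, mem_insert, mem_singleton] at hz
      rcases hz with rfl | rfl | rfl
      · exact he.adj _ _ _ _ (Or.inr hb.ne.symm) (Or.inl rfl) (Or.inr hb.symm)
      · exact he.adj _ _ _ _ (Or.inl h2.ne.symm) (Or.inr h2.symm) (Or.inl rfl)
      · exact he.adj _ _ _ _ (Or.inl h2.ne.symm) (Or.inr h2.symm) (Or.inr hb.symm)
  have hset : insert (e y b₁) (insert (e y b₀) (insert (e x b₁) {e x b₀, e c b₁, e c b₀})) =
      bx e {x, c, y} {b₀, b₁} := by
    ext v
    rw [mem_bx, mem_insert, mem_insert, mem_insert, mem_insert, mem_insert, mem_singleton]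
    constructor
    · rintro (rfl | rfl | rfl | rfl | rfl | rfl)
      · exact ⟨y, by simp, b₁, by simp, rfl⟩
      · exact ⟨y, by simp, b₀, by simp, rfl⟩
      · exact ⟨x, by simp, b₁, by simp, rfl⟩
      · exact ⟨x, by simp, b₀, by simp, rfl⟩
      · exact ⟨c, by simp, b₁, by simp, rfl⟩
      · exact ⟨c, by simp, b₀, by simp, rfl⟩
    · rintro ⟨a, ha, b, hb, rfl⟩
      rw [mem_insert, mem_insert, mem_singleton] at ha
      rw [mem_insert, mem_singleton] at hb
      rcases ha with rfl | rfl | rfl <;> rcases hb with rfl | rfl <;> simp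
  rw [← hset]
  exact r4

theorem pa_adj {α : Type} {G : SimpleGraph α} {f : ℕ → α} (h1 : G.Adj (f 0) (f 1))
    (h2 : G.Adj (f 1) (f 2)) (h3 : G.Adj (f 2) (f 3)) :
    ∀ i < 4, ∀ j < 4, pa i j = true → G.Adj (f i) (f j) := by
  intro i hi j hj hij
  interval_cases i <;> interval_cases j <;> first
    | exact absurd hij (by decide)
    | exact h1
    | exact h1.symm
    | exact h2
    | exact h2.symm
    | exact h3
    | exact h3.symm

theorem st_adj {α : Type} {G : SimpleGraph α} {f : ℕ → α} (h1 : G.Adj (f 0) (f 1))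
    (h2 : G.Adj (f 0) (f 2)) (h3 : G.Adj (f 0) (f 3)) :
    ∀ i < 4, ∀ j < 4, st i j = true → G.Adj (f i) (f j) := by
  intro i hi j hj hij
  interval_cases i <;> interval_cases j <;> first
    | exact absurd hij (by decide)
    | exact h1
    | exact h1.symm
    | exact h2
    | exact h2.symm
    | exact h3
    | exact h3.symm

open Classical in
theorem big_pa {α : Type} {G : SimpleGraph α} {f : ℕ → α} (hf : ∀ i < 4, ∀ j < 4, f i = f j → i = j)
    (h1 : G.Adj (f 0) (f 1)) (h2 : G.Adj (f 1) (f 2)) (h3 : G.Adj (f 2) (f 3)) :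
    Big G ((range 4).image f) := by
  have hm : ∀ i < 4, f i ∈ (range 4).image f := fun i hi => mem_image_of_mem _ (mem_range.2 hi)
  have hne : ∀ i < 4, ∀ j < 4, i ≠ j → f i ≠ f j := fun i hi j hj hij h => hij (hf i hi j hj h)
  have hT1 : TwoN G ((range 4).image f) (f 1) :=
    ⟨f 0, hm 0 (by norm_num), f 2, hm 2 (by norm_num),
      hne 0 (by norm_num) 2 (by norm_num) (by norm_num), h1.symm, h2⟩
  have hT2 : TwoN G ((range 4).image f) (f 2) :=
    ⟨f 1, hm 1 (by norm_num), f 3, hm 3 (by norm_num),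
      hne 1 (by norm_num) 3 (by norm_num) (by norm_num), h2.symm, h3⟩
  intro a ha
  obtain ⟨i, hi, rfl⟩ := mem_image.1 ha
  rw [mem_range] at hi
  interval_cases i
  · exact Or.inr ⟨f 1, hm 1 (by norm_num), h1, hT1⟩
  · exact Or.inl hT1
  · exact Or.inl hT2
  · exact Or.inr ⟨f 2, hm 2 (by norm_num), h3.symm, hT2⟩

open Classical in
theorem big_st {α : Type} {G : SimpleGraph α} {f : ℕ → α} (hf : ∀ i < 4, ∀ j < 4, f i = f j → i = j)
    (h1 : G.Adj (f 0) (f 1)) (h2 : G.Adj (f 0) (f 2)) (h3 : G.Adj (f 0) (f 3)) :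
    Big G ((range 4).image f) := by
  have hm : ∀ i < 4, f i ∈ (range 4).image f := fun i hi => mem_image_of_mem _ (mem_range.2 hi)
  have hT : TwoN G ((range 4).image f) (f 0) :=
    ⟨f 1, hm 1 (by norm_num), f 2, hm 2 (by norm_num),
      fun h => absurd (hf 1 (by norm_num) 2 (by norm_num) h) (by norm_num), h1, h2⟩
  intro a ha
  obtain ⟨i, hi, rfl⟩ := mem_image.1 ha
  rw [mem_range] at hi
  interval_cases i
  · exact Or.inl hT
  · exact Or.inr ⟨f 0, hm 0 (by norm_num), h1.symm, hT⟩
  · exact Or.inr ⟨f 0, hm 0 (by norm_num), h2.symm, hT⟩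
  · exact Or.inr ⟨f 0, hm 0 (by norm_num), h3.symm, hT⟩

open Classical in
/-- a cycle in one factor -/
theorem rigid_cycle {p : V → Fin 3 → ℝ} (hp : MG p) {α β : Type} [Fintype α] [Fintype β]
    {G : SimpleGraph α} {H : SimpleGraph β} (hG : G.Connected) (hH : H.Connected)
    (h3 : 3 ≤ Fintype.card α) (h3' : 3 ≤ Fintype.card β) {K : SimpleGraph V} {e : α → β → V}
    (he : Emb G H K e) (hc : ¬ H.IsAcyclic) : rt 0 p K (bx e univ univ) := by
  obtain ⟨x, c, y, hxy, h1, h2⟩ := exists_path3 hG h3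
  obtain ⟨k, g, hk, hg, hg1, hg2⟩ := exists_ring hc
  have h := base_ring hp he hxy h1 h2 hk hg hg1 hg2
  exact grow_both hp hG hH (big_univ hH h3') he (big_path hxy h1 h2) ⟨x, by simp⟩
    ⟨g 0, mem_image_of_mem _ (mem_range.2 (by omega))⟩ (rt_of_ri h)

open Classical in
/-- at least four vertices in both factors -/
theorem rigid_four {p : V → Fin 3 → ℝ} (hp : MG p) {α β : Type} [Fintype α] [Fintype β]
    {G : SimpleGraph α} {H : SimpleGraph β} (hG : G.Connected) (hH : H.Connected)
    (h4 : 4 ≤ Fintype.card α) (h4' : 4 ≤ Fintype.card β) {K : SimpleGraph V} {e : α → β → V}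
    (he : Emb G H K e) : rt 0 p K (bx e univ univ) := by
  have hbig := big_univ hH (by omega)
  have hbig' := big_univ hG (by omega)
  rcases exists_four hG h4 with ⟨f, hf, f1, f2, f3⟩ | ⟨f, hf, f1, f2, f3⟩
  · rcases exists_four hH h4' with ⟨g, hg, g1, g2, g3⟩ | ⟨g, hg, g1, g2, g3⟩
    · have h := base_trees hp he hf hg (pa_adj f1 f2 f3) (pa_adj g1 g2 g3) pp
      exact grow_both hp hG hH hbig he (big_pa hf f1 f2 f3)
        ⟨f 0, mem_image_of_mem _ (mem_range.2 (by norm_num))⟩
        ⟨g 0, mem_image_of_mem _ (mem_range.2 (by norm_num))⟩ (rt_of_ri h)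
    · have h := base_trees hp he hf hg (pa_adj f1 f2 f3) (st_adj g1 g2 g3) ps
      exact grow_both hp hG hH hbig he (big_pa hf f1 f2 f3)
        ⟨f 0, mem_image_of_mem _ (mem_range.2 (by norm_num))⟩
        ⟨g 0, mem_image_of_mem _ (mem_range.2 (by norm_num))⟩ (rt_of_ri h)
  · rcases exists_four hH h4' with ⟨g, hg, g1, g2, g3⟩ | ⟨g, hg, g1, g2, g3⟩
    · have h := base_trees hp he.swap hg hf (pa_adj g1 g2 g3) (st_adj f1 f2 f3) ps
      have h' := grow_both hp hH hG hbig' he.swap (big_pa hg g1 g2 g3)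
        ⟨g 0, mem_image_of_mem _ (mem_range.2 (by norm_num))⟩
        ⟨f 0, mem_image_of_mem _ (mem_range.2 (by norm_num))⟩ (rt_of_ri h)
      rw [bx_swap] at h'
      exact h'
    · have h := base_trees hp he hf hg (st_adj f1 f2 f3) (st_adj g1 g2 g3) ss
      exact grow_both hp hG hH hbig he (big_st hf f1 f2 f3)
        ⟨f 0, mem_image_of_mem _ (mem_range.2 (by norm_num))⟩
        ⟨g 0, mem_image_of_mem _ (mem_range.2 (by norm_num))⟩ (rt_of_ri h)

open Classical in
/-- always at most one degree of freedom -/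
theorem one_dof {p : V → Fin 3 → ℝ} (hp : MG p) {α β : Type} [Fintype α] [Fintype β]
    {G : SimpleGraph α} {H : SimpleGraph β} (hG : G.Connected) (hH : H.Connected)
    (h3 : 3 ≤ Fintype.card α) (h3' : 3 ≤ Fintype.card β) {K : SimpleGraph V} {e : α → β → V}
    (he : Emb G H K e) : rt 1 p K (bx e univ univ) := by
  obtain ⟨x, c, y, hxy, h1, h2⟩ := exists_path3 hG h3
  obtain ⟨x', c', y', hxy', h1', h2'⟩ := exists_path3 hH h3'
  have h := base_edge hp he hxy h1 h2 h1'
  exact grow_both hp hG hH (big_univ hH h3') he (big_path hxy h1 h2) ⟨x, by simp⟩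
    ⟨x', by simp⟩ h

end Pool.Agent.Q126.RS
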