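import Mathlib

/-! Counting the functions with many values in given small sets. -/

set_option autoImplicit false

namespace Pool.Agent.Q126.SM

open Finset
open scoped Classical

variable {ι : Type*} [Fintype ι] [DecidableEq ι] {H : ℕ}

/-- the functions which agree with `r0` outside `D` -/
noncomputable def fib (D : Finset ι) (r0 : ι → Fin H) : Finset (ι → Fin H) :=
  univ.filter fun r => ∀ i, i ∉ D → r i = r0 i

theorem mem_fib {D : Finset ι} {r0 r : ι → Fin H} :
    r ∈ fib D r0 ↔ ∀ i, i ∉ D → r i = r0 i := by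
  unfold fib
  rw [mem_filter]
  exact ⟨fun h => h.2, fun h => ⟨mem_univ _, h⟩⟩

theorem mem_fib_comm {D : Finset ι} {r0 r : ι → Fin H} : r ∈ fib D r0 ↔ r0 ∈ fib D r := by
  rw [mem_fib, mem_fib]
  exact ⟨fun h i hi => (h i hi).symm, fun h i hi => (h i hi).symm⟩

theorem card_fib (D : Finset ι) (r0 : ι → Fin H) : (fib D r0).card = H ^ D.card := by
  have h1 : fib D r0 = Fintype.piFinset fun i => if i ∈ D then univ else {r0 i} := by
    ext r
    rw [mem_fib, Fintype.mem_piFinset]
    refine forall_congr' fun i => ?_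
    by_cases hi : i ∈ D
    · rw [if_pos hi]
      exact ⟨fun _ => mem_univ _, fun _ h => absurd hi h⟩
    · rw [if_neg hi, mem_singleton]
      exact ⟨fun h => h hi, fun h _ => h⟩
  rw [h1, Fintype.card_piFinset]
  have h2 : ∀ i : ι, (if i ∈ D then (univ : Finset (Fin H)) else {r0 i}).card =
      if i ∈ D then H else 1 := by
    intro i
    split_ifs
    · rw [card_univ, Fintype.card_fin]
    · exact card_singleton _
  rw [prod_congr rfl fun i _ => h2 i, prod_ite_mem, univ_inter, prod_const]

/-- few functions have `m` values in sets with one element -/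
theorem count_bad (D : Finset ι) (r0 : ι → Fin H) (S : ι → Finset (Fin H))
    (hS : ∀ i ∈ D, (S i).card ≤ 1) (m : ℕ) :
    ((fib D r0).filter fun r => m ≤ (D.filter fun i => r i ∈ S i).card).card ≤
      2 ^ D.card * H ^ (D.card - m) := by
  have h1 : ((fib D r0).filter fun r => m ≤ (D.filter fun i => r i ∈ S i).card) ⊆
      (D.powersetCard m).biUnion fun M => Fintype.piFinset fun i =>
        if i ∈ M then S i else if i ∈ D then univ else {r0 i} := by
    intro r hr
    rw [mem_filter, mem_fib] at hr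
    obtain ⟨M, hM, hMc⟩ := exists_subset_card_eq hr.2
    rw [mem_biUnion]
    refine ⟨M, mem_powersetCard.2 ⟨hM.trans (filter_subset _ _), hMc⟩, ?_⟩
    rw [Fintype.mem_piFinset]
    intro i
    by_cases hi : i ∈ M
    · rw [if_pos hi]
      exact (mem_filter.1 (hM hi)).2
    · rw [if_neg hi]
      by_cases hi' : i ∈ D
      · rw [if_pos hi']
        exact mem_univ _
      · rw [if_neg hi', mem_singleton]
        exact hr.1 i hi'
  refine (card_le_card h1).trans ((card_biUnion_le_card_mul _ _ (H ^ (D.card - m)) ?_).trans ?_)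
  · intro M hM
    rw [mem_powersetCard] at hM
    rw [Fintype.card_piFinset]
    calc ∏ i, (if i ∈ M then S i else if i ∈ D then univ else {r0 i}).card
        ≤ ∏ i, if i ∈ D \ M then H else 1 := by
          refine prod_le_prod' fun i _ => ?_
          by_cases hi : i ∈ M
          · rw [if_pos hi, if_neg (fun h => (mem_sdiff.1 h).2 hi)]
            exact hS i (hM.1 hi)
          · rw [if_neg hi]
            by_cases hi' : i ∈ D
            · rw [if_pos hi', if_pos (mem_sdiff.2 ⟨hi', hi⟩), card_univ, Fintype.card_fin]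
            · rw [if_neg hi', if_neg (fun h => hi' (mem_sdiff.1 h).1), card_singleton]
      _ = H ^ (D.card - m) := by
          rw [prod_ite_mem, univ_inter, prod_const, card_sdiff_of_subset hM.1, hM.2]
  · rw [card_powersetCard]
    exact Nat.mul_le_mul_right _ (Nat.choose_le_two_pow _ _)

/-- the real form -/
theorem count_bad' (hH : 0 < H) (D : Finset ι) (r0 : ι → Fin H) (S : ι → Finset (Fin H))
    (hS : ∀ i ∈ D, (S i).card ≤ 1) {τ : ℝ} (hτ : 0 ≤ τ) :
    (((fib D r0).filter fun r => τ * D.card < ((D.filter fun i => r i ∈ S i).card : ℝ)).card : ℝ) ≤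
      (2 * (H : ℝ) ^ (-τ)) ^ D.card * (H : ℝ) ^ D.card := by
  have hH1 : (1 : ℝ) ≤ H := by exact_mod_cast hH
  have hH0 : (0 : ℝ) < H := by linarith
  set m := ⌊τ * D.card⌋₊ + 1 with hm
  have hmτ : τ * D.card ≤ m := by
    rw [hm]
    push_cast
    exact (Nat.lt_floor_add_one _).le
  by_cases hmD : m ≤ D.card
  · have h1 := count_bad D r0 S hS m
    have h2 : ((fib D r0).filter fun r => τ * D.card < ((D.filter fun i => r i ∈ S i).card : ℝ)) =
        ((fib D r0).filter fun r => m ≤ (D.filter fun i => r i ∈ S i).card) := by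
      refine filter_congr fun r _ => ?_
      rw [hm, Nat.succ_le_iff, Nat.floor_lt (by positivity)]
    rw [h2]
    have h3 : (((fib D r0).filter fun r => m ≤ (D.filter fun i => r i ∈ S i).card).card : ℝ) ≤
        2 ^ D.card * (H : ℝ) ^ (D.card - m) := by exact_mod_cast h1
    refine h3.trans ?_
    rw [mul_pow, mul_assoc]
    refine mul_le_mul_of_nonneg_left ?_ (by positivity)
    rw [← Real.rpow_natCast (H : ℝ) (D.card - m), ← Real.rpow_natCast ((H : ℝ) ^ (-τ)),
      ← Real.rpow_mul hH0.le, ← Real.rpow_natCast (H : ℝ) D.card, ← Real.rpow_add hH0]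
    refine Real.rpow_le_rpow_of_exponent_le hH1 ?_
    rw [Nat.cast_sub hmD]
    linarith
  · have h2 : ((fib D r0).filter fun r => τ * D.card <
        ((D.filter fun i => r i ∈ S i).card : ℝ)) = ∅ := by
      rw [filter_eq_empty_iff]
      intro r _ h
      apply hmD
      have h3 : ⌊τ * D.card⌋₊ < (D.filter fun i => r i ∈ S i).card := by
        rw [Nat.floor_lt (by positivity)]
        exact h
      exact (Nat.succ_le_of_lt h3).trans (card_filter_le _ _)
    rw [h2, card_empty, Nat.cast_zero]
    positivity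

/-- averaging over the fibres -/
theorem of_fib (D : Finset ι) (P : (ι → Fin H) → Prop) {δ : ℝ} (hH : 0 < H)
    (h : ∀ r0 : ι → Fin H, (((fib D r0).filter P).card : ℝ) ≤ δ * (H : ℝ) ^ D.card) :
    ((univ.filter P).card : ℝ) ≤ δ * (H : ℝ) ^ Fintype.card ι := by
  have h1 : ∑ r0 : ι → Fin H, ((fib D r0).filter P).card = (univ.filter P).card * H ^ D.card := by
    have e1 : ∀ r0 : ι → Fin H, ((fib D r0).filter P).card =
        ∑ r ∈ univ.filter P, if r ∈ fib D r0 then 1 else 0 := by
      intro r0
      rw [← card_filter]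
      congr 1
      ext r
      rw [mem_filter, mem_filter, mem_filter]
      exact ⟨fun h => ⟨⟨mem_univ _, h.2⟩, h.1⟩, fun h => ⟨h.2, h.1.2⟩⟩
    rw [sum_congr rfl fun r0 _ => e1 r0, sum_comm]
    have e2 : ∀ r : ι → Fin H, (∑ r0 : ι → Fin H, if r ∈ fib D r0 then 1 else 0) = H ^ D.card := by
      intro r
      rw [← card_filter, ← card_fib D r]
      congr 1
      ext r0
      rw [mem_filter]
      exact ⟨fun h => mem_fib_comm.1 h.2, fun h => ⟨mem_univ _, mem_fib_comm.1 h⟩⟩
    rw [sum_congr rfl fun r _ => e2 r, sum_const, smul_eq_mul]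
  have h2 : ∑ r0 : ι → Fin H, (((fib D r0).filter P).card : ℝ) ≤
      ∑ _r0 : ι → Fin H, δ * (H : ℝ) ^ D.card := sum_le_sum fun r0 _ => h r0
  rw [sum_const, card_univ, Fintype.card_fun, Fintype.card_fin, nsmul_eq_mul] at h2
  have h3 : (∑ r0 : ι → Fin H, (((fib D r0).filter P).card : ℝ)) =
      ((univ.filter P).card : ℝ) * (H : ℝ) ^ D.card := by exact_mod_cast h1
  rw [h3] at h2
  have hpos : (0 : ℝ) < (H : ℝ) ^ D.card := by
    have : (0 : ℝ) < H := by exact_mod_cast hH
    positivity
  push_cast at h2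
  have h4 : ((univ.filter P).card : ℝ) * (H : ℝ) ^ D.card ≤
      (δ * (H : ℝ) ^ Fintype.card ι) * (H : ℝ) ^ D.card := by linarith
  exact le_of_mul_le_mul_right h4 hpos

end Pool.Agent.Q126.SM
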