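import Pool.Agent.Q126.SM1
import Pool.Agent.Q137.Shifts.Shift

/-! Perturbed sets: products with a fixed set. -/

set_option autoImplicit false

namespace Pool.Agent.Q126.SM

open Finset Pool.Agent.Y359.PE Q137.Shifts
open scoped Classical Pointwise

variable {A : Finset ℤ} {H : ℕ}

/-- the perturbed part `D` of `A` -/
noncomputable def perD (D : Finset A) (r : A → Fin H) : Finset ℤ :=
  D.image fun a : A => (a : ℤ) + ((r a : ℕ) : ℤ)

/-- the elements of `D` are congruent modulo `H` and cannot be moved to zero -/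
def Good (H : ℕ) (D : Finset A) : Prop :=
  (∀ a ∈ D, ∀ b ∈ D, (H : ℤ) ∣ (a : ℤ) - b) ∧ ∀ a ∈ D, ¬ (-(H : ℤ) < a ∧ (a : ℤ) ≤ 0)

theorem Good.mono {D D' : Finset A} (h : Good H D) (hD : D' ⊆ D) : Good H D' :=
  ⟨fun a ha b hb => h.1 a (hD ha) b (hD hb), fun a ha => h.2 a (hD ha)⟩

theorem small_dvd {x : ℤ} {q : ℤ} (h : q ∣ x) (h1 : |x| < q) : x = 0 :=
  Int.eq_zero_of_abs_lt_dvd h h1

theorem Good.inj {D : Finset A} (h : Good H D) (r : A → Fin H) :
    Set.InjOn (fun a : A => (a : ℤ) + ((r a : ℕ) : ℤ)) D := by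
  intro a ha b hb hab
  have h1 := h.1 a ha b hb
  have h2 : (a : ℤ) + ((r a : ℕ) : ℤ) = (b : ℤ) + ((r b : ℕ) : ℤ) := hab
  have h3 := (r a).isLt
  have h4 := (r b).isLt
  have h5 := small_dvd h1 (by rw [abs_lt]; omega)
  exact Subtype.ext (by linarith)

theorem Good.card {D : Finset A} (h : Good H D) (r : A → Fin H) : (perD D r).card = D.card := by
  unfold perD
  exact card_image_of_injOn (h.inj r)

theorem Good.zero {D : Finset A} (h : Good H D) (r : A → Fin H) : (0 : ℤ) ∉ perD D r := by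
  intro h0
  obtain ⟨a, ha, h1⟩ := mem_image.1 h0
  have h3 := (r a).isLt
  exact h.2 a ha (by omega)

theorem exists_good (A : Finset ℤ) (hH : 0 < H) : ∃ D : Finset A, Good H D ∧
    A.card ≤ H * (D.card + 1) := by
  obtain ⟨j, hj, hcard⟩ : ∃ j ∈ range H,
      A.card ≤ H * ((univ : Finset A).filter fun a : A => ((a : ℤ) % H).toNat = j).card := by
    by_contra hcon
    push Not at hcon
    have h1 : (univ : Finset A).card = ∑ j ∈ range H,
        ((univ : Finset A).filter fun a : A => ((a : ℤ) % H).toNat = j).card := by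
      refine card_eq_sum_card_fiberwise fun a _ => ?_
      have h2 := Int.emod_nonneg (a : ℤ) (show (H : ℤ) ≠ 0 by omega)
      have h3 := Int.emod_lt_of_pos (a : ℤ) (show (0 : ℤ) < H by omega)
      rw [mem_coe, mem_range]
      omega
    have h2 : ∑ j ∈ range H, H * ((univ : Finset A).filter fun a : A => ((a : ℤ) % H).toNat = j).card <
        ∑ _j ∈ range H, A.card := sum_lt_sum_of_nonempty ⟨0, mem_range.2 hH⟩ hcon
    rw [← mul_sum, ← h1, sum_const, card_range, smul_eq_mul, card_univ, Fintype.card_coe] at h2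
    exact lt_irrefl _ h2
  set F := (univ : Finset A).filter fun a : A => ((a : ℤ) % H).toNat = j with hF
  have hdvd : ∀ a ∈ F, ∀ b ∈ F, (H : ℤ) ∣ (a : ℤ) - b := by
    intro a ha b hb
    rw [hF, mem_filter] at ha hb
    have h2 := Int.emod_nonneg (a : ℤ) (show (H : ℤ) ≠ 0 by omega)
    have h3 := Int.emod_nonneg (b : ℤ) (show (H : ℤ) ≠ 0 by omega)
    exact Int.ModEq.dvd (show (b : ℤ) % H = (a : ℤ) % H by omega)
  refine ⟨F.filter fun a : A => ¬ (-(H : ℤ) < a ∧ (a : ℤ) ≤ 0), ⟨?_, ?_⟩, ?_⟩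
  · intro a ha b hb
    exact hdvd a (mem_filter.1 ha).1 b (mem_filter.1 hb).1
  · intro a ha
    exact (mem_filter.1 ha).2
  · refine hcard.trans (Nat.mul_le_mul_left _ ?_)
    have h1 := card_filter_add_card_filter_not (s := F) fun a : A => (-(H : ℤ) < a ∧ (a : ℤ) ≤ 0)
    have h2 : (F.filter fun a : A => (-(H : ℤ) < a ∧ (a : ℤ) ≤ 0)).card ≤ 1 := by
      rw [card_le_one]
      intro a ha b hb
      rw [mem_filter] at ha hb
      have h3 := small_dvd (hdvd a ha.1 b hb.1) (by rw [abs_lt]; omega)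
      exact Subtype.ext (by linarith)
    omega

theorem pow_gt {p : ℕ} (hp : p.Prime) : H < p ^ (H.factorial.factorization p + 1) := by
  by_contra hcon
  push Not at hcon
  have h1 : p ^ (H.factorial.factorization p + 1) ∣ H.factorial :=
    Nat.dvd_factorial (pow_pos hp.pos _) hcon
  have h2 := (hp.pow_dvd_iff_le_factorization (Nat.factorial_ne_zero H)).1 h1
  omega

/-- `p` is popular for the perturbed set -/
def Pop (D : Finset A) (τ : ℝ) (p : ℕ) (r : A → Fin H) : Prop :=
  ¬ ((((perD D r).filter fun b => H.factorial.factorization p < fa b p).card : ℝ) ≤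
    τ * (perD D r).card)

/-- few perturbations make a prime popular -/
theorem popular (hH : 0 < H) {D : Finset A} (hD : Good H D) (r0 : A → Fin H) {p : ℕ}
    (hp : p.Prime) {τ : ℝ} (hτ : 0 ≤ τ) :
    (((fib D r0).filter fun r => Pop D τ p r).card : ℝ) ≤
      (2 * (H : ℝ) ^ (-τ)) ^ D.card * (H : ℝ) ^ D.card := by
  set v := H.factorial.factorization p with hv
  have hgt := pow_gt (H := H) hp
  have h1 := count_bad' hH D r0
    (fun a : A => univ.filter fun s : Fin H => ((p : ℤ) ^ (v + 1)) ∣ (a : ℤ) + ((s : ℕ) : ℤ)) (by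
      intro a _
      rw [card_le_one]
      intro s hs t ht
      rw [mem_filter] at hs ht
      have h2 := dvd_sub hs.2 ht.2
      have h3 : ((a : ℤ) + ((s : ℕ) : ℤ)) - ((a : ℤ) + ((t : ℕ) : ℤ)) =
          ((s : ℕ) : ℤ) - ((t : ℕ) : ℤ) := by ring
      rw [h3] at h2
      have h4 := s.isLt
      have h5 := t.isLt
      have h6 : (H : ℤ) < (p : ℤ) ^ (v + 1) := by exact_mod_cast hgt
      have h7 := small_dvd h2 (by rw [abs_lt]; omega)
      exact Fin.ext (by omega)) hτ
  refine le_trans ?_ h1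
  have h2 : ∀ r : A → Fin H, ((perD D r).filter fun b => v < fa b p).card ≤
      (D.filter fun a : A => r a ∈ univ.filter fun s : Fin H =>
        ((p : ℤ) ^ (v + 1)) ∣ (a : ℤ) + ((s : ℕ) : ℤ)).card := by
    intro r
    have h3 : ((perD D r).filter fun b => v < fa b p) ⊆
        (D.filter fun a : A => r a ∈ univ.filter fun s : Fin H =>
        ((p : ℤ) ^ (v + 1)) ∣ (a : ℤ) + ((s : ℕ) : ℤ)).image
          fun a : A => (a : ℤ) + ((r a : ℕ) : ℤ) := by
      intro b hb
      rw [mem_filter] at hb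
      obtain ⟨a, ha, rfl⟩ := mem_image.1 hb.1
      refine mem_image.2 ⟨a, mem_filter.2 ⟨ha, mem_filter.2 ⟨mem_univ _, ?_⟩⟩, rfl⟩
      exact pow_dvd_of_lt hp hb.2
    exact (card_le_card h3).trans card_image_le
  have h4 : ((fib D r0).filter fun r => Pop D τ p r) ⊆
      (fib D r0).filter fun r => τ * D.card <
        ((D.filter fun a : A => r a ∈ univ.filter fun s : Fin H =>
          ((p : ℤ) ^ (v + 1)) ∣ (a : ℤ) + ((s : ℕ) : ℤ)).card : ℝ) := by
    intro r hr
    rw [mem_filter] at hr ⊢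
    refine ⟨hr.1, ?_⟩
    have h5 := hr.2
    unfold Pop at h5
    rw [hD.card r, not_le] at h5
    exact lt_of_lt_of_le h5 (by exact_mod_cast h2 r)
  exact_mod_cast card_le_card h4

/-- the constant -/
noncomputable def dQ (H : ℕ) : ℝ := 2 * (H.factorial.divisors.card : ℝ)

theorem dQ_ge (H : ℕ) : 2 ≤ dQ H := by
  have : 0 < H.factorial.divisors.card := card_pos.2 ⟨1, Nat.one_mem_divisors.2
    (Nat.factorial_ne_zero H)⟩
  have h : (1 : ℝ) ≤ H.factorial.divisors.card := by exact_mod_cast this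
  unfold dQ
  linarith

/-- passing from entropies to cardinalities -/
theorem fin_bound {ε κ a b y R l : ℝ} (hε : 0 < ε) (ha : 1 ≤ a) (hb : 1 ≤ b) (hl : 0 < l)
    (hy : 1 ≤ y) (hκ0 : 0 ≤ κ) (hκ : κ ≤ ε / 2) (hR : R ≤ ε / 2 * Real.log a)
    (h : (1 - κ) * (Real.log a + Real.log b - 2 * Real.log y) - R ≤ Real.log l) :
    (a * b) ^ (1 - ε) ≤ y ^ 2 * l := by
  have h1 := Real.log_nonneg ha
  have h2 := Real.log_nonneg hb
  have h3 := Real.log_nonneg hy
  rw [← Real.log_le_log_iff (Real.rpow_pos_of_pos (by positivity) _) (by positivity),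
    Real.log_rpow (by positivity), Real.log_mul (by positivity) (by positivity),
    Real.log_mul (by positivity) (by positivity), Real.log_pow]
  push_cast
  nlinarith [mul_nonneg hκ0 h3, mul_nonneg (sub_nonneg.2 hκ) h1, mul_nonneg (sub_nonneg.2 hκ) h2,
    mul_nonneg hε.le h2]

theorem epsparams {ε : ℝ} (hε : 0 < ε) (hε1 : ε ≤ 1) :
    (0 : ℝ) ≤ 1 / Real.exp (18 / ε) ∧ 0 < 1 / Real.exp (18 / ε / 2) ∧
      1 / Real.exp (18 / ε / 2) ≤ 1 / 9 ∧
      4 / Real.log (1 / (1 / Real.exp (18 / ε / 2))) +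
        (1 / Real.exp (18 / ε)) / (1 / Real.exp (18 / ε / 2)) ≤ ε / 2 := by
  have h9 : 9 ≤ 18 / ε := by
    rw [le_div_iff₀ hε]
    linarith
  obtain ⟨p1, p2, p3⟩ := params' h9
  refine ⟨by positivity, p1, p2, p3.trans (le_of_eq ?_)⟩
  field_simp
  norm_num

/-- **Products of a perturbed set with a fixed set**, in a fibre. -/
theorem fiber {ε : ℝ} (hε : 0 < ε) (hε1 : ε ≤ 1) (hH : 0 < H) (C : Finset ℤ) (hC : C.Nonempty)
    (h0 : (0 : ℤ) ∉ C) {D : Finset A} (hD : Good H D) (hDn : D.Nonempty) (r0 : A → Fin H) :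
    (((fib D r0).filter fun r => dQ H ^ 2 * ((C * perD D r).card : ℝ) <
      ((C.card : ℝ) * D.card) ^ (1 - ε)).card : ℝ) ≤
      (2 / ε * (2 * (H : ℝ) ^ (-(1 / Real.exp (18 / ε)))) ^ D.card) * (H : ℝ) ^ D.card := by
  obtain ⟨p0, p1, p2, p3⟩ := epsparams hε hε1
  set τ := 1 / Real.exp (18 / ε) with hτ
  set θ := 1 / Real.exp (18 / ε / 2) with hθ
  set N : ℝ := (2 * (H : ℝ) ^ (-τ)) ^ D.card * (H : ℝ) ^ D.card with hN
  have hN0 : 0 ≤ N := by positivity
  obtain ⟨R, hR0, hR1, hR2⟩ := family H.factorial (Nat.factorial_ne_zero H) C hC h0 (fib D r0)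
    (fun r => perD D r) (fun r _ => hDn.image _) (fun r _ => hD.zero r) p0 p1 p2
    (p3.trans (by linarith)) hN0 (fun p hp => by
      refine le_trans ?_ (popular hH hD r0 hp p0)
      have : ((fib D r0).filter fun r =>
        ¬ ((((perD D r).filter fun b => H.factorial.factorization p < fa b p).card : ℝ) ≤
          τ * (perD D r).card) ∧
        ¬ (((C.filter fun a => H.factorial.factorization p < fa a p).card : ℝ) ≤ τ * C.card)) ⊆
        ((fib D r0).filter fun r => Pop D τ p r) := by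
        intro r hr
        rw [mem_filter] at hr ⊢
        exact ⟨hr.1, hr.2.1⟩
      exact_mod_cast card_le_card this)
  have hC1 : (1 : ℝ) ≤ C.card := by exact_mod_cast card_pos.2 hC
  have hD1 : (1 : ℝ) ≤ D.card := by exact_mod_cast card_pos.2 hDn
  have hlog : 0 ≤ Real.log C.card := Real.log_nonneg hC1
  have hκ0 : 0 ≤ 4 / Real.log (1 / θ) + τ / θ := by
    have : 0 ≤ Real.log (1 / θ) := Real.log_nonneg (by rw [le_div_iff₀ p1]; linarith)
    positivity
  have good : ∀ r ∈ fib D r0, R r ≤ ε / 2 * Real.log C.card →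
      ((C.card : ℝ) * D.card) ^ (1 - ε) ≤ dQ H ^ 2 * ((C * perD D r).card : ℝ) := by
    intro r hr hRr
    have h1 := hR1 r hr
    rw [hD.card r] at h1
    have hpos : (0 : ℝ) < (C * perD D r).card := by
      exact_mod_cast card_pos.2 (hC.mul (hDn.image _))
    have hdq := dQ_ge H
    refine fin_bound hε hC1 hD1 hpos (by linarith) hκ0 p3 hRr ?_
    have : (1 - 4 / Real.log (1 / θ) - τ / θ) = 1 - (4 / Real.log (1 / θ) + τ / θ) := by ring
    rw [this] at h1
    exact h1
  set S := (fib D r0).filter fun r => ε / 2 * Real.log C.card < R r with hS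
  have hsub : ((fib D r0).filter fun r => dQ H ^ 2 * ((C * perD D r).card : ℝ) <
      ((C.card : ℝ) * D.card) ^ (1 - ε)) ⊆ S := by
    intro r hr
    rw [mem_filter] at hr
    rw [hS, mem_filter]
    refine ⟨hr.1, ?_⟩
    by_contra hcon
    push Not at hcon
    exact absurd (good r hr.1 hcon) (not_le.2 hr.2)
  have hcard : (S.card : ℝ) ≤ 2 / ε * N := by
    have h1 : (S.card : ℝ) * (ε / 2 * Real.log C.card) ≤ N * Real.log C.card := by
      calc (S.card : ℝ) * (ε / 2 * Real.log C.card) = ∑ r ∈ S, ε / 2 * Real.log C.card := by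
            rw [sum_const, nsmul_eq_mul]
        _ ≤ ∑ r ∈ S, R r := sum_le_sum fun r hr => (mem_filter.1 hr).2.le
        _ ≤ ∑ r ∈ fib D r0, R r := sum_le_sum_of_subset_of_nonneg (filter_subset _ _)
            fun r hr _ => hR0 r hr
        _ ≤ N * Real.log C.card := hR2
    rcases hlog.eq_or_lt with hz | hz
    · have h2 : ∑ r ∈ fib D r0, R r ≤ 0 := by
        have := hR2
        rw [← hz, mul_zero] at this
        exact this
      have h3 : S = ∅ := by
        rw [hS, filter_eq_empty_iff]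
        intro r hr
        have h4 : R r ≤ ∑ r ∈ fib D r0, R r := single_le_sum hR0 hr
        rw [← hz, mul_zero]
        linarith
      rw [h3]
      simp only [card_empty, Nat.cast_zero]
      positivity
    · have h2 : (S.card : ℝ) * (ε / 2) ≤ N := by
        have : (S.card : ℝ) * (ε / 2) * Real.log C.card ≤ N * Real.log C.card := by linarith
        exact le_of_mul_le_mul_right this hz
      have h3 : 2 / ε * N = N / (ε / 2) := by field_simp
      rw [h3, le_div_iff₀ (by positivity)]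
      exact h2
  have h5 : (((fib D r0).filter fun r => dQ H ^ 2 * ((C * perD D r).card : ℝ) <
      ((C.card : ℝ) * D.card) ^ (1 - ε)).card : ℝ) ≤ S.card := by
    exact_mod_cast card_le_card hsub
  rw [hN] at hcard
  linarith

end Pool.Agent.Q126.SM
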