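import Pool.Agent.Q126.SM2

/-! Perturbed sets: the final form. -/

set_option autoImplicit false

namespace Pool.Agent.Q126.SM

open Finset Pool.Agent.Y359.PE Q137.Shifts
open scoped Classical Pointwise

variable {A : Finset ℤ} {H : ℕ}

/-- the perturbed set -/
noncomputable def per (A : Finset ℤ) {H : ℕ} (r : A → Fin H) : Finset ℤ :=
  univ.image fun a : A => (a : ℤ) + ((r a : ℕ) : ℤ)

theorem perD_subset (D : Finset A) (r : A → Fin H) : perD D r ⊆ per A r := by
  unfold perD per
  exact image_subset_image (subset_univ _)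

/-- the primes which divide some number `a + s` -/
noncomputable def prm (H : ℕ) (D : Finset A) : Finset ℕ :=
  D.biUnion fun a : A => (univ : Finset (Fin H)).biUnion fun s : Fin H =>
    ((a : ℤ) + ((s : ℕ) : ℤ)).natAbs.primeFactors

theorem card_primeFactors_le {m : ℕ} (hm : m ≠ 0) : 2 ^ m.primeFactors.card ≤ m := by
  have h1 : 2 ^ m.primeFactors.card ≤ ∏ p ∈ m.primeFactors, p := by
    rw [← prod_const]
    exact prod_le_prod' fun p hp => (Nat.prime_of_mem_primeFactors hp).two_le
  exact h1.trans (Nat.le_of_dvd (Nat.pos_of_ne_zero hm) (Nat.prod_primeFactors_dvd m))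

theorem card_prm {D : Finset A} {x : ℝ} (hH : 0 < H)
    (hA : ∀ a ∈ A, |(a : ℝ)| ≤ Real.exp (Real.exp x)) :
    ((prm H D).card : ℝ) ≤ D.card * H * (2 * (Real.exp x + H)) := by
  have hHr : (1 : ℝ) ≤ H := by exact_mod_cast hH
  have key : ∀ a : A, ∀ s : Fin H,
      ((((a : ℤ) + ((s : ℕ) : ℤ)).natAbs.primeFactors.card : ℕ) : ℝ) ≤
        2 * (Real.exp x + H) := by
    intro a s
    set m := ((a : ℤ) + ((s : ℕ) : ℤ)).natAbs with hm
    rcases eq_or_ne m 0 with h0 | h0
    · rw [h0]
      simp only [Nat.primeFactors_zero, card_empty, Nat.cast_zero]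
      positivity
    have h1 : (2 : ℝ) ^ m.primeFactors.card ≤ m := by exact_mod_cast card_primeFactors_le h0
    have h2 : (m : ℝ) ≤ Real.exp (Real.exp x) + H := by
      have h3 : (m : ℝ) = |((a : ℤ) : ℝ) + ((s : ℕ) : ℝ)| := by
        rw [hm, Nat.cast_natAbs]
        push_cast
        rfl
      rw [h3]
      have h4 : ((s : ℕ) : ℝ) ≤ H := by exact_mod_cast s.isLt.le
      have h5 : |((s : ℕ) : ℝ)| ≤ H := by rw [abs_of_nonneg (by positivity)]; exact h4
      exact (abs_add_le _ _).trans (add_le_add (hA a a.2) h5)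
    have h3 : Real.exp (Real.exp x) + H ≤ Real.exp (Real.exp x + H) := by
      rw [Real.exp_add]
      have h4 : 1 ≤ Real.exp (Real.exp x) := Real.one_le_exp (Real.exp_pos _).le
      have h5 := Real.add_one_le_exp (H : ℝ)
      nlinarith
    have h4 := Real.log_le_log (by positivity) (h1.trans (h2.trans h3))
    rw [Real.log_pow, Real.log_exp] at h4
    have h5 : (1 : ℝ) / 2 ≤ Real.log 2 := by
      have := Real.log_two_gt_d9
      linarith
    have h6 : (0 : ℝ) ≤ m.primeFactors.card := by positivity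
    nlinarith
  calc ((prm H D).card : ℝ) ≤ ∑ a ∈ D, ∑ s : Fin H,
        ((((a : ℤ) + ((s : ℕ) : ℤ)).natAbs.primeFactors.card : ℕ) : ℝ) := by
        unfold prm
        have h1 := card_biUnion_le (s := D) (t := fun a : A =>
          (univ : Finset (Fin H)).biUnion fun s : Fin H =>
            ((a : ℤ) + ((s : ℕ) : ℤ)).natAbs.primeFactors)
        have h2 : ∀ a ∈ D, ((univ : Finset (Fin H)).biUnion fun s : Fin H =>
            ((a : ℤ) + ((s : ℕ) : ℤ)).natAbs.primeFactors).card ≤
            ∑ s : Fin H, (((a : ℤ) + ((s : ℕ) : ℤ)).natAbs.primeFactors.card) :=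
          fun a _ => card_biUnion_le
        exact_mod_cast h1.trans (sum_le_sum h2)
    _ ≤ ∑ a ∈ D, ∑ _s : Fin H, 2 * (Real.exp x + H) :=
        sum_le_sum fun a _ => sum_le_sum fun s _ => key a s
    _ = D.card * H * (2 * (Real.exp x + H)) := by
        rw [sum_const, sum_const, card_univ, Fintype.card_fin, nsmul_eq_mul, nsmul_eq_mul]
        ring

/-- without popular primes: all sets at once -/
theorem every {ε : ℝ} (hε : 0 < ε) (hε1 : ε ≤ 1) {D : Finset A} (hD : Good H D)
    (hDn : D.Nonempty) (r : A → Fin H)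
    (hr : ∀ p : ℕ, p.Prime →
      (((perD D r).filter fun b => H.factorial.factorization p < fa b p).card : ℝ) ≤
        1 / Real.exp (18 / ε) * (perD D r).card)
    (C : Finset ℤ) (hC : C.Nonempty) (h0 : (0 : ℤ) ∉ C) :
    ((C.card : ℝ) * D.card) ^ (1 - ε) ≤ dQ H ^ 2 * ((C * perD D r).card : ℝ) := by
  obtain ⟨p0, p1, p2, p3⟩ := epsparams hε hε1
  set τ := 1 / Real.exp (18 / ε) with hτ
  set θ := 1 / Real.exp (18 / ε / 2) with hθ
  obtain ⟨R, hR0, hR1, hR2⟩ := family (κ := Unit) H.factorial (Nat.factorial_ne_zero H) C hC h0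
    univ (fun _ => perD D r) (fun _ _ => hDn.image _) (fun _ _ => hD.zero r) p0 p1 p2
    (p3.trans (by linarith)) le_rfl (fun p hp => by
      have : ((univ : Finset Unit).filter fun _ =>
        ¬ ((((perD D r).filter fun b => H.factorial.factorization p < fa b p).card : ℝ) ≤
          τ * (perD D r).card) ∧
        ¬ (((C.filter fun a => H.factorial.factorization p < fa a p).card : ℝ) ≤ τ * C.card)) =
          ∅ := by
        rw [filter_eq_empty_iff]
        intro _ _ h
        exact h.1 (hr p hp)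
      rw [this, card_empty, Nat.cast_zero])
  have hC1 : (1 : ℝ) ≤ C.card := by exact_mod_cast card_pos.2 hC
  have hD1 : (1 : ℝ) ≤ D.card := by exact_mod_cast card_pos.2 hDn
  have hκ0 : 0 ≤ 4 / Real.log (1 / θ) + τ / θ := by
    have : 0 ≤ Real.log (1 / θ) := Real.log_nonneg (by rw [le_div_iff₀ p1]; linarith)
    positivity
  have h1 := hR1 () (mem_univ _)
  rw [hD.card r] at h1
  have hpos : (0 : ℝ) < (C * perD D r).card := by
    exact_mod_cast card_pos.2 (hC.mul (hDn.image _))
  have hdq := dQ_ge H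
  have hRr : R () ≤ ε / 2 * Real.log C.card := by
    have h2 : R () ≤ 0 := by
      have := hR2
      rw [zero_mul] at this
      simpa using this
    have := Real.log_nonneg hC1
    nlinarith
  refine fin_bound hε hC1 hD1 hpos (by linarith) hκ0 p3 hRr ?_
  have : (1 - 4 / Real.log (1 / θ) - τ / θ) = 1 - (4 / Real.log (1 / θ) + τ / θ) := by ring
  rw [this] at h1
  exact h1

theorem pop_sub {D : Finset A} {τ : ℝ} (hτ : 0 ≤ τ) :
    (univ.filter fun r : A → Fin H => ∃ p : ℕ, p.Prime ∧ Pop D τ p r) ⊆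
      ((prm H D).filter fun p => p.Prime).biUnion fun p =>
        univ.filter fun r : A → Fin H => Pop D τ p r := by
  intro r hr
  obtain ⟨p, hp, h⟩ := (mem_filter.1 hr).2
  rw [mem_biUnion]
  refine ⟨p, mem_filter.2 ⟨?_, hp⟩, mem_filter.2 ⟨mem_univ _, h⟩⟩
  by_contra hcon
  apply h
  have h2 : ((perD D r).filter fun b => H.factorial.factorization p < fa b p) = ∅ := by
    rw [filter_eq_empty_iff]
    intro b hb hlt
    obtain ⟨a, ha, rfl⟩ := mem_image.1 hb
    apply hcon
    unfold prm
    rw [mem_biUnion]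
    refine ⟨a, ha, ?_⟩
    rw [mem_biUnion]
    refine ⟨r a, mem_univ _, ?_⟩
    have h3 : (((a : ℤ) + ((r a : ℕ) : ℤ)).natAbs).factorization p ≠ 0 := by
      unfold fa at hlt
      omega
    rw [← Nat.support_factorization]
    exact Finsupp.mem_support_iff.2 h3
  rw [h2, card_empty, Nat.cast_zero]
  positivity

theorem card_popular {D : Finset A} (hH : 0 < H) (hD : Good H D) {τ : ℝ} (hτ : 0 ≤ τ) :
    ((univ.filter fun r : A → Fin H => ∃ p : ℕ, p.Prime ∧ Pop D τ p r).card : ℝ) ≤
      ((prm H D).card * (2 * (H : ℝ) ^ (-τ)) ^ D.card) * (H : ℝ) ^ Fintype.card A := by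
  set K : ℝ := ((2 * (H : ℝ) ^ (-τ)) ^ D.card) * (H : ℝ) ^ Fintype.card A with hK
  have hK0 : 0 ≤ K := by positivity
  have h2 : ∀ p : ℕ, p.Prime →
      ((univ.filter fun r : A → Fin H => Pop D τ p r).card : ℝ) ≤ K :=
    fun p hp => of_fib D (fun r : A → Fin H => Pop D τ p r) hH fun r0 => popular hH hD r0 hp hτ
  have h1 := (card_le_card (pop_sub (H := H) (D := D) hτ)).trans card_biUnion_le
  have h3 : ((univ.filter fun r : A → Fin H => ∃ p : ℕ, p.Prime ∧ Pop D τ p r).card : ℝ) ≤
      ∑ p ∈ (prm H D).filter fun p => p.Prime,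
        ((univ.filter fun r : A → Fin H => Pop D τ p r).card : ℝ) := by
    rw [← Nat.cast_sum]
    exact Nat.cast_le.2 h1
  have h4 : (∑ p ∈ (prm H D).filter fun p => p.Prime,
        ((univ.filter fun r : A → Fin H => Pop D τ p r).card : ℝ)) ≤
      ∑ _p ∈ (prm H D).filter fun p => p.Prime, K :=
    sum_le_sum fun p hp => h2 p (mem_filter.1 hp).2
  rw [sum_const, nsmul_eq_mul] at h4
  have h5 : (((prm H D).filter fun p => p.Prime).card : ℝ) ≤ (prm H D).card :=
    Nat.cast_le.2 (card_filter_le _ _)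
  have h6 := mul_le_mul_of_nonneg_right h5 hK0
  have h7 : ((prm H D).card * (2 * (H : ℝ) ^ (-τ)) ^ D.card) * (H : ℝ) ^ Fintype.card A =
      (prm H D).card * K := by rw [hK]; ring
  rw [h7]
  exact h3.trans (h4.trans h6)

end Pool.Agent.Q126.SM
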