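import Pool.Agent.Q126.SM3

/-! Perturbed sets: the choice of the parameters. -/

set_option autoImplicit false

namespace Pool.Agent.Q126.SM

open Finset Pool.Agent.Y359.PE Q137.Shifts
open scoped Classical Pointwise

variable {A : Finset ℤ} {H : ℕ}

theorem q_le {ε : ℝ} (hH : Real.exp (17 * Real.exp (36 / ε)) ≤ H) :
    2 * (H : ℝ) ^ (-(1 / Real.exp (18 / (ε / 2)))) ≤ Real.exp (-16) := by
  have hH0 : (0 : ℝ) < H := lt_of_lt_of_le (Real.exp_pos _) hH
  have h1 : 18 / (ε / 2) = 36 / ε := by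
    rcases eq_or_ne ε 0 with h | h
    · rw [h]; simp
    · field_simp; norm_num
  rw [h1]
  have h2 : 17 * Real.exp (36 / ε) ≤ Real.log H := by
    rw [Real.le_log_iff_exp_le hH0]
    exact hH
  rw [Real.rpow_def_of_pos hH0]
  have h3 : Real.log H * -(1 / Real.exp (36 / ε)) ≤ -17 := by
    have h4 := Real.exp_pos (36 / ε)
    have h5 : 17 ≤ Real.log H / Real.exp (36 / ε) := by
      rw [le_div_iff₀ h4]
      exact h2
    have h6 : Real.log H * -(1 / Real.exp (36 / ε)) = -(Real.log H / Real.exp (36 / ε)) := by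
      ring
    rw [h6]
    linarith
  have h7 : (2 : ℝ) ≤ Real.exp 1 := by
    have := Real.add_one_le_exp (1 : ℝ)
    linarith
  calc 2 * Real.exp (Real.log H * -(1 / Real.exp (36 / ε))) ≤ Real.exp 1 * Real.exp (-17) :=
        mul_le_mul h7 (Real.exp_le_exp.2 h3) (Real.exp_pos _).le (Real.exp_pos _).le
    _ = Real.exp (-16) := by rw [← Real.exp_add]; norm_num

theorem pow_q {q x : ℝ} (hq0 : 0 ≤ q) (hq : q ≤ Real.exp (-16)) {k : ℕ} {y : ℝ}
    (hk : y ≤ 16 * k) (hx : x ≤ y) : q ^ k ≤ Real.exp (-x) := by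
  calc q ^ k ≤ (Real.exp (-16)) ^ k := pow_le_pow_left₀ hq0 hq k
    _ = Real.exp (k * (-16)) := (Real.exp_nat_mul _ _).symm
    _ ≤ Real.exp (-x) := Real.exp_le_exp.2 (by linarith)

/-- the first conversion -/
theorem conv1 {ε a b d h : ℝ} (hε : 0 < ε) (hε1 : ε ≤ 1) (ha : 1 ≤ a) (hb : 1 ≤ b) (hd : 1 ≤ d)
    (hh : 1 ≤ h) (had : a ≤ h * d) : (a * b) ^ (1 - ε) ≤ h * (b * d) ^ (1 - ε / 2) := by
  have hab : 1 ≤ a * b := by nlinarith
  calc (a * b) ^ (1 - ε) ≤ (a * b) ^ (1 - ε / 2) :=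
        Real.rpow_le_rpow_of_exponent_le hab (by linarith)
    _ ≤ (h * (b * d)) ^ (1 - ε / 2) :=
        Real.rpow_le_rpow (by positivity) (by nlinarith) (by linarith)
    _ = h ^ (1 - ε / 2) * (b * d) ^ (1 - ε / 2) := Real.mul_rpow (by positivity) (by positivity)
    _ ≤ h * (b * d) ^ (1 - ε / 2) := by
        refine mul_le_mul_of_nonneg_right ?_ (by positivity)
        calc h ^ (1 - ε / 2) ≤ h ^ (1 : ℝ) :=
              Real.rpow_le_rpow_of_exponent_le hh (by linarith)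
          _ = h := Real.rpow_one h

/-- the second conversion -/
theorem conv2 {ε a e h : ℝ} (_hε : 0 < ε) (hε1 : ε ≤ 1) (ha : 1 ≤ a) (he : 1 ≤ e) (hh : 1 ≤ h)
    (hae : a ^ 2 ≤ h * e) : a ^ (2 - ε) ≤ h * e ^ (1 - ε / 2) := by
  have h1 : a ^ (2 - ε) = (a ^ 2) ^ (1 - ε / 2) := by
    rw [← Real.rpow_natCast a 2, ← Real.rpow_mul (by linarith)]
    congr 1
    push_cast
    ring
  rw [h1]
  calc (a ^ 2) ^ (1 - ε / 2) ≤ (h * e) ^ (1 - ε / 2) :=
        Real.rpow_le_rpow (by positivity) hae (by linarith)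
    _ = h ^ (1 - ε / 2) * e ^ (1 - ε / 2) := Real.mul_rpow (by positivity) (by positivity)
    _ ≤ h * e ^ (1 - ε / 2) := by
        refine mul_le_mul_of_nonneg_right ?_ (by positivity)
        calc h ^ (1 - ε / 2) ≤ h ^ (1 : ℝ) :=
              Real.rpow_le_rpow_of_exponent_le hh (by linarith)
          _ = h := Real.rpow_one h

/-- the constant -/
noncomputable def cc (H : ℕ) : ℝ := 1 / (32 * (H : ℝ) ^ 2 * dQ H ^ 2)

theorem cc_pos (hH : 0 < H) : 0 < cc H := by
  have h1 := dQ_ge H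
  have h2 : (0 : ℝ) < H := by exact_mod_cast hH
  unfold cc
  positivity

theorem cc_use (hH : 0 < H) {g X Y Z : ℝ} (hg : 0 ≤ g) (hg1 : g ≤ 32 * (H : ℝ) ^ 2)
    (h1 : X ≤ g * Y) (h2 : Y ≤ dQ H ^ 2 * Z) (hZ : 0 ≤ Z) : cc H * X ≤ Z := by
  have h3 := dQ_ge H
  have h4 : (0 : ℝ) < H := by exact_mod_cast hH
  have h5 : X ≤ 32 * (H : ℝ) ^ 2 * (dQ H ^ 2 * Z) := by
    calc X ≤ g * Y := h1
      _ ≤ g * (dQ H ^ 2 * Z) := mul_le_mul_of_nonneg_left h2 hg
      _ ≤ 32 * (H : ℝ) ^ 2 * (dQ H ^ 2 * Z) := mul_le_mul_of_nonneg_right hg1 (by positivity)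
  unfold cc
  rw [div_mul_eq_mul_div, one_mul, div_le_iff₀ (by positivity)]
  linarith

section main

variable {ε : ℝ} (hε : 0 < ε) (hε1 : ε ≤ 1) (hH : Real.exp (17 * Real.exp (36 / ε)) ≤ H)
  (hn : ((H : ℝ) + 4 / ε + 4) * H ≤ A.card)

include hε hε1 hH hn

theorem sizes : 0 < H ∧ ((H : ℝ) + 4 / ε + 4) ≤ (A.card : ℝ) / H ∧
    ∃ D : Finset A, Good H D ∧ (A.card : ℝ) / H - 1 ≤ D.card ∧ 4 ≤ D.card ∧
      (A.card : ℝ) ≤ 2 * H * D.card ∧ D.card ≤ A.card := by
  have hH0 : (0 : ℝ) < H := lt_of_lt_of_le (Real.exp_pos _) hH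
  have hHn : 0 < H := by exact_mod_cast hH0
  have h1 : ((H : ℝ) + 4 / ε + 4) ≤ (A.card : ℝ) / H := by
    rw [le_div_iff₀ hH0]
    exact hn
  have h4ε : 4 ≤ 4 / ε := by
    rw [le_div_iff₀ hε]
    linarith
  refine ⟨hHn, h1, ?_⟩
  obtain ⟨D, hD, hc⟩ := exists_good A hHn
  have h2 : (A.card : ℝ) ≤ H * (D.card + 1) := by exact_mod_cast hc
  have h3 : (A.card : ℝ) / H ≤ D.card + 1 := by
    rw [div_le_iff₀ hH0]
    linarith
  have h4 : (7 : ℝ) ≤ D.card := by linarith
  refine ⟨D, hD, by linarith, ?_, ?_, ?_⟩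
  · have : (4 : ℝ) ≤ D.card := by linarith
    exact_mod_cast this
  · nlinarith
  · have := card_le_univ D
    rwa [Fintype.card_coe] at this

theorem part1 (C : Finset ℤ) (hC : C.Nonempty) (h0 : (0 : ℤ) ∉ C) :
    ((univ.filter fun r : A → Fin H =>
      ((per A r * C).card : ℝ) < cc H * ((A.card : ℝ) * C.card) ^ (1 - ε)).card : ℝ) ≤
      Real.exp (-((A.card : ℝ) / H)) * (H : ℝ) ^ A.card := by
  obtain ⟨hHn, hx, D, hD, hD1, hD4, hD2, -⟩ := sizes hε hε1 hH hn
  have hDn : D.Nonempty := card_pos.1 (by omega)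
  set x := (A.card : ℝ) / H with hxd
  have hH1 : (1 : ℝ) ≤ H := by exact_mod_cast hHn
  have h4ε : 4 ≤ 4 / ε := by
    rw [le_div_iff₀ hε]
    linarith
  have h1 := of_fib D (fun r : A → Fin H => dQ H ^ 2 * ((C * perD D r).card : ℝ) <
      ((C.card : ℝ) * D.card) ^ (1 - ε / 2)) hHn
    (fun r0 => fiber (ε := ε / 2) (by linarith) (by linarith) hHn C hC h0 hD hDn r0)
  rw [Fintype.card_coe] at h1
  have hsub : (univ.filter fun r : A → Fin H =>
      ((per A r * C).card : ℝ) < cc H * ((A.card : ℝ) * C.card) ^ (1 - ε)) ⊆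
      (univ.filter fun r : A → Fin H => dQ H ^ 2 * ((C * perD D r).card : ℝ) <
      ((C.card : ℝ) * D.card) ^ (1 - ε / 2)) := by
    intro r hr
    rw [mem_filter] at hr ⊢
    refine ⟨hr.1, ?_⟩
    by_contra hcon
    push Not at hcon
    have hA1 : (1 : ℝ) ≤ A.card := by
      have : (1 : ℝ) ≤ x := by linarith
      rw [hxd, le_div_iff₀ (by linarith)] at this
      linarith
    have hC1 : (1 : ℝ) ≤ C.card := by exact_mod_cast card_pos.2 hC
    have hDr : (1 : ℝ) ≤ D.card := by exact_mod_cast card_pos.2 hDn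
    have h2 := conv1 hε hε1 hA1 hC1 hDr (h := 2 * H) (by linarith) hD2
    have h3 := cc_use hHn (by positivity) (by nlinarith) h2 hcon (by positivity)
    have h4 : ((C * perD D r).card : ℝ) ≤ (per A r * C).card := by
      rw [mul_comm]
      exact_mod_cast card_le_card (mul_subset_mul_right (perD_subset D r))
    linarith [hr.2]
  have hcard := card_le_card hsub
  have hcard' : ((univ.filter fun r : A → Fin H =>
      ((per A r * C).card : ℝ) < cc H * ((A.card : ℝ) * C.card) ^ (1 - ε)).card : ℝ) ≤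
      ((univ.filter fun r : A → Fin H => dQ H ^ 2 * ((C * perD D r).card : ℝ) <
      ((C.card : ℝ) * D.card) ^ (1 - ε / 2)).card : ℝ) := Nat.cast_le.2 hcard
  refine (hcard'.trans h1).trans (mul_le_mul_of_nonneg_right ?_ (by positivity))
  have h5 : (2 * (H : ℝ) ^ (-(1 / Real.exp (18 / (ε / 2))))) ^ D.card ≤ Real.exp (-(4 * x)) :=
    pow_q (by positivity) (q_le hH) (y := 4 * x) (by nlinarith) le_rfl
  have h6 : 2 / (ε / 2) = 4 / ε := by field_simp; norm_num
  rw [h6]
  have h7 : 4 / ε ≤ Real.exp x := by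
    have := Real.add_one_le_exp x
    linarith
  calc 4 / ε * (2 * (H : ℝ) ^ (-(1 / Real.exp (18 / (ε / 2))))) ^ D.card ≤
        Real.exp x * Real.exp (-(4 * x)) := mul_le_mul h7 h5 (by positivity) (Real.exp_pos _).le
    _ = Real.exp (x + -(4 * x)) := (Real.exp_add _ _).symm
    _ ≤ Real.exp (-x) := Real.exp_le_exp.2 (by linarith)

theorem part2 :
    ((univ.filter fun r : A → Fin H =>
      ((per A r * per A r).card : ℝ) < cc H * (A.card : ℝ) ^ (2 - ε)).card : ℝ) ≤
      Real.exp (-((A.card : ℝ) / H)) * (H : ℝ) ^ A.card := by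
  obtain ⟨hHn, hx, D, hD, hD1, hD4, hD2, -⟩ := sizes hε hε1 hH hn
  set x := (A.card : ℝ) / H with hxd
  have hH1 : (1 : ℝ) ≤ H := by exact_mod_cast hHn
  have h4ε : 4 ≤ 4 / ε := by
    rw [le_div_iff₀ hε]
    linarith
  obtain ⟨D1, hD1s, hD1c⟩ := exists_subset_card_eq (show D.card / 2 ≤ D.card by omega)
  set D2 := D \ D1 with hD2d
  have hD2s : D2 ⊆ D := sdiff_subset
  have hD2c : D2.card = D.card - D.card / 2 := by
    rw [hD2d, card_sdiff_of_subset hD1s, hD1c]
  have hD1n : D1.Nonempty := card_pos.1 (by omega)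
  have hD2n : D2.Nonempty := card_pos.1 (by omega)
  have hG1 := hD.mono hD1s
  have hG2 := hD.mono hD2s
  have hsame : ∀ r0 r : A → Fin H, r ∈ fib D1 r0 → perD D2 r = perD D2 r0 := by
    intro r0 r hr
    rw [mem_fib] at hr
    unfold perD
    refine image_congr fun a ha => ?_
    have ha' : a ∉ D1 := (mem_sdiff.1 (mem_coe.1 ha)).2
    show (a : ℤ) + ((r a : ℕ) : ℤ) = (a : ℤ) + ((r0 a : ℕ) : ℤ)
    rw [hr a ha']
  have h1 := of_fib D1 (fun r : A → Fin H => dQ H ^ 2 * ((perD D2 r * perD D1 r).card : ℝ) <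
      ((D2.card : ℝ) * D1.card) ^ (1 - ε / 2)) hHn (fun r0 => by
    have h2 := fiber (ε := ε / 2) (by linarith) (by linarith) hHn (perD D2 r0)
      (hD2n.image _) (hG2.zero r0) hG1 hD1n r0
    rw [hG2.card r0] at h2
    refine le_trans ?_ h2
    refine Nat.cast_le.2 (card_le_card fun r hr => ?_)
    rw [mem_filter] at hr ⊢
    refine ⟨hr.1, ?_⟩
    rw [← hsame r0 r hr.1]
    exact hr.2)
  rw [Fintype.card_coe] at h1
  have hsub : (univ.filter fun r : A → Fin H =>
      ((per A r * per A r).card : ℝ) < cc H * (A.card : ℝ) ^ (2 - ε)) ⊆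
      (univ.filter fun r : A → Fin H => dQ H ^ 2 * ((perD D2 r * perD D1 r).card : ℝ) <
      ((D2.card : ℝ) * D1.card) ^ (1 - ε / 2)) := by
    intro r hr
    rw [mem_filter] at hr ⊢
    refine ⟨hr.1, ?_⟩
    by_contra hcon
    push Not at hcon
    have hA1 : (1 : ℝ) ≤ A.card := by
      have : (1 : ℝ) ≤ x := by linarith
      rw [hxd, le_div_iff₀ (by linarith)] at this
      linarith
    have hc1 : (1 : ℝ) ≤ D1.card := by exact_mod_cast card_pos.2 hD1n
    have hc2 : (1 : ℝ) ≤ D2.card := by exact_mod_cast card_pos.2 hD2n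
    have e1 : (D.card : ℝ) ≤ 4 * D1.card := by
      have : D.card ≤ 4 * D1.card := by omega
      exact_mod_cast this
    have e2 : (D.card : ℝ) ≤ 2 * D2.card := by
      have : D.card ≤ 2 * D2.card := by omega
      exact_mod_cast this
    have e3 : (A.card : ℝ) ^ 2 ≤ 32 * (H : ℝ) ^ 2 * ((D2.card : ℝ) * D1.card) := by
      have f1 : (A.card : ℝ) ^ 2 ≤ (2 * H * D.card) ^ 2 :=
        pow_le_pow_left₀ (by positivity) hD2 2
      have f2 : (D.card : ℝ) * D.card ≤ 4 * D1.card * (2 * D2.card) :=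
        mul_le_mul e1 e2 (by positivity) (by positivity)
      nlinarith [mul_nonneg (sq_nonneg (H : ℝ)) (sub_nonneg.2 f2)]
    have h2 := conv2 hε hε1 hA1 (e := (D2.card : ℝ) * D1.card) (by nlinarith)
      (h := 32 * (H : ℝ) ^ 2) (by nlinarith) e3
    have h3 := cc_use hHn (by positivity) le_rfl h2 hcon (by positivity)
    have h4 : ((perD D2 r * perD D1 r).card : ℝ) ≤ (per A r * per A r).card :=
      Nat.cast_le.2 (card_le_card (mul_subset_mul (perD_subset D2 r) (perD_subset D1 r)))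
    linarith [hr.2]
  have hcard' : ((univ.filter fun r : A → Fin H =>
      ((per A r * per A r).card : ℝ) < cc H * (A.card : ℝ) ^ (2 - ε)).card : ℝ) ≤
      ((univ.filter fun r : A → Fin H => dQ H ^ 2 * ((perD D2 r * perD D1 r).card : ℝ) <
      ((D2.card : ℝ) * D1.card) ^ (1 - ε / 2)).card : ℝ) := Nat.cast_le.2 (card_le_card hsub)
  refine (hcard'.trans h1).trans (mul_le_mul_of_nonneg_right ?_ (by positivity))
  have hk : 4 * x ≤ 16 * (D1.card : ℝ) := by
    have : D.card ≤ 2 * D1.card + 1 := by omega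
    have : (D.card : ℝ) ≤ 2 * D1.card + 1 := by exact_mod_cast this
    linarith
  have h5 : (2 * (H : ℝ) ^ (-(1 / Real.exp (18 / (ε / 2))))) ^ D1.card ≤ Real.exp (-(4 * x)) :=
    pow_q (by positivity) (q_le hH) hk le_rfl
  have h6 : 2 / (ε / 2) = 4 / ε := by field_simp; norm_num
  rw [h6]
  have h7 : 4 / ε ≤ Real.exp x := by
    have := Real.add_one_le_exp x
    linarith
  calc 4 / ε * (2 * (H : ℝ) ^ (-(1 / Real.exp (18 / (ε / 2))))) ^ D1.card ≤
        Real.exp x * Real.exp (-(4 * x)) := mul_le_mul h7 h5 (by positivity) (Real.exp_pos _).le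
    _ = Real.exp (x + -(4 * x)) := (Real.exp_add _ _).symm
    _ ≤ Real.exp (-x) := Real.exp_le_exp.2 (by linarith)

theorem part3 (hA : ∀ a ∈ A, |(a : ℝ)| ≤ Real.exp (Real.exp ((A.card : ℝ) / H))) :
    ((univ.filter fun r : A → Fin H => ∃ C : Finset ℤ, C.Nonempty ∧ (0 : ℤ) ∉ C ∧
      ((per A r * C).card : ℝ) < cc H * ((A.card : ℝ) * C.card) ^ (1 - ε)).card : ℝ) ≤
      Real.exp (-((A.card : ℝ) / H)) * (H : ℝ) ^ A.card := by
  obtain ⟨hHn, hx, D, hD, hD1, hD4, hD2, hDA⟩ := sizes hε hε1 hH hn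
  have hDn : D.Nonempty := card_pos.1 (by omega)
  set x := (A.card : ℝ) / H with hxd
  have hH1 : (1 : ℝ) ≤ H := by exact_mod_cast hHn
  have h4ε : 4 ≤ 4 / ε := by
    rw [le_div_iff₀ hε]
    linarith
  have h1 := card_popular hHn hD (τ := 1 / Real.exp (18 / (ε / 2))) (by positivity)
  rw [Fintype.card_coe] at h1
  have hsub : (univ.filter fun r : A → Fin H => ∃ C : Finset ℤ, C.Nonempty ∧ (0 : ℤ) ∉ C ∧
      ((per A r * C).card : ℝ) < cc H * ((A.card : ℝ) * C.card) ^ (1 - ε)) ⊆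
      (univ.filter fun r : A → Fin H => ∃ p : ℕ, p.Prime ∧
        Pop D (1 / Real.exp (18 / (ε / 2))) p r) := by
    intro r hr
    obtain ⟨-, C, hC, h0, hlt⟩ := mem_filter.1 hr
    rw [mem_filter]
    refine ⟨mem_univ _, ?_⟩
    by_contra hcon
    push Not at hcon
    have hcon' := every (ε := ε / 2) (by linarith) (by linarith) hD hDn r (fun p hp => by
      have := hcon p hp
      unfold Pop at this
      exact not_not.1 this) C hC h0
    have hA1 : (1 : ℝ) ≤ A.card := by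
      have : (1 : ℝ) ≤ x := by linarith
      rw [hxd, le_div_iff₀ (by linarith)] at this
      linarith
    have hC1 : (1 : ℝ) ≤ C.card := by exact_mod_cast card_pos.2 hC
    have hDr : (1 : ℝ) ≤ D.card := by exact_mod_cast card_pos.2 hDn
    have h2 := conv1 hε hε1 hA1 hC1 hDr (h := 2 * H) (by linarith) hD2
    have h3 := cc_use hHn (by positivity) (by nlinarith) h2 hcon' (by positivity)
    have h4 : ((C * perD D r).card : ℝ) ≤ (per A r * C).card := by
      rw [mul_comm]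
      exact_mod_cast card_le_card (mul_subset_mul_right (perD_subset D r))
    linarith
  refine ((Nat.cast_le.2 (card_le_card hsub)).trans h1).trans
    (mul_le_mul_of_nonneg_right ?_ (by positivity))
  have h5 : (2 * (H : ℝ) ^ (-(1 / Real.exp (18 / (ε / 2))))) ^ D.card ≤ Real.exp (-(12 * x)) :=
    pow_q (by positivity) (q_le hH) (y := 12 * x) (by linarith) le_rfl
  have h6 := card_prm (D := D) (x := x) hHn hA
  have ex := Real.add_one_le_exp x
  have hHx : (H : ℝ) ≤ Real.exp x := by linarith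
  have hAx : (D.card : ℝ) ≤ Real.exp x * Real.exp x := by
    have e1 : (A.card : ℝ) = x * H := by
      rw [hxd]
      field_simp
    have e2 : (D.card : ℝ) ≤ A.card := by exact_mod_cast hDA
    calc (D.card : ℝ) ≤ x * H := by linarith
      _ ≤ Real.exp x * Real.exp x := mul_le_mul (by linarith) hHx (by linarith) (Real.exp_pos _).le
  have h7 : ((prm H D).card : ℝ) ≤ Real.exp (6 * x) := by
    have e1 : (D.card : ℝ) * H ≤ Real.exp x * Real.exp x * Real.exp x :=
      mul_le_mul hAx hHx (by linarith) (by positivity)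
    have e2 : 2 * (Real.exp x + H) ≤ 4 * Real.exp x := by linarith
    have e3 : (4 : ℝ) ≤ Real.exp x * Real.exp x := by nlinarith
    calc ((prm H D).card : ℝ) ≤ D.card * H * (2 * (Real.exp x + H)) := h6
      _ ≤ Real.exp x * Real.exp x * Real.exp x * (4 * Real.exp x) :=
          mul_le_mul e1 e2 (by positivity) (by positivity)
      _ ≤ Real.exp x * Real.exp x * Real.exp x * (Real.exp x * Real.exp x * Real.exp x) := by
          refine mul_le_mul_of_nonneg_left ?_ (by positivity)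
          exact mul_le_mul_of_nonneg_right e3 (Real.exp_pos _).le
      _ = Real.exp (6 * x) := by
          rw [← Real.exp_add, ← Real.exp_add, ← Real.exp_add]
          congr 1
          ring
  calc ((prm H D).card : ℝ) * (2 * (H : ℝ) ^ (-(1 / Real.exp (18 / (ε / 2))))) ^ D.card ≤
        Real.exp (6 * x) * Real.exp (-(12 * x)) :=
          mul_le_mul h7 h5 (by positivity) (Real.exp_pos _).le
    _ = Real.exp (6 * x + -(12 * x)) := (Real.exp_add _ _).symm
    _ ≤ Real.exp (-x) := Real.exp_le_exp.2 (by linarith)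

end main

end Pool.Agent.Q126.SM
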